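import Pool.Agent.Lib_MP_1209e6_ab.N2
import Pool.Agent.Lib_MP_1209e6_sk.Z7
import Pool.Agent.Lib_MP_1209e6_tw.C7

/-! PIECE A5: representatives, change of chart. -/

set_option autoImplicit false

open Filter Topology

namespace Pool.Agent.AbPencil

open Pool.Agent.AbFib

/-- Proof. As `fibre_of_rel` (`sk/Z7`) and `lift_ne` (`ab/Main2`): multiply the meromorphic tuple `Q` (`Q · 0 = 1` near `z₀` by the relation
`x_0 / x_0 = 1`) by a power of `z - z₀` such that it becomes analytic and nonzero at `z₀`. -/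
theorem local_rep {L : Type} [Field L] [Algebra ℂ L] {n N : ℕ} (t : Fin n → L)
    (x : Fin (N + 1) → L) (hx : ∀ l, x l ≠ 0) (z₀ : ℂ) (U : ℂ → Fin n → ℂ)
    (Q : ℂ → Fin (N + 1) → ℂ) (hQ : ∀ l, MeromorphicAt (fun z => Q z l) z₀)
    (h : Rel z₀ (co t x 0) fun z => Sum.elim (U z) (Q z)) :
    ∃ V : ℂ → Fin (N + 1) → ℂ, AnalyticAt ℂ V z₀ ∧ V z₀ ≠ 0 ∧
      ∀ᶠ z in 𝓝[≠] z₀, V z ∈ Fibre t x (U z) ∧ V z 0 ≠ 0 ∧ ∀ l, Q z l = V z l / V z 0 := by
  classical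
  have h0 : ∀ᶠ z in 𝓝[≠] z₀, Q z 0 = 1 := by
    have h1 := h (MvPolynomial.X (Sum.inr 0) - 1) (by simp [co, hx 0])
    filter_upwards [h1] with z hz
    simpa [sub_eq_zero] using hz
  choose m hm using hQ
  set M := Finset.univ.sup m with hM
  have hMl : ∀ l, AnalyticAt ℂ (fun w => (w - z₀) ^ M • Q w l) z₀ := by
    intro l
    have hle : m l ≤ M := Finset.le_sup (Finset.mem_univ l)
    have h1 : AnalyticAt ℂ (fun w => (w - z₀) ^ (M - m l) • ((w - z₀) ^ m l • Q w l)) z₀ :=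
      ((analyticAt_id.sub analyticAt_const).pow _).smul (hm l)
    refine h1.congr (Eventually.of_forall fun w => ?_)
    change (w - z₀) ^ (M - m l) • (w - z₀) ^ m l • Q w l = (w - z₀) ^ M • Q w l
    rw [smul_smul, ← pow_add, Nat.sub_add_cancel hle]
  have hv : AnalyticAt ℂ (fun w l => (w - z₀) ^ M • Q w l) z₀ := analyticAt_pi_iff.2 hMl
  have hne : ¬ ∀ᶠ z in 𝓝 z₀, (fun l => (z - z₀) ^ M • Q z l) = (0 : Fin (N + 1) → ℂ) := by
    intro h1
    obtain ⟨z, h2, h3, h4⟩ :=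
      (h0.and ((h1.filter_mono nhdsWithin_le_nhds).and self_mem_nhdsWithin)).exists
    have h6 : (z - z₀) ^ M • Q z 0 = 0 := congrFun h3 0
    rw [h2, smul_eq_mul, mul_one] at h6
    exact pow_ne_zero _ (sub_ne_zero.2 h4) h6
  obtain ⟨k, V, hV, hV0, hVv⟩ := hv.exists_eventuallyEq_pow_smul_nonzero_iff.2 hne
  refine ⟨V, hV, hV0, ?_⟩
  filter_upwards [rel_uniform h, h0, hVv.filter_mono nhdsWithin_le_nhds, self_mem_nhdsWithin]
    with z hz hz0 hzv hne'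
  have hpk : (z - z₀) ^ k ≠ 0 := pow_ne_zero _ (sub_ne_zero.2 hne')
  have hpM : (z - z₀) ^ M ≠ 0 := pow_ne_zero _ (sub_ne_zero.2 hne')
  set c : ℂ := ((z - z₀) ^ k)⁻¹ * (z - z₀) ^ M with hc
  have hc0 : c ≠ 0 := mul_ne_zero (inv_ne_zero hpk) hpM
  have hVc : V z = c • Q z := by
    have h1 : (z - z₀) ^ M • Q z = (z - z₀) ^ k • V z := hzv
    rw [hc, mul_smul, h1, smul_smul, inv_mul_cancel₀ hpk, one_smul]
  have hQ0 : Q z 0 ≠ 0 := by rw [hz0]; exact one_ne_zero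
  have hQfib : Q z ∈ Fibre t x (U z) := by
    refine ⟨fun h1 => hQ0 (by rw [h1]; rfl), fun j' hj' p hp' => ?_⟩
    obtain ⟨p', d, hd⟩ := change_chart p j' 0
    have h1 := hd t x (hx 0)
    rw [hp', mul_zero] at h1
    have h2 := hz p' h1
    rw [← Fam.co_self 0 (U z) (Q z) hz0, hd (U z) (Q z) hQ0] at h2
    exact (mul_eq_zero.1 h2).resolve_left (pow_ne_zero _ (div_ne_zero hj' hQ0))
  rw [hVc]
  refine ⟨⟨smul_ne_zero hc0 hQfib.1, fun j hj p hp => ?_⟩, ?_, fun l => ?_⟩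
  · have h3 : co (U z) (c • Q z) j = co (U z) (Q z) j := Fam.co_smul j _ _ hc0
    have h4 : Q z j ≠ 0 := by
      intro h5
      apply hj
      rw [Pi.smul_apply, h5, smul_zero]
    have h5 := hQfib.2 j h4 p hp
    rw [← h3] at h5
    exact h5
  · rw [Pi.smul_apply, smul_eq_mul]
    exact mul_ne_zero hc0 hQ0
  · rw [Pi.smul_apply, Pi.smul_apply, smul_eq_mul, smul_eq_mul, hz0, mul_one,
      mul_div_cancel_left₀ _ hc0]

/-- Proof. Take `j` with `v z₀ j ≠ 0`. `V l / V 0 = (V l / V j) / (V 0 / V j)`: apply `tw_perturb_div` to `p = X l`, `s = X 0` and the functions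
`v · l / v · j`, for all `l`. -/
theorem close_transfer {N : ℕ} (z₀ : ℂ) (v : ℂ → Fin (N + 1) → ℂ) (hv : AnalyticAt ℂ v z₀)
    (hv0 : v z₀ ≠ 0) (h0 : ∀ᶠ w in 𝓝[≠] z₀, v w 0 ≠ 0) (Λ : ℤ) :
    ∃ k : ℕ, ∀ V : ℂ → Fin (N + 1) → ℂ, AnalyticAt ℂ V z₀ →
      (∀ j, v z₀ j ≠ 0 → V z₀ j ≠ 0 ∧ ∀ l, (((k : ℕ) : ℤ) : WithTop ℤ) ≤
        meromorphicOrderAt (fun w => V w l / V w j - v w l / v w j) z₀) →
      ∀ l, (Λ : WithTop ℤ) ≤ meromorphicOrderAt (fun w => V w l / V w 0 - v w l / v w 0) z₀ := by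
  classical
  obtain ⟨j, hj⟩ : ∃ j, v z₀ j ≠ 0 := by
    by_contra hcon
    exact hv0 (funext fun j => by
      by_contra h1
      exact hcon ⟨j, h1⟩)
  have hvl : ∀ l, AnalyticAt ℂ (fun w => v w l) z₀ := analyticAt_pi_iff.1 hv
  have hjn : ∀ᶠ w in 𝓝[≠] z₀, v w j ≠ 0 :=
    ((hvl j).continuousAt.eventually_ne hj).filter_mono nhdsWithin_le_nhds
  have hF : ∀ i, MeromorphicAt (fun w => v w i / v w j) z₀ := fun i =>
    (hvl i).meromorphicAt.div (hvl j).meromorphicAt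
  have hs : ∀ᶠ w in 𝓝[≠] z₀, MvPolynomial.aeval (fun i => v w i / v w j)
      (MvPolynomial.X 0 : MvPolynomial (Fin (N + 1)) ℂ) ≠ 0 := by
    filter_upwards [h0, hjn] with w h1 h2
    rw [MvPolynomial.aeval_X]
    exact div_ne_zero h1 h2
  have key := fun l : Fin (N + 1) => tw_perturb_div (MvPolynomial.X l) (MvPolynomial.X 0) z₀
    (fun w i => v w i / v w j) hF hs Λ
  choose L hL using key
  refine ⟨Finset.univ.sup fun l => (L l).toNat, fun V hV hVj l => ?_⟩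
  obtain ⟨hVj0, hVl⟩ := hVj j hj
  have hVa : ∀ l, AnalyticAt ℂ (fun w => V w l) z₀ := analyticAt_pi_iff.1 hV
  have hle : L l ≤ (((Finset.univ.sup fun l => (L l).toNat : ℕ)) : ℤ) := by
    refine (Int.self_le_toNat _).trans ?_
    exact_mod_cast Finset.le_sup (f := fun l => (L l).toNat) (Finset.mem_univ l)
  have h1 := (hL l (fun w i => V w i / V w j)
    (fun i => (hVa i).meromorphicAt.div (hVa j).meromorphicAt)
    (fun i => le_trans (by exact_mod_cast hle) (hVl i))).2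
  refine h1.trans (le_of_eq (meromorphicOrderAt_congr ?_))
  filter_upwards [hjn, ((hVa j).continuousAt.eventually_ne hVj0).filter_mono nhdsWithin_le_nhds]
    with w h2 h3
  simp only [MvPolynomial.aeval_X]
  rw [div_div_div_cancel_right₀ h3, div_div_div_cancel_right₀ h2]

end Pool.Agent.AbPencil
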