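import Pool.Agent.Lib_MP_1209e6_tv.A4
import Pool.Agent.Lib_MP_1209e6_tv.A5
import Pool.Agent.Lib_MP_1209e6_ab.K3

/-! PIECE A6: curves in abelian fibrations with given jets. -/

set_option autoImplicit false

open Filter Topology

namespace Pool.Agent.AbPencil

open Pool.Agent.Campana Pool.Agent.CampanaFlow Pool.Agent.AbFib

/-- a meromorphic function on the plane which is not zero near one point is nonzero near each point -/
private theorem A6_mer {f : ℂ → ℂ} (hf : ∀ z, MeromorphicAt f z) {z₁ : ℂ}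
    (h : ¬ ∀ᶠ w in 𝓝[≠] z₁, f w = 0) (z₀ : ℂ) : ∀ᶠ w in 𝓝[≠] z₀, f w ≠ 0 := by
  have h1 : meromorphicOrderAt f z₁ ≠ ⊤ := fun h0 => h (meromorphicOrderAt_eq_top_iff.1 h0)
  have hon : MeromorphicOn f Set.univ := fun z _ => hf z
  have h2 := (hon.exists_meromorphicOrderAt_ne_top_iff_forall isConnected_univ).1
    ⟨⟨z₁, Set.mem_univ _⟩, h1⟩ ⟨z₀, Set.mem_univ _⟩
  exact (meromorphicOrderAt_ne_top_iff_eventually_ne_zero (hf z₀)).1 h2

/-- polynomials in meromorphic functions -/
private theorem A6_poly {σ : Type} {g : ℂ → σ → ℂ} {z : ℂ}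
    (hg : ∀ s, MeromorphicAt (fun w => g w s) z) (p : MvPolynomial σ ℂ) :
    MeromorphicAt (fun w => MvPolynomial.aeval (g w) p) z := by
  induction p using MvPolynomial.induction_on with
  | C a =>
    simp only [MvPolynomial.aeval_C]
    exact MeromorphicAt.const _ _
  | add p q hp hq =>
    simp only [map_add]
    exact hp.add hq
  | mul_X p s hp =>
    simp only [map_mul, MvPolynomial.aeval_X]
    exact hp.mul (hg s)

/-- polynomials in continuous functions -/
private theorem A6_cont {σ : Type} {g : ℂ → σ → ℂ} {z : ℂ}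
    (hg : ∀ s, ContinuousAt (fun w => g w s) z) (p : MvPolynomial σ ℂ) :
    ContinuousAt (fun w => MvPolynomial.aeval (g w) p) z := by
  induction p using MvPolynomial.induction_on with
  | C a =>
    simp only [MvPolynomial.aeval_C]
    exact continuousAt_const
  | add p q hp hq =>
    simp only [map_add]
    exact hp.add hq
  | mul_X p s hp =>
    simp only [map_mul, MvPolynomial.aeval_X]
    exact hp.mul (hg s)

private theorem A6_jE {K : Type} [Field K] [Algebra ℂ K] {σ : Type} (f : σ → K)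
    (p : MvPolynomial σ ℂ) :
    MvPolynomial.aeval (fun s => jE K (f s)) p = jE K (MvPolynomial.aeval f p) := by
  have h := MvPolynomial.comp_aeval_apply (B := KE K) f (jE K) p
  exact h.symm

private theorem A6_vE {K : Type} [Field K] [Algebra ℂ K] : vE K ≠ 0 := by
  have h := eval₂_vE_ne K (p := Polynomial.X) Polynomial.X_ne_zero
  rwa [Polynomial.eval₂_X] at h

/-- the homogenized relation at the generic point -/
private theorem A6_homog {K : Type} [Field K] [Algebra ℂ K] {n N : ℕ} (t : Fin n → K)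
    (x : Fin (N + 1) → K) (p : MvPolynomial (Fin n ⊕ Fin (N + 1)) ℂ)
    (hp : MvPolynomial.aeval (co t x 0) p ≠ 0) :
    ∃ (p' : MvPolynomial (Fin (n + 1) ⊕ Fin (N + 1)) ℂ) (d : ℕ),
      MvPolynomial.aeval (co (tC t) (xC x) 0) (p' * MvPolynomial.X (Sum.inl 0)) ≠ 0 ∧
      ∀ (U : Fin (n + 1) → ℂ) (u : Fin n → ℂ) (y : Fin (N + 1) → ℂ),
        (∀ a : Fin n, U a.succ = U 0 * u a) →
        MvPolynomial.aeval (Sum.elim U y) p' = U 0 ^ d * MvPolynomial.aeval (Sum.elim u y) p := by
  obtain ⟨p', d, h⟩ := homog_cone p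
  refine ⟨p', d, ?_, fun U u y hU => ?_⟩
  · have hco : co (tC t) (xC x) 0 =
        Sum.elim (cone (vE K) fun a => jE K (t a)) fun l => jE K (x l / x 0) := by
      unfold co tC xC
      congr 1
      funext l
      rw [map_div₀]
    have hcoj : (Sum.elim (fun a => jE K (t a)) fun l => jE K (x l / x 0)) =
        fun s => jE K (co t x 0 s) := by
      funext s
      rcases s with a | l <;> rfl
    rw [map_mul, MvPolynomial.aeval_X, hco, h, hcoj, A6_jE]
    refine mul_ne_zero (mul_ne_zero (pow_ne_zero _ A6_vE) ?_) ?_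
    · intro h0
      exact hp ((jE K).toRingHom.injective (h0.trans (map_zero _).symm))
    · exact A6_vE
  · have h1 : U = cone (U 0) u := by
      funext a
      refine Fin.cases ?_ (fun a => ?_) a
      · rfl
      · exact hU a
    have h2 := h (U 0) u y
    rw [← h1] at h2
    exact h2

/-- Proof. `local_rep` gives `v z` for `y₀ z`, `close_transfer` gives `k z`. `dense_cone hu` gives the entire curve `U` in the cone. Apply `ab_entire` to
`tC t`, `xC x`, `cone_abelian t x h`, `U`, `v`, `Zb`, `k` (`fibre_cone`; as in `main_iff`, `ab/Main2`, or `brody_of_lifts`, `sk/Z13`): it gives `b`. Let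
`y w l = V w l / V w 0` for any representative `V w` of `b w` (independent of the choice, `pm_eq_iff`); near `z` it is
`V w l / V w 0` for the local holomorphic representative, so `y` is meromorphic and close to `y₀ z` for `z ∈ Zb`. Relations: for `w ≠ z` near `z`,
`V w ∈ Fibre t x (u w)`, so `p (u w, y w) = 0` for relations `p` if `V w 0 ≠ 0`. If `aeval (co t x 0) p ≠ 0` then `p (u, y)` (meromorphic on `ℂ`) is
nonzero near some point: `ab_entire` for the polynomial `p'` of `homog_cone` (`ab/K2`) times `X 0` (so that `U z 0 ≠ 0`), applied to `(tC t, xC x)`, gives a point where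
`p' ≠ 0`, and it stays nonzero near the point. In particular (`p = 1`) `V w 0` is not identically zero. By the identity theorem (`W1`, or
connectedness as in `dense_ne`, `ab/N2`; `gz_zero_iff` in `tv/M1`) `p (u, y)` is not identically zero near any point. -/
theorem ab_curve {K : Type} [Field K] [Algebra ℂ K] {n N : ℕ} (t : Fin n → K)
    (x : Fin (N + 1) → K) (h : IsAbelianFibration t x) (u : ℂ → Fin n → ℂ) (hu : IsDenseCurve t u)
    (Zb : Set ℂ) (hZ : ∀ z, ∀ᶠ w in 𝓝[≠] z, w ∉ Zb) (y₀ : ℂ → ℂ → Fin (N + 1) → ℂ)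
    (hy₀ : ∀ z l, MeromorphicAt (fun w => y₀ z w l) z)
    (hrel : ∀ z, Rel z (co t x 0) fun w => Sum.elim (u w) (y₀ z w)) (Λ : ℂ → ℤ) :
    ∃ y : ℂ → Fin (N + 1) → ℂ, (∀ l z, MeromorphicAt (fun w => y w l) z) ∧
      (∀ (p : MvPolynomial (Fin n ⊕ Fin (N + 1)) ℂ) (z : ℂ),
        MvPolynomial.aeval (co t x 0) p = 0 ↔
          ∀ᶠ w in 𝓝[≠] z, MvPolynomial.aeval (Sum.elim (u w) (y w)) p = 0) ∧
      ∀ z ∈ Zb, ∀ l, (Λ z : WithTop ℤ) ≤ meromorphicOrderAt (fun w => y w l - y₀ z w l) z := by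
  classical
  have hrep := fun z => local_rep t x h.ne_zero z u (y₀ z) (hy₀ z) (hrel z)
  choose v₀ hv₀a hv₀0 hv₀e using hrep
  have hclose := fun z => close_transfer z (v₀ z) (hv₀a z) (hv₀0 z)
    ((hv₀e z).mono fun w hw => hw.2.1) (Λ z)
  choose k hk using hclose
  obtain ⟨U, hU, hUu, hUd⟩ := dense_cone hu
  have hfc : ∀ w, U w 0 ≠ 0 → (∀ a, U w a.succ = U w 0 * u w a) →
      Fibre (tC t) (xC x) (U w) = Fibre t x (u w) := by
    intro w h1 h2
    have h3 : (fun a : Fin n => U w a.succ / U w 0) = u w := by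
      funext a
      rw [h2 a, mul_div_cancel_left₀ _ h1]
    rw [fibre_cone t x (U w) h1, h3]
  obtain ⟨b, hb, hbd⟩ := ab_entire (tC t) (xC x) (cone_abelian t x h) U hU hUd v₀ (fun z => by
    refine ⟨hv₀a z, hv₀0 z, ?_⟩
    filter_upwards [hv₀e z, hUu z] with w h1 h2
    rw [hfc w h2.1 h2.2]
    exact h1.1) Zb hZ k
  choose V hVa hV0 hVe hVc using hb
  -- the coordinates of `b`
  let rp : ℂ → Fin (N + 1) → ℂ := fun w => Classical.choose (exists_pm (b w))
  have hrp : ∀ w, b w = pm (rp w) := fun w => Classical.choose_spec (exists_pm (b w))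
  have hy : ∀ w (v : Fin (N + 1) → ℂ), b w = pm v → ∀ l, rp w l / rp w 0 = v l / v 0 := by
    intro w v hv l
    obtain ⟨c, hc, hcv⟩ := pm_eq_iff.1 ((hrp w).symm.trans hv)
    rw [hcv, Pi.smul_apply, Pi.smul_apply, smul_eq_mul, smul_eq_mul, mul_div_mul_left _ _ hc]
  have hyV : ∀ z, ∀ᶠ w in 𝓝 z, ∀ l, rp w l / rp w 0 = V z w l / V z w 0 := by
    intro z
    filter_upwards [hVe z] with w hw
    exact hy w _ hw.2
  have hVl : ∀ z l, AnalyticAt ℂ (fun w => V z w l) z := fun z => analyticAt_pi_iff.1 (hVa z)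
  have hymer : ∀ l z, MeromorphicAt (fun w => rp w l / rp w 0) z := by
    intro l z
    refine ((hVl z l).meromorphicAt.div (hVl z 0).meromorphicAt).congr ?_
    filter_upwards [(hyV z).filter_mono nhdsWithin_le_nhds] with w hw
    exact (hw l).symm
  have humer : ∀ a z, MeromorphicAt (fun w => u w a) z := fun a z => by
    obtain ⟨m, hm⟩ := hu.1 z
    exact ⟨m, analyticAt_pi_iff.1 hm a⟩
  have hpmer : ∀ (p : MvPolynomial (Fin n ⊕ Fin (N + 1)) ℂ) (z : ℂ), MeromorphicAt
      (fun w => MvPolynomial.aeval (Sum.elim (u w) fun l => rp w l / rp w 0) p) z := by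
    intro p z
    refine A6_poly (fun s => ?_) p
    rcases s with a | l
    · exact humer a z
    · exact hymer l z
  -- a nonzero function is nonzero near some point
  have hne : ∀ p : MvPolynomial (Fin n ⊕ Fin (N + 1)) ℂ, MvPolynomial.aeval (co t x 0) p ≠ 0 →
      ∃ z₁, V z₁ z₁ 0 ≠ 0 ∧ ¬ ∀ᶠ w in 𝓝[≠] z₁,
        MvPolynomial.aeval (Sum.elim (u w) fun l => rp w l / rp w 0) p = 0 := by
    intro p hp
    obtain ⟨p', d, hp1, hp2⟩ := A6_homog t x p hp
    obtain ⟨z₁, v, hv1, hv2, hv3, hv4⟩ := hbd _ hp1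
    rw [map_mul] at hv4
    have hv5 := left_ne_zero_of_mul hv4
    obtain ⟨c, hc, hcv⟩ := pm_eq_iff.1 ((hVe z₁).self_of_nhds.2.symm.trans hv3)
    have hVz0 : V z₁ z₁ 0 = c := by
      rw [hcv, Pi.smul_apply, hv2, smul_eq_mul, mul_one]
    have hVne : V z₁ z₁ 0 ≠ 0 := by
      rw [hVz0]
      exact hc
    refine ⟨z₁, hVne, fun hcon => ?_⟩
    have hcont : ContinuousAt (fun w => MvPolynomial.aeval
        (Sum.elim (U w) fun l => V z₁ w l / V z₁ w 0) p') z₁ := by
      refine A6_cont (fun s => ?_) p'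
      rcases s with a | l
      · exact (continuous_apply a).continuousAt.comp (hU z₁).continuousAt
      · exact (hVl z₁ l).continuousAt.div (hVl z₁ 0).continuousAt hVne
    have hval : MvPolynomial.aeval (Sum.elim (U z₁) fun l => V z₁ z₁ l / V z₁ z₁ 0) p' ≠ 0 := by
      have h1 : (fun l => V z₁ z₁ l / V z₁ z₁ 0) = v := by
        funext l
        rw [hVz0, hcv, Pi.smul_apply, smul_eq_mul, mul_div_cancel_left₀ _ hc]
      rw [h1]
      exact hv5
    obtain ⟨w, hw1, hw2, hw3, hw4⟩ := (hcon.and ((hUu z₁).and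
      (((hcont.eventually_ne hval).and (hyV z₁)).filter_mono nhdsWithin_le_nhds))).exists
    apply hw3
    have h2 : (fun l => V z₁ w l / V z₁ w 0) = fun l => rp w l / rp w 0 := by
      funext l
      exact (hw4 l).symm
    rw [h2, hp2 (U w) (u w) _ hw2.2, hw1, mul_zero]
  have hV0ne : ∀ z, ∀ᶠ w in 𝓝[≠] z, V z w 0 ≠ 0 := by
    obtain ⟨z₁, hz₁, -⟩ := hne 1 (by rw [map_one]; exact one_ne_zero)
    have h1 : ¬ ∀ᶠ w in 𝓝[≠] z₁, rp w 0 / rp w 0 = 0 := by
      intro hcon
      obtain ⟨w, hw1, hw2, hw3⟩ := (hcon.and ((((hVl z₁ 0).continuousAt.eventually_ne hz₁).and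
        (hyV z₁)).filter_mono nhdsWithin_le_nhds)).exists
      rw [hw3 0, div_self hw2] at hw1
      exact one_ne_zero hw1
    intro z
    filter_upwards [A6_mer (hymer 0) h1 z, (hyV z).filter_mono nhdsWithin_le_nhds] with w hw1 hw2
    intro hw3
    apply hw1
    rw [hw2 0, hw3, div_zero]
  refine ⟨fun w l => rp w l / rp w 0, hymer, fun p z => ⟨fun hp => ?_, fun hz => ?_⟩,
    fun z hz l => ?_⟩
  · filter_upwards [hV0ne z, hUu z, (hVe z).filter_mono nhdsWithin_le_nhds,
      (hyV z).filter_mono nhdsWithin_le_nhds] with w h1 h2 h3 h4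
    have h5 := h3.1
    rw [hfc w h2.1 h2.2] at h5
    have h6 := h5.2 0 h1 p hp
    have h7 : (fun l => rp w l / rp w 0) = fun l => V z w l / V z w 0 := funext h4
    rw [h7]
    exact h6
  · by_contra hp
    obtain ⟨z₁, -, hz₁⟩ := hne p hp
    obtain ⟨w, hw1, hw2⟩ := (hz.and (A6_mer (hpmer p) hz₁ z)).exists
    exact hw2 hw1
  · refine (hk z (V z) (hVa z) (hVc z hz) l).trans (le_of_eq (meromorphicOrderAt_congr ?_))
    filter_upwards [(hyV z).filter_mono nhdsWithin_le_nhds, hv₀e z] with w h1 h2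
    rw [h2.2.2 l, h1 l]

end Pool.Agent.AbPencil
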