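import Pool.Agent.Lib_MP_1209e6_tv.M0

/-! PIECE H0: homomorphisms from equality of relations. -/

set_option autoImplicit false

namespace Pool.Agent.AbPencil

open Tw

open IntermediateField.algebraAdjoinAdjoin

private lemma H0_aeval_sum {n g : ℕ} {A : Type} [Field A] [Algebra ℂ A] (y : Fin n → A)
    (s : Fin g → A) (p : MvPolynomial (Fin n ⊕ Fin g) ℂ) :
    MvPolynomial.aeval (Sum.elim y s) p =
      MvPolynomial.eval₂ (MvPolynomial.aeval y).toRingHom s
        (MvPolynomial.sumAlgEquiv ℂ (Fin g) (Fin n) (MvPolynomial.rename Sum.swap p)) := by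
  induction p using MvPolynomial.induction_on with
  | C a =>
    rw [MvPolynomial.rename_C, MvPolynomial.sumAlgEquiv_C_inl, MvPolynomial.eval₂_C]
    simp
  | add p q hp hq =>
    rw [map_add, map_add, map_add, MvPolynomial.eval₂_add, hp, hq]
  | mul_X p i hp =>
    rw [map_mul, map_mul, map_mul, MvPolynomial.eval₂_mul, hp]
    congr 1
    rw [MvPolynomial.rename_X, MvPolynomial.aeval_X]
    rcases i with i | i
    · rw [Sum.swap_inl, MvPolynomial.sumAlgEquiv_X_inr, MvPolynomial.eval₂_C]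
      simp
    · rw [Sum.swap_inr, MvPolynomial.sumAlgEquiv_X_inl, MvPolynomial.eval₂_X]
      simp

private lemma H0_zero_iff {n g : ℕ} {A : Type} [Field A] [Algebra ℂ A] (y : Fin n → A)
    (s : Fin g → A) (hs : AlgebraicIndependent (Algebra.adjoin ℂ (Set.range y)) s)
    (q : MvPolynomial (Fin g) (MvPolynomial (Fin n) ℂ)) :
    MvPolynomial.eval₂ (MvPolynomial.aeval y).toRingHom s q = 0 ↔
      ∀ m, MvPolynomial.aeval y (MvPolynomial.coeff m q) = 0 := by
  have hmem : ∀ p : MvPolynomial (Fin n) ℂ,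
      MvPolynomial.aeval y p ∈ Algebra.adjoin ℂ (Set.range y) := by
    intro p
    rw [Algebra.adjoin_range_eq_range_aeval]
    exact ⟨p, rfl⟩
  let r : MvPolynomial (Fin n) ℂ →+* Algebra.adjoin ℂ (Set.range y) :=
    ((MvPolynomial.aeval y).codRestrict _ hmem).toRingHom
  have hr : ∀ p, (r p : A) = MvPolynomial.aeval y p := fun p => rfl
  have h1 : MvPolynomial.eval₂ (MvPolynomial.aeval y).toRingHom s q =
      MvPolynomial.aeval s (MvPolynomial.map r q) := by
    rw [MvPolynomial.aeval_def, MvPolynomial.eval₂_map]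
    rfl
  rw [h1]
  have h2 : MvPolynomial.aeval s (MvPolynomial.map r q) = 0 ↔ MvPolynomial.map r q = 0 :=
    map_eq_zero_iff _ hs
  rw [h2, MvPolynomial.ext_iff]
  apply forall_congr'
  intro m
  rw [MvPolynomial.coeff_map, MvPolynomial.coeff_zero, ← hr, ZeroMemClass.coe_eq_zero]

/-- Proof. The elements of `ℂ(y)` are quotients of polynomials in `y` (`IntermediateField.mem_adjoin_iff_div` or
`mem_adjoin_range_iff`); or: `ℂ(y)` is the fraction field of `ℂ[y] = MvPolynomial / ker`, and `ℂ[y] → B` is injective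
(`IsFractionRing.lift`). -/
theorem hom_of_rel {ι A B : Type} [Field A] [Algebra ℂ A] [Field B] [Algebra ℂ B] (y : ι → A)
    (Y : ι → B) (h : SameRel y Y) :
    ∃ φ : IntermediateField.adjoin ℂ (Set.range y) →ₐ[ℂ] B,
      ∀ (i : ι) (hi : y i ∈ IntermediateField.adjoin ℂ (Set.range y)), φ ⟨y i, hi⟩ = Y i := by
  classical
  have hmem : ∀ p : MvPolynomial ι ℂ,
      MvPolynomial.aeval y p ∈ Algebra.adjoin ℂ (Set.range y) := by
    intro p
    rw [Algebra.adjoin_range_eq_range_aeval]
    exact ⟨p, rfl⟩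
  let φ1 : MvPolynomial ι ℂ →ₐ[ℂ] Algebra.adjoin ℂ (Set.range y) :=
    (MvPolynomial.aeval y).codRestrict _ hmem
  have hφ1 : ∀ p, (φ1 p : A) = MvPolynomial.aeval y p := fun p => rfl
  have hsurj : Function.Surjective φ1 := by
    rintro ⟨a, ha⟩
    have ha' := ha
    rw [Algebra.adjoin_range_eq_range_aeval] at ha'
    obtain ⟨p, hp⟩ := ha'
    exact ⟨p, Subtype.ext hp⟩
  have hker : RingHom.ker φ1 ≤ RingHom.ker (MvPolynomial.aeval (R := ℂ) Y) := by
    intro p hp
    rw [RingHom.mem_ker] at hp ⊢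
    rw [← h p, ← hφ1, hp]
    rfl
  let g0 : Algebra.adjoin ℂ (Set.range y) →ₐ[ℂ] B :=
    AlgHom.liftOfSurjective φ1 hsurj (MvPolynomial.aeval Y) hker
  have hg0 : ∀ p, g0 (φ1 p) = MvPolynomial.aeval Y p := fun p =>
    AlgHom.liftOfSurjective_apply φ1 hsurj (MvPolynomial.aeval Y) hker p
  have hinj : Function.Injective g0 := by
    rw [injective_iff_map_eq_zero]
    intro a ha
    obtain ⟨p, rfl⟩ := hsurj a
    rw [hg0, ← h p, ← hφ1] at ha
    exact Subtype.ext ha
  refine ⟨IsFractionRing.liftAlgHom (K := IntermediateField.adjoin ℂ (Set.range y)) hinj, ?_⟩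
  intro i hi
  have h1 : (⟨y i, hi⟩ : IntermediateField.adjoin ℂ (Set.range y)) =
      algebraMap (Algebra.adjoin ℂ (Set.range y)) (IntermediateField.adjoin ℂ (Set.range y))
        (φ1 (MvPolynomial.X i)) := by
    apply Subtype.ext
    change y i = (φ1 (MvPolynomial.X i) : A)
    rw [hφ1, MvPolynomial.aeval_X]
  rw [h1, IsFractionRing.liftAlgHom_apply, IsFractionRing.lift_algebraMap]
  change g0 (φ1 (MvPolynomial.X i)) = Y i
  rw [hg0, MvPolynomial.aeval_X]

/-- Proof. For `p` in the variables `Fin n ⊕ Fin g` (a polynomial in the variables `Fin g` with coefficients in the polynomials in the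
variables `Fin n`, `MvPolynomial.sumAlgEquiv` after `sumComm`): `p(y, s) = 0` iff all coefficients vanish at `y` (independence over `ℂ[y]`). -/
theorem same_indep {n g : ℕ} {A B : Type} [Field A] [Algebra ℂ A] [Field B] [Algebra ℂ B]
    (y : Fin n → A) (s : Fin g → A)
    (hs : AlgebraicIndependent (Algebra.adjoin ℂ (Set.range y)) s) (Y : Fin n → B)
    (S : Fin g → B) (hS : AlgebraicIndependent (Algebra.adjoin ℂ (Set.range Y)) S)
    (h : SameRel y Y) : SameRel (Sum.elim y s) (Sum.elim Y S) := by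
  intro p
  rw [H0_aeval_sum y s p, H0_aeval_sum Y S p]
  rw [H0_zero_iff y s hs, H0_zero_iff Y S hS]
  exact forall_congr' fun m => h _

theorem same_append {n g : ℕ} {A B : Type} [Field A] [Algebra ℂ A] [Field B] [Algebra ℂ B]
    {y : Fin n → A} {s : Fin g → A} {Y : Fin n → B} {S : Fin g → B}
    (h : SameRel (Sum.elim y s) (Sum.elim Y S)) : SameRel (Fin.append y s) (Fin.append Y S) := by
  intro p
  have e1 : ∀ {C : Type} [Field C] [Algebra ℂ C] (a : Fin n → C) (b : Fin g → C),
      Fin.append a b = Sum.elim a b ∘ finSumFinEquiv.symm := by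
    intro C _ _ a b
    funext i
    refine Fin.addCases (fun j => ?_) (fun j => ?_) i
    · simp
    · simp
  rw [e1 y s, e1 Y S, ← MvPolynomial.aeval_rename, ← MvPolynomial.aeval_rename]
  exact h _

/-- injective homomorphisms preserve relations -/
theorem same_of_hom {ι A B : Type} [Field A] [Algebra ℂ A] [Field B] [Algebra ℂ B] (ψ : A →ₐ[ℂ] B)
    (y : ι → A) : SameRel y fun i => ψ (y i) := by
  intro p
  have h1 : MvPolynomial.aeval (fun i => ψ (y i)) p = ψ (MvPolynomial.aeval y p) := by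
    have : (MvPolynomial.aeval fun i => ψ (y i)) = ψ.comp (MvPolynomial.aeval y) := by
      apply MvPolynomial.algHom_ext
      intro i
      simp
    rw [this]
    rfl
  rw [h1, map_eq_zero_iff ψ ψ.toRingHom.injective]

/-- two homomorphisms which agree on `y` agree on `ℂ(y)` -/
theorem hom_ext_adjoin {ι A B : Type} [Field A] [Algebra ℂ A] [Field B] [Algebra ℂ B] (y : ι → A)
    (φ φ' : IntermediateField.adjoin ℂ (Set.range y) →ₐ[ℂ] B)
    (h : ∀ (i : ι) (hi : y i ∈ IntermediateField.adjoin ℂ (Set.range y)),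
      φ ⟨y i, hi⟩ = φ' ⟨y i, hi⟩) : φ = φ' := by
  apply IntermediateField.adjoin_algHom_ext
  rintro x ⟨i, rfl⟩
  exact h i _

end Pool.Agent.AbPencil
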