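import Pool.Agent.Lib_MP_1209e6_tw.Mer

/-! Germs of meromorphic functions: definitions. -/

set_option autoImplicit false

open Filter Topology

namespace Pool.Agent.AbPencil

open Tw

theorem exists_rep (a : Mer) : ∃ (f : ℂ → ℂ) (hf : MeromorphicAt f 0), gm f hf = a := by
  obtain ⟨⟨f, hf⟩, h⟩ := Ideal.Quotient.mk_surjective a
  exact ⟨f, hf, h⟩

/-- a representative of the germ -/
noncomputable def rep (a : Mer) : ℂ → ℂ := Classical.choose (exists_rep a)

theorem rep_mero (a : Mer) : MeromorphicAt (rep a) 0 :=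
  Classical.choose (Classical.choose_spec (exists_rep a))

theorem gm_rep (a : Mer) : gm (rep a) (rep_mero a) = a :=
  Classical.choose_spec (Classical.choose_spec (exists_rep a))

/-- the order of the germ (`⊤` for the germ `0`) -/
noncomputable def mo (a : Mer) : WithTop ℤ := meromorphicOrderAt (rep a) 0

/-- the germ is holomorphic -/
def Hol (a : Mer) : Prop := 0 ≤ mo a

open Classical in
/-- the germ at `z` of a function (`0` if it is not meromorphic at `z`) -/
noncomputable def gz (f : ℂ → ℂ) (z : ℂ) : Mer :=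
  if h : MeromorphicAt (fun w => f (z + w)) 0 then gm _ h else 0

/-- the tuples satisfy the same polynomial relations over `ℂ` -/
def SameRel {ι A B : Type} [CommRing A] [Algebra ℂ A] [CommRing B] [Algebra ℂ B] (y : ι → A)
    (Y : ι → B) : Prop :=
  ∀ p : MvPolynomial ι ℂ, MvPolynomial.aeval y p = 0 ↔ MvPolynomial.aeval Y p = 0

variable {L : Type} [Field L] [Algebra ℂ L]

/-- The variety with function field `F` has a Zariski dense meromorphic curve `H : F → {meromorphic functions on ℂ}` all of
whose germs `F → Mer` extend to homomorphisms `ε : L → Mer`. -/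
structure Realized (F : IntermediateField ℂ L) : Prop where
  fg : ∃ (n : ℕ) (y : Fin n → L), F = IntermediateField.adjoin ℂ (Set.range y)
  curve : ∃ H : F → ℂ → ℂ, (∀ a z, MeromorphicAt (H a) z) ∧
    ∀ z, ∃ ε : L →ₐ[ℂ] Mer, ∀ a : F, ε a = gz (H a) z

/-- There is a finite subset `Y` of `F` such that each `φ : F' → Mer` with holomorphic values on `Y` and on `G` extends to
`L`. -/
def GermsLift (F F' : IntermediateField ℂ L) (G : Set L) : Prop :=
  ∃ Y : Finset L, (∀ a ∈ Y, a ∈ F) ∧ ∀ φ : F' →ₐ[ℂ] Mer, (∀ a : F', (a : L) ∈ Y → Hol (φ a)) →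
    (∀ a : F', (a : L) ∈ G → Hol (φ a)) → ∃ ψ : L →ₐ[ℂ] Mer, ∀ a : F', ψ a = φ a

/-- A presentation of `L` over `ℂ(y)`: `s` is a transcendence basis, `θ` generates `L` over `ℂ(y, s)` and `f` is a multiple of
its minimal polynomial. -/
structure RPres {n g : ℕ} (y : Fin n → L) (s : Fin g → L) (θ : L)
    (f : Polynomial (MvPolynomial (Fin n ⊕ Fin g) ℂ)) : Prop where
  ind : AlgebraicIndependent (Algebra.adjoin ℂ (Set.range y)) s
  gen : IntermediateField.adjoin ℂ (insert θ (Set.range (Sum.elim y s))) = ⊤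
  root : f.eval₂ (MvPolynomial.aeval (Sum.elim y s)).toRingHom θ = 0
  sep : (Polynomial.derivative f).eval₂ (MvPolynomial.aeval (Sum.elim y s)).toRingHom θ ≠ 0
  min : ∃ c : L, c ≠ 0 ∧ f.map (MvPolynomial.aeval (Sum.elim y s)).toRingHom =
    Polynomial.C c * (minpoly (IntermediateField.adjoin ℂ (Set.range (Sum.elim y s))) θ).map
      (algebraMap (IntermediateField.adjoin ℂ (Set.range (Sum.elim y s))) L)

end Pool.Agent.AbPencil
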