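import Mathlib

/-! PIECE H4: algebraic independence of inverses. -/

set_option autoImplicit false

namespace Pool.Agent.AbPencil

/-- Inverses of algebraically independent elements are algebraically independent: a relation `p(s') = 0`
gives, multiplied by suitable powers of the `s j`, a relation `q(s) = 0`, where `q` is obtained from `p` by the
injective (on monomials) substitution `α_j ↦ D - α_j` for the inverted indices `j`, so `q = 0` and `p = 0`. -/
theorem indep_inv {R L : Type} [CommRing R] [Field L] [Algebra R L] {g : ℕ} (s s' : Fin g → L)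
    (h : ∀ j, s' j = s j ∨ s' j = (s j)⁻¹) (hs : AlgebraicIndependent R s) :
    AlgebraicIndependent R s' := by
  classical
  by_cases hR : Nontrivial R
  swap
  · rw [not_nontrivial_iff_subsingleton] at hR
    rw [algebraicIndependent_iff]
    intro p _
    exact Subsingleton.elim _ _
  have hs0 : ∀ j, s j ≠ 0 := fun j => hs.ne_zero j
  rw [algebraicIndependent_iff] at hs ⊢
  intro p hp
  set D : ℕ := p.totalDegree with hD
  have hle : ∀ α ∈ p.support, ∀ j, α j ≤ D := by
    intro α hα j
    refine le_trans ?_ (MvPolynomial.le_totalDegree hα)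
    by_cases hj : j ∈ α.support
    · exact Finset.single_le_sum (f := fun i => α i) (fun i _ => Nat.zero_le _) hj
    · rw [Finsupp.notMem_support_iff] at hj
      omega
  let τ : (Fin g →₀ ℕ) → (Fin g →₀ ℕ) := fun α =>
    Finsupp.equivFunOnFinite.symm fun j => if s' j = s j then α j else D - α j
  have hτ : ∀ α j, τ α j = if s' j = s j then α j else D - α j := fun α j => rfl
  have hinj : ∀ α ∈ p.support, ∀ β ∈ p.support, τ α = τ β → α = β := by
    intro α hα β hβ hab
    ext j
    have h1 := DFunLike.congr_fun hab j
    rw [hτ, hτ] at h1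
    have h2 := hle α hα j
    have h3 := hle β hβ j
    split_ifs at h1 <;> omega
  let q : MvPolynomial (Fin g) R := ∑ α ∈ p.support, MvPolynomial.monomial (τ α) (p.coeff α)
  have hq : MvPolynomial.aeval s q = 0 := by
    have e1 : MvPolynomial.aeval s q
        = (∏ j, if s' j = s j then 1 else s j ^ D) * MvPolynomial.aeval s' p := by
      rw [MvPolynomial.aeval_def s' p, MvPolynomial.eval₂_eq', Finset.mul_sum, map_sum]
      refine Finset.sum_congr rfl fun α hα => ?_
      rw [MvPolynomial.aeval_monomial, mul_left_comm, ← Finset.prod_mul_distrib]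
      rw [Finsupp.prod_fintype _ _ fun i => pow_zero _]
      congr 1
      refine Finset.prod_congr rfl fun j _ => ?_
      rw [hτ]
      by_cases hj : s' j = s j
      · rw [if_pos hj, if_pos hj, hj, one_mul]
      · rw [if_neg hj, if_neg hj, (h j).resolve_left hj, inv_pow, pow_sub₀ _ (hs0 j) (hle α hα j)]
    rw [e1, hp, mul_zero]
  have hq0 := hs q hq
  ext α
  rw [MvPolynomial.coeff_zero]
  by_contra hα
  have hα' : α ∈ p.support := MvPolynomial.mem_support_iff.mpr hα
  have h1 : MvPolynomial.coeff (τ α) q = 0 := by rw [hq0, MvPolynomial.coeff_zero]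
  rw [MvPolynomial.coeff_sum, Finset.sum_eq_single α] at h1
  · rw [MvPolynomial.coeff_monomial, if_pos rfl] at h1
    exact hα h1
  · intro β hβ hne
    rw [MvPolynomial.coeff_monomial, if_neg]
    exact fun e => hne (hinj β hβ α hα' e)
  · exact fun hn => absurd hα' hn

end Pool.Agent.AbPencil
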