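import Pool.Agent.Lib_MP_1209e6_tv.G11
import Pool.Agent.Lib_MP_1209e6_tv.H4
import Pool.Agent.Lib_MP_1209e6_ag.Place

/-! Lifting of germs from the absence of multiple fibres (assembly, 2). -/

set_option autoImplicit false

namespace Pool.Agent.AbPencil

open Tw Pool.Agent.Campana

variable {L : Type} [Field L] [Algebra ℂ L]

theorem exists_pow_mem {K : Type} [Field K] [Algebra ℂ K] (O : ValuationSubring K) (hO : IsPlace O)
    (π : K) (hπ : π⁻¹ ∉ O) (a : K) : ∃ M : ℕ, a * π ^ M ∈ O := by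
  obtain ⟨v, hv1, hv2, -⟩ := place_order O hO
  have hπ0 : π ≠ 0 := by
    rintro rfl
    rw [inv_zero] at hπ
    exact hπ O.zero_mem
  by_cases ha : a = 0
  · exact ⟨0, by rw [ha, zero_mul]; exact O.zero_mem⟩
  have h1 : v (1 : K) = 0 := by
    have := hv1 1 1 one_ne_zero one_ne_zero
    rw [mul_one] at this
    omega
  have h2 : v π⁻¹ < 0 := by
    by_contra hcon
    exact hπ ((hv2 _ (inv_ne_zero hπ0)).2 (not_lt.1 hcon))
  have h3 : v π + v π⁻¹ = 0 := by
    rw [← hv1 _ _ hπ0 (inv_ne_zero hπ0), mul_inv_cancel₀ hπ0, h1]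
  have h4 : ∀ M : ℕ, v (π ^ M) = M * v π := by
    intro M
    induction M with
    | zero => simp [h1]
    | succ M ih =>
      rw [pow_succ, hv1 _ _ (pow_ne_zero _ hπ0) hπ0, ih]
      push_cast
      ring
  refine ⟨(-(v a)).toNat, (hv2 _ (mul_ne_zero ha (pow_ne_zero _ hπ0))).2 ?_⟩
  rw [hv1 _ _ ha (pow_ne_zero _ hπ0), h4]
  have h5 : 1 ≤ v π := by omega
  have h6 : -(v a) ≤ ((-(v a)).toNat : ℤ) := Int.self_le_toNat _
  nlinarith [Int.natCast_nonneg (-(v a)).toNat]

/-- generators may be replaced by inverses -/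
theorem adjoin_inv {ι : Type} (y y' : ι → L) (h : ∀ i, y' i = y i ∨ y' i = (y i)⁻¹) :
    IntermediateField.adjoin ℂ (Set.range y') = IntermediateField.adjoin ℂ (Set.range y) := by
  apply le_antisymm
  · rw [IntermediateField.adjoin_le_iff]
    rintro _ ⟨i, rfl⟩
    have h1 : y i ∈ IntermediateField.adjoin ℂ (Set.range y) :=
      IntermediateField.subset_adjoin _ _ ⟨i, rfl⟩
    rcases h i with h2 | h2
    · rw [h2]
      exact h1
    · rw [h2]
      exact inv_mem h1
  · rw [IntermediateField.adjoin_le_iff]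
    rintro _ ⟨i, rfl⟩
    have h1 : y' i ∈ IntermediateField.adjoin ℂ (Set.range y') :=
      IntermediateField.subset_adjoin _ _ ⟨i, rfl⟩
    rcases h i with h2 | h2
    · rw [← h2]
      exact h1
    · have h3 : y i = (y' i)⁻¹ := by rw [h2, inv_inv]
      rw [h3]
      exact inv_mem h1

theorem adjoin_inv_insert {ι : Type} (y y' : ι → L) (h : ∀ i, y' i = y i ∨ y' i = (y i)⁻¹)
    (θ θ' : L) (hθ : θ' = θ ∨ θ' = θ⁻¹) :
    IntermediateField.adjoin ℂ (insert θ' (Set.range y')) =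
      IntermediateField.adjoin ℂ (insert θ (Set.range y)) := by
  have h1 : ∀ (z : ι → L) (t : L), insert t (Set.range z) =
      Set.range (fun i : Option ι => i.elim t z) := by
    intro z t
    ext a
    constructor
    · rintro (rfl | ⟨i, rfl⟩)
      · exact ⟨none, rfl⟩
      · exact ⟨some i, rfl⟩
    · rintro ⟨i | i, rfl⟩
      · exact Or.inl rfl
      · exact Or.inr ⟨i, rfl⟩
  rw [h1, h1]
  refine adjoin_inv _ _ ?_
  rintro (_ | i)
  · exact hθ
  · exact h i

/-- a presentation with generators in given valuation rings -/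
theorem exists_rpres_mem (hfg : ∃ T : Finset L, IntermediateField.adjoin ℂ (T : Set L) = ⊤) {n : ℕ}
    (y : Fin n → L) (O' : ValuationSubring L) :
    ∃ (g : ℕ) (s : Fin g → L) (θ : L) (f : Polynomial (MvPolynomial (Fin n ⊕ Fin g) ℂ)),
      RPres y s θ f ∧ (∀ j, s j ∈ O') ∧ θ ∈ O' := by
  classical
  obtain ⟨g, s, θ, hs, hgen, hθ⟩ := exists_basis hfg y
  let iv : L → L := fun a => if a ∈ O' then a else a⁻¹
  have hiv : ∀ a, iv a = a ∨ iv a = a⁻¹ := by
    intro a
    by_cases ha : a ∈ O'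
    · exact Or.inl (if_pos ha)
    · exact Or.inr (if_neg ha)
  have hivO : ∀ a, iv a ∈ O' := by
    intro a
    by_cases ha : a ∈ O'
    · have : iv a = a := if_pos ha
      rw [this]
      exact ha
    · have : iv a = a⁻¹ := if_neg ha
      rw [this]
      exact (O'.mem_or_inv_mem a).resolve_left ha
  have h1 : ∀ i, Sum.elim y (fun j => iv (s j)) i = Sum.elim y s i ∨
      Sum.elim y (fun j => iv (s j)) i = (Sum.elim y s i)⁻¹ := by
    rintro (i | j)
    · exact Or.inl rfl
    · exact hiv _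
  have h2 := adjoin_inv _ _ h1
  obtain ⟨f, hf⟩ := exists_rpres y (fun j => iv (s j)) (iv θ)
    (indep_inv s _ (fun j => hiv _) hs) (by
      rw [adjoin_inv_insert _ _ h1 θ (iv θ) (hiv θ)]
      exact hgen) (by
      rw [h2]
      rcases hiv θ with h3 | h3
      · rw [h3]
        exact hθ
      · rw [h3]
        exact hθ.inv)
  exact ⟨g, _, _, f, hf, fun j => hivO _, hivO _⟩

/-- Each valuation ring of `F'` over `F` contains a finite set such that the germs which are holomorphic on it lift. -/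
theorem loc (hfg : ∃ T : Finset L, IntermediateField.adjoin ℂ (T : Set L) = ⊤)
    {F F' : IntermediateField ℂ L} (hle : F ≤ F')
    (hF' : ∃ (n : ℕ) (y : Fin n → L), F' = IntermediateField.adjoin ℂ (Set.range y))
    (htr : ∀ a ∈ F', ∀ b ∈ F', ¬ AlgebraicIndependent F ![a, b]) (G : Set L)
    (hNM : NoMultiple F F' G) (O : ValuationSubring F') (hk : ∀ a : F', (a : L) ∈ F → a ∈ O)
    (hG : ∀ a : F', (a : L) ∈ G → a ∈ O) :
    ∃ A : Finset F', (∀ a ∈ A, a ∈ O) ∧ ∀ φ : F' →ₐ[ℂ] Mer, (∀ a ∈ A, Hol (φ a)) →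
      ∃ ψ : L →ₐ[ℂ] Mer, ∀ a : F', ψ a = φ a := by
  classical
  obtain ⟨A₀, hA₀⟩ := generic_chart hfg F' hF'
  by_cases hO : O = ⊤
  · exact ⟨A₀, fun a _ => by rw [hO]; trivial, hA₀⟩
  obtain ⟨n, y, hy⟩ := hF'
  letI : Algebra F F' := (IntermediateField.inclusion hle).toRingHom.toAlgebra
  haveI : IsScalarTower ℂ F F' := IsScalarTower.of_algebraMap_eq fun _ => rfl
  haveI : IsScalarTower F F' L := IsScalarTower.of_algebraMap_eq fun _ => rfl
  have hkE : ∀ a : F, algebraMap F F' a ∈ O := fun a => hk _ a.2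
  have htrE : ∀ a b : F', ¬ AlgebraicIndependent F ![a, b] := by
    intro a b h1
    apply htr a a.2 b b.2
    have h2 := h1.map' (f := IsScalarTower.toAlgHom F F' L) (algebraMap F' L).injective
    have h3 : (⇑(IsScalarTower.toAlgHom F F' L) ∘ ![a, b]) = ![(a : L), (b : L)] := by
      funext i
      fin_cases i <;> rfl
    rwa [h3] at h2
  have hyF : ∀ i, y i ∈ F' := fun i => by
    rw [hy]
    exact IntermediateField.subset_adjoin _ _ ⟨i, rfl⟩
  have hfgE : ∃ T : Finset F', IntermediateField.adjoin F (T : Set F') = ⊤ := by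
    refine ⟨Finset.univ.image fun i => (⟨y i, hyF i⟩ : F'), ?_⟩
    rw [eq_top_iff]
    intro a _
    have h1 : F' ≤ IntermediateField.map F'.val
        ((IntermediateField.adjoin F (((Finset.univ.image fun i => (⟨y i, hyF i⟩ : F')) :
          Finset F') : Set F')).restrictScalars ℂ) := by
      conv_lhs => rw [hy]
      rw [IntermediateField.adjoin_le_iff]
      rintro _ ⟨i, rfl⟩
      refine ⟨⟨y i, hyF i⟩, ?_, rfl⟩
      exact IntermediateField.subset_adjoin _ _ (by simp)
    obtain ⟨b, hb, hba⟩ := h1 a.2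
    have h2 : b = a := Subtype.ext hba
    rw [← h2]
    exact hb
  have hdvr := dvr_of_dim_one hfgE htrE O hkE hO
  have hpl : IsPlace O := ⟨fun c => hk _ (F.algebraMap_mem c), hdvr⟩
  obtain ⟨O', hO', hOO', π, hπ, hπ'⟩ := hNM O hpl hk hG
  -- generators in `O`
  let z : Fin n → F' := fun i => if (⟨y i, hyF i⟩ : F') ∈ O then ⟨y i, hyF i⟩ else
    (⟨y i, hyF i⟩ : F')⁻¹
  have hzO : ∀ i, z i ∈ O := by
    intro i
    by_cases h1 : (⟨y i, hyF i⟩ : F') ∈ O
    · have : z i = ⟨y i, hyF i⟩ := if_pos h1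
      rw [this]
      exact h1
    · have : z i = (⟨y i, hyF i⟩ : F')⁻¹ := if_neg h1
      rw [this]
      exact (O.mem_or_inv_mem _).resolve_left h1
  have hz : F' = IntermediateField.adjoin ℂ (Set.range fun i => (z i : L)) := by
    have h1 := adjoin_inv y (fun i => (z i : L)) (by
      intro i
      by_cases h1 : (⟨y i, hyF i⟩ : F') ∈ O
      · have : z i = ⟨y i, hyF i⟩ := if_pos h1
        exact Or.inl (by rw [this])
      · have : z i = (⟨y i, hyF i⟩ : F')⁻¹ := if_neg h1
        exact Or.inr (by rw [this]; rfl))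
    rw [h1]
    exact hy
  obtain ⟨g, s, θ, f, hP, hs, hθ⟩ := exists_rpres_mem hfg (fun i => (z i : L)) O'
  obtain ⟨A₁, hA₁, hφ₁⟩ := special_chart hfgE htrE O hkE O' hO'.2 hOO' π hπ hπ' z hzO s hs θ hθ f
    hP.root hP.sep
  have hπO : π⁻¹ ∉ O := by
    intro h1
    exact hπ ((hOO' π⁻¹).2 h1)
  have hπO' : π ∈ O := (O.mem_or_inv_mem _).resolve_right hπO
  have hπ0 : π ≠ 0 := by
    rintro rfl
    rw [inv_zero] at hπO
    exact hπO O.zero_mem
  choose M hM using exists_pow_mem O hpl π hπO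
  refine ⟨{π} ∪ A₁ ∪ A₀.image fun a => a * π ^ M a, ?_, fun φ hφ => ?_⟩
  · intro a ha
    simp only [Finset.mem_union, Finset.mem_singleton, Finset.mem_image] at ha
    rcases ha with (rfl | ha) | ⟨b, -, rfl⟩
    · exact hπO'
    · exact hA₁ a ha
    · exact hM b
  · have hφπ : Hol (φ π) := hφ π (by simp)
    by_cases hpos : 0 < mo (φ π)
    · obtain ⟨S, e, h1, h2⟩ := hφ₁ φ (fun a ha => hφ a (by simp [ha])) hpos
      obtain ⟨Λ, hΛ⟩ := ext_core hP (fun i => φ (z i)) S e h1 h2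
      have hsame : SameRel (fun i => (z i : L)) fun i => φ (z i) := by
        intro p
        rw [← same_of_hom φ z p]
        exact (same_of_hom F'.val z p).symm
      obtain ⟨ψ, hψ⟩ := hΛ (fun i => φ (z i)) hsame fun i => by
        rw [sub_self, mo_eq_top.2 rfl]
        exact le_top
      refine ⟨ψ, fun a => ?_⟩
      have h3 : ∀ (F'' : IntermediateField ℂ L) (φ' : F'' →ₐ[ℂ] Mer),
          F'' = IntermediateField.adjoin ℂ (Set.range fun i => (z i : L)) →
          (∀ (i : Fin n) (hi : (z i : L) ∈ F''), φ' ⟨z i, hi⟩ = ψ (z i)) →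
          ψ.comp F''.val = φ' := by
        intro F'' φ' hF'' h4
        subst hF''
        refine hom_ext_adjoin (fun i => (z i : L)) _ _ fun i hi => ?_
        exact (h4 i hi).symm
      have h5 := h3 F' φ hz fun i hi => (hψ i).symm
      exact DFunLike.congr_fun h5 a
    · have h0 : mo (φ π) = 0 := le_antisymm (not_lt.1 hpos) hφπ
      refine hA₀ φ fun a ha => ?_
      obtain ⟨OM, hOM⟩ := exists_merO
      have h1 : Hol (φ (a * π ^ M a)) := hφ _ (by
        simp only [Finset.mem_union, Finset.mem_singleton, Finset.mem_image]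
        exact Or.inr ⟨a, ha, rfl⟩)
      have hφπ0 : φ π ≠ 0 := (map_ne_zero φ).2 hπ0
      have h2 : Hol (φ π)⁻¹ := by
        have h3 := mo_mul (φ π) (φ π)⁻¹
        rw [mul_inv_cancel₀ hφπ0, mo_one, h0, zero_add] at h3
        exact h3.le
      have h4 : φ a = φ (a * π ^ M a) * ((φ π)⁻¹) ^ M a := by
        rw [map_mul, map_pow, mul_assoc, ← mul_pow, mul_inv_cancel₀ hφπ0, one_pow, mul_one]
      rw [h4, ← hOM]
      exact OM.mul_mem _ _ ((hOM _).2 h1) (pow_mem ((hOM _).2 h2) _)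

/-- Without multiple fibres germs lift. -/
theorem germs_lift (hfg : ∃ T : Finset L, IntermediateField.adjoin ℂ (T : Set L) = ⊤)
    {F F' : IntermediateField ℂ L} (hle : F ≤ F')
    (hF' : ∃ (n : ℕ) (y : Fin n → L), F' = IntermediateField.adjoin ℂ (Set.range y))
    (htr : ∀ a ∈ F', ∀ b ∈ F', ¬ AlgebraicIndependent F ![a, b]) (G : Set L)
    (hNM : NoMultiple F F' G) : GermsLift F F' G := by
  classical
  by_contra hcon
  obtain ⟨OM, hOM⟩ := exists_merO
  let 𝒜 : Set (Finset F') := {A | ∀ φ : F' →ₐ[ℂ] Mer, (∀ a ∈ A, Hol (φ a)) →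
    ∃ ψ : L →ₐ[ℂ] Mer, ∀ a : F', ψ a = φ a}
  obtain ⟨O, hO, hOA⟩ := val_compact {a : F' | (a : L) ∈ F ∨ (a : L) ∈ G} 𝒜 (by
    intro Y hY
    by_contra h1
    apply hcon
    refine ⟨(Y.image fun a : F' => (a : L)).filter (· ∈ F), fun a ha => (Finset.mem_filter.1 ha).2,
      fun φ h2 h3 => ?_⟩
    by_contra h4
    apply h1
    refine ⟨OM.comap φ.toRingHom, fun a ha => ?_, fun A hA h5 => h4 (hA φ fun a ha => ?_)⟩
    · rw [ValuationSubring.mem_comap]
      refine (hOM _).2 ?_
      rcases hY a ha with h6 | h6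
      · exact h2 a (Finset.mem_filter.2 ⟨Finset.mem_image.2 ⟨a, ha, rfl⟩, h6⟩)
      · exact h3 a h6
    · have h6 := h5 a ha
      rw [ValuationSubring.mem_comap] at h6
      exact (hOM _).1 h6)
  obtain ⟨A, hA, hφ⟩ := loc hfg hle hF' htr G hNM O (fun a ha => hO a (Or.inl ha))
    fun a ha => hO a (Or.inr ha)
  exact hOA A hφ hA

end Pool.Agent.AbPencil
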