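import Pool.Agent.Lib_MP_1209e6_tv.M0

/-! PIECE H1: presentations of `L` over `ℂ(y)`. -/

set_option autoImplicit false

namespace Pool.Agent.AbPencil

variable {L : Type} [Field L] [Algebra ℂ L]

private theorem tvH1_alg {B : Type} [CommRing B] [Algebra ℂ B] [Algebra B L] [IsScalarTower ℂ B L]
    (T : Set L) (hT : IntermediateField.adjoin ℂ T = ⊤) :
    Algebra.IsAlgebraic (Algebra.adjoin B T) L := by
  constructor
  intro a
  have ha : a ∈ IntermediateField.adjoin ℂ T := by rw [hT]; trivial
  rw [IntermediateField.mem_adjoin_iff_div] at ha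
  obtain ⟨r, hr, s, hs, e⟩ := ha
  have hle : Algebra.adjoin ℂ T ≤ (Algebra.adjoin B T).restrictScalars ℂ :=
    Algebra.adjoin_le Algebra.subset_adjoin
  have hr' : r ∈ Algebra.adjoin B T := hle hr
  have hs' : s ∈ Algebra.adjoin B T := hle hs
  rw [e, div_eq_mul_inv]
  have h1 : IsAlgebraic (Algebra.adjoin B T) r :=
    isAlgebraic_algebraMap (⟨r, hr'⟩ : Algebra.adjoin B T)
  have h2 : IsAlgebraic (Algebra.adjoin B T) s :=
    isAlgebraic_algebraMap (⟨s, hs'⟩ : Algebra.adjoin B T)
  exact h1.mul h2.inv

/-- Proof. `L` has a finite transcendence basis `s` over `ℂ(y)` (or over the domain `ℂ[y]`; compare `tw_pres` in `tw/C4` and `sp/P`);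
`L` is finite over `ℂ(y, s)` (finitely generated and algebraic), take a primitive element. -/
theorem exists_basis (hfg : ∃ T : Finset L, IntermediateField.adjoin ℂ (T : Set L) = ⊤) {n : ℕ}
    (y : Fin n → L) : ∃ (g : ℕ) (s : Fin g → L) (θ : L),
      AlgebraicIndependent (Algebra.adjoin ℂ (Set.range y)) s ∧
      IntermediateField.adjoin ℂ (insert θ (Set.range (Sum.elim y s))) = ⊤ ∧
      IsAlgebraic (IntermediateField.adjoin ℂ (Set.range (Sum.elim y s))) θ := by
  classical
  obtain ⟨T, hT⟩ := hfg
  let B := Algebra.adjoin ℂ (Set.range y)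
  have halg := tvH1_alg (B := B) (T : Set L) hT
  have hemp : AlgebraicIndepOn B id (∅ : Set L) :=
    algebraicIndependent_empty_type_iff.mpr (Subtype.val_injective)
  obtain ⟨u, -, hu2, hu3⟩ := exists_isTranscendenceBasis_between (R := B) (∅ : Set L) (T : Set L)
    (Set.empty_subset _) hemp
  have hufin : u.Finite := Set.Finite.subset T.finite_toSet hu2
  have := hufin.fintype
  let e : Fin (Fintype.card u) ≃ u := (Fintype.equivFin u).symm
  let s : Fin (Fintype.card u) → L := fun i => (e i : L)
  have hs : IsTranscendenceBasis B s :=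
    (isTranscendenceBasis_equiv e (f := fun x : u => (x : L))).2 hu3
  let E := IntermediateField.adjoin ℂ (Set.range (Sum.elim y s))
  have hyE : ∀ i, y i ∈ E := fun i =>
    IntermediateField.subset_adjoin _ _ ⟨Sum.inl i, rfl⟩
  have hsE : ∀ i, s i ∈ E := fun i =>
    IntermediateField.subset_adjoin _ _ ⟨Sum.inr i, rfl⟩
  have hBE : ∀ z : L, z ∈ B → z ∈ E := by
    intro z hz
    have hle : B ≤ E.toSubalgebra := Algebra.adjoin_le (by
      rintro _ ⟨i, rfl⟩
      exact hyE i)
    exact hle hz
  have hmem : ∀ z : Algebra.adjoin B (Set.range s),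
      algebraMap (Algebra.adjoin B (Set.range s)) L z ∈ E := by
    rintro ⟨z, hz⟩
    change z ∈ E
    induction hz using Algebra.adjoin_induction with
    | mem x hx =>
      obtain ⟨i, rfl⟩ := hx
      exact hsE i
    | algebraMap r => exact hBE _ r.2
    | add x z _ _ hx hz => exact add_mem hx hz
    | mul x z _ _ hx hz => exact mul_mem hx hz
  let ρ : Algebra.adjoin B (Set.range s) →+* E :=
    RingHom.codRestrict (algebraMap (Algebra.adjoin B (Set.range s)) L) E hmem
  have hρ : ∀ z, ((ρ z : E) : L) = z := fun z => rfl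
  have hρinj : Function.Injective ρ := by
    intro z w h
    apply Subtype.ext
    rw [← hρ z, ← hρ w, h]
  have hE : Algebra.IsAlgebraic E L := by
    have h1 := hs.isAlgebraic
    constructor
    intro a
    obtain ⟨p, hp0, hp⟩ := h1.isAlgebraic a
    refine ⟨p.map ρ, ?_, ?_⟩
    · rwa [Ne, Polynomial.map_eq_zero_iff hρinj]
    · rw [Polynomial.aeval_def, Polynomial.eval₂_map]
      rw [Polynomial.aeval_def] at hp
      exact hp
  have hgen : IntermediateField.adjoin E (T : Set L) = ⊤ := by
    have h1 := IntermediateField.adjoin_adjoin_left ℂ (Set.range (Sum.elim y s)) (T : Set L)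
    have h2 : IntermediateField.adjoin ℂ (Set.range (Sum.elim y s) ∪ (T : Set L)) = ⊤ := by
      rw [eq_top_iff, ← hT]
      exact IntermediateField.adjoin.mono _ _ _ Set.subset_union_right
    rw [h2] at h1
    exact IntermediateField.restrictScalars_injective ℂ (h1.trans
      (IntermediateField.restrictScalars_top).symm)
  have hfin : FiniteDimensional E L := by
    have h1 : FiniteDimensional E (IntermediateField.adjoin E (T : Set L)) :=
      IntermediateField.finiteDimensional_adjoin fun x _ => (hE.isAlgebraic x).isIntegral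
    rw [hgen] at h1
    exact Module.Finite.equiv (IntermediateField.topEquiv (F := E) (E := L)).toLinearEquiv
  have : CharZero E := charZero_of_injective_algebraMap (algebraMap ℂ E).injective
  obtain ⟨θ, hθ⟩ := Field.exists_primitive_element E L
  refine ⟨_, s, θ, hs.1, ?_, hE.isAlgebraic θ⟩
  rw [← Set.union_singleton, ← IntermediateField.adjoin_adjoin_left]
  change (IntermediateField.adjoin E {θ}).restrictScalars ℂ = ⊤
  rw [hθ]
  exact IntermediateField.restrictScalars_top

/-- Proof. Clear the denominators of the minimal polynomial of `θ` over `ℂ(y, s)` (its coefficients are quotients of polynomials in `y, s`).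
`sep`: the minimal polynomial is separable. -/
theorem exists_rpres {n g : ℕ} (y : Fin n → L) (s : Fin g → L) (θ : L)
    (hs : AlgebraicIndependent (Algebra.adjoin ℂ (Set.range y)) s)
    (hgen : IntermediateField.adjoin ℂ (insert θ (Set.range (Sum.elim y s))) = ⊤)
    (hθ : IsAlgebraic (IntermediateField.adjoin ℂ (Set.range (Sum.elim y s))) θ) :
    ∃ f : Polynomial (MvPolynomial (Fin n ⊕ Fin g) ℂ), RPres y s θ f := by
  let E := IntermediateField.adjoin ℂ (Set.range (Sum.elim y s))
  let φ : MvPolynomial (Fin n ⊕ Fin g) ℂ →+* L :=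
    (MvPolynomial.aeval (R := ℂ) (Sum.elim y s)).toRingHom
  have hclear : ∀ p : Polynomial E, ∃ b : MvPolynomial (Fin n ⊕ Fin g) ℂ, φ b ≠ 0 ∧
      ∃ f : Polynomial (MvPolynomial (Fin n ⊕ Fin g) ℂ),
        f.map φ = Polynomial.C (φ b) * p.map (algebraMap E L) := by
    intro p
    induction p using Polynomial.induction_on' with
    | add p q hp hq =>
      obtain ⟨b, hb, f, hf⟩ := hp
      obtain ⟨c, hc, h, hh⟩ := hq
      refine ⟨b * c, ?_, Polynomial.C c * f + Polynomial.C b * h, ?_⟩
      · rw [map_mul]
        exact mul_ne_zero hb hc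
      · rw [Polynomial.map_add, Polynomial.map_mul, Polynomial.map_mul, Polynomial.map_C,
          Polynomial.map_C, hf, hh, Polynomial.map_add, map_mul, Polynomial.C_mul]
        ring
    | monomial k a =>
      have ha : (a : L) ∈ IntermediateField.adjoin ℂ (Set.range (Sum.elim y s)) := a.2
      rw [IntermediateField.mem_adjoin_range_iff] at ha
      obtain ⟨r, t, e⟩ := ha
      by_cases ht : φ t = 0
      · refine ⟨1, ?_, 0, ?_⟩
        · rw [map_one]
          exact one_ne_zero
        · have h0 : (a : L) = 0 := by
            rw [e]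
            change φ r / φ t = 0
            rw [ht, div_zero]
          rw [Polynomial.map_zero, Polynomial.map_monomial]
          change 0 = _ * Polynomial.monomial k (a : L)
          rw [h0, Polynomial.monomial_zero_right, mul_zero]
      · refine ⟨t, ht, Polynomial.monomial k r, ?_⟩
        rw [Polynomial.map_monomial, Polynomial.map_monomial, Polynomial.C_mul_monomial]
        congr 1
        change φ r = φ t * (a : L)
        rw [e]
        change φ r = φ t * (φ r / φ t)
        rw [mul_div_cancel₀ _ ht]
  have : CharZero E := charZero_of_injective_algebraMap (algebraMap ℂ E).injective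
  have hint : IsIntegral E θ := hθ.isIntegral
  obtain ⟨b, hb, f, hf⟩ := hclear (minpoly E θ)
  have heval : ∀ q : Polynomial (MvPolynomial (Fin n ⊕ Fin g) ℂ),
      q.eval₂ φ θ = (q.map φ).eval θ := fun q => (Polynomial.eval_map φ θ).symm
  have haev : ∀ q : Polynomial E, (q.map (algebraMap E L)).eval θ = Polynomial.aeval θ q := by
    intro q
    rw [Polynomial.eval_map, Polynomial.aeval_def]
  refine ⟨f, hs, hgen, ?_, ?_, φ b, hb, hf⟩
  · change f.eval₂ φ θ = 0
    rw [heval, hf, Polynomial.eval_mul, haev, minpoly.aeval, mul_zero]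
  · change (Polynomial.derivative f).eval₂ φ θ ≠ 0
    rw [heval, ← Polynomial.derivative_map, hf, Polynomial.derivative_C_mul,
      Polynomial.derivative_map, Polynomial.eval_mul, haev, Polynomial.eval_C]
    exact mul_ne_zero hb
      ((minpoly.irreducible hint).separable.aeval_derivative_ne_zero (minpoly.aeval _ _))

end Pool.Agent.AbPencil
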