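import Pool.Agent.Lib_MP_1209e6_tv.H0

/-! PIECE H2: extension of homomorphisms by a root. -/

set_option autoImplicit false

namespace Pool.Agent.AbPencil

open Tw

variable {L : Type} [Field L] [Algebra ℂ L]

/-- Proof. `hom_of_rel` for `Sum.elim y s`: `φ : E = ℂ(y, s) → Mer`. `hP.min`: `f(y, s; X) = c * minpoly E θ`; `c` is the leading coefficient,
so it is the image of an element of `E`; apply `φ`: `f(Y, S; X) = φ(c) * (minpoly E θ)^φ` with `φ(c) ≠ 0`. So `e` is a root of
`(minpoly E θ)^φ`, and `φ` extends to `E(θ) = L` (`hP.gen`) with `θ ↦ e` (regard `Mer` as an `E`-algebra via `φ`;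
`IntermediateField.algHomAdjoinIntegralEquiv`, or `AdjoinRoot.lift` / `minpoly` power basis). -/
theorem ext_of_root {n g : ℕ} {y : Fin n → L} {s : Fin g → L} {θ : L}
    {f : Polynomial (MvPolynomial (Fin n ⊕ Fin g) ℂ)} (hP : RPres y s θ f) (Y : Fin n → Mer)
    (S : Fin g → Mer) (h : SameRel (Sum.elim y s) (Sum.elim Y S)) (e : Mer)
    (he : f.eval₂ (MvPolynomial.aeval (Sum.elim Y S)).toRingHom e = 0) :
    ∃ ψ : L →ₐ[ℂ] Mer, (∀ i, ψ (y i) = Y i) ∧ (∀ j, ψ (s j) = S j) ∧ ψ θ = e := by
  classical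
  obtain ⟨φ, hφ⟩ := hom_of_rel (Sum.elim y s) (Sum.elim Y S) h
  have hmem : ∀ i, (Sum.elim y s) i ∈ IntermediateField.adjoin ℂ (Set.range (Sum.elim y s)) :=
    fun i => IntermediateField.subset_adjoin _ _ ⟨i, rfl⟩
  have hφ' : ∀ i, φ ⟨(Sum.elim y s) i, hmem i⟩ = (Sum.elim Y S) i := fun i => hφ i _
  obtain ⟨c, hc, hmin⟩ := hP.min
  have hgen := hP.gen
  have hsep := hP.sep
  revert φ hgen hmin
  generalize hE : IntermediateField.adjoin ℂ (Set.range (Sum.elim y s)) = E at hmem
  intro φ hφ hφ' hmin hgen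
  let evE : MvPolynomial (Fin n ⊕ Fin g) ℂ →ₐ[ℂ] E :=
    MvPolynomial.aeval fun i => ⟨(Sum.elim y s) i, hmem i⟩
  have h1 : (algebraMap E L).comp evE.toRingHom =
      (MvPolynomial.aeval (Sum.elim y s) : MvPolynomial (Fin n ⊕ Fin g) ℂ →ₐ[ℂ] L).toRingHom := by
    have h1' : E.val.comp evE =
        (MvPolynomial.aeval (Sum.elim y s) : MvPolynomial (Fin n ⊕ Fin g) ℂ →ₐ[ℂ] L) := by
      refine MvPolynomial.algHom_ext fun i => ?_
      simp [evE]
    rw [← h1']
    rfl
  have h2 : φ.toRingHom.comp evE.toRingHom =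
      (MvPolynomial.aeval (Sum.elim Y S) : MvPolynomial (Fin n ⊕ Fin g) ℂ →ₐ[ℂ] Mer).toRingHom := by
    have h2' : φ.comp evE =
        (MvPolynomial.aeval (Sum.elim Y S) : MvPolynomial (Fin n ⊕ Fin g) ℂ →ₐ[ℂ] Mer) := by
      refine MvPolynomial.algHom_ext fun i => ?_
      simp only [evE, AlgHom.comp_apply, MvPolynomial.aeval_X]
      exact hφ' i
    rw [← h2']
    rfl
  have hint : IsIntegral E θ := by
    by_contra hni
    rw [minpoly.eq_zero hni, Polynomial.map_zero, mul_zero] at hmin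
    apply hsep
    rw [← Polynomial.eval_map, ← Polynomial.derivative_map, hmin]
    simp
  have hmonic := minpoly.monic hint
  have hinj : Function.Injective (algebraMap E L) := (algebraMap E L).injective
  have h3 : (f.map evE.toRingHom).map (algebraMap E L) =
      Polynomial.C c * (minpoly E θ).map (algebraMap E L) := by
    rw [Polynomial.map_map, h1, hmin]
  have h4 : algebraMap E L (f.map evE.toRingHom).leadingCoeff = c := by
    have h5 := congrArg Polynomial.leadingCoeff h3
    rw [Polynomial.leadingCoeff_map_of_injective hinj, Polynomial.leadingCoeff_mul,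
      Polynomial.leadingCoeff_C, (hmonic.map _).leadingCoeff, mul_one] at h5
    exact h5
  set c' := (f.map evE.toRingHom).leadingCoeff with hc'
  have h5 : f.map evE.toRingHom = Polynomial.C c' * minpoly E θ := by
    apply Polynomial.map_injective _ hinj
    rw [h3, Polynomial.map_mul, Polynomial.map_C, h4]
  have hc0 : c' ≠ 0 := by
    intro h0
    rw [h0, map_zero] at h4
    exact hc h4.symm
  have h6 : (minpoly E θ).eval₂ φ.toRingHom e = 0 := by
    have h7 : (f.map evE.toRingHom).eval₂ φ.toRingHom e = 0 := by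
      rw [Polynomial.eval₂_map, h2]
      exact he
    rw [h5, Polynomial.eval₂_mul, Polynomial.eval₂_C] at h7
    refine (mul_eq_zero.1 h7).resolve_left ?_
    exact (map_ne_zero φ.toRingHom).2 hc0
  letI algE : Algebra E Mer := φ.toRingHom.toAlgebra
  haveI : IsScalarTower ℂ E Mer := IsScalarTower.of_algebraMap_eq fun r => (φ.commutes r).symm
  have hroot : e ∈ (minpoly E θ).aroots Mer := by
    rw [Polynomial.mem_aroots]
    refine ⟨hmonic.ne_zero, ?_⟩
    rw [Polynomial.aeval_def]
    exact h6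
  let ψ0 : IntermediateField.adjoin E {θ} →ₐ[E] Mer :=
    (IntermediateField.algHomAdjoinIntegralEquiv E hint).symm ⟨e, hroot⟩
  have hψ0 : ψ0 (IntermediateField.AdjoinSimple.gen E θ) = e :=
    IntermediateField.algHomAdjoinIntegralEquiv_symm_apply_gen E hint ⟨e, hroot⟩
  have htop : IntermediateField.adjoin E {θ} = ⊤ := by
    apply IntermediateField.restrictScalars_injective ℂ
    rw [IntermediateField.restrictScalars_top]
    rw [← top_le_iff, ← hgen]
    refine IntermediateField.adjoin_le_iff.2 ?_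
    rintro x (rfl | ⟨i, rfl⟩)
    · exact IntermediateField.mem_adjoin_simple_self E x
    · exact (IntermediateField.adjoin E {θ}).algebraMap_mem (⟨_, hmem i⟩ : E)
  have hall : ∀ x : L, x ∈ IntermediateField.adjoin E {θ} := fun x => by
    rw [htop]
    trivial
  let j : L →ₐ[E] IntermediateField.adjoin E {θ} :=
    (AlgHom.id E L).codRestrict (IntermediateField.adjoin E {θ}).toSubalgebra hall
  refine ⟨(ψ0.comp j).restrictScalars ℂ, fun i => ?_, fun i => ?_, ?_⟩
  · have h8 := (ψ0.comp j).commutes (⟨_, hmem (Sum.inl i)⟩ : E)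
    exact h8.trans (hφ' (Sum.inl i))
  · have h8 := (ψ0.comp j).commutes (⟨_, hmem (Sum.inr i)⟩ : E)
    exact h8.trans (hφ' (Sum.inr i))
  · rw [← hψ0]
    rfl

end Pool.Agent.AbPencil
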