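import Pool.Agent.Lib_MP_1209e6_tv.M1
import Pool.Agent.Lib_MP_1209e6_tw.C3
import Pool.Agent.Lib_MP_1209e6_tw.C7

/-! PIECE M4: Hensel's lemma with parameters and continuity of rational functions, for germs. -/

set_option autoImplicit false

open Filter Topology

namespace Pool.Agent.AbPencil

open Tw

private theorem M4_rep (a : Mer) : gz (rep a) 0 = a := by
  rw [gz_zero_eq (rep_mero a), gm_rep]

private theorem M4_aeval {ι : Type} (Y : ι → Mer) (p : MvPolynomial ι ℂ) :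
    MvPolynomial.aeval Y p = gz (fun w => MvPolynomial.aeval (fun i => rep (Y i) w) p) 0 := by
  have h1 := aeval_gz (fun i => rep (Y i)) 0 (fun i => rep_mero (Y i)) p
  have h2 : (fun i => gz (rep (Y i)) 0) = Y := funext fun i => M4_rep (Y i)
  rw [h2] at h1
  exact h1

private theorem M4_ne {f : ℂ → ℂ} (hf : MeromorphicAt f 0) :
    gz f 0 ≠ 0 ↔ ∀ᶠ z in 𝓝[≠] (0 : ℂ), f z ≠ 0 := by
  constructor
  · intro h
    rcases hf.eventually_eq_zero_or_eventually_ne_zero with h1 | h1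
    · exact absurd ((gz_eq_zero hf).2 h1) h
    · exact h1
  · intro h h0
    have h1 := (gz_eq_zero hf).1 h0
    obtain ⟨z, hz1, hz2⟩ := (h.and h1).exists
    exact hz1 hz2

private theorem M4_ord (a b : Mer) :
    meromorphicOrderAt (fun z => rep a z - rep b z) 0 = mo (a - b) := by
  have h : MeromorphicAt (fun z => rep a z - rep b z) 0 := (rep_mero a).sub (rep_mero b)
  have h1 := mo_gz h
  rw [gz_sub (rep_mero a) (rep_mero b), M4_rep, M4_rep] at h1
  exact h1.symm

private theorem M4_eval {ι : Type} (f : Polynomial (MvPolynomial ι ℂ)) (y : ι → ℂ → ℂ)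
    (e : ℂ → ℂ) (hy : ∀ i, MeromorphicAt (y i) 0) (he : MeromorphicAt e 0) :
    MeromorphicAt (fun w => f.eval₂ (MvPolynomial.aeval fun i => y i w).toRingHom (e w)) 0 ∧
    f.eval₂ (MvPolynomial.aeval fun i => gz (y i) 0).toRingHom (gz e 0) =
      gz (fun w => f.eval₂ (MvPolynomial.aeval fun i => y i w).toRingHom (e w)) 0 := by
  obtain ⟨P, hP⟩ := tw_toMv f
  have hh : ∀ i : ι ⊕ Fin 1, MeromorphicAt (Sum.elim y (fun _ => e) i) 0 := by
    rintro (i | i)
    · exact hy i
    · exact he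
  have e1 : ∀ w : ℂ, f.eval₂ (MvPolynomial.aeval fun i => y i w).toRingHom (e w) =
      MvPolynomial.aeval (fun i => (Sum.elim y (fun _ => e) i : ℂ → ℂ) w) P := by
    intro w
    rw [← hP (fun i => y i w) (e w)]
    congr 2
    funext i
    rcases i with i | i <;> rfl
  have e2 : (Sum.elim (fun i => gz (y i) 0) fun _ : Fin 1 => gz e 0) =
      fun i => gz (Sum.elim y (fun _ => e) i) 0 := by
    funext i
    rcases i with i | i <;> rfl
  have e3 : (fun w => f.eval₂ (MvPolynomial.aeval fun i => y i w).toRingHom (e w)) =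
      fun w => MvPolynomial.aeval (fun i => (Sum.elim y (fun _ => e) i : ℂ → ℂ) w) P :=
    funext e1
  constructor
  · rw [e3]
    exact tw_mero P 0 (fun w i => (Sum.elim y (fun _ => e) i : ℂ → ℂ) w) hh
  · rw [e3, ← aeval_gz (Sum.elim y fun _ => e) 0 hh P, ← e2, hP]

private theorem M4_eval' {ι : Type} (f : Polynomial (MvPolynomial ι ℂ)) (Y : ι → Mer)
    (e : ℂ → ℂ) (he : MeromorphicAt e 0) :
    MeromorphicAt (fun w => f.eval₂ (MvPolynomial.aeval fun i => rep (Y i) w).toRingHom (e w)) 0 ∧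
    f.eval₂ (MvPolynomial.aeval Y).toRingHom (gz e 0) =
      gz (fun w => f.eval₂ (MvPolynomial.aeval fun i => rep (Y i) w).toRingHom (e w)) 0 := by
  have h1 := M4_eval f (fun i => rep (Y i)) e (fun i => rep_mero (Y i)) he
  have h2 : (fun i => gz (rep (Y i)) 0) = Y := funext fun i => M4_rep (Y i)
  rw [h2] at h1
  exact h1

/-- Proof. `tw_hensel` and `tw_perturb_ne` at `z₀ = 0` for representatives (`rep`, `aeval_gz`, `gz_zero_eq`; `tw_toMv` turns `f.eval₂` in the value of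
a polynomial in the variables `ι ⊕ Fin 1`). For the derivative at the new root use `tw_perturb_ne` for the polynomial of the derivative in the
variables `ι ⊕ Fin 1` at `(Y, e)`: it gives `Λ'`; apply `tw_hensel` with `B = Λ'`. -/
theorem mer_hensel {ι : Type} [Finite ι] (f : Polynomial (MvPolynomial ι ℂ)) (Y : ι → Mer)
    (e : Mer) (hroot : f.eval₂ (MvPolynomial.aeval Y).toRingHom e = 0)
    (hsep : (Polynomial.derivative f).eval₂ (MvPolynomial.aeval Y).toRingHom e ≠ 0) :
    ∃ Λ : ℤ, ∀ Y' : ι → Mer, (∀ i, (Λ : WithTop ℤ) ≤ mo (Y' i - Y i)) →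
      ∃ e' : Mer, f.eval₂ (MvPolynomial.aeval Y').toRingHom e' = 0 ∧
        (Polynomial.derivative f).eval₂ (MvPolynomial.aeval Y').toRingHom e' ≠ 0 := by
  have he := rep_mero e
  have hroot' : ∀ᶠ z in 𝓝[≠] (0 : ℂ),
      f.eval₂ (MvPolynomial.aeval fun i => rep (Y i) z).toRingHom (rep e z) = 0 := by
    obtain ⟨h1, h2⟩ := M4_eval' f Y (rep e) he
    rw [M4_rep, hroot] at h2
    exact (gz_eq_zero h1).1 h2.symm
  have hsep' : ∀ᶠ z in 𝓝[≠] (0 : ℂ), (Polynomial.derivative f).eval₂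
      (MvPolynomial.aeval fun i => rep (Y i) z).toRingHom (rep e z) ≠ 0 := by
    obtain ⟨h1, h2⟩ := M4_eval' (Polynomial.derivative f) Y (rep e) he
    rw [M4_rep] at h2
    rw [h2] at hsep
    exact (M4_ne h1).1 hsep
  obtain ⟨P, hP⟩ := tw_toMv (Polynomial.derivative f)
  obtain ⟨Λ', hΛ'⟩ := tw_perturb_ne P 0
    (fun z => Sum.elim (fun i => rep (Y i) z) fun _ : Fin 1 => rep e z)
    (by
      rintro (i | i)
      · exact rep_mero (Y i)
      · exact he)
    (by
      filter_upwards [hsep'] with z hz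
      rw [hP]
      exact hz)
  obtain ⟨Λ, hΛ⟩ := tw_hensel f 0 (fun z i => rep (Y i) z) (rep e) (fun i => rep_mero (Y i)) he
    hroot' hsep' Λ'
  refine ⟨max Λ Λ', fun Y' hY' => ?_⟩
  have q1 : ∀ i, (Λ : WithTop ℤ) ≤ meromorphicOrderAt (fun z => rep (Y' i) z - rep (Y i) z) 0 := by
    intro i
    rw [M4_ord]
    exact le_trans (WithTop.coe_le_coe.2 (le_max_left Λ Λ')) (hY' i)
  have q2 : ∀ i, (Λ' : WithTop ℤ) ≤
      meromorphicOrderAt (fun z => rep (Y' i) z - rep (Y i) z) 0 := by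
    intro i
    rw [M4_ord]
    exact le_trans (WithTop.coe_le_coe.2 (le_max_right Λ Λ')) (hY' i)
  obtain ⟨e', he', h1, h2⟩ := hΛ (fun z i => rep (Y' i) z) (fun i => rep_mero (Y' i)) q1
  refine ⟨gz e' 0, ?_, ?_⟩
  · obtain ⟨m1, m2⟩ := M4_eval' f Y' e' he'
    rw [m2]
    exact (gz_eq_zero m1).2 h1
  · obtain ⟨m1, m2⟩ := M4_eval' (Polynomial.derivative f) Y' e' he'
    rw [m2, M4_ne m1]
    have h3 := hΛ' (fun z => Sum.elim (fun i => rep (Y' i) z) fun _ : Fin 1 => e' z)
      (by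
        rintro (i | i)
        · exact rep_mero (Y' i)
        · exact he')
      (by
        rintro (i | i)
        · exact q2 i
        · exact h2)
    filter_upwards [h3] with z hz
    rw [hP] at hz
    exact hz

/-- Proof. `tw_perturb_div` at `0` for representatives. -/
theorem mer_perturb_div {ι : Type} [Finite ι] (p s : MvPolynomial ι ℂ) (Y : ι → Mer)
    (hs : MvPolynomial.aeval Y s ≠ 0) (B : ℤ) :
    ∃ Λ : ℤ, ∀ Y' : ι → Mer, (∀ i, (Λ : WithTop ℤ) ≤ mo (Y' i - Y i)) →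
      MvPolynomial.aeval Y' s ≠ 0 ∧ (B : WithTop ℤ) ≤ mo (MvPolynomial.aeval Y' p /
        MvPolynomial.aeval Y' s - MvPolynomial.aeval Y p / MvPolynomial.aeval Y s) := by
  have hm : ∀ (Z : ι → Mer) (q : MvPolynomial ι ℂ),
      MeromorphicAt (fun w => MvPolynomial.aeval (fun i => rep (Z i) w) q) 0 := fun Z q =>
    tw_mero q 0 (fun z i => rep (Z i) z) fun i => rep_mero (Z i)
  have hs' : ∀ᶠ z in 𝓝[≠] (0 : ℂ), MvPolynomial.aeval (fun i => rep (Y i) z) s ≠ 0 := by
    rw [M4_aeval] at hs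
    exact (M4_ne (hm Y s)).1 hs
  obtain ⟨Λ, hΛ⟩ := tw_perturb_div p s 0 (fun z i => rep (Y i) z) (fun i => rep_mero (Y i)) hs' B
  refine ⟨Λ, fun Y' hY' => ?_⟩
  obtain ⟨h1, h2⟩ := hΛ (fun z i => rep (Y' i) z) (fun i => rep_mero (Y' i)) (by
    intro i
    rw [M4_ord]
    exact hY' i)
  constructor
  · rw [M4_aeval]
    exact (M4_ne (hm Y' s)).2 h1
  · have m1 := hm Y' p
    have m2 := hm Y' s
    have m3 := hm Y p
    have m4 := hm Y s
    have m5 : MeromorphicAt (fun w => MvPolynomial.aeval (fun i => rep (Y' i) w) p /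
      MvPolynomial.aeval (fun i => rep (Y' i) w) s) 0 := m1.div m2
    have m6 : MeromorphicAt (fun w => MvPolynomial.aeval (fun i => rep (Y i) w) p /
      MvPolynomial.aeval (fun i => rep (Y i) w) s) 0 := m3.div m4
    have m7 : MeromorphicAt (fun w => MvPolynomial.aeval (fun i => rep (Y' i) w) p /
      MvPolynomial.aeval (fun i => rep (Y' i) w) s - MvPolynomial.aeval (fun i => rep (Y i) w) p /
      MvPolynomial.aeval (fun i => rep (Y i) w) s) 0 := m5.sub m6
    rw [M4_aeval Y' p, M4_aeval Y' s, M4_aeval Y p, M4_aeval Y s, ← gz_div m1 m2, ← gz_div m3 m4,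
      ← gz_sub m5 m6, mo_gz m7]
    exact h2

end Pool.Agent.AbPencil
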