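import Pool.Agent.Lib_MP_1209e6_tv.M2
import Pool.Agent.Lib_MP_1209e6_tv.M4
import Pool.Agent.Lib_MP_1209e6_tv.H1
import Pool.Agent.Lib_MP_1209e6_tv.H2
import Pool.Agent.Lib_MP_1209e6_tw.C0

/-! Extension of homomorphisms to `Mer` which are close to a given point (assembly). -/

set_option autoImplicit false

namespace Pool.Agent.AbPencil

open Tw

variable {L : Type} [Field L] [Algebra ℂ L]

/-- Close to a smooth point of the presentation homomorphisms extend. -/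
theorem ext_core {n g : ℕ} {y : Fin n → L} {s : Fin g → L} {θ : L}
    {f : Polynomial (MvPolynomial (Fin n ⊕ Fin g) ℂ)} (hP : RPres y s θ f) (Y₀ : Fin n → Mer)
    (S₀ : Fin g → Mer) (e₀ : Mer)
    (hroot : f.eval₂ (MvPolynomial.aeval (Sum.elim Y₀ S₀)).toRingHom e₀ = 0)
    (hsep : (Polynomial.derivative f).eval₂ (MvPolynomial.aeval (Sum.elim Y₀ S₀)).toRingHom e₀ ≠ 0) :
    ∃ Λ : ℤ, ∀ Y : Fin n → Mer, SameRel y Y → (∀ i, (Λ : WithTop ℤ) ≤ mo (Y i - Y₀ i)) →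
      ∃ ψ : L →ₐ[ℂ] Mer, ∀ i, ψ (y i) = Y i := by
  obtain ⟨Λ, hΛ⟩ := mer_hensel f (Sum.elim Y₀ S₀) e₀ hroot hsep
  refine ⟨Λ, fun Y hY hc => ?_⟩
  obtain ⟨S, hS, hind⟩ := mer_indep Y S₀ Λ
  obtain ⟨e, he, -⟩ := hΛ (Sum.elim Y S) (by
    rintro (i | j)
    · exact hc i
    · exact hS j)
  obtain ⟨ψ, hψ, -⟩ := ext_of_root hP Y S (same_indep y s hP.ind Y S hind hY) e he
  exact ⟨ψ, hψ⟩

/-- Homomorphisms close to a homomorphism of `L` extend to `L`. -/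
theorem ext_near (hfg : ∃ T : Finset L, IntermediateField.adjoin ℂ (T : Set L) = ⊤) {n : ℕ}
    (y : Fin n → L) (ε : L →ₐ[ℂ] Mer) :
    ∃ Λ : ℤ, ∀ Y : Fin n → Mer, SameRel y Y → (∀ i, (Λ : WithTop ℤ) ≤ mo (Y i - ε (y i))) →
      ∃ ψ : L →ₐ[ℂ] Mer, ∀ i, ψ (y i) = Y i := by
  obtain ⟨g, s, θ, hs, hgen, hθ⟩ := exists_basis hfg y
  obtain ⟨f, hP⟩ := exists_rpres y s θ hs hgen hθ
  have h1 : (fun i => ε (Sum.elim y s i)) = Sum.elim (fun i => ε (y i)) fun j => ε (s j) := by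
    funext i
    rcases i with i | i <;> rfl
  have h2 : ∀ q : Polynomial (MvPolynomial (Fin n ⊕ Fin g) ℂ),
      q.eval₂ (MvPolynomial.aeval (Sum.elim (fun i => ε (y i)) fun j => ε (s j))).toRingHom (ε θ) =
        ε (q.eval₂ (MvPolynomial.aeval (Sum.elim y s)).toRingHom θ) := by
    intro q
    change _ = ε.toRingHom _
    rw [Polynomial.hom_eval₂, ← h1]
    congr 1
    ext p
    · simp
    · simp
  refine ext_core hP (fun i => ε (y i)) (fun j => ε (s j)) (ε θ) ?_ ?_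
  · rw [h2, hP.root, map_zero]
  · rw [h2]
    exact (map_ne_zero ε).2 hP.sep

/-- A homomorphism `ℂ(y) → Mer` extends to `L` if there are germs for all finite families of elements of `L`. -/
theorem ext_arc (hfg : ∃ T : Finset L, IntermediateField.adjoin ℂ (T : Set L) = ⊤) {n : ℕ}
    (y : Fin n → L) (Y : Fin n → Mer) (hY : SameRel y Y)
    (hgerm : ∀ (N : ℕ) (q : Fin N → L), ∃ Q : Fin N → Mer,
      ∀ p : MvPolynomial (Fin n ⊕ Fin N) ℂ, MvPolynomial.aeval (Sum.elim y q) p = 0 →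
        MvPolynomial.aeval (Sum.elim Y Q) p = 0) :
    ∃ ψ : L →ₐ[ℂ] Mer, ∀ i, ψ (y i) = Y i := by
  obtain ⟨g, s, θ, hs, hgen, hθ⟩ := exists_basis hfg y
  obtain ⟨f, hP⟩ := exists_rpres y s θ hs hgen hθ
  obtain ⟨f₁, hf₁⟩ := tw_toMv f
  obtain ⟨f₂, hf₂⟩ := tw_toMv (Polynomial.derivative f)
  set a : L := (Polynomial.derivative f).eval₂ (MvPolynomial.aeval (Sum.elim y s)).toRingHom θ
    with ha
  have ha0 : a ≠ 0 := hP.sep
  obtain ⟨Q, hQ⟩ := hgerm (g + 2) (Fin.append s ![θ, a⁻¹])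
  let σ : (Fin n ⊕ Fin g) ⊕ Fin 1 → Fin n ⊕ Fin (g + 2) :=
    Sum.elim (Sum.map id (Fin.castAdd 2)) fun _ => Sum.inr (Fin.natAdd g 0)
  have hσ1 : (Sum.elim y (Fin.append s ![θ, a⁻¹]) ∘ σ) =
      Sum.elim (Sum.elim y s) fun _ => θ := by
    funext i
    rcases i with (i | i) | i
    · rfl
    · simp [σ]
    · simp [σ]
  have hσ2 : (Sum.elim Y Q ∘ σ) =
      Sum.elim (Sum.elim Y fun j => Q (Fin.castAdd 2 j)) fun _ => Q (Fin.natAdd g 0) := by
    funext i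
    rcases i with (i | i) | i <;> rfl
  have h1 : MvPolynomial.aeval (Sum.elim Y Q) (MvPolynomial.rename σ f₁) = 0 := by
    refine hQ _ ?_
    rw [MvPolynomial.aeval_rename, hσ1, hf₁, hP.root]
  have h2 : MvPolynomial.aeval (Sum.elim Y Q) (MvPolynomial.rename σ f₂ *
      MvPolynomial.X (Sum.inr (Fin.natAdd g 1)) - 1) = 0 := by
    refine hQ _ ?_
    rw [map_sub, map_mul, MvPolynomial.aeval_rename, hσ1, hf₂, ← ha, MvPolynomial.aeval_X, map_one,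
      Sum.elim_inr, Fin.append_right]
    change a * a⁻¹ - 1 = 0
    rw [mul_inv_cancel₀ ha0, sub_self]
  rw [MvPolynomial.aeval_rename, hσ2, hf₁] at h1
  rw [map_sub, map_mul, MvPolynomial.aeval_rename, hσ2, hf₂, map_one, sub_eq_zero] at h2
  obtain ⟨Λ, hΛ⟩ := ext_core hP Y (fun j => Q (Fin.castAdd 2 j)) (Q (Fin.natAdd g 0)) h1
    (fun h0 => by rw [h0, zero_mul] at h2; exact zero_ne_one h2)
  refine hΛ Y hY fun i => ?_
  rw [sub_self, mo_eq_top.2 rfl]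
  exact le_top

end Pool.Agent.AbPencil
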