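import Pool.Agent.Lib_MP_1209e6_tv.M1

/-! PIECE T1: realizations from generators. -/

set_option autoImplicit false

open Filter Topology

namespace Pool.Agent.AbPencil

open Tw

variable {L : Type} [Field L] [Algebra ℂ L]

theorem T1_mero_aeval {ι : Type} (h : ι → ℂ → ℂ) (z : ℂ) (hh : ∀ i, MeromorphicAt (h i) z)
    (p : MvPolynomial ι ℂ) : MeromorphicAt (fun w => MvPolynomial.aeval (fun i => h i w) p) z := by
  induction p using MvPolynomial.induction_on with
  | C a =>
    simp only [MvPolynomial.aeval_C, Algebra.algebraMap_self, RingHom.id_apply]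
    exact MeromorphicAt.const a z
  | add p q hp hq =>
    simp only [map_add]
    exact hp.fun_add hq
  | mul_X p i hp =>
    simp only [map_mul, MvPolynomial.aeval_X]
    exact hp.fun_mul (hh i)

/-- Proof. For `a ∈ F = ℂ(y)` write `a = P(y) / Q(y)` with polynomials `P`, `Q` (`IntermediateField.mem_adjoin_range_iff`) and put
`H a = P(h) / Q(h)`; use `aeval_gz`, `gz_div`. -/
theorem real_of_tuple {ι : Type} (y : ι → L) (h : ι → ℂ → ℂ) (hh : ∀ i z, MeromorphicAt (h i) z)
    (F : IntermediateField ℂ L) (hF : F = IntermediateField.adjoin ℂ (Set.range y))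
    (hfg : ∃ (n : ℕ) (y' : Fin n → L), F = IntermediateField.adjoin ℂ (Set.range y'))
    (hε : ∀ z, ∃ ε : L →ₐ[ℂ] Mer, ∀ i, ε (y i) = gz (h i) z) : Realized F := by
  refine ⟨hfg, ?_⟩
  have hPQ : ∀ a : F, ∃ P Q : MvPolynomial ι ℂ,
      (a : L) = MvPolynomial.aeval y P / MvPolynomial.aeval y Q := by
    intro a
    have ha : (a : L) ∈ IntermediateField.adjoin ℂ (Set.range y) := hF ▸ a.2
    exact (IntermediateField.mem_adjoin_range_iff ℂ y (a : L)).1 ha
  choose P Q hPQ using hPQ
  refine ⟨fun a w => MvPolynomial.aeval (fun i => h i w) (P a) /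
    MvPolynomial.aeval (fun i => h i w) (Q a), fun a z => ?_, fun z => ?_⟩
  · exact (T1_mero_aeval h z (fun i => hh i z) (P a)).fun_div
      (T1_mero_aeval h z (fun i => hh i z) (Q a))
  · obtain ⟨ε, hε⟩ := hε z
    refine ⟨ε, fun a => ?_⟩
    have key : ∀ p : MvPolynomial ι ℂ, ε (MvPolynomial.aeval y p) =
        gz (fun w => MvPolynomial.aeval (fun i => h i w) p) z := by
      intro p
      rw [← aeval_gz h z (fun i => hh i z) p]
      have h1 : ε (MvPolynomial.aeval y p) = MvPolynomial.aeval (fun i => ε (y i)) p :=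
        MvPolynomial.comp_aeval_apply y ε p
      rw [h1]
      congr 2
      funext i
      exact hε i
    rw [hPQ a, map_div₀, key, key,
      gz_div (T1_mero_aeval h z (fun i => hh i z) (P a)) (T1_mero_aeval h z (fun i => hh i z) (Q a))]

end Pool.Agent.AbPencil
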