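import Pool.Agent.Lib_MP_1209e6_tw.Main
import Pool.Agent.Lib_MP_1209e6_tv.H3
import Pool.Agent.Lib_MP_1209e6_tv.T1

/-! The base of the tower (assembly). -/

set_option autoImplicit false

open Filter Topology

namespace Pool.Agent.AbPencil

open Tw Pool.Agent.Campana Pool.Agent.CampanaFlow Pool.Agent.AbFib

/-- relations of functions and of their germs -/
theorem aeval_gz_zero {ι : Type} (u : ℂ → ι → ℂ) (z : ℂ) (hu : ∀ i, MeromorphicAt (fun w => u w i) z)
    (p : MvPolynomial ι ℂ) : MvPolynomial.aeval (fun i => gz (fun w => u w i) z) p = 0 ↔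
      ∀ᶠ w in 𝓝[≠] z, MvPolynomial.aeval (u w) p = 0 := by
  have hm : MeromorphicAt (fun w => MvPolynomial.aeval (u w) p) z := tw_mero p z u hu
  rw [aeval_gz (fun i w => u w i) z hu, gz_eq_zero hm]

/-- the germs of a dense curve have the same relations -/
theorem same_of_dense {L : Type} [Field L] [Algebra ℂ L] {n : ℕ} {t : Fin n → L}
    {U : ℂ → Fin n → ℂ} (hU : IsDenseCurve t U) (hUm : ∀ a z, MeromorphicAt (fun w => U w a) z)
    (z : ℂ) : SameRel t fun a => gz (fun w => U w a) z := by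
  intro p
  have hm : ∀ z, MeromorphicAt (fun w => MvPolynomial.aeval (U w) p) z := fun z =>
    tw_mero p z U fun a => hUm a z
  rw [hU.2 p]
  constructor
  · intro h
    exact (aeval_gz_zero U z (fun a => hUm a z) p).2 (h z)
  · intro h z₀
    have h1 := (aeval_gz_zero U z (fun a => hUm a z) p).1 h
    have h2 := (gz_eq_zero (hm z)).2 h1
    exact (gz_eq_zero (hm z₀)).1 ((gz_zero_iff hm z z₀).1 h2)

theorem real_base {K : Type} [Field K] [Algebra ℂ K] (T₀ : Finset K)
    (hT₀ : IntermediateField.adjoin ℂ (T₀ : Set K) = ⊤) (hb : PencilBound K) (t : Fin 2 → K)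
    (ht : IsBase t) (r : ℕ) (F : IntermediateField ℂ (KW K r))
    (hF : F = IntermediateField.adjoin ℂ (Set.range fun a => algebraMap K (KW K r) (t a))) :
    Realized F := by
  obtain ⟨T₁, hT₁⟩ := tw_fg T₀ hT₀ r
  obtain ⟨U, ν, hU, hloc⟩ := tw_base T₀ hT₀ hb t ht r
  set tL : Fin 2 → KW K r := fun a => algebraMap K (KW K r) (t a) with htL
  have hUL : IsDenseCurve tL U := tw_dense_ext hU
  have hUm : ∀ a z, MeromorphicAt (fun w => U w a) z := fun a z => by
    obtain ⟨k, hk⟩ := hU.1 z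
    exact ⟨k, analyticAt_pi_iff.1 hk a⟩
  refine real_of_tuple tL (fun a w => U w a) hUm F hF ⟨2, tL, hF⟩ fun z => ?_
  refine ext_arc ⟨T₁, hT₁⟩ tL (fun a => gz (fun w => U w a) z) (same_of_dense hUL hUm z) ?_
  intro N q
  obtain ⟨Q, hQ, hR⟩ := tw_germs T₀ hT₀ t U hU z (ν z) (hloc z) q
  refine ⟨fun l => gz (fun w => Q w l) z, fun p hp => ?_⟩
  have h1 := hR p hp
  have h2 := (aeval_gz_zero (fun w => Sum.elim (U w) (Q w)) z (by
    rintro (i | i)
    · exact hUm i z
    · exact hQ i) p).2 h1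
  have h3 : (fun i => gz (fun w => Sum.elim (U w) (Q w) i) z) =
      Sum.elim (fun a => gz (fun w => U w a) z) fun l => gz (fun w => Q w l) z := by
    funext i
    rcases i with i | i <;> rfl
  rwa [h3] at h2

end Pool.Agent.AbPencil
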