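import Mathlib

/-! PIECE G0: the transcendence degree of `F(d)`. -/

set_option autoImplicit false

namespace Pool.Agent.AbPencil

open IntermediateField.algebraAdjoinAdjoin in
private theorem line_trdeg_G0 {K L : Type} [Field K] [Field L] [Algebra K L] (d : L) :
    Algebra.trdeg K (IntermediateField.adjoin K {d}) ≤ 1 := by
  have h1 : Algebra.trdeg K (Algebra.adjoin K {d}) ≤ 1 := by
    have hs : Function.Surjective
        ((Polynomial.aeval (R := K) (⟨d, Algebra.subset_adjoin (Set.mem_singleton d)⟩ :
          Algebra.adjoin K {d})) : Polynomial K →ₐ[K] Algebra.adjoin K {d}) := by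
      rintro ⟨x, hx⟩
      rw [Algebra.adjoin_singleton_eq_range_aeval] at hx
      obtain ⟨p, hp⟩ := hx
      refine ⟨p, Subtype.ext ?_⟩
      have h := Polynomial.aeval_algHom_apply (Algebra.adjoin K {d}).val
        (⟨d, Algebra.subset_adjoin (Set.mem_singleton d)⟩ : Algebra.adjoin K {d}) p
      exact h.symm.trans hp
    have h2 := trdeg_le_of_surjective _ hs
    rwa [Polynomial.trdeg_of_isDomain] at h2
  have h3 := trdeg_add_eq K (Algebra.adjoin K {d})
    (A := IntermediateField.adjoin K {d})
  have h4 : Algebra.trdeg (Algebra.adjoin K {d}) (IntermediateField.adjoin K {d}) = 0 :=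
    trdeg_eq_zero
  rw [h4, add_zero] at h3
  rw [← h3]
  exact h1

/-- Proof. The intermediate field is `F⟮d⟯`, of transcendence degree at most one over `F`. -/
theorem line_trdeg {L : Type} [Field L] [Algebra ℂ L] (F : IntermediateField ℂ L) (d : L) :
    ∀ a ∈ IntermediateField.adjoin ℂ (insert d (F : Set L)),
      ∀ b ∈ IntermediateField.adjoin ℂ (insert d (F : Set L)), ¬ AlgebraicIndependent F ![a, b] := by
  have key : ∀ a ∈ IntermediateField.adjoin ℂ (insert d (F : Set L)),
      a ∈ IntermediateField.adjoin F {d} := by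
    have hle : IntermediateField.adjoin ℂ (insert d (F : Set L)) ≤
        (IntermediateField.adjoin F {d}).restrictScalars ℂ := by
      rw [IntermediateField.adjoin_le_iff]
      intro x hx
      rcases Set.mem_insert_iff.1 hx with rfl | hx
      · exact IntermediateField.subset_adjoin F {x} (Set.mem_singleton x)
      · exact (IntermediateField.adjoin F {d}).algebraMap_mem (⟨x, hx⟩ : F)
    intro a ha
    exact hle ha
  intro a ha b hb hab
  have ha' := key a ha
  have hb' := key b hb
  have hind : AlgebraicIndependent F
      (![(⟨a, ha'⟩ : IntermediateField.adjoin F {d}), ⟨b, hb'⟩]) := by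
    have hcomp : ((IntermediateField.adjoin F {d}).val : IntermediateField.adjoin F {d} → L) ∘
        (![(⟨a, ha'⟩ : IntermediateField.adjoin F {d}), ⟨b, hb'⟩]) = ![a, b] := by
      funext i
      fin_cases i <;> rfl
    have := (AlgHom.algebraicIndependent_iff (x := (![(⟨a, ha'⟩ : IntermediateField.adjoin F {d}),
      ⟨b, hb'⟩])) (IntermediateField.adjoin F {d}).val
      (IntermediateField.adjoin F {d}).val.injective)
    rw [hcomp] at this
    exact this.1 hab
  have h1 := hind.cardinalMk_le_trdeg
  have h2 := h1.trans (line_trdeg_G0 (K := F) d)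
  rw [Cardinal.mk_fin] at h2
  have : (2 : ℕ) ≤ 1 := by exact_mod_cast h2
  omega

end Pool.Agent.AbPencil
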