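import Pool.Agent.Lib_MP_1209e6_tv.A7
import Pool.Agent.Lib_MP_1209e6_tv.B0
import Pool.Agent.Lib_MP_1209e6_tv.G0
import Pool.Agent.Lib_MP_1209e6_tv.G12
import Pool.Agent.Lib_MP_1209e6_sp.N5

/-! Assembly: special varieties with a tower over a pencil. -/

set_option autoImplicit false

open Filter Topology

namespace Pool.Agent.AbPencil

open Tw Pool.Agent.Campana Pool.Agent.CampanaFlow Pool.Agent.AbFib

variable {L : Type} [Field L] [Algebra ℂ L]

/-- the germs which are homomorphisms of `⊤` lift -/
theorem germsLift_top (F : IntermediateField ℂ L) : GermsLift F ⊤ ∅ := by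
  refine ⟨∅, fun a ha => absurd ha (Finset.notMem_empty a), fun φ _ _ => ?_⟩
  exact ⟨φ.comp IntermediateField.topEquiv.symm.toAlgHom, fun a => rfl⟩

theorem fg_insert {F F' : IntermediateField ℂ L} (d : L)
    (hF : ∃ (n : ℕ) (y : Fin n → L), F = IntermediateField.adjoin ℂ (Set.range y))
    (hF' : F' = IntermediateField.adjoin ℂ (insert d (F : Set L))) :
    ∃ (n : ℕ) (y : Fin n → L), F' = IntermediateField.adjoin ℂ (Set.range y) := by
  obtain ⟨n, y, rfl⟩ := hF
  exact ⟨n + 1, Fin.append y fun _ : Fin 1 => d, by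
    rw [range_append, hF', adjoin_insert_range]⟩

theorem fg_abelian {F F' : IntermediateField ℂ L} (h : IsAbelianOver F F') :
    F ≤ F' ∧ ∃ (n : ℕ) (y : Fin n → L), F' = IntermediateField.adjoin ℂ (Set.range y) := by
  obtain ⟨n, N, t, x, hab, hFt⟩ := h
  constructor
  · rw [hFt, IntermediateField.adjoin_le_iff]
    rintro _ ⟨i, rfl⟩
    exact (t i).2
  · refine ⟨n + (N + 1), Fin.append (fun i => (t i : L)) fun l => ((x l / x 0 : F') : L), ?_⟩
    rw [range_append]
    have e1 : (fun i => ((co t x 0 i : F') : L)) =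
        Sum.elim (fun i => (t i : L)) fun l => ((x l / x 0 : F') : L) := by
      funext i
      rcases i with i | i <;> rfl
    rw [← e1]
    exact adjoin_coe (co t x 0) hab.gen

/-- a step -/
theorem real_step (hfg : ∃ T : Finset L, IntermediateField.adjoin ℂ (T : Set L) = ⊤)
    {F F' : IntermediateField ℂ L} (hF : Realized F) (h : LineStep F F' ∨ EllipticStep F F') :
    Realized F' := by
  rcases h with ⟨d, hd, hF', hNM⟩ | ⟨hab, htr, hNM⟩
  · have hle : F ≤ F' := by
      rw [hF']
      exact fun a ha => IntermediateField.subset_adjoin _ _ (Or.inr ha)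
    refine line_step hfg hF d hd hF' (germs_lift hfg hle (fg_insert d hF.fg hF') ?_ _ hNM)
    intro a ha b hb
    rw [hF'] at ha hb
    exact line_trdeg F d a ha b hb
  · obtain ⟨hle, hfg'⟩ := fg_abelian hab
    exact ab_step hfg hF hab (germs_lift hfg hle hfg' htr _ hNM)

/-- Towers over a pencil all of whose orbifold bases are not of general type. -/
theorem tower_of_bound {m : ℕ} (P : Ideal (MvPolynomial (Fin (m + 1)) ℂ)) [P.IsPrime]
    (hP : IsVariety P) (t : Fin 2 → FunField P) (ht : IsBase t) (h : IsTower t)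
    (hb : PencilBound (FunField P)) : BrodySpecial P := by
  obtain ⟨T₀, hT₀⟩ := funField_fg P
  obtain ⟨r, s, F, hF0, hstep, hlast⟩ := h
  obtain ⟨T₁, hT₁⟩ := tw_fg T₀ hT₀ r
  have h0 : Realized (F 0) := real_base T₀ hT₀ hb t ht r (F 0) hF0
  have hi : ∀ i, i ≤ s → Realized (F i) := by
    intro i
    induction i with
    | zero => exact fun _ => h0
    | succ i ih => exact fun hi => real_step ⟨T₁, hT₁⟩ (ih (by omega)) (hstep i (by omega))
  have htop : Realized (⊤ : IntermediateField ℂ (KW (FunField P) r)) :=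
    ab_step ⟨T₁, hT₁⟩ (hi s le_rfl) hlast (germsLift_top (F s))
  exact brody_of_real P hP (IsScalarTower.toAlgHom ℂ (FunField P) (KW (FunField P) r)) htop

/-- Towers over a pencil: special implies Brody-special, and a criterion. -/
theorem main_tv {m : ℕ} (P : Ideal (MvPolynomial (Fin (m + 1)) ℂ)) [P.IsPrime]
    (hP : IsVariety P) (t : Fin 2 → FunField P) (ht : IsBase t) (h : IsTower t)
    (hs : SpecialField (FunField P)) : BrodySpecial P :=
  tower_of_bound P hP t ht h fun T hT μ h1 h2 => special_bound T hT hs μ h1 h2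

theorem main_tv_iff {m : ℕ} (P : Ideal (MvPolynomial (Fin (m + 1)) ℂ)) [P.IsPrime]
    (hP : IsVariety P) (t : Fin 2 → FunField P) (ht : IsBase t) (h : IsTower t) :
    BrodySpecial P ↔ PencilBound (FunField P) :=
  ⟨fun hB T hT μ h1 h2 => sum_le_two_of_brody P hP hB T hT μ h1 h2, tower_of_bound P hP t ht h⟩

end Pool.Agent.AbPencil
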