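import Pool.Agent.Lib_MP_1209e6_ab.E4

/-! PIECE A1: gluing with jets. -/

set_option autoImplicit false

open Filter Topology

namespace Pool.Agent.AbFib

/-- Proof. Apply `GlueData.exists_section` to the modified data with `act' z τ = act z (E z • τ)`, the larger discrete set `Bb`, and
`Sec' a z` if and only if `Sec a z` and, if `z ∈ Bb`, there is `τ` analytic at `z` with `a = act w (E w • τ w) (α z w)` near `z`.
`evt`: near `z` there are no points of `Bb` except possibly `z`. `hact`, for `z ∈ Bb`: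
`act w (E w • σ w) (act w (E w • τ w) (α z w)) = act w (E w • (σ w + τ w)) (α z w)` by `add` (and `evt` for `α z`). `loc`: `α z` for `z ∈ Bb`
(`zero`). `trans`: divide the solution by `E`, which has no zeros off `Bb`. -/
theorem glue_jets {g : ℕ} {M : Type} (G : GlueData g M) (Bb : Set ℂ)
    (hB : ∀ z, ∀ᶠ w in 𝓝[≠] z, w ∉ Bb) (hGB : G.B ⊆ Bb) (E : ℂ → ℂ) (hE : Differentiable ℂ E)
    (hE0 : ∀ z, z ∉ Bb → E z ≠ 0) (α : ℂ → ℂ → M) (hα : ∀ z ∈ Bb, G.Sec (α z) z) :
    ∃ a : ℂ → M, (∀ z, G.Sec a z) ∧ ∀ z ∈ Bb, ∃ τ : ℂ → Fin g → ℂ, AnalyticAt ℂ τ z ∧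
      a =ᶠ[𝓝 z] fun w => G.act w (E w • τ w) (α z w) := by
  have hEa : ∀ z, AnalyticAt ℂ E z := fun z => hE.analyticAt z
  let D : GlueData g M :=
    { act := fun z τ m => G.act z (E z • τ) m
      Sec := fun a z => G.Sec a z ∧ (z ∈ Bb → ∃ τ : ℂ → Fin g → ℂ, AnalyticAt ℂ τ z ∧
        a =ᶠ[𝓝 z] fun w => G.act w (E w • τ w) (α z w))
      B := Bb
      disc := hB
      congr := by
        intro a a' z h ha
        refine ⟨G.congr a a' z h ha.1, fun hz => ?_⟩
        obtain ⟨τ, hτ, h'⟩ := ha.2 hz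
        exact ⟨τ, hτ, h.symm.trans h'⟩
      evt := by
        intro a z ha
        filter_upwards [G.evt a z ha.1, eventually_nhdsWithin_iff.1 (hB z)] with w h1 h2
        refine ⟨h1, fun hw => ?_⟩
        by_cases hwz : w = z
        · subst hwz
          exact ha.2 hw
        · exact absurd hw (h2 hwz)
      hact := by
        intro a τ z ha hτ
        refine ⟨G.hact a (fun w => E w • τ w) z ha.1 ((hEa z).smul hτ), fun hz => ?_⟩
        obtain ⟨σ, hσ, h'⟩ := ha.2 hz
        refine ⟨fun w => τ w + σ w, hτ.add hσ, ?_⟩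
        filter_upwards [h', G.evt (α z) z (hα z hz)] with w h1 h2
        rw [h1, smul_add, G.add (α z) w _ _ h2]
      add := by
        intro a z σ τ ha
        change G.act z (E z • (σ + τ)) (a z) = G.act z (E z • σ) (G.act z (E z • τ) (a z))
        rw [smul_add, G.add a z _ _ ha.1]
      zero := by
        intro a z ha
        change G.act z (E z • (0 : Fin g → ℂ)) (a z) = a z
        rw [smul_zero, G.zero a z ha.1]
      loc := by
        intro z
        by_cases hz : z ∈ Bb
        · refine ⟨α z, hα z hz, fun _ => ⟨fun _ => 0, analyticAt_const, ?_⟩⟩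
          filter_upwards [G.evt (α z) z (hα z hz)] with w hw
          rw [smul_zero, G.zero (α z) w hw]
        · obtain ⟨a, ha⟩ := G.loc z
          exact ⟨a, ha, fun h => absurd h hz⟩
      trans := by
        intro z₀ z₁ a b h
        obtain ⟨τ, hτ⟩ := G.trans z₀ z₁ a b fun z hz =>
          ⟨fun hb => (h z hz).1 (hGB hb), (h z hz).2.1.1, (h z hz).2.2.1⟩
        refine ⟨fun w => (E w)⁻¹ • τ w, fun z hz => ⟨?_, ?_⟩⟩
        · exact ((hEa z).inv (hE0 z (h z hz).1)).smul (hτ z hz).1
        · filter_upwards [(hτ z hz).2,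
            (hEa z).continuousAt.eventually_ne (hE0 z (h z hz).1)] with w h1 h2
          change G.act w (E w • ((E w)⁻¹ • τ w)) (a w) = b w
          rw [smul_inv_smul₀ h2, h1] }
  obtain ⟨a, ha⟩ := D.exists_section
  exact ⟨a, fun z => (ha z).1, fun z hz => (ha z).2 hz⟩

end Pool.Agent.AbFib
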