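import Pool.Agent.Lib_MP_1209e6_ab.B1

/-! PIECE A3: small flows move sections little. -/

set_option autoImplicit false

open Filter Topology

namespace Pool.Agent.AbFib

open Pool.Agent.CampanaFlow MvPolynomial

variable {K : Type} [Field K] [Algebra ℂ K] {n N g : ℕ} {F : Fam n N g K}

/-- an analytic function which is `O((w - z)^k)` has order at least `k` -/
private theorem order_of_bound {f : ℂ → ℂ} {z : ℂ} (hf : AnalyticAt ℂ f z) (k : ℕ) (C : ℝ)
    (h : ∀ᶠ w in 𝓝 z, ‖f w‖ ≤ C * ‖w - z‖ ^ k) : (k : ℕ∞) ≤ analyticOrderAt f z := by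
  by_cases htop : analyticOrderAt f z = ⊤
  · rw [htop]
    exact le_top
  obtain ⟨m, hm⟩ := ENat.ne_top_iff_exists.1 htop
  obtain ⟨g, hg, hg0, hfg⟩ := (hf.analyticOrderAt_eq_natCast).1 hm.symm
  rw [← hm]
  by_contra hlt
  rw [Nat.cast_le, not_le] at hlt
  apply hg0
  rw [← norm_le_zero_iff]
  have h1 : Tendsto (fun w => ‖g w‖) (𝓝[≠] z) (𝓝 ‖g z‖) :=
    (hg.continuousAt.norm.tendsto).mono_left nhdsWithin_le_nhds
  have h2 : Tendsto (fun w => C * ‖w - z‖ ^ (k - m)) (𝓝[≠] z) (𝓝 0) := by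
    have hc : Continuous fun w : ℂ => C * ‖w - z‖ ^ (k - m) := by fun_prop
    have h3 := (hc.tendsto z).mono_left (nhdsWithin_le_nhds (s := {z}ᶜ))
    have h0 : C * ‖z - z‖ ^ (k - m) = 0 := by
      rw [sub_self, norm_zero, zero_pow (by omega), mul_zero]
    rwa [h0] at h3
  refine le_of_tendsto_of_tendsto h1 h2 ?_
  filter_upwards [self_mem_nhdsWithin, nhdsWithin_le_nhds h, nhdsWithin_le_nhds hfg] with w hw hw1 hw2
  have hpos : 0 < ‖w - z‖ := norm_pos_iff.2 (sub_ne_zero.2 hw)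
  rw [hw2, norm_smul, norm_pow] at hw1
  have hkm : ‖w - z‖ ^ k = ‖w - z‖ ^ m * ‖w - z‖ ^ (k - m) := by
    rw [← pow_add]
    congr 1
    omega
  rw [hkm] at hw1
  have h4 : 0 < ‖w - z‖ ^ m := pow_pos hpos _
  refine le_of_mul_le_mul_left ?_ h4
  calc ‖w - z‖ ^ m * ‖g w‖ ≤ C * (‖w - z‖ ^ m * ‖w - z‖ ^ (k - m)) := hw1
    _ = ‖w - z‖ ^ m * (C * ‖w - z‖ ^ (k - m)) := by ring

/-- a function of order at least `k` is `O((w - z)^k)` -/
private theorem bound_of_order {f : ℂ → ℂ} {z : ℂ} (hf : AnalyticAt ℂ f z) (k : ℕ)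
    (h : (k : ℕ∞) ≤ analyticOrderAt f z) :
    ∃ C : ℝ, 0 ≤ C ∧ ∀ᶠ w in 𝓝 z, ‖f w‖ ≤ C * ‖w - z‖ ^ k := by
  obtain ⟨g, hg, hfg⟩ := (natCast_le_analyticOrderAt hf).1 h
  refine ⟨‖g z‖ + 1, by positivity, ?_⟩
  have h1 : ∀ᶠ w in 𝓝 z, ‖g w‖ < ‖g z‖ + 1 :=
    hg.continuousAt.norm.tendsto.eventually_lt_const (lt_add_one _)
  filter_upwards [h1, hfg] with w hw1 hw2
  rw [hw2, norm_smul, norm_pow, mul_comm]
  exact mul_le_mul_of_nonneg_right hw1.le (by positivity)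

/-- Proof. `τ z = 0`, so `pm (v z) = pm (V z)` (`zero`; `v z ∈ F.fib (u z)` by `hfib.self_of_nhds`) and `V z j ≠ 0`. Near `z`, `v w` may be divided by `v w j` (`F.fib_smul`,
`pm_smul`). `expand` for a bound `M` of `‖u w‖`, `‖v w / v w j‖` near `z`: for `w` near `z` there is `y ∈ F.fib (u w)` with `y j = 1`,
`Φ (u w) (τ w) (pm (v w)) = pm y` (so `y l = V w l / V w j`) and `‖y l - v w l / v w j‖ ≤ C' ‖τ w‖` (the `P i j l` are bounded on bounded sets).
`‖τ w‖ ≤ C'' ‖w - z‖^k`, so the difference, which is analytic at `z`, has order at least `k`. -/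
theorem flow_close (Φ : FlowAPI F) (u : ℂ → Fin n → ℂ) (z : ℂ) (hu : AnalyticAt ℂ u z)
    (v : ℂ → Fin (N + 1) → ℂ) (hv : AnalyticAt ℂ v z) (j : Fin (N + 1)) (hj : v z j ≠ 0)
    (hfib : ∀ᶠ w in 𝓝 z, v w ∈ F.fib (u w)) (τ : ℂ → Fin g → ℂ) (k : ℕ) (hk1 : 1 ≤ k)
    (hτ : AnalyticAt ℂ τ z) (hk : ∀ i, (k : ℕ∞) ≤ analyticOrderAt (fun w => τ w i) z)
    (V : ℂ → Fin (N + 1) → ℂ) (hV : AnalyticAt ℂ V z) (hV0 : V z ≠ 0)
    (hΦ : ∀ᶠ w in 𝓝 z, Φ.Φ (u w) (τ w) (pm (v w)) = pm (V w)) :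
    V z j ≠ 0 ∧ ∀ l, (((k : ℕ) : ℤ) : WithTop ℤ) ≤
      meromorphicOrderAt (fun w => V w l / V w j - v w l / v w j) z := by
  have hτi : ∀ i, AnalyticAt ℂ (fun w => τ w i) z := fun i => (analyticAt_pi_iff.1 hτ) i
  have hvl : ∀ l, AnalyticAt ℂ (fun w => v w l) z := fun l => (analyticAt_pi_iff.1 hv) l
  have hVl : ∀ l, AnalyticAt ℂ (fun w => V w l) z := fun l => (analyticAt_pi_iff.1 hV) l
  -- `τ z = 0`
  have hτ0 : τ z = 0 := by
    funext i
    refine apply_eq_zero_of_analyticOrderAt_ne_zero (f := fun w => τ w i) ?_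
    intro h0
    have h1 := hk i
    rw [h0] at h1
    have h2 : (k : ℕ∞) = 0 := le_antisymm h1 zero_le
    have h3 : k = 0 := by exact_mod_cast h2
    omega
  have hvz : v z ∈ F.fib (u z) := hfib.self_of_nhds
  have hpz : pm (v z) = pm (V z) := by
    have h1 := hΦ.self_of_nhds
    rw [hτ0, Φ.zero (u z) _ ⟨v z, hvz, rfl⟩] at h1
    exact h1
  obtain ⟨c, hc, hcv⟩ := pm_eq_iff.1 hpz
  have hVj : V z j ≠ 0 := by
    intro h0
    apply hj
    rw [hcv]
    change c * V z j = 0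
    rw [h0, mul_zero]
  refine ⟨hVj, fun l => ?_⟩
  -- normalised representative
  set v' : ℂ → Fin (N + 1) → ℂ := fun w => (v w j)⁻¹ • v w with hv'
  have hv'c : ContinuousAt v' z := ((hvl j).continuousAt.inv₀ hj).smul hv.continuousAt
  have hvne : ∀ᶠ w in 𝓝 z, v w j ≠ 0 := (hvl j).continuousAt.eventually_ne hj
  have hVne : ∀ᶠ w in 𝓝 z, V w j ≠ 0 := (hVl j).continuousAt.eventually_ne hVj
  -- the difference is analytic
  have hD : AnalyticAt ℂ (fun w => V w l / V w j - v w l / v w j) z :=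
    ((hVl l).div (hVl j) hVj).sub ((hvl l).div (hvl j) hj)
  rw [hD.meromorphicOrderAt_eq]
  have hle : (k : ℕ∞) ≤ analyticOrderAt (fun w => V w l / V w j - v w l / v w j) z := by
    -- bound for `τ`
    have hτb : ∃ C : ℝ, 0 ≤ C ∧ ∀ᶠ w in 𝓝 z, ‖τ w‖ ≤ C * ‖w - z‖ ^ k := by
      choose C hC0 hC using fun i => bound_of_order (hτi i) k (hk i)
      refine ⟨∑ i, C i, Finset.sum_nonneg fun i _ => hC0 i, ?_⟩
      filter_upwards [eventually_all.2 hC] with w hw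
      rw [pi_norm_le_iff_of_nonneg (by
        exact mul_nonneg (Finset.sum_nonneg fun i _ => hC0 i) (by positivity))]
      intro i
      refine (hw i).trans (mul_le_mul_of_nonneg_right ?_ (by positivity))
      exact Finset.single_le_sum (f := C) (fun i _ => hC0 i) (Finset.mem_univ i)
    obtain ⟨C, hC0, hC⟩ := hτb
    -- the data of `expand`
    obtain ⟨ρ, C₁, hρ, hC₁, hexp⟩ := Φ.expand (‖u z‖ + ‖v' z‖ + 1)
    -- bound for the values of the polynomials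
    have hPc : ContinuousAt (fun w => ∑ i, ‖aeval (Sum.elim (u w) (v' w)) (F.P i j l)‖) z := by
      have h1 : ContinuousAt (fun w => Sum.elim (u w) (v' w)) z := by
        rw [continuousAt_pi]
        intro s
        cases s with
        | inl a => exact (continuous_apply a).continuousAt.comp hu.continuousAt
        | inr m => exact (continuous_apply m).continuousAt.comp hv'c
      refine tendsto_finsetSum _ fun i _ => ?_
      have h2 : Continuous fun y : Fin n ⊕ Fin (N + 1) → ℂ => ‖aeval y (F.P i j l)‖ := by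
        simp only [aeval_eq_eval]
        exact (MvPolynomial.continuous_eval _).norm
      exact h2.continuousAt.comp h1
    set B : ℝ := (∑ i, ‖aeval (Sum.elim (u z) (v' z)) (F.P i j l)‖) + 1 with hB
    have hB0 : 0 ≤ B := by positivity
    have hPb : ∀ᶠ w in 𝓝 z, (∑ i, ‖aeval (Sum.elim (u w) (v' w)) (F.P i j l)‖) < B :=
      hPc.tendsto.eventually_lt_const (lt_add_one _)
    have hub : ∀ᶠ w in 𝓝 z, ‖u w‖ < ‖u z‖ + 1 :=
      hu.continuousAt.norm.tendsto.eventually_lt_const (lt_add_one _)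
    have hvb : ∀ᶠ w in 𝓝 z, ‖v' w‖ < ‖v' z‖ + 1 :=
      hv'c.norm.tendsto.eventually_lt_const (lt_add_one _)
    have hτρ : ∀ᶠ w in 𝓝 z, ‖τ w‖ < min ρ 1 := by
      have h1 := hτ.continuousAt.norm.tendsto
      rw [hτ0, norm_zero] at h1
      exact h1.eventually_lt_const (lt_min hρ one_pos)
    refine order_of_bound hD k ((C₁ + B) * C) ?_
    filter_upwards [hvne, hVne, hfib, hΦ, hC, hPb, hub, hvb, hτρ] with w w1 w2 w3 w4 w5 w6 w7 w8 w9
    have hf' : v' w ∈ F.fib (u w) := F.fib_smul (inv_ne_zero w1) w3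
    have hj' : v' w j = 1 := inv_mul_cancel₀ w1
    have hpm : pm (v' w) = pm (v w) := pm_smul (inv_ne_zero w1) _
    obtain ⟨y, hy, hyj, hyΦ, hyb⟩ := hexp j (u w) (v' w) (τ w)
      (by linarith [norm_nonneg (v' z)]) (by linarith [norm_nonneg (u z)]) hf' hj'
      (w9.le.trans (min_le_left _ _))
    rw [hpm, w4] at hyΦ
    obtain ⟨c, hc, hcy⟩ := pm_eq_iff.1 hyΦ
    have hVyj : V w j = c := by
      rw [hcy]
      change c * y j = c
      rw [hyj, mul_one]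
    have hVyl : V w l = c * y l := by
      rw [hcy]
      rfl
    have hyl : V w l / V w j = y l := by
      rw [hVyj, hVyl, mul_div_cancel_left₀ _ hc]
    have hvl' : v w l / v w j = v' w l := by
      change v w l / v w j = (v w j)⁻¹ * v w l
      rw [div_eq_inv_mul]
    rw [hyl, hvl']
    have hsum : ‖∑ i, τ w i * aeval (Sum.elim (u w) (v' w)) (F.P i j l)‖ ≤ ‖τ w‖ * B := by
      calc ‖∑ i, τ w i * aeval (Sum.elim (u w) (v' w)) (F.P i j l)‖
          ≤ ∑ i, ‖τ w i * aeval (Sum.elim (u w) (v' w)) (F.P i j l)‖ := norm_sum_le _ _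
        _ ≤ ∑ i, ‖τ w‖ * ‖aeval (Sum.elim (u w) (v' w)) (F.P i j l)‖ := by
            refine Finset.sum_le_sum fun i _ => ?_
            rw [norm_mul]
            exact mul_le_mul_of_nonneg_right (norm_le_pi_norm _ i) (norm_nonneg _)
        _ = ‖τ w‖ * ∑ i, ‖aeval (Sum.elim (u w) (v' w)) (F.P i j l)‖ := by rw [Finset.mul_sum]
        _ ≤ ‖τ w‖ * B := mul_le_mul_of_nonneg_left w6.le (norm_nonneg _)
    have hτ1 : ‖τ w‖ ≤ 1 := w9.le.trans (min_le_right _ _)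
    have hτ2 : ‖τ w‖ ^ 2 ≤ ‖τ w‖ := by
      rw [pow_two]
      exact mul_le_of_le_one_left (norm_nonneg _) hτ1
    calc ‖y l - v' w l‖
        = ‖(y l - v' w l - ∑ i, τ w i * aeval (Sum.elim (u w) (v' w)) (F.P i j l)) +
            ∑ i, τ w i * aeval (Sum.elim (u w) (v' w)) (F.P i j l)‖ := by rw [sub_add_cancel]
      _ ≤ C₁ * ‖τ w‖ ^ 2 + ‖τ w‖ * B := (norm_add_le _ _).trans (add_le_add (hyb l) hsum)
      _ ≤ C₁ * ‖τ w‖ + ‖τ w‖ * B := by
          gcongr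
      _ = (C₁ + B) * ‖τ w‖ := by ring
      _ ≤ (C₁ + B) * (C * ‖w - z‖ ^ k) := mul_le_mul_of_nonneg_left w5 (by positivity)
      _ = (C₁ + B) * C * ‖w - z‖ ^ k := by ring
  have hmono : Monotone (fun m : ℕ => (m : ℤ)) := fun a b h => Nat.cast_le.2 h
  exact (ENat.monotone_map_iff.2 hmono) hle

end Pool.Agent.AbFib
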