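import Pool.Agent.Lib_MP_1209e6_ab.Main
import Pool.Agent.Lib_MP_1209e6_tv.A1
import Pool.Agent.Lib_MP_1209e6_tv.A2
import Pool.Agent.Lib_MP_1209e6_tv.A3

/-! Sections with given jets over entire base curves (assembly). -/

set_option autoImplicit false

open Filter Topology

namespace Pool.Agent.AbFib

open Pool.Agent.Campana Pool.Agent.CampanaFlow MvPolynomial

theorem ab_entire {K : Type} [Field K] [Algebra ℂ K] {n N : ℕ} (t : Fin n → K)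
    (x : Fin (N + 1) → K) (h : IsAbelianFibration t x) (u : ℂ → Fin n → ℂ)
    (hu : Differentiable ℂ u)
    (hd : ∀ Q : MvPolynomial (Fin n) ℂ, aeval t Q ≠ 0 → ∀ z, ∀ᶠ w in 𝓝[≠] z, eval (u w) Q ≠ 0)
    (v₀ : ℂ → ℂ → Fin (N + 1) → ℂ)
    (hv₀ : ∀ z, AnalyticAt ℂ (v₀ z) z ∧ v₀ z z ≠ 0 ∧ ∀ᶠ w in 𝓝[≠] z, v₀ z w ∈ Fibre t x (u w))
    (Zb : Set ℂ) (hZ : ∀ z, ∀ᶠ w in 𝓝[≠] z, w ∉ Zb) (k : ℂ → ℕ) :
    ∃ b : ℂ → PS N, (∀ z, ∃ V : ℂ → Fin (N + 1) → ℂ, AnalyticAt ℂ V z ∧ V z ≠ 0 ∧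
      (∀ᶠ w in 𝓝 z, V w ∈ Fibre t x (u w) ∧ b w = pm (V w)) ∧
      (z ∈ Zb → ∀ j, v₀ z z j ≠ 0 → V z j ≠ 0 ∧ ∀ l, (((k z : ℕ) : ℤ) : WithTop ℤ) ≤
        meromorphicOrderAt (fun w => V w l / V w j - v₀ z w l / v₀ z w j) z)) ∧
      ∀ r : MvPolynomial (Fin n ⊕ Fin (N + 1)) ℂ, aeval (co t x 0) r ≠ 0 →
        ∃ (z : ℂ) (v : Fin (N + 1) → ℂ), v ∈ Fibre t x (u z) ∧ v 0 = 1 ∧ b z = pm v ∧
          aeval (Sum.elim (u z) v) r ≠ 0 := by
  classical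
  obtain ⟨g, F, rfl, rfl, hspan, c₀, hc₀, hc⟩ := exists_fam t x h
  obtain ⟨A⟩ := nonempty_algPack F hspan c₀ hc₀ hc
  obtain ⟨Φ⟩ := F.nonempty_flowAPI
  obtain ⟨h₀, hh₀, hconn⟩ := h.connected
  obtain ⟨G⟩ := nonempty_good Φ A h₀ hh₀ hconn
  have hua : ∀ z, AnalyticAt ℂ u z := fun z => hu.analyticAt z
  have hvn : ∀ z, ∀ᶠ w in 𝓝 z, v₀ z w ∈ F.fib (u w) := by
    intro z
    obtain ⟨hv, hv0, hv1⟩ := hv₀ z
    have hvz : v₀ z z ∈ F.fib (u z) := F.fib_closed (f := 𝓝[≠] z)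
      ((hua z).continuousAt.tendsto.mono_left nhdsWithin_le_nhds)
      (hv.continuousAt.tendsto.mono_left nhdsWithin_le_nhds) hv0 hv1
    rw [eventually_nhdsWithin_iff] at hv1
    filter_upwards [hv1] with w hw
    by_cases hwz : w = z
    · rw [hwz]
      exact hvz
    · exact hw hwz
  have hsec : ∀ z, F.Sec u (fun w => pm (v₀ z w)) z := by
    intro z
    obtain ⟨hv, hv0, hv1⟩ := hv₀ z
    refine ⟨⟨v₀ z, hv, hv0, Filter.Eventually.of_forall fun _ => rfl⟩, ?_⟩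
    filter_upwards [hvn z] with w hw
    exact ⟨_, hw, rfl⟩
  set D := glueData Φ G u hua hd (fun z => ⟨_, hsec z⟩) with hD
  set Bb : Set ℂ := {z | eval (u z) G.h = 0} ∪ Zb with hBb
  have hBdisc : ∀ z, ∀ᶠ w in 𝓝[≠] z, w ∉ Bb := by
    intro z
    filter_upwards [hd G.h G.h_ne z, hZ z] with w h1 h2
    rintro (h3 | h3)
    · exact h1 h3
    · exact h2 h3
  obtain ⟨E, hE, hEord⟩ := weierstrass (fun z => if z ∈ Bb then k z + 1 else 0) (fun z => by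
    filter_upwards [hBdisc z] with w hw
    rw [if_neg hw])
  have hE0 : ∀ z, z ∉ Bb → E z ≠ 0 := by
    intro z hz
    have h1 := hEord z
    rw [if_neg hz] at h1
    exact (hE.analyticAt z).analyticOrderAt_eq_zero.1 (by simpa using h1)
  have hE1 : ∀ z, ∀ᶠ w in 𝓝[≠] z, E w ≠ 0 := fun z =>
    (hBdisc z).mono fun w hw => hE0 w hw
  obtain ⟨a, ha, haB⟩ := glue_jets D Bb hBdisc (fun z hz => Or.inl hz) E hE hE0
    (fun z w => pm (v₀ z w)) (fun z _ => hsec z)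
  obtain ⟨τ, hτ, hdense⟩ := dense_section_mul Φ A u hd a ha E hE1
  have hEτ : ∀ z, AnalyticAt ℂ (fun w => E w • τ w) z := fun z =>
    (hE.analyticAt z).smul (hτ.analyticAt z)
  have hb : ∀ z, F.Sec u (fun w => Φ.Φ (u w) (E w • τ w) (a w)) z := fun z =>
    sec_flow Φ (hua z) (hEτ z) (ha z)
  refine ⟨fun w => Φ.Φ (u w) (E w • τ w) (a w), fun z => ?_, hdense⟩
  obtain ⟨⟨V, hV, hV0, hVb⟩, hVP⟩ := hb z
  refine ⟨V, hV, hV0, ?_, ?_⟩
  · filter_upwards [hVb, hVP] with w h1 h2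
    refine ⟨?_, h1⟩
    rw [h1] at h2
    exact F.pm_mem_iff.1 h2
  · intro hz j hj
    have hzB : z ∈ Bb := Or.inr hz
    obtain ⟨σ, hσ, haσ⟩ := haB z hzB
    have hord : ∀ i, ((k z + 1 : ℕ) : ℕ∞) ≤
        analyticOrderAt (fun w => (E w • (τ w + σ w)) i) z := by
      intro i
      have h1 : (fun w => (E w • (τ w + σ w)) i) = fun w => E w * (τ w i + σ w i) := by
        funext w
        simp
      have h2 : AnalyticAt ℂ (fun w => τ w i + σ w i) z :=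
        (analyticAt_pi_iff.1 (hτ.analyticAt z) i).add (analyticAt_pi_iff.1 hσ i)
      have h3 := analyticOrderAt_mul (hE.analyticAt z) h2
      rw [h1]
      have h4 : analyticOrderAt E z = ((k z + 1 : ℕ) : ℕ∞) := by
        rw [hEord z, if_pos hzB]
      change _ ≤ analyticOrderAt (E * fun w => τ w i + σ w i) z
      rw [h3, h4]
      exact le_self_add
    have hΦ : ∀ᶠ w in 𝓝 z, Φ.Φ (u w) (E w • (τ w + σ w)) (pm (v₀ z w)) = pm (V w) := by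
      filter_upwards [haσ, hVb, hvn z] with w h1 h2 h3
      rw [← h2, h1]
      change _ = Φ.Φ (u w) (E w • τ w) (Φ.Φ (u w) (E w • σ w) (pm (v₀ z w)))
      rw [smul_add, Φ.add _ _ _ _ ⟨_, h3, rfl⟩]
    have h5 := flow_close Φ u z (hua z) (v₀ z) (hv₀ z).1 j hj (hvn z)
      (fun w => E w • (τ w + σ w)) (k z + 1) (Nat.le_add_left _ _)
      ((hE.analyticAt z).smul ((hτ.analyticAt z).add hσ)) hord V hV hV0 hΦ
    refine ⟨h5.1, fun l => le_trans ?_ (h5.2 l)⟩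
    exact_mod_cast Nat.le_succ (k z)

end Pool.Agent.AbFib
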