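import Pool.Agent.Lib_MP_1209e6_tv.M1
import Pool.Agent.Lib_MP_1209e6_tw.A2
import Pool.Agent.Lib_MP_1209e6_tw.B2
import Pool.Agent.Lib_MP_1209e6_tw.B3

/-! PIECE R1: a meromorphic function with given jets, transcendental over given functions. -/

set_option autoImplicit false

open Filter Topology

namespace Pool.Agent.AbPencil

open Tw

/-- a polynomial with polynomial coefficients, evaluated -/
private theorem R1_option {B : Type} [CommRing B] [Algebra ℂ B] {n : ℕ} (x : Fin n → B) (a : B)
    (P : MvPolynomial (Option (Fin n)) ℂ) :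
    (MvPolynomial.optionEquivLeft ℂ (Fin n) P).eval₂ (MvPolynomial.aeval x).toRingHom a =
      MvPolynomial.aeval (fun o : Option (Fin n) => o.elim a x) P := by
  induction P using MvPolynomial.induction_on with
  | C c =>
    rw [MvPolynomial.optionEquivLeft_C, Polynomial.eval₂_C, MvPolynomial.aeval_C]
    exact MvPolynomial.aeval_C x c
  | add p q hp hq => rw [map_add, Polynomial.eval₂_add, hp, hq, map_add]
  | mul_X p i hp =>
    rw [map_mul, Polynomial.eval₂_mul, hp, map_mul, MvPolynomial.aeval_X]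
    congr 1
    cases i with
    | none => rw [MvPolynomial.optionEquivLeft_X_none, Polynomial.eval₂_X, Option.elim_none]
    | some i =>
      rw [MvPolynomial.optionEquivLeft_X_some, Polynomial.eval₂_C, Option.elim_some]
      exact MvPolynomial.aeval_X x i

/-- transcendence in terms of the relations -/
private theorem R1_trans {n : ℕ} (x : Fin n → Mer) (a : Mer) :
    Transcendental (Algebra.adjoin ℂ (Set.range x)) a ↔
      ∀ q : Polynomial (MvPolynomial (Fin n) ℂ),
        q.eval₂ (MvPolynomial.aeval x).toRingHom a = 0 →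
          ∀ k, MvPolynomial.aeval x (q.coeff k) = 0 := by
  have hr : (MvPolynomial.aeval x : MvPolynomial (Fin n) ℂ →ₐ[ℂ] Mer).range =
      Algebra.adjoin ℂ (Set.range x) := (Algebra.adjoin_range_eq_range_aeval ℂ x).symm
  have hmem : ∀ p : MvPolynomial (Fin n) ℂ,
      MvPolynomial.aeval x p ∈ Algebra.adjoin ℂ (Set.range x) := by
    intro p
    rw [← hr]
    exact ⟨p, rfl⟩
  let ρ : MvPolynomial (Fin n) ℂ →ₐ[ℂ] Algebra.adjoin ℂ (Set.range x) :=
    (MvPolynomial.aeval x).codRestrict _ hmem
  have hρ : ∀ p, ((ρ p : Algebra.adjoin ℂ (Set.range x)) : Mer) = MvPolynomial.aeval x p :=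
    fun p => rfl
  have hsur : Function.Surjective ρ.toRingHom := by
    rintro ⟨b, hb⟩
    rw [← hr] at hb
    obtain ⟨p, hp⟩ := hb
    exact ⟨p, Subtype.ext hp⟩
  have hev : ∀ q : Polynomial (MvPolynomial (Fin n) ℂ),
      Polynomial.aeval a (q.map ρ.toRingHom) = q.eval₂ (MvPolynomial.aeval x).toRingHom a := by
    intro q
    rw [Polynomial.aeval_def, Polynomial.eval₂_map]
    rfl
  rw [transcendental_iff]
  constructor
  · intro h q hq k
    have h1 := h (q.map ρ.toRingHom) (by rw [hev, hq])
    have h2 := congrArg (fun p => ((p.coeff k : Algebra.adjoin ℂ (Set.range x)) : Mer)) h1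
    simp only [Polynomial.coeff_map, Polynomial.coeff_zero] at h2
    exact h2
  · intro h p hp
    obtain ⟨q, rfl⟩ := Polynomial.map_surjective ρ.toRingHom hsur p
    rw [hev] at hp
    have h1 := h q hp
    refine Polynomial.ext fun k => Subtype.ext ?_
    rw [Polynomial.coeff_map, Polynomial.coeff_zero]
    exact h1 k

private theorem R1_mero {ι : Type} (H : ι → ℂ → ℂ) (hH : ∀ i z, MeromorphicAt (H i) z)
    (P : MvPolynomial ι ℂ) (z : ℂ) :
    MeromorphicAt (fun w => MvPolynomial.aeval (fun i => H i w) P) z := by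
  induction P using MvPolynomial.induction_on with
  | C c =>
    have h : (fun w => MvPolynomial.aeval (fun i => H i w) (MvPolynomial.C c : MvPolynomial ι ℂ)) =
        fun _ => c := by
      funext w
      rw [MvPolynomial.aeval_C]
      rfl
    rw [h]
    exact MeromorphicAt.const c z
  | add p q hp hq =>
    have h : (fun w => MvPolynomial.aeval (fun i => H i w) (p + q)) =
        (fun w => MvPolynomial.aeval (fun i => H i w) p) +
          fun w => MvPolynomial.aeval (fun i => H i w) q := by
      funext w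
      rw [map_add]
      rfl
    rw [h]
    exact hp.add hq
  | mul_X p i hp =>
    have h : (fun w => MvPolynomial.aeval (fun i => H i w) (p * MvPolynomial.X i)) =
        (fun w => MvPolynomial.aeval (fun i => H i w) p) * H i := by
      funext w
      rw [map_mul, MvPolynomial.aeval_X]
      rfl
    rw [h]
    exact hp.mul (hH i z)

/-- the relations of germs of global functions do not depend on the point -/
private theorem R1_rel {ι : Type} (H : ι → ℂ → ℂ) (hH : ∀ i z, MeromorphicAt (H i) z)
    (P : MvPolynomial ι ℂ) (z z' : ℂ) :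
    MvPolynomial.aeval (fun i => gz (H i) z) P = 0 →
      MvPolynomial.aeval (fun i => gz (H i) z') P = 0 := by
  rw [aeval_gz H z (fun i => hH i z), aeval_gz H z' (fun i => hH i z'),
    gz_zero_iff (fun z => R1_mero H hH P z) z z']
  exact id

/-- Proof. `tw_jets` (for representatives of the germs `D₀ z` at `z`, `gz_surj`) gives `G`, `tw_factor` (`M = 1`) gives `E`, `tw_step` (`f = G`, no `y`,
`S = ∅`, `x i = gz (h i) 0`) gives `c`; `D = G exp (c E)`. At `0` the germ of `D` is transcendental over `ℂ[gz (h i) 0]`. For other points: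
if `∑ p_k(gz (h i) z) (gz D z)^k = 0` with polynomials `p_k` over `ℂ` then the meromorphic function `∑ p_k(h) D^k` is zero near `z`, so near `0`
(`gz_zero_iff`), so `p_k(gz (h i) 0) = 0` for all `k`, so `p_k(gz (h i) z) = 0`. -/
theorem line_curve {n : ℕ} (h : Fin n → ℂ → ℂ) (hh : ∀ i z, MeromorphicAt (h i) z) (Zb : Set ℂ)
    (hZ : ∀ z, ∀ᶠ w in 𝓝[≠] z, w ∉ Zb) (D₀ : ℂ → Mer) (hD₀ : ∀ z ∈ Zb, D₀ z ≠ 0) (Λ : ℂ → ℤ) :
    ∃ D : ℂ → ℂ, (∀ z, MeromorphicAt D z) ∧ (∀ z, z ∉ Zb → AnalyticAt ℂ D z ∧ D z ≠ 0) ∧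
      (∀ z ∈ Zb, (Λ z : WithTop ℤ) ≤ mo (gz D z - D₀ z)) ∧
      ∀ z, AlgebraicIndependent (Algebra.adjoin ℂ (Set.range fun i => gz (h i) z))
        fun _ : Fin 1 => gz D z := by
  choose R hRm hRg using fun z => gz_surj (D₀ z) z
  have hne : ∀ z ∈ Zb, ∀ᶠ w in 𝓝[≠] z, R z w ≠ 0 := by
    intro z hz
    rcases (hRm z).eventually_eq_zero_or_eventually_ne_zero with h1 | h1
    · exact absurd ((hRg z).symm.trans ((gz_eq_zero (hRm z)).2 h1)) (hD₀ z hz)
    · exact h1
  obtain ⟨G, hGm, hGne, hGreg, hGo⟩ := tw_jets Zb hZ R (fun z _ => hRm z) hne Λ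
  obtain ⟨E, hE, hEc, -, hEo⟩ := tw_factor Zb hZ (fun _ : Fin 1 => G) (fun _ z => hGm z) Λ
  obtain ⟨c, -, hc⟩ := tw_step (fun i => gz (h i) 0) (Fin.elim0 : Fin 0 → Mer) ∅
    Set.countable_empty G E (hGm 0) (hGne 0) hE hEc
  have hexp : ∀ z, AnalyticAt ℂ (fun w => Complex.exp (c * E w)) z :=
    fun z => (hE.const_mul c).cexp.analyticAt z
  let D : ℂ → ℂ := fun w => G w * Complex.exp (c * E w)
  have hDm : ∀ z, MeromorphicAt D z := fun z => (hGm z).mul (hexp z).meromorphicAt
  refine ⟨D, hDm, ?_, ?_, ?_⟩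
  · intro z hz
    exact ⟨(hGreg z hz).1.mul (hexp z), mul_ne_zero (hGreg z hz).2 (Complex.exp_ne_zero _)⟩
  · intro z hz
    have h1 : gz D z - D₀ z = gz (fun w => D w - G w) z + gz (fun w => G w - R z w) z := by
      rw [gz_sub (hDm z) (hGm z), gz_sub (hGm z) (hRm z), hRg z]
      ring
    rw [h1]
    refine le_trans (le_min ?_ ?_) (mo_add _ _)
    · have h2 : MeromorphicAt (fun w => D w - G w) z := (hDm z).sub (hGm z)
      rw [mo_gz h2]
      exact hEo z hz 0 c
    · have h2 : MeromorphicAt (fun w => G w - R z w) z := (hGm z).sub (hRm z)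
      rw [mo_gz h2]
      exact hGo z hz
  · intro z
    rw [algebraicIndependent_unique_type_iff, R1_trans]
    have h0 : Transcendental (Algebra.adjoin ℂ (Set.range fun i => gz (h i) 0)) (gz D 0) := by
      have h1 := hc (hDm 0)
      rw [← gz_zero_eq (hDm 0)] at h1
      exact h1.restrictScalars (FaithfulSMul.algebraMap_injective _ _)
    rw [R1_trans] at h0
    intro q hq k
    obtain ⟨P, rfl⟩ := (MvPolynomial.optionEquivLeft ℂ (Fin n)).surjective q
    have hH : ∀ (o : Option (Fin n)) (z : ℂ), MeromorphicAt (o.elim D h) z := by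
      intro o z
      cases o with
      | none => exact hDm z
      | some i => exact hh i z
    have hfun : ∀ z, (fun o : Option (Fin n) => gz (o.elim D h) z) =
        fun o : Option (Fin n) => o.elim (gz D z) fun i => gz (h i) z := by
      intro z
      funext o
      cases o <;> rfl
    rw [R1_option, ← hfun] at hq
    have h2 := R1_rel (fun o : Option (Fin n) => o.elim D h) hH P z 0 hq
    rw [hfun, ← R1_option] at h2
    exact R1_rel h hh _ 0 z (h0 _ h2 k)

end Pool.Agent.AbPencil
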