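import Pool.Agent.Lib_MP_1209e6_tv.H3
import Pool.Agent.Lib_MP_1209e6_tv.T1
import Pool.Agent.Lib_MP_1209e6_tv.R1

/-! The step `F' = F(d)` (assembly). -/

set_option autoImplicit false

open Filter Topology

namespace Pool.Agent.AbPencil

open Tw

variable {L : Type} [Field L] [Algebra ℂ L]

theorem adjoin_insert_range {n : ℕ} (y : Fin n → L) (d : L) :
    IntermediateField.adjoin ℂ (insert d
      (IntermediateField.adjoin ℂ (Set.range y) : Set L)) =
      IntermediateField.adjoin ℂ (Set.range (Sum.elim y fun _ : Fin 1 => d)) := by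
  apply le_antisymm
  · rw [IntermediateField.adjoin_le_iff]
    rintro a (rfl | ha)
    · exact IntermediateField.subset_adjoin _ _ ⟨Sum.inr 0, rfl⟩
    · refine (IntermediateField.adjoin_le_iff.2 ?_ : IntermediateField.adjoin ℂ (Set.range y) ≤ _) ha
      rintro _ ⟨i, rfl⟩
      exact IntermediateField.subset_adjoin _ _ ⟨Sum.inl i, rfl⟩
  · rw [IntermediateField.adjoin_le_iff]
    rintro _ ⟨i | i, rfl⟩
    · exact IntermediateField.subset_adjoin _ _
        (Or.inr (IntermediateField.subset_adjoin _ _ ⟨i, rfl⟩))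
    · exact IntermediateField.subset_adjoin _ _ (Or.inl rfl)

theorem range_append {n g : ℕ} (y : Fin n → L) (s : Fin g → L) :
    Set.range (Fin.append y s) = Set.range (Sum.elim y s) := by
  ext a
  constructor
  · rintro ⟨i, rfl⟩
    refine Fin.addCases (fun i => ?_) (fun i => ?_) i
    · exact ⟨Sum.inl i, by simp⟩
    · exact ⟨Sum.inr i, by simp⟩
  · rintro ⟨i | i, rfl⟩
    · exact ⟨Fin.castAdd g i, by simp⟩
    · exact ⟨Fin.natAdd n i, by simp⟩

/-- the bad points -/
theorem bad_disc {F : IntermediateField ℂ L} (H : F → ℂ → ℂ) (hH : ∀ a z, MeromorphicAt (H a) z)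
    (Y : Finset L) (z : ℂ) :
    ∀ᶠ w in 𝓝[≠] z, w ∉ {w | ∃ a : F, (a : L) ∈ Y ∧ ¬ Hol (gz (H a) w)} := by
  classical
  have hfin : {a : F | (a : L) ∈ Y}.Finite :=
    Set.Finite.preimage Subtype.val_injective.injOn (Finset.finite_toSet Y)
  have h1 : ∀ᶠ w in 𝓝[≠] z, ∀ a ∈ {a : F | (a : L) ∈ Y}, Hol (gz (H a) w) :=
    (Filter.eventually_all_finite hfin).2 fun a _ => hol_evt (hH a) z
  filter_upwards [h1] with w hw
  rintro ⟨a, ha, hn⟩
  exact hn (hw a ha)

theorem trans_ring {n : ℕ} (y : Fin n → L) {F : IntermediateField ℂ L} (hy : ∀ i, y i ∈ F) {d : L}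
    (hd : Transcendental F d) : Transcendental (Algebra.adjoin ℂ (Set.range y)) d := by
  have hle : Algebra.adjoin ℂ (Set.range y) ≤ F.toSubalgebra := by
    rw [Algebra.adjoin_le_iff]
    rintro _ ⟨i, rfl⟩
    exact hy i
  rintro ⟨p, hp, hp0⟩
  let j : Algebra.adjoin ℂ (Set.range y) →+* F := (Subalgebra.inclusion hle).toRingHom
  have hj : Function.Injective j := Subalgebra.inclusion_injective hle
  apply hd
  refine ⟨p.map j, (Polynomial.map_ne_zero_iff hj).2 hp, ?_⟩
  rw [Polynomial.aeval_def, Polynomial.eval₂_map]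
  rw [Polynomial.aeval_def] at hp0
  exact hp0

theorem line_step (hfg : ∃ T : Finset L, IntermediateField.adjoin ℂ (T : Set L) = ⊤)
    {F F' : IntermediateField ℂ L} (hF : Realized F) (d : L) (hd : Transcendental F d)
    (hF' : F' = IntermediateField.adjoin ℂ (insert d (F : Set L)))
    (hG : GermsLift F F' {d, d⁻¹}) : Realized F' := by
  classical
  obtain ⟨⟨n, y, hy⟩, H, hHm, hH⟩ := hF
  obtain ⟨Y, hYF, hlift⟩ := hG
  choose ε hε using hH
  have hyF : ∀ i, y i ∈ F := fun i => by
    rw [hy]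
    exact IntermediateField.subset_adjoin _ _ ⟨i, rfl⟩
  set h : Fin n → ℂ → ℂ := fun i => H ⟨y i, hyF i⟩ with hh
  set Zb : Set ℂ := {w | ∃ a : F, (a : L) ∈ Y ∧ ¬ Hol (gz (H a) w)} with hZb
  have hd0 : d ≠ 0 := by
    rintro rfl
    exact hd isAlgebraic_zero
  have hind : AlgebraicIndependent (Algebra.adjoin ℂ (Set.range y)) fun _ : Fin 1 => d := by
    rw [algebraicIndependent_unique_type_iff]
    exact trans_ring y hyF hd
  choose Λ hΛ using fun z => ext_near hfg (Fin.append y fun _ : Fin 1 => d) (ε z)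
  obtain ⟨D, hDm, hDu, hDc, hDi⟩ := line_curve h (fun i z => hHm _ z) Zb (bad_disc H hHm Y)
    (fun z => ε z d) (fun z _ => (map_ne_zero (ε z)).2 hd0) Λ
  have hsame : ∀ z, SameRel (Sum.elim y fun _ : Fin 1 => d)
      (Sum.elim (fun i => gz (h i) z) fun _ : Fin 1 => gz D z) := by
    intro z
    refine same_indep y _ hind _ _ (hDi z) ?_
    have h1 := same_of_hom (ε z) y
    have h2 : (fun i => ε z (y i)) = fun i => gz (h i) z := by
      funext i
      exact hε z ⟨y i, hyF i⟩
    rwa [h2] at h1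
  have hF'2 : F' = IntermediateField.adjoin ℂ (Set.range (Sum.elim y fun _ : Fin 1 => d)) := by
    rw [hF', hy, adjoin_insert_range]
  have key : ∀ z, ∃ ψ : L →ₐ[ℂ] Mer, (∀ i, ψ (y i) = gz (h i) z) ∧ ψ d = gz D z := by
    intro z
    by_cases hz : z ∈ Zb
    · obtain ⟨ψ, hψ⟩ := hΛ z (Fin.append (fun i => gz (h i) z) fun _ : Fin 1 => gz D z)
        (same_append (hsame z)) (by
          intro i
          refine Fin.addCases (fun i => ?_) (fun i => ?_) i
          · rw [Fin.append_left, Fin.append_left]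
            have h1 : gz (h i) z = ε z (y i) := (hε z ⟨y i, hyF i⟩).symm
            rw [h1, sub_self, mo_eq_top.2 rfl]
            exact le_top
          · rw [Fin.append_right, Fin.append_right]
            exact hDc z hz)
      refine ⟨ψ, fun i => ?_, ?_⟩
      · have := hψ (Fin.castAdd 1 i)
        rwa [Fin.append_left, Fin.append_left] at this
      · have := hψ (Fin.natAdd n 0)
        rwa [Fin.append_right, Fin.append_right] at this
    · obtain ⟨φ₀, hφ₀⟩ := hom_of_rel _ _ (hsame z)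
      let φ : F' →ₐ[ℂ] Mer := φ₀.comp (IntermediateField.inclusion hF'2.le)
      have hφ : ∀ a : F', ∃ ha : (a : L) ∈ IntermediateField.adjoin ℂ
          (Set.range (Sum.elim y fun _ : Fin 1 => d)), φ a = φ₀ ⟨a, ha⟩ := fun a =>
        ⟨hF'2 ▸ a.2, rfl⟩
      have hFF' : F ≤ F' := by
        rw [hF']
        exact fun a ha => IntermediateField.subset_adjoin _ _ (Or.inr ha)
      have hφF : ∀ a : F', ∀ ha : (a : L) ∈ F, φ a = gz (H ⟨a, ha⟩) z := by
        intro a ha
        have h1 : (φ.comp (IntermediateField.inclusion hFF')) = (ε z).comp F.val := by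
          subst hy
          refine hom_ext_adjoin y _ _ fun i hi => ?_
          change φ ⟨y i, _⟩ = ε z (y i)
          obtain ⟨h3, h4⟩ := hφ ⟨y i, hFF' hi⟩
          rw [h4]
          have h5 := hφ₀ (Sum.inl i) h3
          change φ₀ ⟨y i, h3⟩ = _ at h5
          rw [h5]
          exact (hε z ⟨y i, hyF i⟩).symm
        have h2 := DFunLike.congr_fun h1 ⟨a, ha⟩
        change φ a = ε z a at h2
        rw [h2]
        exact hε z ⟨a, ha⟩
      have hdF' : d ∈ F' := by
        rw [hF']
        exact IntermediateField.subset_adjoin _ _ (Or.inl rfl)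
      have hφd : φ ⟨d, hdF'⟩ = gz D z := by
        obtain ⟨h3, h4⟩ := hφ ⟨d, hdF'⟩
        rw [h4]
        exact hφ₀ (Sum.inr 0) h3
      obtain ⟨ψ, hψ⟩ := hlift φ (by
        intro a ha
        have haF : (a : L) ∈ F := hYF _ ha
        rw [hφF a haF]
        by_contra hcon
        exact hz ⟨⟨a, haF⟩, ha, hcon⟩) (by
        intro a ha
        rcases ha with ha | ha
        · have h5 : a = ⟨d, hdF'⟩ := Subtype.ext ha
          rw [h5, hφd]
          exact hol_gz (hDu z hz).1
        · have h5 : a = (⟨d, hdF'⟩ : F')⁻¹ := Subtype.ext ha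
          rw [h5, map_inv₀, hφd]
          exact hol_gz_inv (hDu z hz).1 (hDu z hz).2)
      refine ⟨ψ, fun i => ?_, ?_⟩
      · have h6 := hψ ⟨y i, hFF' (hyF i)⟩
        rw [hφF _ (hyF i)] at h6
        exact h6
      · have h6 := hψ ⟨d, hdF'⟩
        rw [hφd] at h6
        exact h6
  refine real_of_tuple (Sum.elim y fun _ : Fin 1 => d) (Sum.elim h fun _ => D) ?_ F' hF'2
    ⟨n + 1, Fin.append y fun _ : Fin 1 => d, by rw [range_append]; exact hF'2⟩ fun z => ?_
  · rintro (i | i) z
    · exact hHm _ z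
    · exact hDm z
  · obtain ⟨ψ, h1, h2⟩ := key z
    refine ⟨ψ, ?_⟩
    rintro (i | i)
    · exact h1 i
    · exact h2

end Pool.Agent.AbPencil
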