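import Pool.Agent.Lib_MP_1209e6_sk.Stmt
import Pool.Agent.Lib_MP_1209e6_ag.Defs

/-!
# Towers over a pencil: definitions for the statement

`MP_1209e6_ag`. `L` is a field over `ℂ`, and `F ≤ F'` are intermediate fields: function fields of varieties with
dominant rational maps from the variety with function field `L`.
-/

set_option autoImplicit false

namespace Pool.Agent.AbPencil

open Pool.Agent.Campana Pool.Agent.AbFib

variable {L : Type} [Field L] [Algebra ℂ L]

/-- No multiple fibres: each discrete valuation ring `O` of `F'` which contains `F` and `G` is the restriction of a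
discrete valuation ring `O'` of `L` which has a uniformizer `π` in `F'` (ramification index one). -/
def NoMultiple (F F' : IntermediateField ℂ L) (G : Set L) : Prop :=
  ∀ O : ValuationSubring F', IsPlace O → (∀ a : F', (a : L) ∈ F → a ∈ O) →
    (∀ a : F', (a : L) ∈ G → a ∈ O) → ∃ O' : ValuationSubring L, IsPlace O' ∧
      (∀ a : F', (a : L) ∈ O' ↔ a ∈ O) ∧
      ∃ π : F', (π : L)⁻¹ ∉ O' ∧ ∀ b : L, b⁻¹ ∉ O' → b / π ∈ O'

/-- `F' = F(d)` is the function field of a line over `F`, and `L` has no multiple fibres over it except at `d = 0`
and `d = ∞`. -/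
def LineStep (F F' : IntermediateField ℂ L) : Prop :=
  ∃ d : L, Transcendental F d ∧ F' = IntermediateField.adjoin ℂ (insert d (F : Set L)) ∧
    NoMultiple F F' {d, d⁻¹}

/-- `F'` is the function field of a torsor under an abelian variety over `F` (`IsAbelianFibration`). -/
def IsAbelianOver (F F' : IntermediateField ℂ L) : Prop :=
  ∃ (n N : ℕ) (t : Fin n → F') (x : Fin (N + 1) → F'), IsAbelianFibration t x ∧
    F = IntermediateField.adjoin ℂ (Set.range fun i => (t i : L))

/-- `F'` is the function field of a torsor under an elliptic curve over `F`, and `L` has no multiple fibres over it. -/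
def EllipticStep (F F' : IntermediateField ℂ L) : Prop :=
  IsAbelianOver F F' ∧ (∀ a ∈ F', ∀ b ∈ F', ¬ AlgebraicIndependent F ![a, b]) ∧ NoMultiple F F' ∅

/-- The pencil `t` on the variety `X` with function field `K` is a tower: for some `r`, the function field
`L = K(w_1, …, w_r)` of `X × ℙ^r` has intermediate fields `ℂ(t) = F 0 ≤ F 1 ≤ … ≤ F s` such that each
`F (i + 1)` is the function field of a line or of a torsor under an elliptic curve over `F i`, without multiple
fibres (except at `d = 0, ∞` in the first case), and `L` is the function field of a torsor under an abelian variety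
over `F s`. -/
def IsTower {K : Type} [Field K] [Algebra ℂ K] (t : Fin 2 → K) : Prop :=
  ∃ (r s : ℕ) (F : ℕ → IntermediateField ℂ (KW K r)),
    F 0 = IntermediateField.adjoin ℂ (Set.range fun a => algebraMap K (KW K r) (t a)) ∧
    (∀ i < s, LineStep (F i) (F (i + 1)) ∨ EllipticStep (F i) (F (i + 1))) ∧
    IsAbelianOver (F s) ⊤

end Pool.Agent.AbPencil
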