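import Pool.Agent.Lib_MP_1209e6_ab.Defs

/-! PIECE V0: the trivial abelian fibration. -/

set_option autoImplicit false

namespace Pool.Agent.AbPencil

open Pool.Agent.AbFib Pool.Agent.CampanaFlow

/-- Proof. `g = 0`: no vector fields. A derivation which vanishes on `y` vanishes on `ℂ(y) = L`. The minors are determinants of
`0 × 0` matrices. The fibre over `u` is empty or `{v | v ≠ 0}` in `ℂ^1` (scaling), the image of the connected set `ℂ ∖ {0}`. -/
theorem trivial_fibration {L : Type} [Field L] [Algebra ℂ L] {n : ℕ} (y : Fin n → L)
    (hy : IntermediateField.adjoin ℂ (Set.range y) = ⊤) :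
    IsAbelianFibration y (fun _ : Fin (0 + 1) => (1 : L)) := by
  refine ⟨fun _ => one_ne_zero, ?_, ?_, ?_⟩
  · rw [eq_top_iff, ← hy]
    apply IntermediateField.adjoin.mono
    rintro _ ⟨a, rfl⟩
    exact ⟨Sum.inl a, rfl⟩
  · refine ⟨0, fun i => i.elim0, fun i => i.elim0, fun i => i.elim0, ?_, ?_⟩
    · intro E hE
      have h1 : E = 0 := by
        ext f
        have hf : f ∈ IntermediateField.adjoin ℂ (Set.range y) := by
          rw [hy]
          exact IntermediateField.mem_top
        rw [Derivation.coe_zero, Pi.zero_apply]
        induction hf using IntermediateField.adjoin_induction with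
        | mem x hx =>
          obtain ⟨a, rfl⟩ := hx
          exact hE a
        | algebraMap c => exact E.map_algebraMap c
        | add x z _ _ hx hz => rw [map_add, hx, hz, add_zero]
        | inv x _ hx => rw [Derivation.leibniz_inv, hx, smul_zero]
        | mul x z _ _ hx hz => rw [Derivation.leibniz, hx, hz, smul_zero, smul_zero, add_zero]
      rw [h1]
      exact zero_mem _
    · intro j
      refine ⟨fun _ => 1, fun _ => ?_, ?_⟩
      · exact one_mem _
      · simp
  · refine ⟨1, by simp, ?_⟩
    intro u _
    have hsub : Subsingleton (Fin (0 + 1)) := inferInstanceAs (Subsingleton (Fin 1))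
    have hcon : IsPreconnected ({v : Fin (0 + 1) → ℂ | v ≠ 0}) := by
      have h1 : IsPreconnected ({(0 : ℂ)}ᶜ) :=
        (isConnected_compl_singleton_of_one_lt_rank (by
          rw [Complex.rank_real_complex]
          norm_num) (0 : ℂ)).isPreconnected
      have h2 : {v : Fin (0 + 1) → ℂ | v ≠ 0} =
          (fun (z : ℂ) (_ : Fin (0 + 1)) => z) '' ({(0 : ℂ)}ᶜ) := by
        ext v
        constructor
        · intro hv
          refine ⟨v 0, ?_, ?_⟩
          · intro h3
            apply hv
            funext i
            have : i = 0 := Subsingleton.elim _ _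
            rw [this]
            exact h3
          · funext i
            have : i = 0 := Subsingleton.elim _ _
            rw [this]
        · rintro ⟨z, hz, rfl⟩ h3
          exact hz (congrFun h3 0)
      rw [h2]
      exact h1.image _ (continuous_pi fun _ => continuous_id).continuousOn
    -- the condition does not depend on the vector
    have hco : ∀ (v : Fin (0 + 1) → ℂ) (j : Fin (0 + 1)), v j ≠ 0 →
        co u v j = co u (fun _ : Fin (0 + 1) => (1 : ℂ)) 0 := by
      intro v j hj
      unfold co
      congr 1
      funext l
      have h3 : l = j := Subsingleton.elim _ _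
      rw [h3, div_self hj, div_self one_ne_zero]
    have hco2 : ∀ j : Fin (0 + 1), co y (fun _ : Fin (0 + 1) => (1 : L)) j =
        co y (fun _ : Fin (0 + 1) => (1 : L)) 0 := fun j => rfl
    by_cases hP : ∀ p : MvPolynomial (Fin n ⊕ Fin (0 + 1)) ℂ,
        MvPolynomial.aeval (co y (fun _ : Fin (0 + 1) => (1 : L)) 0) p = 0 →
          MvPolynomial.aeval (co u (fun _ : Fin (0 + 1) => (1 : ℂ)) 0) p = 0
    · have h3 : Fibre y (fun _ : Fin (0 + 1) => (1 : L)) u = {v | v ≠ 0} := by
        ext v
        constructor
        · intro hv
          exact hv.1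
        · intro hv
          refine ⟨hv, fun j hj p hp => ?_⟩
          rw [hco v j hj]
          exact hP p hp
      rw [h3]
      exact hcon
    · have h3 : Fibre y (fun _ : Fin (0 + 1) => (1 : L)) u = ∅ := by
        rw [Set.eq_empty_iff_forall_notMem]
        rintro v ⟨hv, hv2⟩
        apply hP
        intro p hp
        have h4 : v 0 ≠ 0 := by
          intro h4
          apply hv
          funext i
          have : i = 0 := Subsingleton.elim _ _
          rw [this]
          exact h4
        have h5 := hv2 0 h4 p hp
        rwa [hco v 0 h4] at h5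
      rw [h3]
      exact isPreconnected_empty

end Pool.Agent.AbPencil
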