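import Pool.Agent.Lib_MP_1209e6_sk.Z13
import Pool.Agent.Lib_MP_1209e6_tv.B0
import Pool.Agent.Lib_MP_1209e6_tv.V0

/-! From realizations to Zariski dense entire curves (assembly). -/

set_option autoImplicit false

open Filter Topology

namespace Pool.Agent.AbPencil

open Tw Pool.Agent.Campana Pool.Agent.CampanaFlow Pool.Agent.AbFib

theorem tv_mero_pi {m : ℕ} {F : ℂ → Fin m → ℂ} {z₀ : ℂ}
    (h : ∀ i, MeromorphicAt (fun z => F z i) z₀) : MeromorphicAt F z₀ := by
  choose k hk using h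
  refine ⟨∑ i, k i, analyticAt_pi_iff.2 fun i => ?_⟩
  have h1 : k i ≤ ∑ i, k i := Finset.single_le_sum (fun _ _ => Nat.zero_le _) (Finset.mem_univ i)
  have h2 : (fun z => ((z - z₀) ^ (∑ i, k i) • F z) i) =
      fun z => (z - z₀) ^ ((∑ i, k i) - k i) * ((z - z₀) ^ k i • F z i) := by
    funext z
    rw [Pi.smul_apply, smul_eq_mul, smul_eq_mul, ← mul_assoc, ← pow_add, Nat.sub_add_cancel h1]
  rw [h2]
  exact ((analyticAt_id.sub analyticAt_const).pow _).mul (hk i)

/-- a meromorphic curve with the germs of homomorphisms is dense -/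
theorem dense_of_eps {L : Type} [Field L] [Algebra ℂ L] {n : ℕ} (y : Fin n → L)
    (u : ℂ → Fin n → ℂ) (hu : ∀ i z, MeromorphicAt (fun w => u w i) z)
    (hε : ∀ z, ∃ ε : L →ₐ[ℂ] Mer, ∀ i, ε (y i) = gz (fun w => u w i) z) : IsDenseCurve y u := by
  refine ⟨fun z => ?_, fun p => ?_⟩
  · exact tv_mero_pi fun i => hu i z
  · have hm : ∀ z, MeromorphicAt (fun w => MvPolynomial.aeval (u w) p) z := fun z =>
      tw_mero p z u fun a => hu a z
    have key : ∀ z, MvPolynomial.aeval y p = 0 ↔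
        ∀ᶠ w in 𝓝[≠] z, MvPolynomial.aeval (u w) p = 0 := by
      intro z
      obtain ⟨ε, h1⟩ := hε z
      rw [same_of_hom ε y p, ← aeval_gz_zero u z (fun a => hu a z) p]
      have h2 : (fun i => ε (y i)) = fun i => gz (fun w => u w i) z := funext h1
      rw [h2]
    constructor
    · exact fun h z => (key z).1 h
    · exact fun h => (key 0).2 (h 0)

theorem brody_of_real {m : ℕ} (P : Ideal (MvPolynomial (Fin (m + 1)) ℂ)) [P.IsPrime]
    (hP : IsVariety P) {L : Type} [Field L] [Algebra ℂ L] (J : FunField P →ₐ[ℂ] L)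
    (h : Realized (⊤ : IntermediateField ℂ L)) : BrodySpecial P := by
  obtain ⟨⟨n, y, hy⟩, H, hHm, hH⟩ := h
  set u : ℂ → Fin n → ℂ := fun z i => H ⟨y i, trivial⟩ z with hu
  have hum : ∀ i z, MeromorphicAt (fun w => u w i) z := fun i z => hHm _ z
  have hε : ∀ z, ∃ ε : L →ₐ[ℂ] Mer, ∀ i, ε (y i) = gz (fun w => u w i) z := by
    intro z
    obtain ⟨ε, h1⟩ := hH z
    exact ⟨ε, fun i => h1 ⟨y i, trivial⟩⟩
  refine brody_of_lifts P hP J y (fun _ : Fin (0 + 1) => (1 : L)) (trivial_fibration y hy.symm) u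
    (dense_of_eps y u hum hε) fun z₀ => ⟨fun _ _ => 1, analyticAt_const, ?_⟩
  obtain ⟨ε, h1⟩ := hε z₀
  have hR : Rel z₀ (co y (fun _ : Fin (0 + 1) => (1 : L)) 0) fun w =>
      co (u w) (fun _ : Fin (0 + 1) => (1 : ℂ)) 0 := by
    intro p hp
    refine (aeval_gz_zero (fun w => co (u w) (fun _ : Fin (0 + 1) => (1 : ℂ)) 0) z₀ ?_ p).1 ?_
    · rintro (i | i)
      · exact hum i z₀
      · exact MeromorphicAt.const _ _
    · have h2 := (same_of_hom ε (co y (fun _ : Fin (0 + 1) => (1 : L)) 0) p).1 hp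
      have h3 : (fun i => ε (co y (fun _ : Fin (0 + 1) => (1 : L)) 0 i)) =
          fun i => gz (fun w => co (u w) (fun _ : Fin (0 + 1) => (1 : ℂ)) 0 i) z₀ := by
        funext i
        rcases i with i | i
        · exact h1 i
        · change ε (1 / 1) = gz (fun _ => 1 / 1) z₀
          rw [div_one, map_one, div_one]
          have h4 := aeval_gz (ι := Fin 0) (fun i => i.elim0) z₀ (fun i => i.elim0) 1
          rw [map_one] at h4
          simpa using h4
      rwa [h3] at h2
  filter_upwards [rel_uniform hR] with w hw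
  refine ⟨fun h0 => one_ne_zero (congrFun h0 0), fun j _ p hp => ?_⟩
  have hj : j = 0 := Fin.fin_one_eq_zero j
  subst hj
  exact hw p hp

end Pool.Agent.AbPencil
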