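import Pool.Agent.Lib_MP_1209e6_tv.A6
import Pool.Agent.Lib_MP_1209e6_tv.R2
import Pool.Agent.Lib_MP_1209e6_tv.V1
import Pool.Agent.Lib_MP_1209e6_tv.Stmt

/-! The abelian step (assembly). -/

set_option autoImplicit false

open Filter Topology

namespace Pool.Agent.AbPencil

open Tw Pool.Agent.Campana Pool.Agent.CampanaFlow Pool.Agent.AbFib

variable {L : Type} [Field L] [Algebra ℂ L]

theorem adjoin_coe {F' : IntermediateField ℂ L} {ι : Type} (c : ι → F')
    (h : IntermediateField.adjoin ℂ (Set.range c) = ⊤) :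
    F' = IntermediateField.adjoin ℂ (Set.range fun i => (c i : L)) := by
  have h1 := congrArg (IntermediateField.map F'.val) h
  rw [IntermediateField.adjoin_map, ← Set.range_comp] at h1
  have h2 : IntermediateField.map F'.val ⊤ = F' := by
    ext a
    simp
  rw [h2] at h1
  exact h1.symm

theorem ab_step (hfg : ∃ T : Finset L, IntermediateField.adjoin ℂ (T : Set L) = ⊤)
    {F F' : IntermediateField ℂ L} (hF : Realized F) (h : IsAbelianOver F F')
    (hG : GermsLift F F' ∅) : Realized F' := by
  classical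
  obtain ⟨n, N, t, x, hab, hFt⟩ := h
  obtain ⟨⟨n', y', hy'⟩, H, hHm, hH⟩ := hF
  obtain ⟨Y, hYF, hlift⟩ := hG
  choose ε hε using hH
  have htF : ∀ i, (t i : L) ∈ F := fun i => by
    rw [hFt]
    exact IntermediateField.subset_adjoin _ _ ⟨i, rfl⟩
  set u : ℂ → Fin n → ℂ := fun w i => H ⟨t i, htF i⟩ w with hu
  have hum : ∀ i z, MeromorphicAt (fun w => u w i) z := fun i z => hHm _ z
  set Zb : Set ℂ := {w | ∃ a : F, (a : L) ∈ Y ∧ ¬ Hol (gz (H a) w)} with hZb
  have hut : ∀ z, ∀ i, (ε z) (t i : L) = gz (fun w => u w i) z := fun z i => hε z ⟨t i, htF i⟩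
  have hdense : IsDenseCurve t u := by
    refine dense_of_eps t u hum fun z => ⟨(ε z).comp F'.val, fun i => hut z i⟩
  choose y₀ hy₀ hy₀' using fun (z : ℂ) (l : Fin (N + 1)) => gz_surj (ε z ((x l / x 0 : F') : L)) z
  have hco : ∀ z, (fun i => ((ε z).comp F'.val) (co t x 0 i)) =
      fun i => gz (fun w => (Sum.elim (u w) (fun l => y₀ z l w) : _ → ℂ) i) z := by
    intro z
    funext i
    rcases i with i | l
    · exact hut z i
    · exact (hy₀' z l).symm
  have hrel : ∀ z, Rel z (co t x 0) fun w => Sum.elim (u w) (fun l => y₀ z l w) := by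
    intro z p hp
    refine (aeval_gz_zero (fun w => Sum.elim (u w) (fun l => y₀ z l w)) z ?_ p).1 ?_
    · rintro (i | l)
      · exact hum i z
      · exact hy₀ z l
    · have h1 := (same_of_hom ((ε z).comp F'.val) (co t x 0) p).1 hp
      rwa [hco z] at h1
  choose Λ hΛ using fun z => ext_near hfg
    (Fin.append (fun i => (t i : L)) fun l => ((x l / x 0 : F') : L)) (ε z)
  obtain ⟨y, hym, hyrel, hyc⟩ := ab_curve t x hab u hdense Zb (bad_disc H hHm Y)
    (fun z w l => y₀ z l w) (fun z l => hy₀ z l) hrel Λ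
  have hcm : ∀ (i : Fin n ⊕ Fin (N + 1)) z,
      MeromorphicAt (fun w => (Sum.elim (u w) (y w) : _ → ℂ) i) z := by
    rintro (i | l) z
    · exact hum i z
    · exact hym l z
  have hsame : ∀ z, SameRel (co t x 0) fun i => gz (fun w => (Sum.elim (u w) (y w) : _ → ℂ) i) z := by
    intro z p
    rw [hyrel p z, aeval_gz_zero (fun w => Sum.elim (u w) (y w)) z (fun i => hcm i z)]
  have hsameL : ∀ z, SameRel (fun i => ((co t x 0 i : F') : L))
      fun i => gz (fun w => (Sum.elim (u w) (y w) : _ → ℂ) i) z := by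
    intro z p
    rw [← hsame z p]
    exact (same_of_hom F'.val (co t x 0) p).symm
  have hF' := adjoin_coe (co t x 0) hab.gen
  have key : ∀ z, ∃ ψ : L →ₐ[ℂ] Mer, ∀ i, ψ ((co t x 0 i : F') : L) =
      gz (fun w => (Sum.elim (u w) (y w) : _ → ℂ) i) z := by
    intro z
    by_cases hz : z ∈ Zb
    · have e1 : (fun i => ((co t x 0 i : F') : L)) =
          Sum.elim (fun i => (t i : L)) fun l => ((x l / x 0 : F') : L) := by
        funext i
        rcases i with i | i <;> rfl
      have e2 : (fun i => gz (fun w => (Sum.elim (u w) (y w) : _ → ℂ) i) z) =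
          Sum.elim (fun i => gz (fun w => u w i) z) fun l => gz (fun w => y w l) z := by
        funext i
        rcases i with i | i <;> rfl
      have h1 := hsameL z
      rw [e1, e2] at h1
      obtain ⟨ψ, hψ⟩ := hΛ z _ (same_append h1) (by
        intro i
        refine Fin.addCases (fun i => ?_) (fun l => ?_) i
        · rw [Fin.append_left, Fin.append_left, hut z i, sub_self, mo_eq_top.2 rfl]
          exact le_top
        · have h2 : MeromorphicAt (fun w => y w l - y₀ z l w) z := (hym l z).sub (hy₀ z l)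
          rw [Fin.append_right, Fin.append_right, ← hy₀' z l,
            ← gz_sub (hym l z) (hy₀ z l), mo_gz h2]
          exact hyc z hz l)
      refine ⟨ψ, ?_⟩
      rintro (i | l)
      · have := hψ (Fin.castAdd (N + 1) i)
        rw [Fin.append_left, Fin.append_left] at this
        exact this
      · have := hψ (Fin.natAdd n l)
        rw [Fin.append_right, Fin.append_right] at this
        exact this
    · obtain ⟨φ₀, hφ₀⟩ := hom_of_rel _ _ (hsameL z)
      let φ : F' →ₐ[ℂ] Mer := φ₀.comp (IntermediateField.inclusion hF'.le)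
      have hφ : ∀ i, φ (co t x 0 i) = gz (fun w => (Sum.elim (u w) (y w) : _ → ℂ) i) z := by
        intro i
        exact hφ₀ i _
      have hFF' : F ≤ F' := by
        rw [hFt, IntermediateField.adjoin_le_iff]
        rintro _ ⟨i, rfl⟩
        exact (t i).2
      have hφF : ∀ a : F', ∀ ha : (a : L) ∈ F, φ a = gz (H ⟨a, ha⟩) z := by
        intro a ha
        have h1 : (φ.comp (IntermediateField.inclusion hFF')) = (ε z).comp F.val := by
          subst hFt
          refine hom_ext_adjoin (fun i => (t i : L)) _ _ fun i hi => ?_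
          change φ (t i) = ε z (t i)
          rw [hut z i]
          exact hφ (Sum.inl i)
        have h2 := DFunLike.congr_fun h1 ⟨a, ha⟩
        change φ a = ε z a at h2
        rw [h2]
        exact hε z ⟨a, ha⟩
      obtain ⟨ψ, hψ⟩ := hlift φ (by
        intro a ha
        have haF : (a : L) ∈ F := hYF _ ha
        rw [hφF a haF]
        by_contra hcon
        exact hz ⟨⟨a, haF⟩, ha, hcon⟩) (fun a ha => absurd ha (Set.notMem_empty _))
      refine ⟨ψ, fun i => ?_⟩
      rw [hψ]
      exact hφ i
  refine real_of_tuple (fun i => ((co t x 0 i : F') : L))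
    (fun i w => (Sum.elim (u w) (y w) : _ → ℂ) i) hcm F' hF'
    ⟨n + (N + 1), Fin.append (fun i => (t i : L)) fun l => ((x l / x 0 : F') : L), ?_⟩ key
  rw [range_append]
  have e1 : (fun i => ((co t x 0 i : F') : L)) =
      Sum.elim (fun i => (t i : L)) fun l => ((x l / x 0 : F') : L) := by
    funext i
    rcases i with i | i <;> rfl
  rw [← e1]
  exact hF'

end Pool.Agent.AbPencil
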