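import Mathlib

/-! PIECE G1: compactness of the space of valuation rings. -/

set_option autoImplicit false

namespace Pool.Agent.AbPencil

/-- Proof. Let `U` be an ultrafilter on `Finset {a // a ∈ k}` finer than `atTop`, `O Y` the valuation ring given by `h` for the finite set `Y`, and
`O = {a | ∀ᶠ Y in U, a ∈ O Y}`. It is a valuation ring (closed under sums, products, negatives; `a ∈ O` or `a⁻¹ ∈ O` since `U` is an
ultrafilter), contains `k`, and if a finite set `A` is contained in `O` then `A ⊆ O Y` for `U`-many `Y`, so `A ∉ 𝒜`. -/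
theorem val_compact {E : Type} [Field E] (k : Set E) (𝒜 : Set (Finset E))
    (h : ∀ Y : Finset E, (∀ a ∈ Y, a ∈ k) →
      ∃ O : ValuationSubring E, (∀ a ∈ Y, a ∈ O) ∧ ∀ A ∈ 𝒜, ¬ ∀ a ∈ A, a ∈ O) :
    ∃ O : ValuationSubring E, (∀ a ∈ k, a ∈ O) ∧ ∀ A ∈ 𝒜, ¬ ∀ a ∈ A, a ∈ O := by
  classical
  choose O hO1 hO2 using h
  let f : Finset {a // a ∈ k} → Finset E := fun Y => Y.map ⟨Subtype.val, Subtype.val_injective⟩
  have hf : ∀ Y, ∀ a ∈ f Y, a ∈ k := by
    intro Y a ha
    obtain ⟨b, _, rfl⟩ := Finset.mem_map.1 ha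
    exact b.2
  let W : Finset {a // a ∈ k} → ValuationSubring E := fun Y => O (f Y) (hf Y)
  let U : Ultrafilter (Finset {a // a ∈ k}) := Ultrafilter.of Filter.atTop
  have hU : (U : Filter (Finset {a // a ∈ k})) ≤ Filter.atTop := Ultrafilter.of_le _
  let V : ValuationSubring E :=
    { carrier := {a | ∀ᶠ Y in (U : Filter (Finset {a // a ∈ k})), a ∈ W Y}
      mul_mem' := fun {a b} ha hb => by
        filter_upwards [ha, hb] with Y h1 h2
        exact (W Y).mul_mem _ _ h1 h2
      one_mem' := Filter.Eventually.of_forall fun Y => (W Y).one_mem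
      add_mem' := fun {a b} ha hb => by
        filter_upwards [ha, hb] with Y h1 h2
        exact (W Y).add_mem _ _ h1 h2
      zero_mem' := Filter.Eventually.of_forall fun Y => (W Y).zero_mem
      neg_mem' := fun {a} ha => by
        filter_upwards [ha] with Y h1
        exact (W Y).neg_mem _ h1
      mem_or_inv_mem' := fun a => by
        change (∀ᶠ Y in (U : Filter (Finset {a // a ∈ k})), a ∈ W Y) ∨
          (∀ᶠ Y in (U : Filter (Finset {a // a ∈ k})), a⁻¹ ∈ W Y)
        rw [← Ultrafilter.eventually_or]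
        exact Filter.Eventually.of_forall fun Y => (W Y).mem_or_inv_mem a }
  have hV : ∀ a, a ∈ V ↔ ∀ᶠ Y in (U : Filter (Finset {a // a ∈ k})), a ∈ W Y := fun a => Iff.rfl
  refine ⟨V, fun a ha => ?_, fun A hA hAV => ?_⟩
  · rw [hV]
    have h1 : ∀ᶠ Y in (Filter.atTop : Filter (Finset {a // a ∈ k})), ⟨a, ha⟩ ∈ Y :=
      (Filter.eventually_ge_atTop {(⟨a, ha⟩ : {a // a ∈ k})}).mono fun Y hY =>
        hY (Finset.mem_singleton_self _)
    filter_upwards [hU h1] with Y hY
    exact hO1 (f Y) (hf Y) a (Finset.mem_map.2 ⟨⟨a, ha⟩, hY, rfl⟩)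
  · have h1 : ∀ᶠ Y in (U : Filter (Finset {a // a ∈ k})), ∀ a ∈ A, a ∈ W Y := by
      rw [Filter.eventually_all_finset]
      exact fun a ha => (hV a).1 (hAV a ha)
    obtain ⟨Y, hY⟩ := h1.exists
    exact hO2 (f Y) (hf Y) A hA hY

end Pool.Agent.AbPencil
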