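import Pool.Agent.Lib_MP_1209e6_tv.G6
import Pool.Agent.Lib_MP_1209e6_tv.H3

/-! PIECE G10: extension of homomorphisms which are holomorphic on a sufficiently large finite set. -/

set_option autoImplicit false

namespace Pool.Agent.AbPencil

open Tw

variable {L : Type} [Field L] [Algebra ℂ L]

/-- A polynomial over a domain which becomes separable over a field containing the domain: some nonzero element is a
combination of the polynomial and its derivative. -/
theorem g10_bezout {A K : Type} [CommRing A] [IsDomain A] [Field K] (i : A →+* K)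
    (hi : Function.Injective i) (F : Polynomial A) (hF : (F.map i).Separable) :
    ∃ (u w : Polynomial A) (b : A), b ≠ 0 ∧
      u * F + w * Polynomial.derivative F = Polynomial.C b := by
  classical
  let j : FractionRing A →+* K := IsFractionRing.lift hi
  have hj : j.comp (algebraMap A (FractionRing A)) = i := by
    ext a
    exact IsFractionRing.lift_algebraMap hi a
  have h1 : (F.map (algebraMap A (FractionRing A))).Separable := by
    rw [← Polynomial.separable_map j, Polynomial.map_map, hj]
    exact hF
  obtain ⟨u, w, huw⟩ := h1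
  obtain ⟨b₁, hb₁, hu⟩ := IsLocalization.integerNormalization_spec (nonZeroDivisors A) u
  obtain ⟨b₂, hb₂, hw⟩ := IsLocalization.integerNormalization_spec (nonZeroDivisors A) w
  set u' := IsLocalization.integerNormalization (nonZeroDivisors A) u with hu'
  set w' := IsLocalization.integerNormalization (nonZeroDivisors A) w with hw'
  have hinj : Function.Injective (Polynomial.map (algebraMap A (FractionRing A))) :=
    Polynomial.map_injective _ (IsFractionRing.injective A (FractionRing A))
  refine ⟨Polynomial.C b₂ * u', Polynomial.C b₁ * w', b₁ * b₂,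
    mul_ne_zero (nonZeroDivisors.ne_zero hb₁) (nonZeroDivisors.ne_zero hb₂), hinj ?_⟩
  rw [Polynomial.derivative_map] at huw
  rw [Polynomial.map_add, Polynomial.map_mul, Polynomial.map_mul, Polynomial.map_mul,
    Polynomial.map_mul, hu, hw, Polynomial.map_C, Polynomial.map_C, Polynomial.map_C, map_mul,
    Algebra.smul_def, Algebra.smul_def, Polynomial.algebraMap_apply, Polynomial.algebraMap_apply]
  have h2 : (Polynomial.C (algebraMap A (FractionRing A) b₂) *
        (Polynomial.C (algebraMap A (FractionRing A) b₁) * u) *
        F.map (algebraMap A (FractionRing A)) +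
      Polynomial.C (algebraMap A (FractionRing A) b₁) *
        (Polynomial.C (algebraMap A (FractionRing A) b₂) * w) *
        (Polynomial.derivative F).map (algebraMap A (FractionRing A))) =
      Polynomial.C (algebraMap A (FractionRing A) b₁) *
        Polynomial.C (algebraMap A (FractionRing A) b₂) *
        (u * F.map (algebraMap A (FractionRing A)) +
          w * (Polynomial.derivative F).map (algebraMap A (FractionRing A))) := by ring
  rw [h2, huw, mul_one, Polynomial.C_mul]

/-- Proof. Regard `f` as a polynomial in `X` over `A = E[S_1, …, S_g]`, `E = ℂ(y)` (`s` is algebraically independent over `E`, so `A → L` is injective): `F(S; X)`, of degree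
`≥ 1`, and coprime to its derivative over `Frac A` (it is `c` times the minimal polynomial of `θ` over `E(s)`, `hP.min`, which is separable). So the
leading coefficient `l(S)` and `r(S) = u F + w F'` (clear denominators) are nonzero polynomials in `S` over `E`, and there is `σ ∈ ℂ^g` with
`l(σ) r(σ) ≠ 0` (`ℂ` is infinite: `MvPolynomial.funext`-like statement for points with coordinates in an infinite subset). -/
theorem exists_section_point {n g : ℕ} {y : Fin n → L} {s : Fin g → L} {θ : L}
    {f : Polynomial (MvPolynomial (Fin n ⊕ Fin g) ℂ)} (hP : RPres y s θ f) :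
    ∃ σ : Fin g → ℂ, ∀ P : Polynomial (IntermediateField.adjoin ℂ (Set.range y)),
      P.map (algebraMap (IntermediateField.adjoin ℂ (Set.range y)) L) =
        f.map (MvPolynomial.aeval (Sum.elim y fun j => algebraMap ℂ L (σ j))).toRingHom →
      1 ≤ P.natDegree ∧ IsCoprime P (Polynomial.derivative P) := by
  classical
  have hEL : Function.Injective (algebraMap (IntermediateField.adjoin ℂ (Set.range y)) L) :=
    (algebraMap (IntermediateField.adjoin ℂ (Set.range y)) L).injective
  let y' : Fin n → IntermediateField.adjoin ℂ (Set.range y) := fun i =>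
    ⟨y i, IntermediateField.subset_adjoin ℂ _ ⟨i, rfl⟩⟩
  have hs : AlgebraicIndependent (IntermediateField.adjoin ℂ (Set.range y)) s := by
    have h0 := hP.ind
    open IntermediateField.algebraAdjoinAdjoin in
    exact h0.extendScalars (IntermediateField.adjoin ℂ (Set.range y))
  -- the polynomial over `E[S]`
  let a : MvPolynomial (Fin n ⊕ Fin g) ℂ →+*
      MvPolynomial (Fin g) (IntermediateField.adjoin ℂ (Set.range y)) :=
    (MvPolynomial.aeval (R := ℂ) (Sum.elim (fun i => MvPolynomial.C (y' i))
      MvPolynomial.X)).toRingHom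
  let i : MvPolynomial (Fin g) (IntermediateField.adjoin ℂ (Set.range y)) →+* L :=
    (MvPolynomial.aeval s).toRingHom
  have hi : Function.Injective i := hs
  have hia : i.comp a = (MvPolynomial.aeval (Sum.elim y s)).toRingHom := by
    apply MvPolynomial.ringHom_ext
    · intro r
      simp only [i, a, RingHom.comp_apply, AlgHom.toRingHom_eq_coe, RingHom.coe_coe,
        MvPolynomial.aeval_C]
      rw [IsScalarTower.algebraMap_apply ℂ (IntermediateField.adjoin ℂ (Set.range y))
        (MvPolynomial (Fin g) (IntermediateField.adjoin ℂ (Set.range y))),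
        MvPolynomial.algebraMap_eq, MvPolynomial.aeval_C, ← IsScalarTower.algebraMap_apply]
    · rintro (k | k)
      · simp only [i, a, RingHom.comp_apply, AlgHom.toRingHom_eq_coe, RingHom.coe_coe,
          MvPolynomial.aeval_X, Sum.elim_inl, MvPolynomial.aeval_C]
        rfl
      · simp only [i, a, RingHom.comp_apply, AlgHom.toRingHom_eq_coe, RingHom.coe_coe,
          MvPolynomial.aeval_X, Sum.elim_inr]
  have hFi : (f.map a).map i = f.map (MvPolynomial.aeval (Sum.elim y s)).toRingHom := by
    rw [Polynomial.map_map, hia]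
  -- separability
  obtain ⟨c, hc, hmin⟩ := hP.min
  have hne : minpoly (IntermediateField.adjoin ℂ (Set.range (Sum.elim y s))) θ ≠ 0 := by
    intro h0
    rw [h0, Polynomial.map_zero, mul_zero] at hmin
    apply hP.sep
    have h1 : (Polynomial.derivative f).map
        (MvPolynomial.aeval (Sum.elim y s)).toRingHom = 0 := by
      rw [← Polynomial.derivative_map, hmin, Polynomial.derivative_zero]
    rw [Polynomial.eval₂_eq_eval_map, h1, Polynomial.eval_zero]
  have hint : IsIntegral (IntermediateField.adjoin ℂ (Set.range (Sum.elim y s))) θ :=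
    minpoly.ne_zero_iff.1 hne
  have hsep : ((f.map a).map i).Separable := by
    rw [hFi, hmin]
    have h1 : (minpoly (IntermediateField.adjoin ℂ (Set.range (Sum.elim y s))) θ).Separable :=
      (minpoly.irreducible hint).separable
    have h2 := h1.map (f := algebraMap (IntermediateField.adjoin ℂ
      (Set.range (Sum.elim y s))) L)
    exact Polynomial.Separable.unit_mul (Polynomial.isUnit_C.2 hc.isUnit) h2
  have hdeg : 1 ≤ (f.map a).natDegree := by
    rw [← Polynomial.natDegree_map_eq_of_injective hi, hFi, hmin,
      Polynomial.natDegree_C_mul hc, Polynomial.natDegree_map]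
    exact minpoly.natDegree_pos hint
  obtain ⟨u, w, b, hb, huw⟩ := g10_bezout i hi (f.map a) hsep
  have hF0 : f.map a ≠ 0 := by
    intro h0
    rw [h0, Polynomial.natDegree_zero] at hdeg
    omega
  have hlead : (f.map a).leadingCoeff ≠ 0 := Polynomial.leadingCoeff_ne_zero.2 hF0
  -- the point
  obtain ⟨σ, hσ⟩ : ∃ σ : Fin g → ℂ, MvPolynomial.eval
      (fun j => algebraMap ℂ (IntermediateField.adjoin ℂ (Set.range y)) (σ j))
      (b * (f.map a).leadingCoeff) ≠ 0 := by
    by_contra hcon
    simp only [not_exists, not_not] at hcon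
    refine mul_ne_zero hb hlead (MvPolynomial.funext_set
      (fun _ => Set.range (algebraMap ℂ (IntermediateField.adjoin ℂ (Set.range y))))
      (fun _ => Set.infinite_range_of_injective
        (algebraMap ℂ (IntermediateField.adjoin ℂ (Set.range y))).injective) ?_)
    intro x hx
    choose σ hσ using fun j => hx j (Set.mem_univ j)
    have h1 := hcon σ
    have h2 : (fun j => algebraMap ℂ (IntermediateField.adjoin ℂ (Set.range y)) (σ j)) = x :=
      funext hσ
    rw [h2] at h1
    rw [h1, map_zero]
  rw [map_mul] at hσ
  refine ⟨σ, fun P hPm => ?_⟩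
  set v : MvPolynomial (Fin g) (IntermediateField.adjoin ℂ (Set.range y)) →+*
      IntermediateField.adjoin ℂ (Set.range y) := MvPolynomial.eval
      (fun j => algebraMap ℂ (IntermediateField.adjoin ℂ (Set.range y)) (σ j)) with hv
  have hva : (algebraMap (IntermediateField.adjoin ℂ (Set.range y)) L).comp (v.comp a) =
      (MvPolynomial.aeval (Sum.elim y fun j => algebraMap ℂ L (σ j))).toRingHom := by
    apply MvPolynomial.ringHom_ext
    · intro r
      simp only [v, a, RingHom.comp_apply, AlgHom.toRingHom_eq_coe, RingHom.coe_coe,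
        MvPolynomial.aeval_C]
      rw [IsScalarTower.algebraMap_apply ℂ (IntermediateField.adjoin ℂ (Set.range y))
        (MvPolynomial (Fin g) (IntermediateField.adjoin ℂ (Set.range y))),
        MvPolynomial.algebraMap_eq, MvPolynomial.eval_C, ← IsScalarTower.algebraMap_apply]
    · rintro (k | k)
      · simp only [v, a, RingHom.comp_apply, AlgHom.toRingHom_eq_coe, RingHom.coe_coe,
          MvPolynomial.aeval_X, Sum.elim_inl, MvPolynomial.eval_C]
        rfl
      · simp only [v, a, RingHom.comp_apply, AlgHom.toRingHom_eq_coe, RingHom.coe_coe,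
          MvPolynomial.aeval_X, Sum.elim_inr, MvPolynomial.eval_X]
        rw [← IsScalarTower.algebraMap_apply]
  have hPeq : P = (f.map a).map v := by
    apply Polynomial.map_injective _ hEL
    rw [hPm, Polynomial.map_map, Polynomial.map_map, RingHom.comp_assoc, hva]
  have hl : v (f.map a).leadingCoeff ≠ 0 := right_ne_zero_of_mul hσ
  have hb' : v b ≠ 0 := left_ne_zero_of_mul hσ
  constructor
  · rw [hPeq, Polynomial.natDegree_map_of_leadingCoeff_ne_zero _ hl]
    exact hdeg
  · rw [hPeq]
    have h1 := congrArg (Polynomial.map v) huw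
    rw [Polynomial.map_add, Polynomial.map_mul, Polynomial.map_mul, Polynomial.map_C,
      ← Polynomial.derivative_map] at h1
    refine ⟨Polynomial.C (v b)⁻¹ * u.map v, Polynomial.C (v b)⁻¹ * w.map v, ?_⟩
    rw [mul_assoc, mul_assoc, ← mul_add, h1, ← Polynomial.C_mul, inv_mul_cancel₀ hb',
      Polynomial.C_1]

/-- Proof. `exists_basis`, `exists_rpres`, `exists_section_point`: `σ` and the polynomial `P` over `F' = ℂ(y)` with image `f(y, σ; X)` (it exists, since the coefficients are polynomials in
`y` and constants). `root_of_hol` for `P`: `A`. If `φ` is holomorphic on `A` there is a root `e` of `φ P = f(φ y, σ; X)`, with nonzero derivative. `ext_core` for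
`Y₀ = Y = φ y`, `S₀ = σ`, `e₀ = e` (`same_of_hom`); `hom_ext_adjoin`. -/
theorem generic_chart (hfg : ∃ T : Finset L, IntermediateField.adjoin ℂ (T : Set L) = ⊤)
    (F' : IntermediateField ℂ L)
    (hF' : ∃ (n : ℕ) (y : Fin n → L), F' = IntermediateField.adjoin ℂ (Set.range y)) :
    ∃ A : Finset F', ∀ φ : F' →ₐ[ℂ] Mer, (∀ a ∈ A, Hol (φ a)) →
      ∃ ψ : L →ₐ[ℂ] Mer, ∀ a : F', ψ a = φ a := by
  classical
  obtain ⟨n, y, rfl⟩ := hF'
  obtain ⟨g, s, θ, hs, hgen, hθ⟩ := exists_basis hfg y
  obtain ⟨f, hP⟩ := exists_rpres y s θ hs hgen hθ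
  obtain ⟨σ, hσ⟩ := exists_section_point hP
  set E := IntermediateField.adjoin ℂ (Set.range y) with hE
  have hyE : ∀ i, y i ∈ E := fun i => IntermediateField.subset_adjoin ℂ _ ⟨i, rfl⟩
  let y' : Fin n → E := fun i => ⟨y i, hyE i⟩
  let P : Polynomial E :=
    f.map (MvPolynomial.aeval (Sum.elim y' fun j => algebraMap ℂ E (σ j))).toRingHom
  have hPm : P.map (algebraMap E L) =
      f.map (MvPolynomial.aeval (Sum.elim y fun j => algebraMap ℂ L (σ j))).toRingHom := by
    rw [Polynomial.map_map]
    congr 1
    apply MvPolynomial.ringHom_ext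
    · intro c
      simp only [AlgHom.toRingHom_eq_coe, RingHom.coe_comp, RingHom.coe_coe, Function.comp_apply,
        MvPolynomial.aeval_C]
      exact (IsScalarTower.algebraMap_apply ℂ E L c).symm
    · rintro (i | j)
      · simp only [AlgHom.toRingHom_eq_coe, RingHom.coe_comp, RingHom.coe_coe, Function.comp_apply,
          MvPolynomial.aeval_X, Sum.elim_inl]
        rfl
      · simp only [AlgHom.toRingHom_eq_coe, RingHom.coe_comp, RingHom.coe_coe, Function.comp_apply,
          MvPolynomial.aeval_X, Sum.elim_inr]
        exact (IsScalarTower.algebraMap_apply ℂ E L _).symm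
  obtain ⟨h1, h2⟩ := hσ P hPm
  obtain ⟨A, hA⟩ := root_of_hol P h1 h2
  refine ⟨A, fun φ hφ => ?_⟩
  obtain ⟨e, -, he1, he2⟩ := hA φ.toRingHom hφ
  have hcomp : φ.toRingHom.comp
      (MvPolynomial.aeval (R := ℂ) (Sum.elim y' fun j => algebraMap ℂ E (σ j))).toRingHom =
      (MvPolynomial.aeval (R := ℂ) (Sum.elim (fun i => φ (y' i))
        fun j => algebraMap ℂ Mer (σ j))).toRingHom := by
    apply MvPolynomial.ringHom_ext
    · intro c
      simp only [AlgHom.toRingHom_eq_coe, RingHom.coe_comp, RingHom.coe_coe, Function.comp_apply,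
        MvPolynomial.aeval_C]
      exact φ.commutes c
    · rintro (i | j)
      · simp only [AlgHom.toRingHom_eq_coe, RingHom.coe_comp, RingHom.coe_coe, Function.comp_apply,
          MvPolynomial.aeval_X, Sum.elim_inl]
      · simp only [AlgHom.toRingHom_eq_coe, RingHom.coe_comp, RingHom.coe_coe, Function.comp_apply,
          MvPolynomial.aeval_X, Sum.elim_inr]
        exact φ.commutes _
  have hroot : f.eval₂ (MvPolynomial.aeval (Sum.elim (fun i => φ (y' i))
      fun j => algebraMap ℂ Mer (σ j))).toRingHom e = 0 := by
    rw [← hcomp, ← Polynomial.eval₂_map]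
    exact he1
  have hsep : (Polynomial.derivative f).eval₂ (MvPolynomial.aeval (Sum.elim (fun i => φ (y' i))
      fun j => algebraMap ℂ Mer (σ j))).toRingHom e ≠ 0 := by
    rw [← hcomp, ← Polynomial.eval₂_map, ← Polynomial.derivative_map]
    exact he2
  obtain ⟨Λ, hΛ⟩ := ext_core hP _ _ e hroot hsep
  obtain ⟨ψ, hψ⟩ := hΛ (fun i => φ (y' i))
    (fun p => (same_of_hom E.val y' p).symm.trans (same_of_hom φ y' p)) (fun i => by
      rw [sub_self, mo_eq_top.2 rfl]
      exact le_top)
  refine ⟨ψ, fun a => ?_⟩
  have h3 := hom_ext_adjoin y (ψ.comp E.val) φ (fun i hi => hψ i)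
  exact DFunLike.congr_fun h3 a

end Pool.Agent.AbPencil
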