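import Mathlib

/-! PIECE G2: valuation rings of function fields of one variable. -/

set_option autoImplicit false

namespace Pool.Agent.AbPencil

variable {k E : Type} [Field k] [Field E] [Algebra k E]

open Polynomial IntermediateField

private theorem G2_aeval_mem (O : ValuationSubring E) (hk : ∀ a : k, algebraMap k E a ∈ O)
    {t : E} (ht : t ∈ O) (f : k[X]) : aeval t f ∈ O := by
  rw [aeval_eq_sum_range]
  refine O.toSubring.sum_mem fun i _ => ?_
  rw [Algebra.smul_def]
  exact O.mul_mem _ _ (hk _) (O.toSubring.pow_mem ht i)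

private theorem G2_const (O : ValuationSubring E) (hk : ∀ a : k, algebraMap k E a ∈ O)
    {c : k} (hc : c ≠ 0) : O.valuation (algebraMap k E c) = 1 := by
  have h1 : O.valuation (algebraMap k E c) ≤ 1 := (O.valuation_le_one_iff _).2 (hk c)
  have h2 : O.valuation (algebraMap k E c⁻¹) ≤ 1 := (O.valuation_le_one_iff _).2 (hk c⁻¹)
  refine le_antisymm h1 ?_
  have h3 : O.valuation (algebraMap k E c) * O.valuation (algebraMap k E c⁻¹) = 1 := by
    rw [← map_mul, ← map_mul, mul_inv_cancel₀ hc, map_one, map_one]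
  calc (1 : O.ValueGroup) = O.valuation (algebraMap k E c) * O.valuation (algebraMap k E c⁻¹) :=
        h3.symm
    _ ≤ O.valuation (algebraMap k E c) * 1 := mul_le_mul_right h2 _
    _ = _ := mul_one _

private theorem G2_poly (O : ValuationSubring E) (hk : ∀ a : k, algebraMap k E a ∈ O)
    {t : E} (ht : O.valuation t < 1) (n : ℕ) : ∀ f : k[X], f ≠ 0 → f.natDegree < n →
      ∃ m : ℕ, O.valuation (aeval t f) = O.valuation t ^ m := by
  have htO : t ∈ O := (O.valuation_le_one_iff _).1 ht.le
  induction n with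
  | zero => intro f _ h; omega
  | succ n ih =>
    intro f hf hd
    have e : aeval t f = aeval t f.divX * t + algebraMap k E (f.coeff 0) := by
      conv_lhs => rw [← divX_mul_X_add f]
      rw [map_add, map_mul, aeval_X, aeval_C]
    by_cases h0 : f.coeff 0 = 0
    · have hg : f.divX ≠ 0 := by
        intro h
        apply hf
        rw [← divX_mul_X_add f, h, h0]
        simp
      have hdeg : f.divX.natDegree < n := by
        rw [natDegree_divX_eq_natDegree_tsub_one]
        rcases Nat.eq_zero_or_pos f.natDegree with h | h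
        · exfalso
          rw [Polynomial.natDegree_eq_zero] at h
          obtain ⟨c, hc⟩ := h
          rw [← hc, coeff_C_zero] at h0
          apply hf
          rw [← hc, h0, map_zero]
        · omega
      obtain ⟨m, hm⟩ := ih _ hg hdeg
      refine ⟨m + 1, ?_⟩
      rw [e, h0, map_zero, add_zero, map_mul, hm, pow_succ]
    · refine ⟨0, ?_⟩
      have h1 : O.valuation (aeval t f.divX * t) < O.valuation (algebraMap k E (f.coeff 0)) := by
        rw [G2_const O hk h0, map_mul]
        refine lt_of_le_of_lt ?_ ht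
        calc O.valuation (aeval t f.divX) * O.valuation t ≤ 1 * O.valuation t :=
              mul_le_mul_left ((O.valuation_le_one_iff _).2 (G2_aeval_mem O hk htO _)) _
          _ = _ := one_mul _
      rw [e, Valuation.map_add_eq_of_lt_right _ h1, G2_const O hk h0, pow_zero]

private theorem G2_field (O : ValuationSubring E) (hk : ∀ a : k, algebraMap k E a ∈ O)
    {t : E} (ht0 : t ≠ 0) (ht : O.valuation t < 1) (c : E) (hc : c ∈ k⟮t⟯) (hc0 : c ≠ 0) :
    ∃ z : ℤ, O.valuation c = O.valuation t ^ z := by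
  obtain ⟨r, s, rfl⟩ := (mem_adjoin_simple_iff k c).1 hc
  have hr : r ≠ 0 := by rintro rfl; simp at hc0
  have hs : s ≠ 0 := by rintro rfl; simp at hc0
  obtain ⟨m, hm⟩ := G2_poly O hk ht _ r hr (Nat.lt_succ_self _)
  obtain ⟨m', hm'⟩ := G2_poly O hk ht _ s hs (Nat.lt_succ_self _)
  refine ⟨(m : ℤ) - m', ?_⟩
  have hv : O.valuation t ≠ 0 := (Valuation.ne_zero_iff _).2 ht0
  rw [map_div₀, hm, hm', zpow_sub₀ hv, zpow_natCast, zpow_natCast]

private theorem G2_transc (O : ValuationSubring E) (hk : ∀ a : k, algebraMap k E a ∈ O)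
    {t : E} (ht0 : t ≠ 0) (ht : O.valuation t < 1) : Transcendental k t := by
  rw [transcendental_iff]
  intro f hf
  by_contra hne
  obtain ⟨m, hm⟩ := G2_poly O hk ht _ f hne (Nat.lt_succ_self _)
  rw [hf, map_zero] at hm
  exact pow_ne_zero m ((Valuation.ne_zero_iff _).2 ht0) hm.symm

/-- ultrametric: a vanishing sum has two nonzero terms of the same value -/
private theorem G2_two (O : ValuationSubring E) {ι : Type} [Fintype ι] (x : ι → E)
    (hx : ∑ i, x i = 0) (hne : ∃ i, x i ≠ 0) :
    ∃ i j, i ≠ j ∧ x i ≠ 0 ∧ O.valuation (x i) = O.valuation (x j) := by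
  classical
  obtain ⟨i0, hi0⟩ := hne
  obtain ⟨i, -, hi⟩ := Finset.exists_max_image Finset.univ (fun i => O.valuation (x i))
    ⟨i0, Finset.mem_univ _⟩
  have hxi : x i ≠ 0 := by
    intro h
    have h1 : O.valuation (x i0) ≤ O.valuation (x i) := hi i0 (Finset.mem_univ _)
    rw [h, map_zero] at h1
    exact hi0 ((Valuation.zero_iff _).1 (le_zero_iff.1 h1))
  by_contra hcon
  push Not at hcon
  have hlt : ∀ j ∈ Finset.univ.erase i, O.valuation (x j) < O.valuation (x i) := by
    intro j hj
    exact lt_of_le_of_ne (hi j (Finset.mem_univ _))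
      fun h => hcon i j (Finset.ne_of_mem_erase hj).symm hxi h.symm
  have h2 := Valuation.map_sum_lt O.valuation ((Valuation.ne_zero_iff _).2 hxi) hlt
  have h3 : x i = -∑ j ∈ Finset.univ.erase i, x j := by
    rw [← Finset.add_sum_erase _ _ (Finset.mem_univ i)] at hx
    exact eq_neg_of_add_eq_zero_left hx
  rw [h3, Valuation.map_neg] at h2
  exact lt_irrefl _ h2

private theorem G2_fin (hfg : ∃ T : Finset E, IntermediateField.adjoin k (T : Set E) = ⊤)
    (htr : ∀ a b : E, ¬ AlgebraicIndependent k ![a, b]) {t : E} (ht : Transcendental k t) :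
    FiniteDimensional k⟮t⟯ E := by
  have hx : AlgebraicIndependent k (fun _ : Unit => t) :=
    (algebraicIndependent_unique_type_iff (R := k)).2 ht
  have halg : ∀ a : E, IsAlgebraic (Algebra.adjoin k (Set.range fun _ : Unit => t)) a := by
    intro a
    by_contra hcon
    have h1 := (hx.option_iff_transcendental a).2 hcon
    have hinj : Function.Injective (![some (), none] : Fin 2 → Option Unit) := by decide
    have h2 := h1.comp _ hinj
    refine htr t a ?_
    have e : ((fun o : Option Unit => o.elim a fun _ : Unit => t) ∘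
        (![some (), none] : Fin 2 → Option Unit)) = ![t, a] := by
      funext i
      fin_cases i <;> rfl
    rw [e] at h2
    exact h2
  have hb : IsTranscendenceBasis k (fun _ : Unit => t) :=
    (hx.isTranscendenceBasis_iff_isAlgebraic).2 ⟨halg⟩
  have h3 := hb.isAlgebraic_field
  have e2 : (Set.range fun _ : Unit => t) = {t} := Set.range_const
  rw [e2] at h3
  obtain ⟨T, hT⟩ := hfg
  have h4 : FiniteDimensional k⟮t⟯ (IntermediateField.adjoin k⟮t⟯ (T : Set E)) :=
    finiteDimensional_adjoin (S := (T : Set E)) fun x _ => (h3.isAlgebraic x).isIntegral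
  have h5 : IntermediateField.adjoin k⟮t⟯ (T : Set E) = ⊤ := by
    rw [eq_top_iff]
    intro x _
    have h6 : IntermediateField.adjoin k (T : Set E) ≤
        (IntermediateField.adjoin k⟮t⟯ (T : Set E)).restrictScalars k := by
      rw [IntermediateField.adjoin_le_iff]
      exact IntermediateField.subset_adjoin _ _
    rw [hT] at h6
    exact h6 (IntermediateField.mem_top (x := x))
  rw [h5] at h4
  exact (IntermediateField.topEquiv (F := k⟮t⟯) (E := E)).toLinearEquiv.finiteDimensional

private theorem G2_bound (O : ValuationSubring E) (hk : ∀ a : k, algebraMap k E a ∈ O)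
    {t : E} (ht0 : t ≠ 0) (ht : O.valuation t < 1) [FiniteDimensional k⟮t⟯ E] :
    ∃ N : ℕ, 0 < N ∧ ∀ a : E, a ≠ 0 → ∃ z : ℤ, O.valuation a ^ N = O.valuation t ^ z := by
  obtain ⟨d, hd⟩ : ∃ d, d = Module.finrank k⟮t⟯ E := ⟨_, rfl⟩
  refine ⟨d.factorial, Nat.factorial_pos d, fun a ha => ?_⟩
  have hva : O.valuation a ≠ 0 := (Valuation.ne_zero_iff _).2 ha
  have hvt : O.valuation t ≠ 0 := (Valuation.ne_zero_iff _).2 ht0
  have hdep : ¬ LinearIndependent k⟮t⟯ (fun i : Fin (d + 1) => a ^ (i : ℕ)) := by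
    intro h
    have h1 := h.fintype_card_le_finrank
    rw [Fintype.card_fin, ← hd] at h1
    omega
  obtain ⟨g, hg, i0, hi0⟩ := Fintype.not_linearIndependent_iff.1 hdep
  have hgE : ∀ i : Fin (d + 1), g i • a ^ (i : ℕ) = (g i : E) * a ^ (i : ℕ) := fun i => rfl
  simp only [hgE] at hg
  obtain ⟨i, j, hij, hxi, hv⟩ := G2_two O (fun i : Fin (d + 1) => (g i : E) * a ^ (i : ℕ)) hg
    ⟨i0, mul_ne_zero (by
      intro h
      exact hi0 (Subtype.ext h)) (pow_ne_zero _ ha)⟩
  have hxj : (g j : E) * a ^ (j : ℕ) ≠ 0 := by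
    intro h
    rw [h, map_zero] at hv
    exact hxi ((Valuation.zero_iff _).1 hv)
  -- the relation for `i < j`
  have key : ∀ i j : Fin (d + 1), i < j → (g i : E) * a ^ (i : ℕ) ≠ 0 →
      (g j : E) * a ^ (j : ℕ) ≠ 0 →
      O.valuation ((g i : E) * a ^ (i : ℕ)) = O.valuation ((g j : E) * a ^ (j : ℕ)) →
      ∃ z : ℤ, O.valuation a ^ d.factorial = O.valuation t ^ z := by
    intro i j hij hxi hxj hv
    have hgi : (g i : E) ≠ 0 := left_ne_zero_of_mul hxi
    have hgj : (g j : E) ≠ 0 := left_ne_zero_of_mul hxj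
    obtain ⟨zi, hzi⟩ := G2_field O hk ht0 ht (g i : E) (g i).2 hgi
    obtain ⟨zj, hzj⟩ := G2_field O hk ht0 ht (g j : E) (g j).2 hgj
    have hlt : (i : ℕ) < (j : ℕ) := hij
    obtain ⟨m, hm⟩ : ∃ m : ℕ, (j : ℕ) = (i : ℕ) + m := ⟨(j : ℕ) - (i : ℕ), by omega⟩
    have hm0 : 0 < m := by omega
    have hmd : m ≤ d := by
      have := j.2
      omega
    rw [map_mul, map_mul, map_pow, map_pow, hzi, hzj, hm, pow_add, ← mul_assoc,
      mul_right_comm] at hv
    have h1 : O.valuation t ^ zi = O.valuation t ^ zj * O.valuation a ^ m := by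
      have h2 := mul_right_cancel₀ (pow_ne_zero (i : ℕ) hva) hv
      exact h2
    have h3 : O.valuation a ^ m = O.valuation t ^ (zi - zj) := by
      rw [zpow_sub₀ hvt, h1, mul_div_assoc, mul_comm, div_mul_cancel₀ _ (zpow_ne_zero _ hvt)]
    obtain ⟨q, hq⟩ := Nat.dvd_factorial hm0 hmd
    refine ⟨(zi - zj) * q, ?_⟩
    rw [hq, pow_mul, h3, zpow_mul, zpow_natCast]
  rcases lt_or_gt_of_ne hij with h | h
  · exact key i j h hxi hxj hv
  · exact key j i h hxj hxi hv.symm

/-- Proof. Let `π ≠ 0` be a nonunit of `O`. It is transcendental over `k` (a nonzero algebraic element is a unit of `O`, because `k(π) ⊆ O`), so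
`E` is algebraic over `k(π)` (`htr`), so finite (`hfg`), of degree `d`. For `a ∈ Eˣ` the elements `1, a, …, a^d` are linearly dependent over
`k(π)`, so `v(a^i) = v(a^j) v(c)` for some `i < j ≤ d`, `c ∈ k(π)`; and `v(c)` is a power of `v(π)` for `c ∈ k(π)ˣ` (nonzero constants are
units). So the `d!`-th power of each element of the value group is a power of `v(π)`: the value group embeds in `ℤ` and is not trivial, so it is
infinite cyclic. -/
theorem dvr_of_dim_one (hfg : ∃ T : Finset E, IntermediateField.adjoin k (T : Set E) = ⊤)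
    (htr : ∀ a b : E, ¬ AlgebraicIndependent k ![a, b]) (O : ValuationSubring E)
    (hk : ∀ a : k, algebraMap k E a ∈ O) (hO : O ≠ ⊤) : IsDiscreteValuationRing O := by
  obtain ⟨t, ht0, ht⟩ : ∃ t : E, t ≠ 0 ∧ O.valuation t < 1 := by
    have h1 : ∃ x : E, x ∉ O := by
      by_contra hcon
      push Not at hcon
      exact hO (eq_top_iff.2 fun x _ => hcon x)
    obtain ⟨x, hx⟩ := h1
    have hx0 : x ≠ 0 := by
      rintro rfl
      exact hx O.zero_mem
    refine ⟨x⁻¹, inv_ne_zero hx0, ?_⟩
    have h2 : ¬ O.valuation x ≤ 1 := fun h => hx ((O.valuation_le_one_iff x).1 h)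
    rw [map_inv₀]
    exact inv_lt_one_of_one_lt₀ (not_le.1 h2)
  have hfd := G2_fin hfg htr (G2_transc O hk ht0 ht)
  obtain ⟨N, hN, hz⟩ := G2_bound O hk ht0 ht
  have hvt0 : 0 < O.valuation t := zero_lt_iff.2 ((Valuation.ne_zero_iff _).2 ht0)
  have hN0 : N ≠ 0 := hN.ne'
  -- natural exponents for the elements of `O`
  have hnat : ∀ a : E, a ≠ 0 → O.valuation a ≤ 1 →
      ∃ n : ℕ, O.valuation a ^ N = O.valuation t ^ n := by
    intro a ha ha1
    obtain ⟨z, hz1⟩ := hz a ha
    have h1 : O.valuation t ^ z ≤ 1 := by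
      rw [← hz1]
      exact pow_le_one₀ zero_le ha1
    have h2 : 0 ≤ z := (zpow_le_one_iff_right_of_lt_one₀ hvt0 ht).1 h1
    obtain ⟨n, rfl⟩ := Int.eq_ofNat_of_zero_le h2
    exact ⟨n, by rw [hz1, zpow_natCast]⟩
  -- the uniformizer
  have hex : ∃ n : ℕ, ∃ a : E, a ≠ 0 ∧ O.valuation a < 1 ∧
      O.valuation a ^ N = O.valuation t ^ n := ⟨N, t, ht0, ht, rfl⟩
  classical
  obtain ⟨p, hp0, hp1, hpn⟩ := Nat.find_spec hex
  obtain ⟨n0, hn0⟩ : ∃ n0, n0 = Nat.find hex := ⟨_, rfl⟩
  rw [← hn0] at hpn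
  have hvp0 : O.valuation p ≠ 0 := (Valuation.ne_zero_iff _).2 hp0
  have hvp : 0 < O.valuation p := zero_lt_iff.2 hvp0
  have hmin : ∀ (n : ℕ) (a : E), a ≠ 0 → O.valuation a < 1 →
      O.valuation a ^ N = O.valuation t ^ n → n0 ≤ n := by
    intro n a h1 h2 h3
    rw [hn0]
    exact Nat.find_min' hex ⟨a, h1, h2, h3⟩
  have hn0pos : 0 < n0 := by
    rcases Nat.eq_zero_or_pos n0 with h | h
    · exfalso
      rw [h, pow_zero] at hpn
      have h1 : O.valuation p ^ N < 1 := pow_lt_one₀ zero_le hp1 hN0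
      exact h1.ne hpn
    · exact h
  have hval : ∀ a : E, a ≠ 0 → O.valuation a ≤ 1 → ∃ q : ℕ, O.valuation a = O.valuation p ^ q := by
    intro a ha ha1
    obtain ⟨m, hm⟩ := hnat a ha ha1
    refine ⟨m / n0, ?_⟩
    obtain ⟨b, hb⟩ : ∃ b, b = a / p ^ (m / n0) := ⟨_, rfl⟩
    have hb0 : b ≠ 0 := by
      rw [hb]
      exact div_ne_zero ha (pow_ne_zero _ hp0)
    have hbN : O.valuation b ^ N = O.valuation t ^ (m % n0) := by
      have e1 : (O.valuation p ^ (m / n0)) ^ N = O.valuation t ^ (n0 * (m / n0)) := by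
        rw [← pow_mul, mul_comm (m / n0) N, pow_mul, hpn, ← pow_mul]
      rw [hb, map_div₀, map_pow, div_pow, hm, e1]
      have e2 : m = m % n0 + n0 * (m / n0) := (Nat.mod_add_div m n0).symm
      conv_lhs => rw [e2, pow_add]
      have e3 : (m % n0 + n0 * (m / n0)) / n0 = m / n0 := by rw [← e2]
      rw [e3]
      exact mul_div_cancel_right₀ _ (pow_ne_zero _ hvt0.ne')
    have hb1 : O.valuation b = 1 := by
      rcases lt_trichotomy (O.valuation b) 1 with h | h | h
      · exact absurd (hmin _ b hb0 h hbN) (not_le.2 (Nat.mod_lt _ hn0pos))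
      · exact h
      · exfalso
        have h1 : 1 < O.valuation b ^ N := one_lt_pow₀ h hN0
        rw [hbN] at h1
        exact absurd h1 (not_lt.2 (pow_le_one₀ zero_le ht.le))
    rw [hb, map_div₀, map_pow, div_eq_one_iff_eq (pow_ne_zero _ hvp0)] at hb1
    exact hb1
  have hpO : p ∈ O := (O.valuation_le_one_iff _).1 hp1.le
  have hinj : ∀ i j : ℕ, O.valuation p ^ i = O.valuation p ^ j → i = j := by
    intro i j h
    rcases lt_trichotomy i j with h1 | h1 | h1
    · exact absurd h (pow_lt_pow_right_of_lt_one₀ hvp hp1 h1).ne'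
    · exact h1
    · exact absurd h (pow_lt_pow_right_of_lt_one₀ hvp hp1 h1).ne
  apply IsDiscreteValuationRing.ofHasUnitMulPowIrreducibleFactorization
  refine ⟨⟨p, hpO⟩, ?_, ?_⟩
  · rw [irreducible_iff]
    refine ⟨?_, ?_⟩
    · rw [O.valuation_eq_one_iff]
      exact hp1.ne
    · intro a b hab
      have hab' : p = (a : E) * (b : E) := congrArg Subtype.val hab
      have ha0 : (a : E) ≠ 0 := by
        intro h
        rw [h, zero_mul] at hab'
        exact hp0 hab'
      have hb0 : (b : E) ≠ 0 := by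
        intro h
        rw [h, mul_zero] at hab'
        exact hp0 hab'
      obtain ⟨i, hi⟩ := hval a ha0 (O.valuation_le_one a)
      obtain ⟨j, hj⟩ := hval b hb0 (O.valuation_le_one b)
      have h1 : O.valuation p ^ 1 = O.valuation p ^ (i + j) := by
        rw [pow_one, pow_add, ← hi, ← hj, ← map_mul, ← hab']
      have h2 := hinj _ _ h1
      rw [O.valuation_eq_one_iff, O.valuation_eq_one_iff, hi, hj]
      rcases Nat.eq_zero_or_pos i with h | h
      · left
        rw [h, pow_zero]
      · right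
        have : j = 0 := by omega
        rw [this, pow_zero]
  · intro x hx
    have hx0 : (x : E) ≠ 0 := fun h => hx (Subtype.ext h)
    obtain ⟨q, hq⟩ := hval x hx0 (O.valuation_le_one x)
    refine ⟨q, ?_⟩
    have h1 : O.valuation (x : E) = O.valuation (p ^ q) := by rw [hq, map_pow]
    obtain ⟨u, hu⟩ := (O.valuation_eq_iff _ _).1 h1
    refine ⟨u, ?_⟩
    apply Subtype.ext
    change p ^ q * (((u : O) : E)) = (x : E)
    rw [← hu, mul_comm]

end Pool.Agent.AbPencil
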