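import Pool.Agent.Lib_MP_1209e6_tv.G4

/-! PIECE G5: specialisation of the residue field to a finite extension of the base field. -/

set_option autoImplicit false

namespace Pool.Agent.AbPencil

namespace TruncK

/-- A point of a finitely generated domain over `k`, with values in a finite extension of `k`, where
a given nonzero element does not vanish. -/
theorem exists_point_k {k R : Type} [Field k] [CommRing R] [IsDomain R] [Algebra k R]
    [Algebra.FiniteType k R] (a : R) (ha : a ≠ 0) :
    ∃ (k₁ : Type) (_ : Field k₁) (_ : Algebra k k₁) (_ : FiniteDimensional k k₁)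
      (φ : R →ₐ[k] k₁), φ a ≠ 0 := by
  have hJ : IsJacobsonRing R := isJacobsonRing_of_finiteType (A := k)
  have h1 : (⊥ : Ideal R).jacobson = ⊥ := hJ.out (Ideal.isRadical_bot_iff.2 inferInstance)
  have h2 : a ∉ (⊥ : Ideal R).jacobson := by
    rw [h1, Ideal.mem_bot]
    exact ha
  rw [Ideal.jacobson, Ideal.mem_sInf] at h2
  push Not at h2
  obtain ⟨M, ⟨_, hM⟩, haM⟩ := h2
  let _ : Field (R ⧸ M) := Ideal.Quotient.field M
  have h3 : Algebra.FiniteType k (R ⧸ M) :=
    Algebra.FiniteType.of_surjective (Ideal.Quotient.mkₐ k M) (Ideal.Quotient.mkₐ_surjective k M)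
  have h4 : Module.Finite k (R ⧸ M) := finite_of_finite_type_of_isJacobsonRing k (R ⧸ M)
  refine ⟨R ⧸ M, inferInstance, inferInstance, h4, Ideal.Quotient.mkₐ k M, ?_⟩
  intro h6
  exact haM (Ideal.Quotient.eq_zero_iff_mem.1 h6)

/-- specialisation of the coefficients -/
theorem exists_special_k {k κ : Type} [Field k] [Field κ] [Algebra k κ] {ι : Type} [Finite ι]
    (P : ι → Polynomial κ) (q : MvPolynomial ι k) (c : ℕ)
    (hq : ¬ Polynomial.X ^ (c + 1) ∣ MvPolynomial.aeval P q) :
    ∃ (k₁ : Type) (_ : Field k₁) (_ : Algebra k k₁) (_ : FiniteDimensional k k₁)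
      (lam : ι → Polynomial k₁),
      (∀ (p : MvPolynomial ι k) (j : ℕ), Polynomial.X ^ j ∣ MvPolynomial.aeval P p →
        Polynomial.X ^ j ∣ MvPolynomial.aeval lam p) ∧
      (∀ (i : ι) (j : ℕ), Polynomial.X ^ j ∣ P i - Polynomial.X →
        Polynomial.X ^ j ∣ lam i - Polynomial.X) ∧
      ¬ Polynomial.X ^ (c + 1) ∣ MvPolynomial.aeval lam q := by
  classical
  set S : Set κ := ⋃ i : ι, ((P i).coeffs : Set κ) with hS
  have hSf : S.Finite := Set.finite_iUnion fun i => Finset.finite_toSet _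
  have hft : Algebra.FiniteType k (Algebra.adjoin k S) :=
    (Subalgebra.fg_iff_finiteType _).1 (Subalgebra.fg_def.2 ⟨S, hSf, rfl⟩)
  have hl : ∀ i, ∃ p : Polynomial (Algebra.adjoin k S),
      p.map (Algebra.adjoin k S).val.toRingHom = P i := by
    intro i
    have h1 : P i ∈ Polynomial.lifts (Algebra.adjoin k S).val.toRingHom := by
      rw [Polynomial.lifts_iff_coeff_lifts]
      intro n
      by_cases hn : (P i).coeff n = 0
      · exact ⟨0, by rw [hn]; simp⟩
      · have h2 : (P i).coeff n ∈ Algebra.adjoin k S := Algebra.subset_adjoin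
          (Set.mem_iUnion.2 ⟨i, Polynomial.coeff_mem_coeffs hn⟩)
        exact ⟨⟨_, h2⟩, rfl⟩
    obtain ⟨p, hp⟩ := (Polynomial.mem_lifts _).1 h1
    exact ⟨p, hp⟩
  choose P' hP' using hl
  have hA : ∀ q : MvPolynomial ι k, (MvPolynomial.aeval P' q).map
      (Algebra.adjoin k S).val.toRingHom = MvPolynomial.aeval P q := by
    intro q
    have := MvPolynomial.comp_aeval_apply (f := P')
      (Polynomial.mapAlgHom (Algebra.adjoin k S).val) q
    refine Eq.trans this ?_
    congr 2
    funext i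
    exact hP' i
  have h0 : MvPolynomial.aeval P' q ≠ 0 := by
    intro h
    apply hq
    rw [← hA, h, Polynomial.map_zero]
    exact dvd_zero _
  obtain ⟨k₁, _, _, _, φ, hφ⟩ := exists_point_k (k := k)
    (MvPolynomial.aeval P' q).trailingCoeff
    (Polynomial.trailingCoeff_nonzero_iff_nonzero.2 h0)
  have hB : ∀ q : MvPolynomial ι k, (MvPolynomial.aeval P' q).map φ.toRingHom =
      MvPolynomial.aeval (fun i => (P' i).map φ.toRingHom) q := by
    intro q
    exact MvPolynomial.comp_aeval_apply (f := P') (Polynomial.mapAlgHom φ) q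
  refine ⟨k₁, inferInstance, inferInstance, inferInstance, fun i => (P' i).map φ.toRingHom,
    ?_, ?_, ?_⟩
  · intro p j h
    rw [← hB, Polynomial.X_pow_dvd_iff]
    intro i hi
    rw [← hA, Polynomial.X_pow_dvd_iff] at h
    have h1 := h i hi
    rw [Polynomial.coeff_map] at h1 ⊢
    have h2 : (MvPolynomial.aeval P' p).coeff i = 0 := Subtype.ext h1
    rw [h2, map_zero]
  · intro i j h
    have e1 : P i - Polynomial.X = (P' i - Polynomial.X).map (Algebra.adjoin k S).val.toRingHom := by
      rw [Polynomial.map_sub, hP', Polynomial.map_X]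
    have e2 : (P' i).map φ.toRingHom - Polynomial.X = (P' i - Polynomial.X).map φ.toRingHom := by
      rw [Polynomial.map_sub, Polynomial.map_X]
    rw [e2, Polynomial.X_pow_dvd_iff]
    intro m hm
    rw [e1, Polynomial.X_pow_dvd_iff] at h
    have h1 := h m hm
    rw [Polynomial.coeff_map] at h1 ⊢
    have h2 : (P' i - Polynomial.X).coeff m = 0 := Subtype.ext h1
    rw [h2, map_zero]
  · intro h
    have h1 : (MvPolynomial.aeval P' q).natTrailingDegree ≤ c := by
      by_contra h2
      apply hq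
      rw [← hA, Polynomial.X_pow_dvd_iff]
      intro m hm
      rw [Polynomial.coeff_map, Polynomial.coeff_eq_zero_of_lt_natTrailingDegree (by omega),
        map_zero]
    rw [← hB, Polynomial.X_pow_dvd_iff] at h
    have h2 := h _ (Nat.lt_succ_of_le h1)
    rw [Polynomial.coeff_map] at h2
    exact hφ h2

end TruncK

/-- Proof. `exists_trunc_k`: `κ`, `θ`. For polynomials `p` over `k`, `p(θ x) ≡ θ (p(x))` modulo `X^(N+1)` (`add`, `mul`, `const`). Let `R ⊆ κ` be the
`k`-subalgebra generated by the coefficients of the `θ (x i)` and by the inverse of the coefficient of lowest degree `c' ≤ c` of `q(θ x)`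
(`ord` for `s = c + 1`: `X^(c+1)` does not divide it). `R` is finitely generated, so for a maximal ideal `𝔫` the field `k₁ = R ⧸ 𝔫` is finite over `k` (Zariski's
lemma: `finite_of_finite_type_of_isJacobsonRing`). `lam i` is the image of `θ (x i)` (lift it to `R[X]`, map to `k₁[X]`). -/
theorem trunc_spec {k L : Type} [Field k] [Field L] [Algebra k L] [CharZero k]
    (O : ValuationSubring L) (hO : IsDiscreteValuationRing O)
    (hk : ∀ a : k, algebraMap k L a ∈ O) (π : L) (hπ : π⁻¹ ∉ O)
    (hπ' : ∀ b : L, b⁻¹ ∉ O → b / π ∈ O) (N c : ℕ) (hc : c ≤ N) {ι : Type} [Finite ι] (x : ι → L)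
    (hx : ∀ i, x i ∈ O) (q : MvPolynomial ι k) (hq : MvPolynomial.aeval x q / π ^ (c + 1) ∉ O) :
    ∃ (k₁ : Type) (_ : Field k₁) (_ : Algebra k k₁) (_ : FiniteDimensional k k₁)
      (lam : ι → Polynomial k₁),
      (∀ p : MvPolynomial ι k, MvPolynomial.aeval x p / π ^ (N + 1) ∈ O →
        Polynomial.X ^ (N + 1) ∣ MvPolynomial.aeval lam p) ∧
      (∀ i, x i = π → Polynomial.X ^ (N + 1) ∣ lam i - Polynomial.X) ∧
      ¬ Polynomial.X ^ (c + 1) ∣ MvPolynomial.aeval lam q := by
  obtain ⟨κ, _, _, θ, hθ⟩ := exists_trunc_k O hO hk π hπ hπ' N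
  have hev : ∀ p : MvPolynomial ι k, MvPolynomial.aeval x p ∈ O ∧
      Polynomial.X ^ (N + 1) ∣ θ (MvPolynomial.aeval x p) -
        MvPolynomial.aeval (fun i => θ (x i)) p := by
    intro p
    induction p using MvPolynomial.induction_on with
    | C a =>
      rw [MvPolynomial.aeval_C, MvPolynomial.aeval_C]
      exact ⟨hk a, hθ.const a⟩
    | add p₁ p₂ h₁ h₂ =>
      rw [map_add, map_add]
      refine ⟨O.add_mem _ _ h₁.1 h₂.1, ?_⟩
      have h3 := dvd_add (dvd_add (hθ.add _ h₁.1 _ h₂.1) h₁.2) h₂.2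
      convert h3 using 1
      ring
    | mul_X p i h =>
      rw [map_mul, map_mul, MvPolynomial.aeval_X, MvPolynomial.aeval_X]
      refine ⟨O.mul_mem _ _ h.1 (hx i), ?_⟩
      have h3 := dvd_add (hθ.mul _ h.1 _ (hx i)) (Dvd.dvd.mul_right h.2 (θ (x i)))
      convert h3 using 1
      ring
  have hq' : ¬ Polynomial.X ^ (c + 1) ∣ MvPolynomial.aeval (fun i => θ (x i)) q := by
    intro h
    apply hq
    rw [← hθ.ord _ (hev q).1 (c + 1) (by omega)]
    have h1 := dvd_trans (pow_dvd_pow Polynomial.X (by omega : c + 1 ≤ N + 1)) (hev q).2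
    exact (dvd_iff_dvd_of_dvd_sub h1).2 h
  obtain ⟨k₁, i1, i2, i3, lam, h1, h2, h3⟩ := TruncK.exists_special_k (fun i => θ (x i)) q c hq'
  refine ⟨k₁, i1, i2, i3, lam, ?_, ?_, h3⟩
  · intro p hp
    apply h1
    rw [← hθ.ord _ (hev p).1 (N + 1) le_rfl] at hp
    exact (dvd_iff_dvd_of_dvd_sub (hev p).2).1 hp
  · intro i hi
    apply h2
    rw [hi]
    exact hθ.unif

end Pool.Agent.AbPencil
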