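import Pool.Agent.Lib_MP_1209e6_tv.G3
import Pool.Agent.Lib_MP_1209e6_tv.G5

/-! PIECE G7: algebraic data at an unramified place. -/

set_option autoImplicit false

namespace Pool.Agent.AbPencil

private theorem cong_eval₂ {σ A : Type} [CommRing A] [Algebra ℂ A] (d : A) (a b : σ → A)
    (t t' : A) (h : ∀ i, d ∣ a i - b i) (ht : d ∣ t - t')
    (f : Polynomial (MvPolynomial σ ℂ)) :
    d ∣ f.eval₂ (MvPolynomial.aeval (R := ℂ) a).toRingHom t -
      f.eval₂ (MvPolynomial.aeval (R := ℂ) b).toRingHom t' := by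
  have key : ∀ x y : A, d ∣ x - y ↔ Ideal.Quotient.mkₐ ℂ (Ideal.span {d}) x =
      Ideal.Quotient.mkₐ ℂ (Ideal.span {d}) y := by
    intro x y
    rw [Ideal.Quotient.mkₐ_eq_mk, Ideal.Quotient.eq, Ideal.mem_span_singleton]
  rw [key]
  have e : ∀ (v : σ → A) (s : A), Ideal.Quotient.mkₐ ℂ (Ideal.span {d})
      (f.eval₂ (MvPolynomial.aeval (R := ℂ) v).toRingHom s) =
      f.eval₂ (MvPolynomial.aeval (R := ℂ)
        (fun i => Ideal.Quotient.mkₐ ℂ (Ideal.span {d}) (v i))).toRingHom
        (Ideal.Quotient.mkₐ ℂ (Ideal.span {d}) s) := by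
    intro v s
    have h1 := Polynomial.hom_eval₂ f (MvPolynomial.aeval (R := ℂ) v).toRingHom
      (Ideal.Quotient.mkₐ ℂ (Ideal.span {d})).toRingHom s
    have h2 : ((Ideal.Quotient.mkₐ ℂ (Ideal.span {d})).toRingHom.comp
        (MvPolynomial.aeval (R := ℂ) v).toRingHom) = (MvPolynomial.aeval (R := ℂ)
        (fun i => Ideal.Quotient.mkₐ ℂ (Ideal.span {d}) (v i))).toRingHom := by
      apply RingHom.ext
      intro p
      exact (MvPolynomial.comp_aeval_apply (φ := Ideal.Quotient.mkₐ ℂ (Ideal.span {d})) (f := v) p)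
    rw [h2] at h1
    exact h1
  rw [e, e]
  have ha : (fun i => Ideal.Quotient.mkₐ ℂ (Ideal.span {d}) (a i)) =
      (fun i => Ideal.Quotient.mkₐ ℂ (Ideal.span {d}) (b i)) := by
    funext i
    exact (key _ _).1 (h i)
  rw [ha, (key _ _).1 ht]

/-- a nonzero element of a discrete valuation ring is not divisible by all powers -/
private theorem exists_order {L : Type} [Field L] (O' : ValuationSubring L)
    (hO' : IsDiscreteValuationRing O') (π : L) (hπ : π⁻¹ ∉ O') (F : L) (hF : F ≠ 0) (hFO : F ∈ O') :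
    ∃ c : ℕ, F / π ^ (c + 1) ∉ O' := by
  by_contra hcon
  push Not at hcon
  have hπO : π ∈ O' := (O'.mem_or_inv_mem π).resolve_right hπ
  have hπ0 : π ≠ 0 := by
    rintro rfl
    apply hπ
    rw [inv_zero]
    exact O'.zero_mem
  have hnu : ¬ IsUnit (⟨π, hπO⟩ : O') := by
    rintro hu
    obtain ⟨v, hv⟩ := hu.exists_right_inv
    apply hπ
    have h1 : π * (v : L) = 1 := congrArg Subtype.val hv
    have h2 : π⁻¹ = (v : L) := by
      field_simp
      rw [mul_comm] at h1 ⊢
      exact h1.symm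
    rw [h2]
    exact v.2
  have hfin : FiniteMultiplicity (⟨π, hπO⟩ : O') (⟨F, hFO⟩ : O') :=
    FiniteMultiplicity.of_not_isUnit hnu (fun h => hF (congrArg Subtype.val h))
  obtain ⟨n, hn⟩ := hfin
  apply hn
  refine ⟨⟨F / π ^ (n + 1), hcon n⟩, ?_⟩
  apply Subtype.ext
  change F = π ^ (n + 1) * (F / π ^ (n + 1))
  field_simp

/-- if `X ^ n` divides `m(λ)` and `λ` has constant coefficient `η`, then `X ^ n` divides `λ - η`. -/
private theorem const_of_root {K : Type} [Field K] (n : ℕ) (m : Polynomial K) (lam : Polynomial K)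
    (hm : m.eval (lam.coeff 0) = 0) (hm' : (Polynomial.derivative m).eval (lam.coeff 0) ≠ 0)
    (h : Polynomial.X ^ n ∣ m.comp lam) :
    Polynomial.X ^ n ∣ lam - Polynomial.C (lam.coeff 0) := by
  obtain ⟨g, hg⟩ := Polynomial.dvd_iff_isRoot.2 hm
  have hd : (Polynomial.derivative m).eval (lam.coeff 0) = g.eval (lam.coeff 0) := by
    rw [hg]
    simp
  have hcop : IsCoprime (Polynomial.X ^ n : Polynomial K) (g.comp lam) := by
    apply IsCoprime.pow_left
    rw [Irreducible.coprime_iff_not_dvd Polynomial.irreducible_X, Polynomial.X_dvd_iff,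
      Polynomial.coeff_zero_eq_eval_zero, Polynomial.eval_comp,
      ← Polynomial.coeff_zero_eq_eval_zero, ← hd]
    exact hm'
  apply hcop.dvd_of_dvd_mul_right
  have e : m.comp lam = (lam - Polynomial.C (lam.coeff 0)) * g.comp lam := by
    conv_lhs => rw [hg]
    rw [Polynomial.mul_comp]
    simp
  rw [← e]
  exact h

/-- the polynomial in the variables `ι` which expresses `f (y, s, θ)` -/
private theorem aeval_pull {k A ι σ : Type} [Field k] [Algebra ℂ k] [CommRing A] [Algebra k A]
    [Algebra ℂ A] [IsScalarTower ℂ k A] (x : ι → A) (u : σ → ι) (v : ι)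
    (f : Polynomial (MvPolynomial σ ℂ)) :
    MvPolynomial.aeval (R := k) x (f.eval₂ (MvPolynomial.aeval (R := ℂ)
      (fun i => (MvPolynomial.X (u i) : MvPolynomial ι k))).toRingHom (MvPolynomial.X v)) =
    f.eval₂ (MvPolynomial.aeval (R := ℂ) (fun i => x (u i))).toRingHom (x v) := by
  have h1 := Polynomial.hom_eval₂ f (MvPolynomial.aeval (R := ℂ)
      (fun i => (MvPolynomial.X (u i) : MvPolynomial ι k))).toRingHom
    ((MvPolynomial.aeval (R := k) x).restrictScalars ℂ).toRingHom (MvPolynomial.X v)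
  have h2 : (((MvPolynomial.aeval (R := k) x).restrictScalars ℂ).toRingHom.comp
      (MvPolynomial.aeval (R := ℂ)
      (fun i => (MvPolynomial.X (u i) : MvPolynomial ι k))).toRingHom) =
      (MvPolynomial.aeval (R := ℂ) (fun i => x (u i))).toRingHom := by
    apply RingHom.ext
    intro p
    have h3 := (MvPolynomial.comp_aeval_apply (φ := (MvPolynomial.aeval (R := k) x).restrictScalars ℂ)
      (f := (fun i => (MvPolynomial.X (u i) : MvPolynomial ι k))) p)
    refine h3.trans ?_
    have h4 : (fun i => ((MvPolynomial.aeval (R := k) x).restrictScalars ℂ)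
        ((MvPolynomial.X (u i) : MvPolynomial ι k))) = (fun i => x (u i)) := by
      funext i
      exact MvPolynomial.aeval_X x (u i)
    rw [h4]
    rfl
  rw [h2] at h1
  refine Eq.trans h1 ?_
  congr 1
  exact MvPolynomial.aeval_X x v

/-- Data which describe an approximate solution of `f = 0` at the place `O`: `k₁` is a finite extension of `k`, `η₁ ∈ k₁` a conjugate of the residue of
`η`; modulo `π^(N+1)`, `y i` is `∑ B i j (η) π^j`; and `(lams, lamt)` is a solution of `f = 0` modulo `T^(N+1)` over `k₁` with `y i` replaced by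
`∑ B i j (η₁) T^j`, at which the derivative is not divisible by `T^(c+1)`. -/
structure SpecData {k E : Type} [Field k] [Algebra ℂ k] [Field E] [Algebra k E]
    (O : ValuationSubring E) (π : E) {n g : ℕ} (y : Fin n → E)
    (f : Polynomial (MvPolynomial (Fin n ⊕ Fin g) ℂ)) (N c : ℕ) (k₁ : Type) [Field k₁]
    [Algebra k k₁] [Algebra ℂ k₁] (η : E) (η₁ : k₁) (B : Fin n → Fin (N + 1) → Polynomial k)
    (lams : Fin g → Polynomial k₁) (lamt : Polynomial k₁) : Prop where
  lt : 2 * c < N + 1
  mem : η ∈ O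
  small : Polynomial.aeval η (minpoly k η₁) / π ^ (N + 1) ∈ O
  unit : (Polynomial.aeval η (Polynomial.derivative (minpoly k η₁)))⁻¹ ∈ O
  rest : ∀ i, (y i - ∑ j, Polynomial.aeval η (B i j) * π ^ (j : ℕ)) / π ^ (N + 1) ∈ O
  dvd : Polynomial.X ^ (N + 1) ∣ f.eval₂ (MvPolynomial.aeval (R := ℂ) (Sum.elim
    (fun i => ∑ j, Polynomial.C (Polynomial.aeval η₁ (B i j)) * Polynomial.X ^ (j : ℕ))
      lams)).toRingHom lamt
  ndvd : ¬ Polynomial.X ^ (c + 1) ∣ (Polynomial.derivative f).eval₂ (MvPolynomial.aeval (R := ℂ)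
    (Sum.elim (fun i => ∑ j, Polynomial.C (Polynomial.aeval η₁ (B i j)) * Polynomial.X ^ (j : ℕ))
      lams)).toRingHom lamt

/-- Proof. Let `c` be the order of `f'(y, s, θ)` at `O'` (`f'(y, s, θ) / π^(c+1) ∉ O'`) and `N = 2 c`. `place_structure` for `O`, `π`, `N`: `η`, `m`, `B i` for `y i`.
`trunc_spec` for `O'`, `π`, `N`, `c`, the family `(y, s, θ, η, π)` (elements of `L`) and the polynomial of `f'`: `k₁`, `lam`. `k₁` is a `ℂ`-algebra via `k`. Let `η₁`
be the constant coefficient of `lam η`. `m(lam η)` is divisible by `T^(N+1)` (`m(η) ∈ π^(N+1) O`), so `m(η₁) = 0`, `m` is the minimal polynomial of `η₁`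
and, as `m'(η₁) ≠ 0`, `lam η ≡ η₁` modulo `T^(N+1)` (Taylor expansion of `m` at `η₁`). The polynomial `y i - ∑ B i j (η) π^j` in the family shows
`lam (y i) ≡ ∑ B i j (η₁) T^j`; so `dvd` and `ndvd` follow from those for `lam`. -/
theorem spec_alg {k E L : Type} [Field k] [Algebra ℂ k] [Field E] [Algebra k E] [Algebra ℂ E]
    [IsScalarTower ℂ k E] [Field L] [Algebra k L] [Algebra E L] [Algebra ℂ L] [IsScalarTower k E L]
    [IsScalarTower ℂ k L] [IsScalarTower ℂ E L]
    (hfg : ∃ T : Finset E, IntermediateField.adjoin k (T : Set E) = ⊤)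
    (htr : ∀ a b : E, ¬ AlgebraicIndependent k ![a, b]) (O : ValuationSubring E)
    (hk : ∀ a : k, algebraMap k E a ∈ O) (O' : ValuationSubring L)
    (hO' : IsDiscreteValuationRing O') (hOO' : ∀ a : E, algebraMap E L a ∈ O' ↔ a ∈ O) (π : E)
    (hπ : (algebraMap E L π)⁻¹ ∉ O') (hπ' : ∀ b : L, b⁻¹ ∉ O' → b / algebraMap E L π ∈ O')
    {n g : ℕ} (y : Fin n → E) (hy : ∀ i, y i ∈ O) (s : Fin g → L) (hs : ∀ j, s j ∈ O') (θ : L)
    (hθ : θ ∈ O') (f : Polynomial (MvPolynomial (Fin n ⊕ Fin g) ℂ))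
    (hroot : f.eval₂ (MvPolynomial.aeval
      (Sum.elim (fun i => algebraMap E L (y i)) s)).toRingHom θ = 0)
    (hsep : (Polynomial.derivative f).eval₂ (MvPolynomial.aeval
      (Sum.elim (fun i => algebraMap E L (y i)) s)).toRingHom θ ≠ 0) :
    ∃ (N c : ℕ) (k₁ : Type) (_ : Field k₁) (_ : Algebra k k₁) (_ : Algebra ℂ k₁)
      (_ : IsScalarTower ℂ k k₁) (_ : FiniteDimensional k k₁) (η : E) (η₁ : k₁)
      (B : Fin n → Fin (N + 1) → Polynomial k) (lams : Fin g → Polynomial k₁)
      (lamt : Polynomial k₁), SpecData O π y f N c k₁ η η₁ B lams lamt := by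
  haveI : CharZero k := charZero_of_injective_algebraMap (algebraMap ℂ k).injective
  -- elements of `L` over `k` are in `O'`
  have hkO' : ∀ a : k, algebraMap k L a ∈ O' := by
    intro a
    rw [IsScalarTower.algebraMap_apply k E L]
    exact (hOO' _).2 (hk a)
  have hπO : π⁻¹ ∉ O := by
    intro h
    apply hπ
    rw [← map_inv₀]
    exact (hOO' _).2 h
  have hπO' : ∀ b : E, b⁻¹ ∉ O → b / π ∈ O := by
    intro b hb
    rw [← hOO', map_div₀]
    apply hπ'
    rw [← map_inv₀, hOO']
    exact hb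
  have hπL : algebraMap E L π ∈ O' := (O'.mem_or_inv_mem _).resolve_right hπ
  -- the value of polynomials at elements of `O'`
  have hevO' : ∀ (h : Polynomial (MvPolynomial (Fin n ⊕ Fin g) ℂ)), h.eval₂ (MvPolynomial.aeval
      (Sum.elim (fun i => algebraMap E L (y i)) s)).toRingHom θ ∈ O' := by
    intro h
    rw [Polynomial.eval₂_eq_sum_range]
    apply O'.toSubring.sum_mem
    intro i _
    apply O'.mul_mem
    · have hcoef : ∀ p : MvPolynomial (Fin n ⊕ Fin g) ℂ, (MvPolynomial.aeval
          (Sum.elim (fun i => algebraMap E L (y i)) s)) p ∈ O' := by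
        intro p
        induction p using MvPolynomial.induction_on with
        | C a =>
          rw [MvPolynomial.aeval_C, IsScalarTower.algebraMap_apply ℂ k L]
          exact hkO' _
        | add p q hp hq =>
          rw [map_add]
          exact O'.add_mem _ _ hp hq
        | mul_X p i hp =>
          rw [map_mul, MvPolynomial.aeval_X]
          apply O'.mul_mem _ _ hp
          rcases i with i | i
          · exact (hOO' _).2 (hy i)
          · exact hs i
      exact hcoef _
    · exact O'.toSubring.pow_mem hθ _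
  obtain ⟨c, hc⟩ := exists_order O' hO' (algebraMap E L π) hπ _ hsep (hevO' _)
  obtain ⟨η, m, hη, hmm, hmi, hmN, hmd, hB⟩ := place_structure hfg htr O hk π hπO hπO' (2 * c)
  choose B hB' using fun i => hB (y i) (hy i)
  -- the family
  let ι := (Fin n ⊕ Fin g) ⊕ Fin 3
  let x : ι → L := Sum.elim (Sum.elim (fun i => algebraMap E L (y i)) s)
    ![θ, algebraMap E L η, algebraMap E L π]
  have hx : ∀ i, x i ∈ O' := by
    rintro ((i | i) | i)
    · exact (hOO' _).2 (hy i)
    · exact hs i
    · fin_cases i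
      · exact hθ
      · exact (hOO' _).2 hη
      · exact hπL
  let pull : Polynomial (MvPolynomial (Fin n ⊕ Fin g) ℂ) → MvPolynomial ι k := fun h =>
    h.eval₂ (MvPolynomial.aeval (R := ℂ)
      (fun i => (MvPolynomial.X (Sum.inl i) : MvPolynomial ι k))).toRingHom
      (MvPolynomial.X (Sum.inr 0))
  have hpull : ∀ h, MvPolynomial.aeval x (pull h) = h.eval₂ (MvPolynomial.aeval
      (Sum.elim (fun i => algebraMap E L (y i)) s)).toRingHom θ := by
    intro h
    exact aeval_pull (k := k) x (fun i => Sum.inl i) (Sum.inr 0) h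
  obtain ⟨k₁, i1, i2, i3, lam, hlam1, hlam2, hlam3⟩ := trunc_spec (k := k) O' hO' hkO'
    (algebraMap E L π) hπ hπ' (2 * c) c (by omega) x hx (pull (Polynomial.derivative f)) (by
      rw [hpull]; exact hc)
  letI i4 : Algebra ℂ k₁ := ((algebraMap k k₁).comp (algebraMap ℂ k)).toAlgebra
  haveI i5 : IsScalarTower ℂ k k₁ := IsScalarTower.of_algebraMap_eq' rfl
  have hlpull : ∀ h, MvPolynomial.aeval lam (pull h) = h.eval₂ (MvPolynomial.aeval (R := ℂ)
      (fun i => lam (Sum.inl i))).toRingHom (lam (Sum.inr 0)) := by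
    intro h
    exact aeval_pull (k := k) lam (fun i => Sum.inl i) (Sum.inr 0) h
  -- `π`
  have hlπ : (Polynomial.X : Polynomial k₁) ^ (2 * c + 1) ∣ lam (Sum.inr 2) - Polynomial.X :=
    hlam2 (Sum.inr 2) rfl
  -- `η`
  have hlη0 : (Polynomial.X : Polynomial k₁) ^ (2 * c + 1) ∣
      (m.map (algebraMap k k₁)).comp (lam (Sum.inr 1)) := by
    have h1 := hlam1 (Polynomial.aeval (MvPolynomial.X (Sum.inr 1) : MvPolynomial ι k) m) (by
      rw [← Polynomial.aeval_algHom_apply, MvPolynomial.aeval_X]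
      change Polynomial.aeval (algebraMap E L η) m / algebraMap E L π ^ (2 * c + 1) ∈ O'
      rw [Polynomial.aeval_algebraMap_apply, ← map_pow, ← map_div₀, hOO']
      exact hmN)
    rw [← Polynomial.aeval_algHom_apply, MvPolynomial.aeval_X] at h1
    have h2 : Polynomial.aeval (lam (Sum.inr 1)) m =
        (m.map (algebraMap k k₁)).comp (lam (Sum.inr 1)) := by
      rw [Polynomial.comp, Polynomial.eval₂_map, Polynomial.aeval_def]
      rfl
    rw [← h2]
    exact h1
  let η₁ : k₁ := (lam (Sum.inr 1)).coeff 0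
  have hη₁ : (m.map (algebraMap k k₁)).eval η₁ = 0 := by
    have h1 : (Polynomial.X : Polynomial k₁) ∣ (m.map (algebraMap k k₁)).comp (lam (Sum.inr 1)) :=
      (dvd_pow_self _ (by omega)).trans hlη0
    rw [Polynomial.X_dvd_iff, Polynomial.coeff_zero_eq_eval_zero, Polynomial.eval_comp,
      ← Polynomial.coeff_zero_eq_eval_zero] at h1
    exact h1
  have hmin : m = minpoly k η₁ := by
    apply minpoly.eq_of_irreducible_of_monic hmi _ hmm
    rw [Polynomial.aeval_def, ← Polynomial.eval_map]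
    exact hη₁
  have hη₁' : (Polynomial.derivative (m.map (algebraMap k k₁))).eval η₁ ≠ 0 := by
    rw [Polynomial.derivative_map, Polynomial.eval_map, ← Polynomial.aeval_def, hmin]
    have hsepm : (minpoly k η₁).Separable := by
      rw [← hmin]
      exact hmi.separable
    exact hsepm.aeval_derivative_ne_zero (minpoly.aeval k η₁)
  have hlη : (Polynomial.X : Polynomial k₁) ^ (2 * c + 1) ∣ lam (Sum.inr 1) - Polynomial.C η₁ :=
    const_of_root _ (m.map (algebraMap k k₁)) _ hη₁ hη₁' hlη0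
  -- `y`
  have hly : ∀ i, (Polynomial.X : Polynomial k₁) ^ (2 * c + 1) ∣ lam (Sum.inl (Sum.inl i)) -
      ∑ j : Fin (2 * c + 1), Polynomial.C (Polynomial.aeval η₁ (B i j)) *
        Polynomial.X ^ (j : ℕ) := by
    intro i
    have h1 := hlam1 (MvPolynomial.X (Sum.inl (Sum.inl i)) - ∑ j : Fin (2 * c + 1),
      Polynomial.aeval (MvPolynomial.X (Sum.inr 1) : MvPolynomial ι k) (B i j) *
        MvPolynomial.X (Sum.inr 2) ^ (j : ℕ)) (by
      rw [map_sub, map_sum, MvPolynomial.aeval_X]
      simp only [map_mul, map_pow, MvPolynomial.aeval_X, ← Polynomial.aeval_algHom_apply]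
      change (algebraMap E L (y i) - ∑ j : Fin (2 * c + 1),
        Polynomial.aeval (algebraMap E L η) (B i j) * algebraMap E L π ^ (j : ℕ)) /
          algebraMap E L π ^ (2 * c + 1) ∈ O'
      simp only [Polynomial.aeval_algebraMap_apply, ← map_pow, ← map_mul]
      rw [← map_sum, ← map_sub, ← map_div₀, hOO']
      exact hB' i)
    rw [map_sub, map_sum, MvPolynomial.aeval_X] at h1
    simp only [map_mul, map_pow, MvPolynomial.aeval_X, ← Polynomial.aeval_algHom_apply] at h1
    have h2 : (Polynomial.X : Polynomial k₁) ^ (2 * c + 1) ∣ (∑ j : Fin (2 * c + 1),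
        Polynomial.aeval (lam (Sum.inr 1)) (B i j) * lam (Sum.inr 2) ^ (j : ℕ)) -
        ∑ j : Fin (2 * c + 1), Polynomial.C (Polynomial.aeval η₁ (B i j)) *
        Polynomial.X ^ (j : ℕ) := by
      rw [← Finset.sum_sub_distrib]
      apply Finset.dvd_sum
      intro j _
      have h3 : (Polynomial.X : Polynomial k₁) ^ (2 * c + 1) ∣
          Polynomial.aeval (lam (Sum.inr 1)) (B i j) -
          Polynomial.C (Polynomial.aeval η₁ (B i j)) := by
        have h4 : Polynomial.C (Polynomial.aeval η₁ (B i j)) =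
            Polynomial.aeval (Polynomial.C η₁) (B i j) := by
          rw [← Polynomial.algebraMap_eq, Polynomial.aeval_algebraMap_apply]
        rw [h4, Polynomial.aeval_def, Polynomial.aeval_def, ← Polynomial.eval_map,
          ← Polynomial.eval_map]
        exact hlη.trans (Polynomial.sub_dvd_eval_sub _ _ _)
      have h5 : (Polynomial.X : Polynomial k₁) ^ (2 * c + 1) ∣
          lam (Sum.inr 2) ^ (j : ℕ) - Polynomial.X ^ (j : ℕ) :=
        hlπ.trans (sub_dvd_pow_sub_pow _ _ _)
      have h6 : Polynomial.aeval (lam (Sum.inr 1)) (B i j) * lam (Sum.inr 2) ^ (j : ℕ) -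
          Polynomial.C (Polynomial.aeval η₁ (B i j)) * Polynomial.X ^ (j : ℕ) =
          (Polynomial.aeval (lam (Sum.inr 1)) (B i j) -
            Polynomial.C (Polynomial.aeval η₁ (B i j))) * lam (Sum.inr 2) ^ (j : ℕ) +
          Polynomial.C (Polynomial.aeval η₁ (B i j)) *
            (lam (Sum.inr 2) ^ (j : ℕ) - Polynomial.X ^ (j : ℕ)) := by ring
      rw [h6]
      exact dvd_add (h3.mul_right _) (h5.mul_left _)
    have h7 := dvd_add h1 h2
    have h8 : lam (Sum.inl (Sum.inl i)) - ∑ j : Fin (2 * c + 1),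
        Polynomial.aeval (lam (Sum.inr 1)) (B i j) * lam (Sum.inr 2) ^ (j : ℕ) +
        ((∑ j : Fin (2 * c + 1),
        Polynomial.aeval (lam (Sum.inr 1)) (B i j) * lam (Sum.inr 2) ^ (j : ℕ)) -
        ∑ j : Fin (2 * c + 1), Polynomial.C (Polynomial.aeval η₁ (B i j)) *
        Polynomial.X ^ (j : ℕ)) = lam (Sum.inl (Sum.inl i)) -
      ∑ j : Fin (2 * c + 1), Polynomial.C (Polynomial.aeval η₁ (B i j)) *
        Polynomial.X ^ (j : ℕ) := by ring
    rw [h8] at h7
    exact h7
  have hcong : ∀ h : Polynomial (MvPolynomial (Fin n ⊕ Fin g) ℂ),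
      (Polynomial.X : Polynomial k₁) ^ (2 * c + 1) ∣ MvPolynomial.aeval lam (pull h) -
      h.eval₂ (MvPolynomial.aeval (R := ℂ) (Sum.elim
        (fun i => ∑ j : Fin (2 * c + 1), Polynomial.C (Polynomial.aeval η₁ (B i j)) *
          Polynomial.X ^ (j : ℕ))
        (fun i => lam (Sum.inl (Sum.inr i))))).toRingHom (lam (Sum.inr 0)) := by
    intro h
    rw [hlpull]
    apply cong_eval₂
    · rintro (i | i)
      · exact hly i
      · simp
    · simp
  refine ⟨2 * c, c, k₁, i1, i2, i4, i5, i3, η, η₁, B, fun i => lam (Sum.inl (Sum.inr i)),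
    lam (Sum.inr 0), ?_⟩
  refine ⟨by omega, hη, ?_, ?_, hB', ?_, ?_⟩
  · rw [← hmin]; exact hmN
  · rw [← hmin]; exact hmd
  · have h1 : (Polynomial.X : Polynomial k₁) ^ (2 * c + 1) ∣ MvPolynomial.aeval lam (pull f) := by
      apply hlam1
      rw [hpull, hroot, zero_div]
      exact O'.zero_mem
    exact (dvd_sub_right h1).1 (hcong f)
  · intro h1
    apply hlam3
    have h2 : (Polynomial.X : Polynomial k₁) ^ (c + 1) ∣ MvPolynomial.aeval lam
        (pull (Polynomial.derivative f)) - _ :=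
      (pow_dvd_pow _ (by omega)).trans (hcong (Polynomial.derivative f))
    exact (dvd_sub_left h1).1 h2

end Pool.Agent.AbPencil
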