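import Pool.Agent.Lib_MP_1209e6_tv.G6

/-! PIECE G8: the residue data along a germ. -/

set_option autoImplicit false

namespace Pool.Agent.AbPencil

open Tw

private theorem poly_key {K : Type} [Field K] (B : Polynomial K) (a b T : K) :
    (B.eval a - B.eval b) / T = ∑ i ∈ Finset.range (B.natDegree + 1),
      B.coeff i * ((∑ j ∈ Finset.range i, a ^ j * b ^ (i - 1 - j)) * ((a - b) / T)) := by
  rw [Polynomial.eval_eq_sum_range, Polynomial.eval_eq_sum_range, ← Finset.sum_sub_distrib,
    Finset.sum_div]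
  refine Finset.sum_congr rfl fun i _ => ?_
  have h1 : (∑ j ∈ Finset.range i, a ^ j * b ^ (i - 1 - j)) * (a - b) = a ^ i - b ^ i :=
    (Commute.all a b).geom_sum₂_mul i
  calc (B.coeff i * a ^ i - B.coeff i * b ^ i) / T = B.coeff i * ((a ^ i - b ^ i) / T) := by ring
    _ = _ := by rw [← h1]; ring

theorem poly_cong (B : Polynomial Mer) (hB : ∀ i, Hol (B.coeff i)) (a b T : Mer) (ha : Hol a)
    (hb : Hol b) (h : Hol ((a - b) / T)) : Hol ((B.eval a - B.eval b) / T) := by
  obtain ⟨O, hO⟩ := exists_merO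
  rw [poly_key B a b T]
  refine (hO _).1 (sum_mem fun i _ => ?_)
  refine mul_mem ((hO _).2 (hB i)) (mul_mem (sum_mem fun j _ => ?_) ((hO _).2 h))
  exact mul_mem (pow_mem ((hO _).2 ha) _) (pow_mem ((hO _).2 hb) _)

private theorem mo_pow_pos {a : Mer} (ha : 0 < mo a) (n : ℕ) : 0 < mo (a ^ (n + 1)) := by
  induction n with
  | zero => simpa using ha
  | succ n ih =>
    rw [pow_succ, mo_mul]
    exact lt_of_lt_of_le ih (le_add_of_nonneg_right ha.le)

private theorem hol_div {x c : Mer} (hc : c ≠ 0) (h : mo c ≤ mo x) : Hol (x / c) := by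
  by_cases hx : x = 0
  · rw [hx, zero_div, Hol, mo_eq_top.2 rfl]
    exact le_top
  · obtain ⟨m, hm⟩ := exists_int hc
    have hy : x / c ≠ 0 := div_ne_zero hx hc
    obtain ⟨n, hn⟩ := exists_int hy
    have h1 : mo x = mo (x / c) + mo c := by
      rw [← mo_mul, div_mul_cancel₀ x hc]
    rw [h1, hn, hm] at h
    rw [Hol, hn]
    have h2 : (m : WithTop ℤ) ≤ ((n + m : ℤ) : WithTop ℤ) := by
      rw [WithTop.coe_add]
      exact h
    have h3 : m ≤ n + m := WithTop.coe_le_coe.1 h2
    have h4 : (0 : ℤ) ≤ n := by omega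
    exact_mod_cast h4

/-- Proof. `A` consists of `η`, `π`, `m(η) / π^(N+1)` (`m` the minimal polynomial of `η₁`), `m'(η)⁻¹`, the coefficients of `m` and the images of the elements of
the set of `emb_split` for `C`. Given `φ`, `mer_newton` for `φ m` and `e₀ = φ η` (`φ(m(η)) / φ(m'(η))²` is `φ π^(N+1)` times a holomorphic germ, so of
positive order) gives a root `e` with `mo (e - φ η) ≥ mo (φ (m(η)) / φ (m'(η)))`; `emb_split` gives `ρ₁`. -/
theorem spec_rho {k E : Type} [Field k] [CharZero k] [Field E] [Algebra k E] {k₁ : Type}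
    [Field k₁] [Algebra k k₁] [FiniteDimensional k k₁] (η₁ : k₁) (π η : E) (hπ : π ≠ 0)
    (N : ℕ) (C : Finset k₁) :
    ∃ A : Finset E, (∀ O : ValuationSubring E, (∀ a : k, algebraMap k E a ∈ O) → π ∈ O → η ∈ O →
        Polynomial.aeval η (minpoly k η₁) / π ^ (N + 1) ∈ O →
        (Polynomial.aeval η (Polynomial.derivative (minpoly k η₁)))⁻¹ ∈ O → ∀ a ∈ A, a ∈ O) ∧
      ∀ φ : E →+* Mer, (∀ a ∈ A, Hol (φ a)) → 0 < mo (φ π) → ∃ ρ₁ : k₁ →+* Mer,
        (∀ a : k, ρ₁ (algebraMap k k₁ a) = φ (algebraMap k E a)) ∧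
        Hol ((φ η - ρ₁ η₁) / φ π ^ (N + 1)) ∧ Hol (φ η) ∧ Hol (ρ₁ η₁) ∧ ∀ c ∈ C, Hol (ρ₁ c) := by
  classical
  obtain ⟨A₀, hA₀⟩ := emb_split (k := k) C
  set m : Polynomial k := minpoly k η₁ with hm
  have hirr : Irreducible m := minpoly.irreducible (Algebra.IsIntegral.isIntegral η₁)
  have hcop : IsCoprime m (Polynomial.derivative m) := hirr.separable
  obtain ⟨u, v, huv⟩ := hcop
  set A : Finset E := {η, π, Polynomial.aeval η m / π ^ (N + 1),
      (Polynomial.aeval η (Polynomial.derivative m))⁻¹} ∪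
    ((Finset.range (m.natDegree + 1)).image (fun i => algebraMap k E (m.coeff i)) ∪
     ((Finset.range (u.natDegree + 1)).image (fun i => algebraMap k E (u.coeff i)) ∪
      A₀.image (algebraMap k E))) with hA
  have hAmem : ∀ a : E, a ∈ A ↔ (a = η ∨ a = π ∨ a = Polynomial.aeval η m / π ^ (N + 1) ∨
      a = (Polynomial.aeval η (Polynomial.derivative m))⁻¹) ∨
      ((∃ i, i < m.natDegree + 1 ∧ algebraMap k E (m.coeff i) = a) ∨
        ((∃ i, i < u.natDegree + 1 ∧ algebraMap k E (u.coeff i) = a) ∨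
          ∃ c, c ∈ A₀ ∧ algebraMap k E c = a)) := by
    intro a
    simp only [hA, Finset.mem_union, Finset.mem_insert, Finset.mem_singleton, Finset.mem_image,
      Finset.mem_range]
  refine ⟨A, ?_, ?_⟩
  · intro O hk hπO hηO h1 h2 a ha
    rcases (hAmem a).1 ha with (rfl | rfl | rfl | rfl) | (⟨i, -, rfl⟩ | (⟨i, -, rfl⟩ | ⟨c, -, rfl⟩))
    · exact hηO
    · exact hπO
    · exact h1
    · exact h2
    · exact hk _
    · exact hk _
    · exact hk _
  · intro φ hφ hpos
    have hη : Hol (φ η) := hφ _ ((hAmem _).2 (Or.inl (Or.inl rfl)))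
    have hq : Hol (φ (Polynomial.aeval η m / π ^ (N + 1))) :=
      hφ _ ((hAmem _).2 (Or.inl (Or.inr (Or.inr (Or.inl rfl)))))
    have hinv : Hol (φ (Polynomial.aeval η (Polynomial.derivative m))⁻¹) :=
      hφ _ ((hAmem _).2 (Or.inl (Or.inr (Or.inr (Or.inr rfl)))))
    obtain ⟨O, hO⟩ := exists_merO
    have hcoef : ∀ p : Polynomial k, (∀ i, i < p.natDegree + 1 → Hol (φ (algebraMap k E (p.coeff i))))
        → ∀ i, Hol (φ (algebraMap k E (p.coeff i))) := by
      intro p hp i
      by_cases hi : i < p.natDegree + 1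
      · exact hp i hi
      · rw [Polynomial.coeff_eq_zero_of_natDegree_lt (by omega), map_zero, map_zero, Hol,
          mo_eq_top.2 rfl]
        exact le_top
    have hmc : ∀ i, Hol (φ (algebraMap k E (m.coeff i))) := hcoef m fun i hi =>
      hφ _ ((hAmem _).2 (Or.inr (Or.inl ⟨i, hi, rfl⟩)))
    have huc : ∀ i, Hol (φ (algebraMap k E (u.coeff i))) := hcoef u fun i hi =>
      hφ _ ((hAmem _).2 (Or.inr (Or.inr (Or.inl ⟨i, hi, rfl⟩))))
    -- evaluation of polynomials with holomorphic coefficients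
    have hev : ∀ p : Polynomial k, (∀ i, Hol (φ (algebraMap k E (p.coeff i)))) →
        Hol (φ (Polynomial.aeval η p)) := by
      intro p hp
      rw [Polynomial.aeval_eq_sum_range, map_sum]
      refine (hO _).1 (sum_mem fun i _ => ?_)
      rw [Algebra.smul_def, map_mul, map_pow]
      exact mul_mem ((hO _).2 (hp i)) (pow_mem ((hO _).2 hη) _)
    have hφπ : φ π ≠ 0 := by
      intro h
      exact hπ ((map_eq_zero φ).1 h)
    have hmη : φ (Polynomial.aeval η m) =
        φ (Polynomial.aeval η m / π ^ (N + 1)) * φ π ^ (N + 1) := by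
      rw [← map_pow, ← map_mul, div_mul_cancel₀ _ (pow_ne_zero _ hπ)]
    have hmpos : 0 < mo (φ (Polynomial.aeval η m)) := by
      rw [hmη, mo_mul]
      exact lt_of_lt_of_le (mo_pow_pos hpos N) (le_add_of_nonneg_left hq)
    have hd0 : Polynomial.aeval η (Polynomial.derivative m) ≠ 0 := by
      intro h0
      have h1 : Polynomial.aeval η u * Polynomial.aeval η m = 1 := by
        have := congrArg (Polynomial.aeval η) huv
        rw [map_add, map_mul, map_mul, h0, mul_zero, add_zero, map_one] at this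
        exact this
      have h2 : mo (φ (Polynomial.aeval η u) * φ (Polynomial.aeval η m)) = 0 := by
        rw [← map_mul, h1, map_one, mo_one]
      rw [mo_mul] at h2
      have h3 : 0 < mo (φ (Polynomial.aeval η u)) + mo (φ (Polynomial.aeval η m)) :=
        lt_of_lt_of_le hmpos (le_add_of_nonneg_left (hev u huc))
      rw [h2] at h3
      exact lt_irrefl _ h3
    -- the polynomial over `Mer`
    set ρ : k →+* Mer := φ.comp (algebraMap k E) with hρ
    set f : Polynomial Mer := m.map ρ with hf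
    have hfc : ∀ i, Hol (f.coeff i) := by
      intro i
      rw [hf, Polynomial.coeff_map]
      exact hmc i
    have hfe : ∀ p : Polynomial k, (p.map ρ).eval (φ η) = φ (Polynomial.aeval η p) := by
      intro p
      rw [Polynomial.eval_map, hρ, Polynomial.aeval_def, Polynomial.hom_eval₂]
    have hfd : Polynomial.derivative f = (Polynomial.derivative m).map ρ := by
      rw [hf, Polynomial.derivative_map]
    have hd : (Polynomial.derivative f).eval (φ η) ≠ 0 := by
      rw [hfd, hfe]
      intro h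
      exact hd0 ((map_eq_zero φ).1 h)
    have hdinv : ((Polynomial.derivative f).eval (φ η))⁻¹ =
        φ (Polynomial.aeval η (Polynomial.derivative m))⁻¹ := by
      rw [hfd, hfe, map_inv₀]
    have hquot : mo (φ (Polynomial.aeval η m)) ≤
        mo (f.eval (φ η) / (Polynomial.derivative f).eval (φ η)) := by
      rw [div_eq_mul_inv, hdinv, hf, hfe, mo_mul]
      exact le_add_of_nonneg_right hinv
    have hpos2 : 0 < mo (f.eval (φ η) / (Polynomial.derivative f).eval (φ η) ^ 2) := by
      have h1 : f.eval (φ η) / (Polynomial.derivative f).eval (φ η) ^ 2 =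
          f.eval (φ η) / (Polynomial.derivative f).eval (φ η) *
            ((Polynomial.derivative f).eval (φ η))⁻¹ := by
        field_simp
      rw [h1, mo_mul]
      refine lt_of_lt_of_le (lt_of_lt_of_le hmpos hquot) (le_add_of_nonneg_right ?_)
      rw [hdinv]
      exact hinv
    obtain ⟨e, he, hroot, -, hmo⟩ := mer_newton f hfc (φ η) hη hd hpos2
    obtain ⟨ρ₁, h1, h2, h3⟩ := hA₀ ρ (fun a ha =>
      hφ _ ((hAmem _).2 (Or.inr (Or.inr (Or.inr ⟨a, ha, rfl⟩))))) η₁ e (by
        rw [← Polynomial.eval_map]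
        exact hroot)
    refine ⟨ρ₁, fun a => h1 a, ?_, hη, ?_, h3⟩
    · rw [h2]
      apply hol_div (pow_ne_zero _ hφπ)
      have h4 : mo (φ η - e) = mo (e - φ η) := by
        rw [← mo_neg (e - φ η), neg_sub]
      rw [h4]
      refine le_trans ?_ (le_trans hquot hmo)
      rw [hmη, mo_mul]
      exact le_add_of_nonneg_left hq
    · rw [h2]
      exact he

end Pool.Agent.AbPencil
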