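import Pool.Agent.Lib_MP_1209e6_tv.M3

/-! PIECE G9: from an approximate solution over `k₁` to germs. -/

set_option autoImplicit false

namespace Pool.Agent.AbPencil

open Tw

section generic

variable {K : Type} [Field K] [Algebra ℂ K]

/-- values of polynomials over `ℂ` at elements of a subring -/
private theorem aeval_mem (O : Subring K) (hO : ∀ c : ℂ, algebraMap ℂ K c ∈ O) {ι : Type}
    (y : ι → K) (hy : ∀ i, y i ∈ O) (p : MvPolynomial ι ℂ) : MvPolynomial.aeval y p ∈ O := by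
  induction p using MvPolynomial.induction_on with
  | C a => simpa using hO a
  | add p q hp hq => rw [map_add]; exact O.add_mem hp hq
  | mul_X p i hp => rw [map_mul, MvPolynomial.aeval_X]; exact O.mul_mem hp (hy i)

/-- polynomials over `ℂ` preserve congruences -/
private theorem aeval_cong (O : Subring K) (hO : ∀ c : ℂ, algebraMap ℂ K c ∈ O) {ι : Type}
    (y z : ι → K) (t : K) (hy : ∀ i, y i ∈ O) (hz : ∀ i, z i ∈ O)
    (h : ∀ i, (y i - z i) / t ∈ O) (p : MvPolynomial ι ℂ) :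
    (MvPolynomial.aeval y p - MvPolynomial.aeval z p) / t ∈ O := by
  induction p using MvPolynomial.induction_on with
  | C a => simp
  | add p q hp hq =>
    have h1 : (MvPolynomial.aeval y (p + q) - MvPolynomial.aeval z (p + q)) / t =
        (MvPolynomial.aeval y p - MvPolynomial.aeval z p) / t +
          (MvPolynomial.aeval y q - MvPolynomial.aeval z q) / t := by
      rw [map_add, map_add]; ring
    rw [h1]; exact O.add_mem hp hq
  | mul_X p i hp =>
    have h1 : (MvPolynomial.aeval y (p * MvPolynomial.X i) -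
        MvPolynomial.aeval z (p * MvPolynomial.X i)) / t =
        (MvPolynomial.aeval y p - MvPolynomial.aeval z p) / t * y i +
          MvPolynomial.aeval z p * ((y i - z i) / t) := by
      rw [map_mul, map_mul, MvPolynomial.aeval_X, MvPolynomial.aeval_X]; ring
    rw [h1]
    exact O.add_mem (O.mul_mem hp (hy i)) (O.mul_mem (aeval_mem O hO z hz p) (h i))

/-- the same for a polynomial with coefficients polynomials over `ℂ`, evaluated at one element -/
private theorem eval₂_cong (O : Subring K) (hO : ∀ c : ℂ, algebraMap ℂ K c ∈ O) {ι : Type}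
    (y z : ι → K) (t : K) (hy : ∀ i, y i ∈ O) (hz : ∀ i, z i ∈ O)
    (h : ∀ i, (y i - z i) / t ∈ O) (f : Polynomial (MvPolynomial ι ℂ)) (e : K) (he : e ∈ O) :
    (f.eval₂ (MvPolynomial.aeval (R := ℂ) y).toRingHom e -
      f.eval₂ (MvPolynomial.aeval (R := ℂ) z).toRingHom e) / t ∈ O := by
  rw [Polynomial.eval₂_eq_sum_range, Polynomial.eval₂_eq_sum_range, ← Finset.sum_sub_distrib,
    Finset.sum_div]
  refine O.sum_mem fun i _ => ?_
  have h1 : ((MvPolynomial.aeval (R := ℂ) y).toRingHom (f.coeff i) * e ^ i -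
      (MvPolynomial.aeval (R := ℂ) z).toRingHom (f.coeff i) * e ^ i) / t =
      (MvPolynomial.aeval y (f.coeff i) - MvPolynomial.aeval z (f.coeff i)) / t * e ^ i := by
    change (MvPolynomial.aeval y (f.coeff i) * e ^ i - MvPolynomial.aeval z (f.coeff i) * e ^ i) / t
      = _
    ring
  rw [h1]
  exact O.mul_mem (aeval_cong O hO y z t hy hz h _) (O.pow_mem he _)

private theorem ev_mem {k₁ : Type} [Field k₁] (O : Subring K) (ρ : k₁ →+* K) (T : K) (hT : T ∈ O)
    (p : Polynomial k₁) (hp : ∀ i, ρ (p.coeff i) ∈ O) : p.eval₂ ρ T ∈ O := by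
  rw [Polynomial.eval₂_eq_sum_range]
  exact O.sum_mem fun i _ => O.mul_mem (hp i) (O.pow_mem hT _)

/-- evaluation at the approximate solution -/
private theorem ev_comp {k₁ : Type} [Field k₁] [Algebra ℂ k₁] (ρ : k₁ →ₐ[ℂ] K) (T : K) {ι : Type}
    (b : ι → Polynomial k₁) (l : Polynomial k₁) (f : Polynomial (MvPolynomial ι ℂ)) :
    (f.eval₂ (MvPolynomial.aeval (R := ℂ) b).toRingHom l).eval₂ ρ.toRingHom T =
      f.eval₂ (MvPolynomial.aeval (R := ℂ) (fun i => (b i).eval₂ ρ.toRingHom T)).toRingHom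
        (l.eval₂ ρ.toRingHom T) := by
  have h1 : (MvPolynomial.aeval (R := ℂ) (fun i => (b i).eval₂ ρ.toRingHom T)).toRingHom =
      (Polynomial.eval₂RingHom ρ.toRingHom T).comp (MvPolynomial.aeval (R := ℂ) b).toRingHom := by
    apply MvPolynomial.ringHom_ext
    · intro c
      change MvPolynomial.aeval _ (MvPolynomial.C c) =
        Polynomial.eval₂ ρ.toRingHom T (MvPolynomial.aeval b (MvPolynomial.C c))
      rw [MvPolynomial.aeval_C, MvPolynomial.aeval_C,
        show algebraMap ℂ (Polynomial k₁) c = Polynomial.C (algebraMap ℂ k₁ c) from rfl,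
        Polynomial.eval₂_C]
      exact (ρ.commutes c).symm
    · intro i
      change MvPolynomial.aeval _ (MvPolynomial.X i) =
        Polynomial.eval₂ ρ.toRingHom T (MvPolynomial.aeval b (MvPolynomial.X i))
      rw [MvPolynomial.aeval_X, MvPolynomial.aeval_X]
  rw [h1]
  exact Polynomial.hom_eval₂ f _ (Polynomial.eval₂RingHom ρ.toRingHom T) l

end generic

private theorem hol_of_top {a : Mer} (h : a = 0) : Hol a := by
  rw [h, Hol, mo_eq_top.2 rfl]
  exact le_top

private theorem mo_pow_pos' {a : Mer} (ha : 0 < mo a) (n : ℕ) : 0 < mo (a ^ (n + 1)) := by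
  induction n with
  | zero => simpa using ha
  | succ n ih =>
    rw [pow_succ, mo_mul]
    exact lt_of_lt_of_le ih (le_add_of_nonneg_right ha.le)

/-- Proof. Let `Q₁ = f(b, lams; lamt) / X^(N+1)` and `f'(b, lams; lamt) = X^c' Q₂` with `c' ≤ c`, `Q₂(0) ≠ 0`. `C` consists of the coefficients of all `b i`,
`lams j`, `lamt`, `Q₁`, `Q₂` and `Q₂(0)⁻¹`. Let `ev p = p.eval₂ ρ₁ T`, `S j = ev (lams j)`, `e₀ = ev lamt`: holomorphic. `f(ev b, S; e₀) = T^(N+1) ev Q₁`. Polynomials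
over `ℂ` preserve congruences modulo `T^(N+1)` between holomorphic germs, so `f(Y, S; e₀) ∈ T^(N+1) 𝒪` and `f'(Y, S; e₀) ≡ T^c' ev Q₂` with `ev Q₂` of
order `0`. So `mo (f(Y, S; e₀) / f'(Y, S; e₀)²) ≥ (N + 1 - 2 c') mo T > 0`; `mer_newton` for the polynomial `f(Y, S; X)` over `Mer`. -/
theorem spec_newton {k₁ : Type} [Field k₁] [Algebra ℂ k₁] {n g : ℕ} (N c : ℕ) (h : 2 * c < N + 1)
    (f : Polynomial (MvPolynomial (Fin n ⊕ Fin g) ℂ)) (b : Fin n → Polynomial k₁)
    (lams : Fin g → Polynomial k₁) (lamt : Polynomial k₁)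
    (hdvd : Polynomial.X ^ (N + 1) ∣
      f.eval₂ (MvPolynomial.aeval (R := ℂ) (Sum.elim b lams)).toRingHom lamt)
    (hndvd : ¬ Polynomial.X ^ (c + 1) ∣ (Polynomial.derivative f).eval₂
      (MvPolynomial.aeval (R := ℂ) (Sum.elim b lams)).toRingHom lamt) :
    ∃ C : Finset k₁, ∀ (ρ₁ : k₁ →ₐ[ℂ] Mer) (T : Mer) (Y : Fin n → Mer), (∀ a ∈ C, Hol (ρ₁ a)) →
      0 < mo T → T ≠ 0 → (∀ i, Hol (Y i)) →
      (∀ i, Hol ((Y i - (b i).eval₂ ρ₁.toRingHom T) / T ^ (N + 1))) →
      ∃ (S : Fin g → Mer) (e : Mer),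
        f.eval₂ (MvPolynomial.aeval (R := ℂ) (Sum.elim Y S)).toRingHom e = 0 ∧
        (Polynomial.derivative f).eval₂
          (MvPolynomial.aeval (R := ℂ) (Sum.elim Y S)).toRingHom e ≠ 0 := by
  classical
  obtain ⟨Q₁, hQ₁⟩ := hdvd
  set G : Polynomial k₁ := (Polynomial.derivative f).eval₂
      (MvPolynomial.aeval (R := ℂ) (Sum.elim b lams)).toRingHom lamt with hG
  have hG0 : G ≠ 0 := by
    intro h0
    exact hndvd (by rw [h0]; exact dvd_zero _)
  obtain ⟨Q₂, hQ₂⟩ := Polynomial.exists_eq_pow_rootMultiplicity_mul_and_not_dvd G hG0 0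
  rw [map_zero, sub_zero] at hQ₂
  set c' := G.rootMultiplicity 0 with hc'
  obtain ⟨hQ₂a, hQ₂b⟩ := hQ₂
  have hcc : c' ≤ c := by
    by_contra hlt
    push Not at hlt
    apply hndvd
    rw [hQ₂a]
    exact Dvd.dvd.mul_right (pow_dvd_pow _ hlt) _
  have hq0 : Q₂.coeff 0 ≠ 0 := by
    intro h0
    exact hQ₂b (Polynomial.X_dvd_iff.2 h0)
  set cf : Polynomial k₁ → Finset k₁ := fun p => (Finset.range (p.natDegree + 1)).image p.coeff
    with hcf
  set C : Finset k₁ := (Finset.univ.biUnion fun i => cf (b i)) ∪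
    ((Finset.univ.biUnion fun j => cf (lams j)) ∪ (cf lamt ∪ (cf Q₁ ∪ (cf Q₂ ∪ {(Q₂.coeff 0)⁻¹}))))
    with hC
  refine ⟨C, ?_⟩
  intro ρ₁ T Y hρ hT hT0 hY hcong
  obtain ⟨O, hO⟩ := exists_merO
  set R : Subring Mer := O.toSubring with hR
  have hRm : ∀ a, a ∈ R ↔ Hol a := fun a => hO a
  have hRC : ∀ z : ℂ, algebraMap ℂ Mer z ∈ R := fun z => (hRm _).2 (hol_const z)
  have hcoef : ∀ p : Polynomial k₁, cf p ⊆ C → ∀ i, ρ₁.toRingHom (p.coeff i) ∈ R := by
    intro p hp i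
    by_cases hi : i < p.natDegree + 1
    · exact (hRm _).2 (hρ _ (hp (Finset.mem_image.2 ⟨i, Finset.mem_range.2 hi, rfl⟩)))
    · rw [Polynomial.coeff_eq_zero_of_natDegree_lt (by omega), map_zero]
      exact R.zero_mem
  have hTR : T ∈ R := (hRm _).2 hT.le
  have hb : ∀ i, cf (b i) ⊆ C := by
    intro i x hx
    rw [hC]
    exact Finset.mem_union_left _ (Finset.mem_biUnion.2 ⟨i, Finset.mem_univ _, hx⟩)
  have hl : ∀ j, cf (lams j) ⊆ C := by
    intro j x hx
    rw [hC]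
    exact Finset.mem_union_right _ (Finset.mem_union_left _
      (Finset.mem_biUnion.2 ⟨j, Finset.mem_univ _, hx⟩))
  have hlt : cf lamt ⊆ C := by
    intro x hx
    rw [hC]
    exact Finset.mem_union_right _ (Finset.mem_union_right _ (Finset.mem_union_left _ hx))
  have h1C : cf Q₁ ⊆ C := by
    intro x hx
    rw [hC]
    exact Finset.mem_union_right _ (Finset.mem_union_right _ (Finset.mem_union_right _
      (Finset.mem_union_left _ hx)))
  have h2C : cf Q₂ ⊆ C := by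
    intro x hx
    rw [hC]
    exact Finset.mem_union_right _ (Finset.mem_union_right _ (Finset.mem_union_right _
      (Finset.mem_union_right _ (Finset.mem_union_left _ hx))))
  have h3C : (Q₂.coeff 0)⁻¹ ∈ C := by
    rw [hC]
    exact Finset.mem_union_right _ (Finset.mem_union_right _ (Finset.mem_union_right _
      (Finset.mem_union_right _ (Finset.mem_union_right _ (Finset.mem_singleton_self _)))))
  set ev : Polynomial k₁ → Mer := fun p => p.eval₂ ρ₁.toRingHom T with hev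
  have hevR : ∀ p : Polynomial k₁, cf p ⊆ C → ev p ∈ R := fun p hp =>
    ev_mem R ρ₁.toRingHom T hTR p (hcoef p hp)
  set S : Fin g → Mer := fun j => ev (lams j) with hS
  set e₀ : Mer := ev lamt with he₀
  set y : Fin n ⊕ Fin g → Mer := Sum.elim Y S with hy
  set z : Fin n ⊕ Fin g → Mer := fun i => ev (Sum.elim b lams i) with hz
  have hyR : ∀ i, y i ∈ R := by
    rintro (i | j)
    · exact (hRm _).2 (hY i)
    · exact hevR _ (hl j)
  have hzR : ∀ i, z i ∈ R := by
    rintro (i | j)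
    · exact hevR _ (hb i)
    · exact hevR _ (hl j)
  have hyz : ∀ i, (y i - z i) / T ^ (N + 1) ∈ R := by
    rintro (i | j)
    · exact (hRm _).2 (hcong i)
    · change (ev (lams j) - ev (lams j)) / T ^ (N + 1) ∈ R
      rw [sub_self, zero_div]
      exact R.zero_mem
  have he₀R : e₀ ∈ R := hevR _ hlt
  -- the two values
  have hval : ∀ F : Polynomial (MvPolynomial (Fin n ⊕ Fin g) ℂ),
      (F.eval₂ (MvPolynomial.aeval (R := ℂ) y).toRingHom e₀ -
        ev (F.eval₂ (MvPolynomial.aeval (R := ℂ) (Sum.elim b lams)).toRingHom lamt)) /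
          T ^ (N + 1) ∈ R := by
    intro F
    have := eval₂_cong R hRC y z (T ^ (N + 1)) hyR hzR hyz F e₀ he₀R
    have h2 := ev_comp ρ₁ T (Sum.elim b lams) lamt F
    have h3 : ev (F.eval₂ (MvPolynomial.aeval (R := ℂ) (Sum.elim b lams)).toRingHom lamt) =
        F.eval₂ (MvPolynomial.aeval (R := ℂ) z).toRingHom e₀ := h2
    rw [h3]
    exact this
  have hTN : T ^ (N + 1) ≠ 0 := pow_ne_zero _ hT0
  have hevX : ∀ (i : ℕ) (p : Polynomial k₁), ev (Polynomial.X ^ i * p) = T ^ i * ev p := by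
    intro i p
    simp only [hev]
    rw [Polynomial.eval₂_mul, Polynomial.eval₂_pow, Polynomial.eval₂_X]
  set A : Mer := f.eval₂ (MvPolynomial.aeval (R := ℂ) y).toRingHom e₀ with hA
  set B : Mer := (Polynomial.derivative f).eval₂ (MvPolynomial.aeval (R := ℂ) y).toRingHom e₀
    with hB
  obtain ⟨V, hV, hAV⟩ : ∃ V ∈ R, A = T ^ (N + 1) * V := by
    refine ⟨(A - ev (f.eval₂ (MvPolynomial.aeval (R := ℂ) (Sum.elim b lams)).toRingHom lamt)) /
      T ^ (N + 1) + ev Q₁, R.add_mem (hval f) (hevR _ h1C), ?_⟩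
    rw [hQ₁, hevX, mul_add, mul_div_cancel₀ _ hTN]
    ring
  obtain ⟨W, hW, hBW⟩ : ∃ W ∈ R, B = T ^ c' * (ev Q₂ + T * W) := by
    obtain ⟨q, hq⟩ : ∃ q, N + 1 = c' + (1 + q) := ⟨N + 1 - c' - 1, by omega⟩
    refine ⟨T ^ q * ((B - ev G) / T ^ (N + 1)), R.mul_mem (R.pow_mem hTR _) (hval _), ?_⟩
    have h1 : B - ev G = T ^ c' * (T * (T ^ q * ((B - ev G) / T ^ (N + 1)))) := by
      calc B - ev G = T ^ (N + 1) * ((B - ev G) / T ^ (N + 1)) := (mul_div_cancel₀ _ hTN).symm
        _ = T ^ (c' + (1 + q)) * ((B - ev G) / T ^ (N + 1)) := by rw [← hq]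
        _ = _ := by rw [pow_add, pow_add, pow_one]; ring
    have h2 : ev G = T ^ c' * ev Q₂ := by rw [hQ₂a, hevX]
    rw [mul_add, ← h1, ← h2]
    ring
  -- the order of the unit
  set U : Mer := ev Q₂ + T * W with hU
  have hq1 : mo (ρ₁ (Q₂.coeff 0)) = 0 := by
    have h1 : Hol (ρ₁ (Q₂.coeff 0)) := (hRm _).1 (hcoef Q₂ h2C 0)
    have h2 : Hol (ρ₁ (Q₂.coeff 0)⁻¹) := hρ _ h3C
    have h3 : mo (ρ₁ (Q₂.coeff 0)) + mo (ρ₁ (Q₂.coeff 0)⁻¹) = 0 := by
      rw [← mo_mul, ← map_mul, mul_inv_cancel₀ hq0, map_one, mo_one]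
    refine le_antisymm ?_ h1
    calc mo (ρ₁ (Q₂.coeff 0)) ≤ mo (ρ₁ (Q₂.coeff 0)) + mo (ρ₁ (Q₂.coeff 0)⁻¹) :=
          le_add_of_nonneg_right h2
      _ = 0 := h3
  obtain ⟨W', hW', hUW⟩ : ∃ W' ∈ R, U = ρ₁ (Q₂.coeff 0) + T * W' := by
    refine ⟨ev Q₂.divX + W, R.add_mem ?_ hW, ?_⟩
    · apply ev_mem R ρ₁.toRingHom T hTR
      intro i
      rw [Polynomial.coeff_divX]
      exact hcoef Q₂ h2C _
    · have h1 : ev Q₂ = T * ev Q₂.divX + ρ₁ (Q₂.coeff 0) := by
        have h2 := congrArg ev (Polynomial.X_mul_divX_add Q₂)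
        rw [← h2]
        simp only [hev]
        rw [Polynomial.eval₂_add, Polynomial.eval₂_mul, Polynomial.eval₂_X, Polynomial.eval₂_C]
        rfl
      rw [hU, h1]
      ring
  have hTW : 0 < mo (T * W') := by
    rw [mo_mul]
    exact lt_of_lt_of_le hT (le_add_of_nonneg_right ((hRm _).1 hW'))
  have hmU : mo U = 0 := by
    have h1 : 0 ≤ mo U := by
      rw [hUW]
      exact le_trans (le_min hq1.ge hTW.le) (mo_add _ _)
    refine le_antisymm ?_ h1
    by_contra hlt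
    push Not at hlt
    have h2 : ρ₁ (Q₂.coeff 0) = U + -(T * W') := by rw [hUW]; ring
    have h3 : 0 < mo (ρ₁ (Q₂.coeff 0)) := by
      rw [h2]
      refine lt_of_lt_of_le (lt_min hlt ?_) (mo_add _ _)
      rw [mo_neg]
      exact hTW
    rw [hq1] at h3
    exact lt_irrefl _ h3
  have hU0 : U ≠ 0 := by
    intro h0
    have := mo_eq_top.2 h0
    rw [hmU] at this
    exact WithTop.zero_ne_top this
  have hUinv : mo U⁻¹ = 0 := by
    have h1 : mo U + mo U⁻¹ = 0 := by
      rw [← mo_mul, mul_inv_cancel₀ hU0, mo_one]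
    rwa [hmU, zero_add] at h1
  have hB0 : B ≠ 0 := by
    rw [hBW]
    exact mul_ne_zero (pow_ne_zero _ hT0) hU0
  -- the polynomial over `Mer`
  set φ : MvPolynomial (Fin n ⊕ Fin g) ℂ →+* Mer := (MvPolynomial.aeval (R := ℂ) y).toRingHom
    with hφ
  have hfe : ∀ (F : Polynomial (MvPolynomial (Fin n ⊕ Fin g) ℂ)) (x : Mer),
      (F.map φ).eval x = F.eval₂ φ x := fun F x => Polynomial.eval_map _ _
  have hfc : ∀ i, Hol ((f.map φ).coeff i) := by
    intro i
    rw [Polynomial.coeff_map]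
    exact (hRm _).1 (aeval_mem R hRC y hyR (f.coeff i))
  have hfd : Polynomial.derivative (f.map φ) = (Polynomial.derivative f).map φ :=
    Polynomial.derivative_map f φ
  obtain ⟨q, hq⟩ : ∃ q, N + 1 = c' + c' + (q + 1) := ⟨N + 1 - c' - c' - 1, by omega⟩
  have hquot : A / B ^ 2 = T ^ (q + 1) * (V * (U⁻¹ * U⁻¹)) := by
    rw [hAV, hBW, hq, pow_add, pow_add]
    have := pow_ne_zero c' hT0
    field_simp
  have hpos : 0 < mo (A / B ^ 2) := by
    rw [hquot, mo_mul]
    refine lt_of_lt_of_le (mo_pow_pos' hT q) (le_add_of_nonneg_right ?_)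
    rw [mo_mul, mo_mul, hUinv, add_zero, add_zero]
    exact (hRm _).1 hV
  obtain ⟨e, -, h1, h2, -⟩ := mer_newton (f.map φ) hfc e₀ ((hRm _).1 he₀R)
    (by rw [hfd, hfe]; exact hB0) (by rw [hfd, hfe, hfe]; exact hpos)
  refine ⟨S, e, ?_, ?_⟩
  · rw [← hfe]
    exact h1
  · rw [← hfe, ← hfd]
    exact h2

end Pool.Agent.AbPencil
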