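import Pool.Agent.Lib_MP_1209e6_tv.G1
import Pool.Agent.Lib_MP_1209e6_tv.G2
import Pool.Agent.Lib_MP_1209e6_tv.G7
import Pool.Agent.Lib_MP_1209e6_tv.G8
import Pool.Agent.Lib_MP_1209e6_tv.G9
import Pool.Agent.Lib_MP_1209e6_tv.G10
import Pool.Agent.Lib_MP_1209e6_tv.Stmt

/-! Lifting of germs from the absence of multiple fibres (assembly). -/

set_option autoImplicit false

namespace Pool.Agent.AbPencil

open Tw Pool.Agent.Campana

theorem frac_sum {M ι : Type} [Field M] (s : Finset ι) (a : M) (b c t : ι → M) (d : M)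
    (hd : d ≠ 0) : (a - ∑ j ∈ s, c j * t j) / d =
      (a - ∑ j ∈ s, b j * t j) / d + ∑ j ∈ s, (b j - c j) / d * t j := by
  rw [div_add' _ _ _ hd, Finset.sum_mul]
  congr 1
  have e5 : ∀ j ∈ s, (b j - c j) / d * t j * d = b j * t j - c j * t j := by
    intro j _
    field_simp
  rw [Finset.sum_congr rfl e5, Finset.sum_sub_distrib]
  ring

/-- germs centred at the place `O` -/
theorem special_chart {k E L : Type} [Field k] [Algebra ℂ k] [Field E] [Algebra k E] [Algebra ℂ E]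
    [IsScalarTower ℂ k E] [Field L] [Algebra k L] [Algebra E L] [Algebra ℂ L] [IsScalarTower k E L]
    [IsScalarTower ℂ k L] [IsScalarTower ℂ E L]
    (hfg : ∃ T : Finset E, IntermediateField.adjoin k (T : Set E) = ⊤)
    (htr : ∀ a b : E, ¬ AlgebraicIndependent k ![a, b]) (O : ValuationSubring E)
    (hk : ∀ a : k, algebraMap k E a ∈ O) (O' : ValuationSubring L)
    (hO' : IsDiscreteValuationRing O') (hOO' : ∀ a : E, algebraMap E L a ∈ O' ↔ a ∈ O) (π : E)
    (hπ : (algebraMap E L π)⁻¹ ∉ O') (hπ' : ∀ b : L, b⁻¹ ∉ O' → b / algebraMap E L π ∈ O')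
    {n g : ℕ} (y : Fin n → E) (hy : ∀ i, y i ∈ O) (s : Fin g → L) (hs : ∀ j, s j ∈ O') (θ : L)
    (hθ : θ ∈ O') (f : Polynomial (MvPolynomial (Fin n ⊕ Fin g) ℂ))
    (hroot : f.eval₂ (MvPolynomial.aeval
      (Sum.elim (fun i => algebraMap E L (y i)) s)).toRingHom θ = 0)
    (hsep : (Polynomial.derivative f).eval₂ (MvPolynomial.aeval
      (Sum.elim (fun i => algebraMap E L (y i)) s)).toRingHom θ ≠ 0) :
    ∃ A : Finset E, (∀ a ∈ A, a ∈ O) ∧ ∀ φ : E →ₐ[ℂ] Mer, (∀ a ∈ A, Hol (φ a)) →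
      0 < mo (φ π) → ∃ (S : Fin g → Mer) (e : Mer),
        f.eval₂ (MvPolynomial.aeval (R := ℂ) (Sum.elim (fun i => φ (y i)) S)).toRingHom e = 0 ∧
        (Polynomial.derivative f).eval₂
          (MvPolynomial.aeval (R := ℂ) (Sum.elim (fun i => φ (y i)) S)).toRingHom e ≠ 0 := by
  classical
  have : CharZero k := charZero_of_injective_algebraMap (algebraMap ℂ k).injective
  obtain ⟨N, c, k₁, _, _, _, _, _, η, η₁, B, lams, lamt, hD⟩ := spec_alg hfg htr O hk O' hO' hOO' π
    hπ hπ' y hy s hs θ hθ f hroot hsep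
  have hπ0 : π ≠ 0 := by
    rintro rfl
    apply hπ
    rw [map_zero, inv_zero]
    exact O'.zero_mem
  have hπO : π ∈ O := by
    rw [← hOO']
    exact (O'.mem_or_inv_mem _).resolve_right hπ
  obtain ⟨C, hC⟩ := spec_newton N c hD.lt f
    (fun i => ∑ j, Polynomial.C (Polynomial.aeval η₁ (B i j)) * Polynomial.X ^ (j : ℕ)) lams lamt
    hD.dvd hD.ndvd
  obtain ⟨A₁, hA₁, hρ⟩ := spec_rho (k := k) η₁ π η hπ0 N C
  -- the finite set
  let A₂ : Finset E := Finset.univ.image y ∪ {π} ∪ Finset.univ.image (fun i : Fin n =>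
    (y i - ∑ j, Polynomial.aeval η (B i j) * π ^ (j : ℕ)) / π ^ (N + 1)) ∪
    Finset.univ.biUnion fun i : Fin n => Finset.univ.biUnion fun j : Fin (N + 1) =>
      (B i j).support.image fun l => algebraMap k E ((B i j).coeff l)
  refine ⟨A₁ ∪ A₂, ?_, fun φ hφ hφπ => ?_⟩
  · intro a ha
    rcases Finset.mem_union.1 ha with ha | ha
    · exact hA₁ O hk hπO hD.mem hD.small hD.unit a ha
    · simp only [A₂, Finset.mem_union, Finset.mem_image, Finset.mem_univ, true_and,
        Finset.mem_singleton, Finset.mem_biUnion] at ha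
      rcases ha with ((⟨i, rfl⟩ | rfl) | ⟨i, rfl⟩) | ⟨i, j, l, -, rfl⟩
      · exact hy i
      · exact hπO
      · exact hD.rest i
      · exact hk _
  · have hy2 : ∀ i, Hol (φ (y i)) := fun i => hφ _ (by simp [A₂])
    have hrest : ∀ i, Hol (φ ((y i - ∑ j, Polynomial.aeval η (B i j) * π ^ (j : ℕ)) /
        π ^ (N + 1))) := fun i => hφ _ (by
      simp only [A₂, Finset.mem_union, Finset.mem_image, Finset.mem_univ, true_and,
        Finset.mem_singleton, Finset.mem_biUnion]
      exact Or.inr (Or.inl (Or.inr ⟨i, rfl⟩)))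
    have hπH : Hol (φ π) := le_of_lt hφπ
    have hBH : ∀ i j l, Hol (φ (algebraMap k E ((B i j).coeff l))) := by
      intro i j l
      by_cases hl : (B i j).coeff l = 0
      · rw [hl, map_zero, map_zero]
        have := hol_const 0
        rwa [map_zero] at this
      · refine hφ _ ?_
        simp only [A₂, Finset.mem_union, Finset.mem_image, Finset.mem_univ, true_and,
          Finset.mem_singleton, Finset.mem_biUnion]
        exact Or.inr (Or.inr ⟨i, j, l, Polynomial.mem_support_iff.2 hl, rfl⟩)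
    obtain ⟨ρ₀, hρ₀, hcl, hηH, hη₁H, hCH⟩ := hρ φ.toRingHom
      (fun a ha => hφ a (Finset.mem_union_left _ ha)) hφπ
    let ρ₁ : k₁ →ₐ[ℂ] Mer :=
      { ρ₀ with
        commutes' := fun z => by
          change ρ₀ (algebraMap ℂ k₁ z) = _
          rw [IsScalarTower.algebraMap_apply ℂ k k₁, hρ₀]
          change φ (algebraMap k E (algebraMap ℂ k z)) = _
          rw [← IsScalarTower.algebraMap_apply ℂ k E, φ.commutes] }
    refine hC ρ₁ (φ π) (fun i => φ (y i)) hCH hφπ ((map_ne_zero φ).2 hπ0) hy2 fun i => ?_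
    -- the closeness
    obtain ⟨OM, hOM⟩ := exists_merO
    have hT0 : φ π ^ (N + 1) ≠ 0 := pow_ne_zero _ ((map_ne_zero φ).2 hπ0)
    have e1 : Polynomial.eval₂ ρ₁.toRingHom (φ π)
        (∑ j : Fin (N + 1), Polynomial.C (Polynomial.aeval η₁ (B i j)) * Polynomial.X ^ (j : ℕ)) =
        ∑ j : Fin (N + 1), ρ₁ (Polynomial.aeval η₁ (B i j)) * φ π ^ (j : ℕ) := by
      rw [Polynomial.eval₂_finset_sum]
      refine Finset.sum_congr rfl fun j _ => ?_
      rw [Polynomial.eval₂_mul, Polynomial.eval₂_C, Polynomial.eval₂_X_pow]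
      rfl
    have e2 : ∀ j, ρ₁ (Polynomial.aeval η₁ (B i j)) =
        ((B i j).map (φ.toRingHom.comp (algebraMap k E))).eval (ρ₀ η₁) := by
      intro j
      rw [Polynomial.eval_map, Polynomial.aeval_def]
      change ρ₀ _ = _
      rw [Polynomial.hom_eval₂]
      congr 1
      ext a
      exact hρ₀ a
    have e3 : ∀ j, φ (Polynomial.aeval η (B i j)) =
        ((B i j).map (φ.toRingHom.comp (algebraMap k E))).eval (φ η) := by
      intro j
      rw [Polynomial.eval_map, Polynomial.aeval_def]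
      change φ.toRingHom _ = _
      rw [Polynomial.hom_eval₂]
      rfl
    have e4 : (φ (y i) - ∑ j : Fin (N + 1), ρ₁ (Polynomial.aeval η₁ (B i j)) * φ π ^ (j : ℕ)) /
        φ π ^ (N + 1) =
        φ ((y i - ∑ j, Polynomial.aeval η (B i j) * π ^ (j : ℕ)) / π ^ (N + 1)) +
        ∑ j : Fin (N + 1), ((φ (Polynomial.aeval η (B i j)) -
          ρ₁ (Polynomial.aeval η₁ (B i j))) / φ π ^ (N + 1)) * φ π ^ (j : ℕ) := by
      rw [map_div₀, map_pow, map_sub, map_sum]
      simp only [map_mul, map_pow]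
      exact frac_sum _ _ _ _ _ _ hT0
    rw [e1, e4, ← hOM]
    refine OM.add_mem _ _ ((hOM _).2 (hrest i)) (sum_mem fun j _ => OM.mul_mem _ _ ?_ ?_)
    · rw [hOM, e2, e3]
      refine poly_cong _ (fun l => ?_) _ _ _ hηH hη₁H hcl
      rw [Polynomial.coeff_map]
      exact hBH i j l
    · exact pow_mem ((hOM _).2 hπH) _

end Pool.Agent.AbPencil
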