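import Mathlib

/-! PIECE G3: the structure of a place of a function field of one variable modulo a power of the uniformizer. -/

set_option autoImplicit false

namespace Pool.Agent.AbPencil

variable {k E : Type} [Field k] [Field E] [Algebra k E] [CharZero k]

section G3

open Polynomial IsLocalRing

variable (O : ValuationSubring E)

omit [Algebra k E] [CharZero k] [Field k] in
private theorem G3_isUnit {a : O} : IsUnit a ↔ (a : E) ≠ 0 ∧ (a : E)⁻¹ ∈ O := by
  constructor
  · intro h
    obtain ⟨b, hb⟩ := isUnit_iff_exists_inv.1 h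
    have h1 : (a : E) * (b : E) = 1 := congrArg Subtype.val hb
    have h2 : (a : E)⁻¹ = b := (eq_inv_of_mul_eq_one_right h1).symm
    exact ⟨left_ne_zero_of_mul_eq_one h1, h2 ▸ b.2⟩
  · rintro ⟨h1, h2⟩
    exact isUnit_iff_exists_inv.2 ⟨⟨(a : E)⁻¹, h2⟩, Subtype.ext (mul_inv_cancel₀ h1)⟩

omit [Algebra k E] [CharZero k] [Field k] in
/-- the residue of `a` is zero iff `a` is divisible by `π` -/
private theorem G3_residue (p : O) (hπ : (p : E)⁻¹ ∉ O)
    (hπ' : ∀ b : E, b⁻¹ ∉ O → b / (p : E) ∈ O) (a : O) :
    residue O a = 0 ↔ ∃ c : O, a = p * c := by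
  have hp0 : (p : E) ≠ 0 := by
    intro h
    apply hπ
    rw [h, inv_zero]
    exact O.zero_mem
  rw [residue_eq_zero_iff, mem_maximalIdeal, mem_nonunits_iff]
  constructor
  · intro h
    by_cases h0 : (a : E) = 0
    · refine ⟨0, Subtype.ext ?_⟩
      rw [mul_zero]
      exact h0
    · have h1 : (a : E)⁻¹ ∉ O := fun h2 => h ((G3_isUnit O).2 ⟨h0, h2⟩)
      refine ⟨⟨_, hπ' _ h1⟩, Subtype.ext ?_⟩
      change (a : E) = (p : E) * ((a : E) / (p : E))
      rw [mul_div_cancel₀ _ hp0]
  · rintro ⟨c, rfl⟩ h
    have h1 : IsUnit p := isUnit_of_mul_isUnit_left h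
    exact hπ ((G3_isUnit O).1 h1).2

variable [Algebra k O] [IsScalarTower k O E]

omit [CharZero k] [Algebra k E] [IsScalarTower k O E] in
private theorem G3_residue_aeval (p : O) (hp : residue O p = 0) (r : k[X]) :
    residue O (aeval p r) = algebraMap k (ResidueField O) (r.coeff 0) := by
  have h1 : residue O (aeval p r) = aeval (residue O p) r := by
    rw [← ResidueField.algebraMap_eq, aeval_algebraMap_apply]
  rw [h1, hp, coeff_zero_eq_aeval_zero']

omit [CharZero k] in
private theorem G3_coe_aeval (x : O) (r : k[X]) : ((aeval x r : O) : E) = aeval (x : E) r := by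
  have h1 := aeval_algebraMap_apply E x r
  rw [ValuationSubring.algebraMap_apply, ValuationSubring.algebraMap_apply] at h1
  exact h1.symm

omit [CharZero k] [Algebra k E] [IsScalarTower k O E] in
/-- elements of `O ∩ k(π)` have their residue in `k` -/
private theorem G3_const (p : O) (hπ : (p : E)⁻¹ ∉ O)
    (hπ' : ∀ b : E, b⁻¹ ∉ O → b / (p : E) ∈ O) (n : ℕ) :
    ∀ r s : k[X], s.natDegree ≤ n → s ≠ 0 → ∀ x : O, x * aeval p s = aeval p r →
      ∃ c : k, residue O x = algebraMap k (ResidueField O) c := by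
  have hp : residue O p = 0 := (G3_residue O p hπ hπ' p).2 ⟨1, (mul_one p).symm⟩
  have hp0 : p ≠ 0 := by
    rintro rfl
    apply hπ
    rw [ZeroMemClass.coe_zero, inv_zero]
    exact O.zero_mem
  induction n with
  | zero =>
    intro r s hs hs0 x hx
    have h1 := congrArg (residue O) hx
    rw [map_mul, G3_residue_aeval O p hp, G3_residue_aeval O p hp] at h1
    have h2 : s.coeff 0 ≠ 0 := by
      intro h3
      apply hs0
      rw [eq_C_of_natDegree_le_zero hs, h3, C_0]
    refine ⟨r.coeff 0 / s.coeff 0, ?_⟩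
    have h3 : algebraMap k (ResidueField O) (s.coeff 0) ≠ 0 := by
      rwa [Ne, FaithfulSMul.algebraMap_eq_zero_iff]
    rw [map_div₀, eq_div_iff h3]
    exact h1
  | succ n ih =>
    intro r s hs hs0 x hx
    have h1 := congrArg (residue O) hx
    rw [map_mul, G3_residue_aeval O p hp, G3_residue_aeval O p hp] at h1
    by_cases h2 : s.coeff 0 = 0
    · rw [h2, map_zero, mul_zero] at h1
      have h3 : r.coeff 0 = 0 := by
        have h4 := h1.symm
        rwa [FaithfulSMul.algebraMap_eq_zero_iff] at h4
      have hs' : s = X * divX s := by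
        conv_lhs => rw [← X_mul_divX_add s, h2, C_0, add_zero]
      have hr' : r = X * divX r := by
        conv_lhs => rw [← X_mul_divX_add r, h3, C_0, add_zero]
      have hsd : divX s ≠ 0 := by
        intro h4
        apply hs0
        rw [hs', h4, mul_zero]
      refine ih (divX r) (divX s) ?_ hsd x ?_
      · rw [natDegree_divX_eq_natDegree_tsub_one]
        omega
      · rw [hs', hr', map_mul, map_mul, aeval_X] at hx
        have h5 : p * (x * aeval p (divX s)) = p * aeval p (divX r) := by
          rw [← hx]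
          ring
        exact mul_left_cancel₀ hp0 h5
    · refine ⟨r.coeff 0 / s.coeff 0, ?_⟩
      have h3 : algebraMap k (ResidueField O) (s.coeff 0) ≠ 0 := by
        rwa [Ne, FaithfulSMul.algebraMap_eq_zero_iff]
      rw [map_div₀, eq_div_iff h3]
      exact h1

omit [CharZero k] in
private theorem G3_const' (p : O) (hπ : (p : E)⁻¹ ∉ O)
    (hπ' : ∀ b : E, b⁻¹ ∉ O → b / (p : E) ∈ O) (x : O)
    (hx : (x : E) ∈ IntermediateField.adjoin k {(p : E)}) :
    ∃ c : k, residue O x = algebraMap k (ResidueField O) c := by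
  obtain ⟨r, s, hrs⟩ := (IntermediateField.mem_adjoin_simple_iff k _).1 hx
  by_cases hs : aeval (p : E) s = 0
  · rw [hs, div_zero] at hrs
    refine ⟨0, ?_⟩
    have h0 : x = 0 := Subtype.ext hrs
    rw [h0, map_zero, map_zero]
  · have hs0 : s ≠ 0 := by
      rintro rfl
      exact hs (map_zero _)
    refine G3_const O p hπ hπ' s.natDegree r s le_rfl hs0 x ?_
    apply Subtype.ext
    change (x : E) * ((aeval p s : O) : E) = ((aeval p r : O) : E)
    rw [G3_coe_aeval, G3_coe_aeval, hrs, div_mul_cancel₀ _ hs]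

omit [CharZero k] in
/-- lifts of elements of the residue field which are linearly independent over `k` are linearly
independent over `k(π)` -/
private theorem G3_indep (p : O) (hπ : (p : E)⁻¹ ∉ O)
    (hπ' : ∀ b : E, b⁻¹ ∉ O → b / (p : E) ∈ O) {ι : Type} [Fintype ι] (a : ι → O)
    (ha : LinearIndependent k fun i => residue O (a i)) :
    LinearIndependent (IntermediateField.adjoin k {(p : E)}) fun i => ((a i : O) : E) := by
  rw [Fintype.linearIndependent_iff]
  intro g hg
  by_contra hcon
  push Not at hcon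
  obtain ⟨i1, hi1⟩ := hcon
  obtain ⟨i0, -, hmax⟩ := Finset.exists_max_image Finset.univ
    (fun i => O.valuation ((g i : IntermediateField.adjoin k {(p : E)}) : E)) ⟨i1, Finset.mem_univ _⟩
  have hg1 : ((g i1 : IntermediateField.adjoin k {(p : E)}) : E) ≠ 0 := by
    intro h
    exact hi1 (Subtype.ext h)
  have hg0 : ((g i0 : IntermediateField.adjoin k {(p : E)}) : E) ≠ 0 := by
    intro h
    have h1 := hmax i1 (Finset.mem_univ _)
    rw [h, map_zero, le_zero_iff, map_eq_zero] at h1
    exact hg1 h1
  have hmem : ∀ i, ((g i : IntermediateField.adjoin k {(p : E)}) : E) /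
      ((g i0 : IntermediateField.adjoin k {(p : E)}) : E) ∈ O := by
    intro i
    rw [← O.valuation_le_one_iff, map_div₀]
    have h1 : O.valuation ((g i0 : IntermediateField.adjoin k {(p : E)}) : E) ≠ 0 := by
      rwa [Ne, map_eq_zero]
    exact div_le_one_of_le₀ (hmax i (Finset.mem_univ _)) zero_le
  have hc : ∀ i, ∃ c : k, residue O ⟨_, hmem i⟩ = algebraMap k (ResidueField O) c := fun i =>
    G3_const' O p hπ hπ' ⟨_, hmem i⟩
      ((IntermediateField.adjoin k {(p : E)}).div_mem (g i).2 (g i0).2)
  choose c hc using hc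
  have hsum : ∑ i, (⟨_, hmem i⟩ : O) * a i = 0 := by
    apply Subtype.ext
    rw [AddSubmonoidClass.coe_finsetSum]
    change ∑ i, (((g i : IntermediateField.adjoin k {(p : E)}) : E) /
      ((g i0 : IntermediateField.adjoin k {(p : E)}) : E)) * ((a i : O) : E) = 0
    have h1 : ∑ i, ((g i : IntermediateField.adjoin k {(p : E)}) : E) * ((a i : O) : E) = 0 := hg
    have h2 : ∑ i, (((g i : IntermediateField.adjoin k {(p : E)}) : E) /
        ((g i0 : IntermediateField.adjoin k {(p : E)}) : E)) * ((a i : O) : E) =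
        (∑ i, ((g i : IntermediateField.adjoin k {(p : E)}) : E) * ((a i : O) : E)) /
        ((g i0 : IntermediateField.adjoin k {(p : E)}) : E) := by
      rw [Finset.sum_div]
      exact Finset.sum_congr rfl fun i _ => by ring
    rw [h2, h1, zero_div]
  have h3 := congrArg (residue O) hsum
  rw [map_sum, map_zero] at h3
  have h4 : ∑ i, c i • residue O (a i) = 0 := by
    rw [← h3]
    refine Finset.sum_congr rfl fun i _ => ?_
    rw [map_mul, hc, Algebra.smul_def]
  have h5 := (Fintype.linearIndependent_iff.1 ha) c h4 i0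
  have h6 := hc i0
  have h7 : (⟨_, hmem i0⟩ : O) = 1 := Subtype.ext (div_self hg0)
  rw [h7, h5, map_one, map_zero] at h6
  exact one_ne_zero h6

omit [CharZero k] [Algebra k O] [IsScalarTower k O E] in
private theorem G3_transc (hk : ∀ a : k, algebraMap k E a ∈ O) (π : E) (hπO : π ∈ O)
    (hπ : π⁻¹ ∉ O) : Transcendental k π := by
  intro halg
  let A : Subalgebra k E := { O.toSubring with algebraMap_mem' := hk }
  have h1 : π⁻¹ ∈ A := by
    have h2 : Algebra.adjoin k {π} ≤ A := Algebra.adjoin_le (by
      intro x hx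
      rw [Set.mem_singleton_iff] at hx
      rw [hx]
      exact hπO)
    exact h2 halg.isIntegral.inv_mem_adjoin
  exact hπ h1

omit [CharZero k] [Algebra k O] [IsScalarTower k O E] in
private theorem G3_alg (htr : ∀ a b : E, ¬ AlgebraicIndependent k ![a, b]) (π : E)
    (hπ : Transcendental k π) (a : E) : IsAlgebraic (IntermediateField.adjoin k {π}) a := by
  by_contra h
  have h1 : Transcendental (Algebra.adjoin k {π}) a :=
    IntermediateField.transcendental_adjoin_iff.1 h
  have hx : AlgebraicIndependent k ![π] := algebraicIndependent_iff_transcendental.2 hπ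
  have hr : Set.range ![π] = {π} := by simp
  have h2 : AlgebraicIndependent k (fun o : Option (Fin 1) => o.elim a ![π]) := by
    rw [hx.option_iff_transcendental, hr]
    exact h1
  have h3 := h2.comp (finSuccEquiv 1) (finSuccEquiv 1).injective
  apply htr a π
  have h4 : ![a, π] = (fun o : Option (Fin 1) => o.elim a ![π]) ∘ (finSuccEquiv 1) := by
    funext i
    refine Fin.cases ?_ (fun j => ?_) i
    · rw [Function.comp_apply, finSuccEquiv_zero]
      rfl
    · rw [Function.comp_apply, finSuccEquiv_succ]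
      rfl
  rw [h4]
  exact h3

omit [CharZero k] [Algebra k O] [IsScalarTower k O E] in
private theorem G3_finite (hfg : ∃ T : Finset E, IntermediateField.adjoin k (T : Set E) = ⊤)
    (htr : ∀ a b : E, ¬ AlgebraicIndependent k ![a, b]) (π : E) (hπ : Transcendental k π) :
    Module.Finite (IntermediateField.adjoin k {π}) E := by
  obtain ⟨T, hT⟩ := hfg
  have h1 : FiniteDimensional (IntermediateField.adjoin k {π})
      (IntermediateField.adjoin (IntermediateField.adjoin k {π}) (T : Set E)) :=
    IntermediateField.finiteDimensional_adjoin fun x _ => (G3_alg htr π hπ x).isIntegral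
  have h2 : IntermediateField.adjoin (IntermediateField.adjoin k {π}) (T : Set E) = ⊤ := by
    rw [← IntermediateField.restrictScalars_eq_top_iff (K := k),
      IntermediateField.adjoin_adjoin_left, eq_top_iff, ← hT]
    exact IntermediateField.adjoin.mono _ _ _ Set.subset_union_right
  rw [h2] at h1
  exact Module.Finite.equiv (IntermediateField.topEquiv
    (F := IntermediateField.adjoin k {π}) (E := E)).toLinearEquiv

omit [CharZero k] in
private theorem G3_residue_finite
    (hfg : ∃ T : Finset E, IntermediateField.adjoin k (T : Set E) = ⊤)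
    (htr : ∀ a b : E, ¬ AlgebraicIndependent k ![a, b])
    (hk : ∀ a : k, algebraMap k E a ∈ O) (p : O) (hπ : (p : E)⁻¹ ∉ O)
    (hπ' : ∀ b : E, b⁻¹ ∉ O → b / (p : E) ∈ O) : Module.Finite k (ResidueField O) := by
  have hp0 : (p : E) ≠ 0 := by
    intro h
    apply hπ
    rw [h, inv_zero]
    exact O.zero_mem
  have htc : Transcendental k (p : E) := G3_transc O hk _ p.2 hπ
  have hfin := G3_finite hfg htr (p : E) htc
  rw [← Module.rank_lt_aleph0_iff]
  refine lt_of_le_of_lt (rank_le (n := Module.finrank (IntermediateField.adjoin k {(p : E)}) E)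
    ?_) Cardinal.natCast_lt_aleph0
  intro s hs
  have hlift : ∀ i : s, ∃ a : O, residue O a = i := fun i => residue_surjective _
  choose a ha using hlift
  have h1 := G3_indep O p hπ hπ' a (by
    have h2 : (fun i : s => residue O (a i)) = fun i : s => (i : ResidueField O) := funext ha
    rw [h2]
    exact hs)
  have h3 := h1.fintype_card_le_finrank
  rwa [Fintype.card_coe] at h3

omit [CharZero k] [Algebra k E] [IsScalarTower k O E] in
/-- Newton's iteration -/
private theorem G3_hensel (p : O) (hπ : (p : E)⁻¹ ∉ O)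
    (hπ' : ∀ b : E, b⁻¹ ∉ O → b / (p : E) ∈ O) (α : ResidueField O) (m : k[X])
    (hm : aeval α m = 0) (hm' : aeval α (derivative m) ≠ 0) (N : ℕ) :
    ∃ η : O, residue O η = α ∧ ∃ c : O, aeval η m = p ^ (N + 1) * c := by
  have hp : residue O p = 0 := (G3_residue O p hπ hπ' p).2 ⟨1, (mul_one p).symm⟩
  have hres : ∀ (x : O) (r : k[X]), residue O (aeval x r) = aeval (residue O x) r := by
    intro x r
    rw [← ResidueField.algebraMap_eq, aeval_algebraMap_apply]
  induction N with
  | zero =>
    obtain ⟨η, hη⟩ := residue_surjective α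
    refine ⟨η, hη, ?_⟩
    rw [zero_add, pow_one]
    refine (G3_residue O p hπ hπ' _).1 ?_
    rw [hres, hη, hm]
  | succ N ih =>
    obtain ⟨η, hη, c, hc⟩ := ih
    have hu : IsUnit (aeval η (derivative m)) := by
      by_contra hnu
      apply hm'
      rw [← hη, ← hres]
      exact (residue_eq_zero_iff _).2 hnu
    obtain ⟨u, hu⟩ := hu
    obtain ⟨κ, hκ⟩ := binomExpansion (m.map (algebraMap k O)) η (-(p ^ (N + 1) * c * ↑u⁻¹))
    refine ⟨η + -(p ^ (N + 1) * c * ↑u⁻¹), ?_, ?_⟩
    · rw [map_add, map_neg, map_mul, map_mul, map_pow, hp, hη, zero_pow (Nat.succ_ne_zero N),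
        zero_mul, zero_mul, neg_zero, add_zero]
    · rw [derivative_map, eval_map_algebraMap, eval_map_algebraMap, eval_map_algebraMap, hc,
        ← hu] at hκ
      rw [hκ]
      refine ⟨κ * (p ^ N * (c * ↑u⁻¹) ^ 2), ?_⟩
      have h1 : (u : O) * (↑u⁻¹ : O) = 1 := Units.mul_inv u
      have h2 : p ^ (N + 1) * c + ↑u * -(p ^ (N + 1) * c * ↑u⁻¹) + κ * (-(p ^ (N + 1) * c * ↑u⁻¹)) ^ 2 =
          p ^ (N + 1) * c * (1 - (u : O) * (↑u⁻¹ : O)) +
            p ^ (N + 1 + 1) * (κ * (p ^ N * (c * ↑u⁻¹) ^ 2)) := by
        ring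
      rw [h2, h1, sub_self, mul_zero, zero_add]

omit [CharZero k] [Algebra k E] [IsScalarTower k O E] in
private theorem G3_expand (p : O) (hπ : (p : E)⁻¹ ∉ O)
    (hπ' : ∀ b : E, b⁻¹ ∉ O → b / (p : E) ∈ O) (η : O)
    (hη : ∀ β : ResidueField O, ∃ B : k[X], aeval (residue O η) B = β) (M : ℕ) (y : O) :
    ∃ (B : Fin M → k[X]) (y' : O), y = ∑ i, aeval η (B i) * p ^ (i : ℕ) + p ^ M * y' := by
  have hres : ∀ (x : O) (r : k[X]), residue O (aeval x r) = aeval (residue O x) r := by
    intro x r
    rw [← ResidueField.algebraMap_eq, aeval_algebraMap_apply]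
  induction M with
  | zero =>
    refine ⟨fun i => i.elim0, y, ?_⟩
    simp
  | succ M ih =>
    obtain ⟨B, y', hy⟩ := ih
    obtain ⟨B', hB'⟩ := hη (residue O y')
    obtain ⟨y'', hy''⟩ := (G3_residue O p hπ hπ' (y' - aeval η B')).1 (by
      rw [map_sub, hres, hB', sub_self])
    refine ⟨Fin.snoc B B', y'', ?_⟩
    rw [Fin.sum_univ_castSucc]
    simp only [Fin.snoc_castSucc, Fin.snoc_last, Fin.val_castSucc, Fin.val_last]
    have h1 : y' = aeval η B' + p * y'' := by
      rw [← hy'']
      ring
    rw [hy]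
    conv_lhs => rw [h1]
    ring

end G3

/-- Proof. The residue field `κ` of `O` is algebraic over `k`: if the residue of `a ∈ O` is transcendental over `k` then `a, π` are algebraically
independent (a relation `∑ p_i(a) π^i = 0`, not all `p_i` zero, divided by a power of `π`: the residue of the first nonzero `p_i(a)` is zero).
It is finite over `k`: elements of `O` with residues linearly independent over `k` are linearly independent over `k(π)` (clear denominators,
divide by powers of `π`), and `E` is finite over `k(π)` (`hfg`, `htr`). Let `κ = k[η₀]` (primitive element), `m` the minimal polynomial. Newton's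
iteration `η ↦ η - m(η) / m'(η)` in `O` (`m'(η)` is a unit of `O`, as `m` is separable) gives `η` with `m(η) ∈ π^(N+1) O`. Each `y ∈ O` is
congruent to `B_0(η)` modulo `π`; iterate with `(y - B_0(η)) / π`. -/
theorem place_structure (hfg : ∃ T : Finset E, IntermediateField.adjoin k (T : Set E) = ⊤)
    (htr : ∀ a b : E, ¬ AlgebraicIndependent k ![a, b]) (O : ValuationSubring E)
    (hk : ∀ a : k, algebraMap k E a ∈ O) (π : E) (hπ : π⁻¹ ∉ O)
    (hπ' : ∀ b : E, b⁻¹ ∉ O → b / π ∈ O) (N : ℕ) :
    ∃ (η : E) (m : Polynomial k), η ∈ O ∧ m.Monic ∧ Irreducible m ∧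
      Polynomial.aeval η m / π ^ (N + 1) ∈ O ∧
      (Polynomial.aeval η (Polynomial.derivative m))⁻¹ ∈ O ∧
      ∀ y ∈ O, ∃ B : Fin (N + 1) → Polynomial k,
        (y - ∑ i, Polynomial.aeval η (B i) * π ^ (i : ℕ)) / π ^ (N + 1) ∈ O := by
  have hπ0 : π ≠ 0 := by
    rintro rfl
    apply hπ
    rw [inv_zero]
    exact O.zero_mem
  have hπO : π ∈ O := (O.mem_or_inv_mem π).resolve_right hπ
  let _ : Algebra k O := ((algebraMap k E).codRestrict O.toSubring hk).toAlgebra
  have _ : IsScalarTower k O E := IsScalarTower.of_algebraMap_eq fun _ => rfl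
  have hfin : Module.Finite k (IsLocalRing.ResidueField O) :=
    G3_residue_finite O hfg htr hk ⟨π, hπO⟩ hπ hπ'
  obtain ⟨α, hα⟩ := Field.exists_primitive_element k (IsLocalRing.ResidueField O)
  have hint : IsIntegral k α := IsIntegral.of_finite k α
  have hsep : (minpoly k α).Separable := (minpoly.irreducible hint).separable
  have hder : Polynomial.aeval α (Polynomial.derivative (minpoly k α)) ≠ 0 :=
    hsep.aeval_derivative_ne_zero (minpoly.aeval k α)
  have hgen : ∀ β : IsLocalRing.ResidueField O, ∃ B : Polynomial k, Polynomial.aeval α B = β := by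
    intro β
    have h1 : β ∈ (IntermediateField.adjoin k {α}).toSubalgebra := by
      rw [hα]
      trivial
    rw [IntermediateField.adjoin_simple_toSubalgebra_of_isAlgebraic hint.isAlgebraic,
      Algebra.adjoin_singleton_eq_range_aeval] at h1
    exact h1
  obtain ⟨η, hη, c, hc⟩ := G3_hensel O ⟨π, hπO⟩ hπ hπ' α (minpoly k α) (minpoly.aeval k α) hder N
  have hpow : π ^ (N + 1) ≠ 0 := pow_ne_zero _ hπ0
  refine ⟨(η : E), minpoly k α, η.2, minpoly.monic hint, minpoly.irreducible hint, ?_, ?_, ?_⟩
  · have h1 : Polynomial.aeval (η : E) (minpoly k α) = π ^ (N + 1) * (c : E) := by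
      rw [← G3_coe_aeval, hc]
      rfl
    rw [h1, mul_div_cancel_left₀ _ hpow]
    exact c.2
  · rw [← G3_coe_aeval]
    refine ((G3_isUnit O).1 ?_).2
    by_contra hnu
    apply hder
    have h1 : IsLocalRing.residue O (Polynomial.aeval η (Polynomial.derivative (minpoly k α))) =
        Polynomial.aeval (IsLocalRing.residue O η) (Polynomial.derivative (minpoly k α)) := by
      rw [← IsLocalRing.ResidueField.algebraMap_eq, Polynomial.aeval_algebraMap_apply]
    rw [hη] at h1
    rw [← h1]
    exact (IsLocalRing.residue_eq_zero_iff _).2 hnu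
  · intro y hy
    obtain ⟨B, y', hB⟩ := G3_expand O ⟨π, hπO⟩ hπ hπ' η (by rw [hη]; exact hgen) (N + 1) ⟨y, hy⟩
    refine ⟨B, ?_⟩
    have h1 : y = ∑ i, Polynomial.aeval (η : E) (B i) * π ^ (i : ℕ) + π ^ (N + 1) * (y' : E) := by
      have h2 := congrArg (fun z : O => (z : E)) hB
      simp only at h2
      rw [h2, AddMemClass.coe_add, AddSubmonoidClass.coe_finsetSum]
      congr 1
      refine Finset.sum_congr rfl fun i _ => ?_
      rw [MulMemClass.coe_mul, G3_coe_aeval]
      rfl
    rw [h1, add_sub_cancel_left, mul_div_cancel_left₀ _ hpow]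
    exact y'.2

end Pool.Agent.AbPencil
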