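import Mathlib

/-! PIECE G4: truncated expansions at a place, over an arbitrary base field of characteristic zero. -/

set_option autoImplicit false

namespace Pool.Agent.AbPencil

/-- `θ` is a homomorphism over `k` from `O` to `κ[X]/(X^(N+1))` (written with values in `κ[X]`, up to multiples of `X^(N+1)`) which maps `π` to `X` and
the elements of order `≥ s` to the multiples of `X^s`. -/
structure IsTruncK {k L κ : Type} [Field k] [Field L] [Algebra k L] [Field κ] [Algebra k κ]
    (O : ValuationSubring L) (π : L) (N : ℕ) (θ : L → Polynomial κ) : Prop where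
  add : ∀ x ∈ O, ∀ y ∈ O, Polynomial.X ^ (N + 1) ∣ θ (x + y) - (θ x + θ y)
  mul : ∀ x ∈ O, ∀ y ∈ O, Polynomial.X ^ (N + 1) ∣ θ (x * y) - θ x * θ y
  const : ∀ c : k, Polynomial.X ^ (N + 1) ∣
    θ (algebraMap k L c) - Polynomial.C (algebraMap k κ c)
  unif : Polynomial.X ^ (N + 1) ∣ θ π - Polynomial.X
  ord : ∀ x ∈ O, ∀ s : ℕ, s ≤ N + 1 → (Polynomial.X ^ s ∣ θ x ↔ x / π ^ s ∈ O)

namespace TruncK

open IsLocalRing

/-- A field over a field of characteristic zero is formally smooth. -/
theorem smooth_field (k κ : Type) [Field k] [CharZero k] [Field κ] [Algebra k κ] :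
    Algebra.FormallySmooth k κ := by
  obtain ⟨s, hs⟩ := exists_isTranscendenceBasis k κ
  have h1 : Algebra.IsAlgebraic (IntermediateField.adjoin k (Set.range ((↑) : s → κ))) κ :=
    hs.isAlgebraic_field
  have h2 : CharZero (IntermediateField.adjoin k (Set.range ((↑) : s → κ))) :=
    charZero_of_injective_algebraMap (algebraMap k _).injective
  have h3 : Algebra.IsSeparable (IntermediateField.adjoin k (Set.range ((↑) : s → κ))) κ :=
    inferInstance
  exact Algebra.FormallySmooth.of_algebraicIndependent_of_isSeparable hs.1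

variable {k : Type} [Field k] [CharZero k]
  {O : Type} [CommRing O] [IsDomain O] [IsDiscreteValuationRing O] [Algebra k O]

variable (k O) in
/-- The quotient of `O / m^(L+1)` onto the residue field. -/
noncomputable def toRes (L : ℕ) : (O ⧸ (maximalIdeal O) ^ (L + 1)) →ₐ[k] ResidueField O :=
  Ideal.Quotient.liftₐ ((maximalIdeal O) ^ (L + 1)) (IsScalarTower.toAlgHom k O (ResidueField O))
    (fun a ha => by
      have h : a ∈ maximalIdeal O := Ideal.pow_le_self (Nat.succ_ne_zero L) ha
      exact (residue_eq_zero_iff a).2 h)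

omit [CharZero k] in
theorem toRes_mk (L : ℕ) (a : O) : toRes k O L (Ideal.Quotient.mk _ a) = residue O a := rfl

/-- A section over the residue field. -/
theorem exists_sec (L : ℕ) :
    ∃ σ : ResidueField O →ₐ[k] (O ⧸ (maximalIdeal O) ^ (L + 1)), ∀ c, toRes k O L (σ c) = c := by
  have h0 : Algebra.FormallySmooth k (ResidueField O) := smooth_field _ _
  have hs : Function.Surjective (toRes k O L) := by
    intro c
    obtain ⟨a, rfl⟩ := residue_surjective c
    exact ⟨Ideal.Quotient.mk _ a, rfl⟩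
  have hn : IsNilpotent (RingHom.ker (toRes k O L)) := by
    refine ⟨L + 1, ?_⟩
    have h1 : RingHom.ker (toRes k O L) ≤
        (maximalIdeal O).map (Ideal.Quotient.mk ((maximalIdeal O) ^ (L + 1))) := by
      intro b hb
      obtain ⟨a, rfl⟩ := Ideal.Quotient.mk_surjective b
      have h2 : residue O a = 0 := hb
      exact Ideal.mem_map_of_mem _ ((residue_eq_zero_iff a).1 h2)
    rw [Ideal.zero_eq_bot, eq_bot_iff]
    refine (Ideal.pow_right_mono h1 _).trans ?_
    rw [← Ideal.map_pow]
    refine Ideal.map_le_iff_le_comap.2 ?_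
    intro a ha
    rw [Ideal.mem_comap, Ideal.mem_bot]
    exact Ideal.Quotient.eq_zero_iff_mem.2 ha
  refine ⟨Algebra.FormallySmooth.liftOfSurjective (AlgHom.id k _) (toRes k O L) hs hn,
    fun c => ?_⟩
  exact Algebra.FormallySmooth.liftOfSurjective_apply (AlgHom.id k _) (toRes k O L) hs hn c

variable {L : ℕ} (σ : ResidueField O →ₐ[k] (O ⧸ (maximalIdeal O) ^ (L + 1)))
  (hσ : ∀ c, toRes k O L (σ c) = c) (π : O) (hπ : Irreducible π)

omit [CharZero k] in
/-- Polynomials in `π` with coefficients in the residue field. -/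
noncomputable def evp : Polynomial (ResidueField O) →ₐ[k] (O ⧸ (maximalIdeal O) ^ (L + 1)) where
  toRingHom := Polynomial.eval₂RingHom (σ : ResidueField O →+* _) (Ideal.Quotient.mk _ π)
  commutes' c := by
    simp [Polynomial.algebraMap_apply]

omit [CharZero k] in
theorem evp_C (c : ResidueField O) : evp σ π (Polynomial.C c) = σ c := by
  show Polynomial.eval₂ _ _ _ = _
  simp

omit [CharZero k] in
theorem evp_X : evp σ π Polynomial.X = Ideal.Quotient.mk _ π := by
  show Polynomial.eval₂ _ _ _ = _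
  simp

include hπ in
omit [CharZero k] in
theorem toRes_evp (hσ : ∀ c, toRes k O L (σ c) = c) (P : Polynomial (ResidueField O)) :
    toRes k O L (evp σ π P) = P.coeff 0 := by
  have h : ∀ P : Polynomial (ResidueField O), toRes k O L (evp σ π P) = P.eval 0 := by
    intro P
    induction P using Polynomial.induction_on' with
    | add p q hp hq => rw [map_add, map_add, hp, hq, Polynomial.eval_add]
    | monomial n c =>
      rw [← Polynomial.C_mul_X_pow_eq_monomial, map_mul, map_mul, map_pow, map_pow, evp_C, evp_X,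
        hσ, toRes_mk]
      have : residue O π = 0 :=
        (residue_eq_zero_iff π).2 ((mem_maximalIdeal π).2 hπ.not_isUnit)
      rw [this]
      simp
  rw [h, Polynomial.coeff_zero_eq_eval_zero]

include hπ in
omit [CharZero k] in
theorem evp_surj (hσ : ∀ c, toRes k O L (σ c) = c) (b : O) :
    ∃ P : Polynomial (ResidueField O), evp σ π P = Ideal.Quotient.mk _ b := by
  have h : ∀ j : ℕ, ∃ (P : Polynomial (ResidueField O)) (b' : O),
      Ideal.Quotient.mk _ b = evp σ π P + Ideal.Quotient.mk _ (π ^ j * b') := by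
    intro j
    induction j with
    | zero => exact ⟨0, b, by simp⟩
    | succ j ih =>
      obtain ⟨P, b', hb⟩ := ih
      obtain ⟨a, ha⟩ := Ideal.Quotient.mk_surjective (σ (residue O b'))
      have h1 : residue O a = residue O b' := by
        rw [← toRes_mk (k := k) L a, ha, hσ]
      have h2 : b' - a ∈ maximalIdeal O := by
        rw [← residue_eq_zero_iff, map_sub, h1, sub_self]
      rw [hπ.maximalIdeal_eq, Ideal.mem_span_singleton] at h2
      obtain ⟨c, hc⟩ := h2
      refine ⟨P + Polynomial.C (residue O b') * Polynomial.X ^ j, c, ?_⟩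
      have h3 : evp σ π (Polynomial.C (residue O b') * Polynomial.X ^ j) =
          Ideal.Quotient.mk _ (a * π ^ j) := by
        rw [map_mul, map_pow, evp_C, evp_X, ← ha, ← map_pow, ← map_mul]
      rw [hb, map_add, h3, add_assoc, ← map_add]
      congr 2
      rw [eq_add_of_sub_eq hc]
      ring
  obtain ⟨P, b', hb⟩ := h (L + 1)
  refine ⟨P, ?_⟩
  rw [hb]
  have : Ideal.Quotient.mk ((maximalIdeal O) ^ (L + 1)) (π ^ (L + 1) * b') = 0 := by
    refine Ideal.Quotient.eq_zero_iff_mem.2 (Ideal.mul_mem_right _ _ (Ideal.pow_mem_pow ?_ _))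
    exact (mem_maximalIdeal π).2 hπ.not_isUnit
  rw [this, add_zero]

include hπ in
omit [CharZero k] in
/-- Orders are the orders of the polynomials. -/
theorem mem_pow_iff (hσ : ∀ c, toRes k O L (σ c) = c) (P : Polynomial (ResidueField O)) (b : O)
    (hb : evp σ π P = Ideal.Quotient.mk _ b) (j : ℕ) (hj : j ≤ L + 1) :
    b ∈ (maximalIdeal O) ^ j ↔ Polynomial.X ^ j ∣ P := by
  have hπm : π ∈ maximalIdeal O := (mem_maximalIdeal π).2 hπ.not_isUnit
  constructor
  · intro h
    by_contra hn
    have hP : P ≠ 0 := by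
      rintro rfl
      exact hn (dvd_zero _)
    obtain ⟨i, P', hP', hi⟩ : ∃ (i : ℕ) (P' : Polynomial (ResidueField O)),
        P'.coeff 0 ≠ 0 ∧ P = Polynomial.X ^ i * P' := by
      have h1 := Polynomial.exists_eq_pow_rootMultiplicity_mul_and_not_dvd P hP 0
      obtain ⟨q, hq1, hq2⟩ := h1
      refine ⟨Polynomial.rootMultiplicity 0 P, q, ?_, ?_⟩
      · intro h0
        apply hq2
        rw [Polynomial.C_0, sub_zero]
        exact Polynomial.X_dvd_iff.2 h0
      · rw [Polynomial.C_0, sub_zero] at hq1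
        exact hq1
    have hij : i < j := by
      by_contra hij
      exact hn (hi ▸ Dvd.dvd.mul_right (pow_dvd_pow _ (not_lt.1 hij)) _)
    obtain ⟨b', hb'⟩ := Ideal.Quotient.mk_surjective (evp σ π P')
    have h1 : residue O b' = P'.coeff 0 := by
      rw [← toRes_mk (k := k) L b', hb', toRes_evp σ π hπ hσ]
    have h2 : b' ∉ maximalIdeal O := by
      intro h3
      rw [(residue_eq_zero_iff b').2 h3] at h1
      exact hP' h1.symm
    have h3 : Ideal.Quotient.mk ((maximalIdeal O) ^ (L + 1)) (b - π ^ i * b') = 0 := by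
      rw [map_sub, ← hb, hi, map_mul, map_pow, evp_X, map_mul, map_pow, hb', sub_self]
    have h4 : b - π ^ i * b' ∈ (maximalIdeal O) ^ (i + 1) :=
      Ideal.pow_le_pow_right (by omega) (Ideal.Quotient.eq_zero_iff_mem.1 h3)
    have h5 : π ^ i * b' ∈ (maximalIdeal O) ^ (i + 1) := by
      have := Ideal.sub_mem _ (Ideal.pow_le_pow_right (by omega : i + 1 ≤ j) h) h4
      rwa [sub_sub_cancel] at this
    rw [hπ.maximalIdeal_eq, Ideal.span_singleton_pow, Ideal.mem_span_singleton] at h5
    obtain ⟨c, hc⟩ := h5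
    have h6 : b' = π * c := by
      have h7 : π ^ i ≠ 0 := pow_ne_zero _ hπ.ne_zero
      apply mul_left_cancel₀ h7
      rw [hc]
      ring
    exact h2 (h6 ▸ Ideal.mul_mem_right _ _ hπm)
  · rintro ⟨P', rfl⟩
    obtain ⟨b', hb'⟩ := Ideal.Quotient.mk_surjective (evp σ π P')
    have h3 : Ideal.Quotient.mk ((maximalIdeal O) ^ (L + 1)) (b - π ^ j * b') = 0 := by
      rw [map_sub, ← hb, map_mul, map_pow, evp_X, map_mul, map_pow, hb', sub_self]
    have h4 : b - π ^ j * b' ∈ (maximalIdeal O) ^ j :=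
      Ideal.pow_le_pow_right hj (Ideal.Quotient.eq_zero_iff_mem.1 h3)
    have h5 : π ^ j * b' ∈ (maximalIdeal O) ^ j :=
      Ideal.mul_mem_right _ _ (Ideal.pow_mem_pow hπm _)
    have := Ideal.add_mem _ h4 h5
    rwa [sub_add_cancel] at this

end TruncK

/-- Proof. Exactly as in `sp/S.lean` (theorem at the end of the file), with `ℂ` replaced by `k`: `O` is a discrete valuation ring with uniformizer `π`
(`hπ`, `hπ'`), `κ` is the residue field, formally smooth over `k` (characteristic zero), so there is a section `σ : κ → O / π^(N+1)` over `k`;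
`κ[X] → O / π^(N+1)`, `X ↦ π`, is surjective with kernel `(X^(N+1))`; `θ x` is a preimage of the class of `x`. -/
theorem exists_trunc_k {k L : Type} [Field k] [Field L] [Algebra k L] [CharZero k]
    (O : ValuationSubring L) (hO : IsDiscreteValuationRing O)
    (hk : ∀ a : k, algebraMap k L a ∈ O) (π : L) (hπ : π⁻¹ ∉ O)
    (hπ' : ∀ b : L, b⁻¹ ∉ O → b / π ∈ O) (N : ℕ) :
    ∃ (κ : Type) (_ : Field κ) (_ : Algebra k κ) (θ : L → Polynomial κ),
      IsTruncK (k := k) O π N θ := by
  classical
  have hπO : π ∈ O := (O.mem_or_inv_mem π).resolve_right hπ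
  have hπ0 : π ≠ 0 := by
    rintro rfl
    apply hπ
    rw [inv_zero]
    exact O.zero_mem
  let _ : Algebra k O := RingHom.toAlgebra ((algebraMap k L).codRestrict O.toSubring hk)
  have halg : ∀ c : k, ((algebraMap k O c : O) : L) = algebraMap k L c := fun c => rfl
  let ϖ : O := ⟨π, hπO⟩
  have hϖm : ϖ ∈ IsLocalRing.maximalIdeal O := by
    rw [IsLocalRing.mem_maximalIdeal, mem_nonunits_iff]
    intro h
    obtain ⟨c, hc⟩ := h.exists_right_inv
    apply hπ
    have h2 : π * (c : L) = 1 := congrArg Subtype.val hc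
    rw [← eq_inv_of_mul_eq_one_right h2]
    exact c.2
  have hspan : IsLocalRing.maximalIdeal O = Ideal.span {ϖ} := by
    apply le_antisymm
    · intro b hb
      rw [Ideal.mem_span_singleton]
      by_cases hb0 : (b : L) = 0
      · have : b = 0 := Subtype.ext hb0
        rw [this]
        exact dvd_zero _
      · have h1 : ((b : L))⁻¹ ∉ O := by
          intro h2
          rw [IsLocalRing.mem_maximalIdeal, mem_nonunits_iff] at hb
          exact hb (IsUnit.of_mul_eq_one ⟨_, h2⟩ (Subtype.ext (mul_inv_cancel₀ hb0)))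
        exact ⟨⟨_, hπ' _ h1⟩, Subtype.ext (mul_div_cancel₀ (b : L) hπ0).symm⟩
    · rw [Ideal.span_singleton_le_iff_mem]
      exact hϖm
  have hϖ : Irreducible ϖ := (IsDiscreteValuationRing.irreducible_iff_uniformizer ϖ).2 hspan
  have hmem : ∀ (x : O) (s : ℕ), x ∈ (IsLocalRing.maximalIdeal O) ^ s ↔ (x : L) / π ^ s ∈ O := by
    intro x s
    rw [hspan, Ideal.span_singleton_pow, Ideal.mem_span_singleton]
    constructor
    · rintro ⟨c, hc⟩
      have h1 : (x : L) = π ^ s * (c : L) := by
        rw [hc]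
        rfl
      rw [h1, mul_div_cancel_left₀ _ (pow_ne_zero _ hπ0)]
      exact c.2
    · intro h
      exact ⟨⟨_, h⟩, Subtype.ext (mul_div_cancel₀ (x : L) (pow_ne_zero _ hπ0)).symm⟩
  obtain ⟨σ, hσ⟩ := TruncK.exists_sec (k := k) (O := O) N
  choose P hP using fun b : O => TruncK.evp_surj σ ϖ hϖ hσ b
  have hzero : ∀ Q : Polynomial (IsLocalRing.ResidueField O), TruncK.evp σ ϖ Q = 0 →
      Polynomial.X ^ (N + 1) ∣ Q := by
    intro Q hQ
    rw [← TruncK.mem_pow_iff σ ϖ hϖ hσ Q 0 (by rw [hQ, map_zero]) (N + 1) le_rfl]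
    exact Ideal.zero_mem _
  refine ⟨IsLocalRing.ResidueField O, inferInstance, inferInstance,
    fun x => if hx : x ∈ O then P ⟨x, hx⟩ else 0, ?_, ?_, ?_, ?_, ?_⟩
  · intro x hx y hy
    apply hzero
    rw [dif_pos hx, dif_pos hy, dif_pos (O.add_mem _ _ hx hy), map_sub, map_add, hP, hP, hP,
      ← map_add, ← map_sub]
    have : (⟨x + y, O.add_mem _ _ hx hy⟩ : O) - (⟨x, hx⟩ + ⟨y, hy⟩) = 0 := by
      apply Subtype.ext
      simp
    rw [this, map_zero]
  · intro x hx y hy
    apply hzero
    rw [dif_pos hx, dif_pos hy, dif_pos (O.mul_mem _ _ hx hy), map_sub, map_mul, hP, hP, hP,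
      ← map_mul, ← map_sub]
    have : (⟨x * y, O.mul_mem _ _ hx hy⟩ : O) - (⟨x, hx⟩ * ⟨y, hy⟩) = 0 := by
      apply Subtype.ext
      simp
    rw [this, map_zero]
  · intro c
    apply hzero
    rw [dif_pos (hk c), map_sub, hP, TruncK.evp_C, AlgHom.commutes, sub_eq_zero]
    rfl
  · apply hzero
    rw [dif_pos hπO, map_sub, hP, TruncK.evp_X, sub_self]
  · intro x hx s hs
    rw [dif_pos hx, ← TruncK.mem_pow_iff σ ϖ hϖ hσ _ _ (hP ⟨x, hx⟩) s hs, hmem]

end Pool.Agent.AbPencil
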