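import Pool.Agent.Lib_MP_1209e6_tv.M3

/-! PIECE G6: roots of polynomials with holomorphic coefficients, embeddings of finite extensions. -/

set_option autoImplicit false

namespace Pool.Agent.AbPencil

open Tw

private theorem g6_pos_sub {a b : Mer} (ha : 0 < mo a) (hb : 0 < mo b) : 0 < mo (a - b) := by
  rw [sub_eq_add_neg]
  refine lt_of_lt_of_le ?_ (mo_add a (-b))
  rw [mo_neg]
  exact lt_min ha hb

private theorem g6_pos_add {a b : Mer} (ha : 0 < mo a) (hb : 0 < mo b) : 0 < mo (a + b) :=
  lt_of_lt_of_le (lt_min ha hb) (mo_add a b)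

private theorem g6_pos_mul {a b : Mer} (ha : Hol a) (hb : 0 < mo b) : 0 < mo (a * b) := by
  rw [mo_mul]
  exact lt_of_lt_of_le hb (le_add_of_nonneg_left ha)

private theorem g6_uniq {a : Mer} {c c' : ℂ} (h : 0 < mo (a - algebraMap ℂ Mer c))
    (h' : 0 < mo (a - algebraMap ℂ Mer c')) : c = c' := by
  by_contra hne
  have h1 := g6_pos_sub h' h
  have h2 : a - algebraMap ℂ Mer c' - (a - algebraMap ℂ Mer c) = algebraMap ℂ Mer (c - c') := by
    rw [map_sub]
    ring
  rw [h2, mo_const (sub_ne_zero.2 hne)] at h1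
  exact lt_irrefl _ h1

/-- the residue map of the valuation ring of the holomorphic germs -/
private theorem g6_res (O : ValuationSubring Mer) (hO : ∀ a, a ∈ O ↔ Hol a) :
    ∃ v : O →+* ℂ, ∀ a : O, 0 < mo ((a : Mer) - algebraMap ℂ Mer (v a)) := by
  have h : ∀ a : O, ∃ c : ℂ, 0 < mo ((a : Mer) - algebraMap ℂ Mer c) :=
    fun a => hol_value ((hO a).1 a.2)
  choose v hv using h
  refine ⟨{ toFun := v, map_one' := ?_, map_mul' := ?_, map_zero' := ?_, map_add' := ?_ }, hv⟩
  · refine g6_uniq (hv 1) ?_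
    rw [map_one, OneMemClass.coe_one, sub_self, mo_eq_top.2 rfl]
    exact WithTop.coe_lt_top 0
  · intro a b
    refine g6_uniq (hv (a * b)) ?_
    have e : ((a * b : O) : Mer) - algebraMap ℂ Mer (v a * v b) =
        (a : Mer) * ((b : Mer) - algebraMap ℂ Mer (v b)) +
          algebraMap ℂ Mer (v b) * ((a : Mer) - algebraMap ℂ Mer (v a)) := by
      rw [map_mul, MulMemClass.coe_mul]
      ring
    rw [e]
    exact g6_pos_add (g6_pos_mul ((hO a).1 a.2) (hv b)) (g6_pos_mul (hol_const _) (hv a))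
  · refine g6_uniq (hv 0) ?_
    rw [map_zero, ZeroMemClass.coe_zero, sub_self, mo_eq_top.2 rfl]
    exact WithTop.coe_lt_top 0
  · intro a b
    refine g6_uniq (hv (a + b)) ?_
    have e : ((a + b : O) : Mer) - algebraMap ℂ Mer (v a + v b) =
        ((a : Mer) - algebraMap ℂ Mer (v a)) + ((b : Mer) - algebraMap ℂ Mer (v b)) := by
      rw [map_add, AddMemClass.coe_add]
      ring
    rw [e]
    exact g6_pos_add (hv a) (hv b)

private theorem g6_v_const (O : ValuationSubring Mer) (v : O →+* ℂ)
    (hv : ∀ a : O, 0 < mo ((a : Mer) - algebraMap ℂ Mer (v a))) (c : ℂ)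
    (hc : algebraMap ℂ Mer c ∈ O) : v ⟨algebraMap ℂ Mer c, hc⟩ = c := by
  refine g6_uniq (hv ⟨algebraMap ℂ Mer c, hc⟩) ?_
  change 0 < mo (algebraMap ℂ Mer c - algebraMap ℂ Mer c)
  rw [sub_self, mo_eq_top.2 rfl]
  exact WithTop.coe_lt_top 0

private theorem g6_pos_iff (O : ValuationSubring Mer) (v : O →+* ℂ)
    (hv : ∀ a : O, 0 < mo ((a : Mer) - algebraMap ℂ Mer (v a))) (a : O) :
    v a = 0 ↔ 0 < mo (a : Mer) := by
  constructor
  · intro h
    have h1 := hv a
    rwa [h, map_zero, sub_zero] at h1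
  · intro h
    refine (g6_uniq (c := v a) (c' := 0) (hv a) ?_)
    rwa [map_zero, sub_zero]

/-- Newton's lemma for a polynomial over the valuation ring -/
private theorem g6_core (O : ValuationSubring Mer) (hO : ∀ a, a ∈ O ↔ Hol a) (v : O →+* ℂ)
    (hv : ∀ a : O, 0 < mo ((a : Mer) - algebraMap ℂ Mer (v a))) (Q : Polynomial O) (θ₀ : ℂ)
    (h0 : (Q.map v).eval θ₀ = 0) (h1 : (Polynomial.derivative (Q.map v)).eval θ₀ ≠ 0) :
    ∃ e : Mer, Hol e ∧ (Q.map O.subtype).eval e = 0 ∧
      (Polynomial.derivative (Q.map O.subtype)).eval e ≠ 0 := by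
  have hc : algebraMap ℂ Mer θ₀ ∈ O := (hO _).2 (hol_const θ₀)
  set t : O := ⟨algebraMap ℂ Mer θ₀, hc⟩ with ht
  have hvt : v t = θ₀ := g6_v_const O v hv θ₀ hc
  have e0 : (Q.map O.subtype).eval (algebraMap ℂ Mer θ₀) = ((Q.eval t : O) : Mer) := by
    rw [Polynomial.eval_map]
    exact (Polynomial.hom_eval₂ Q (RingHom.id O) O.subtype t).symm
  have e1 : (Polynomial.derivative (Q.map O.subtype)).eval (algebraMap ℂ Mer θ₀) =
      (((Polynomial.derivative Q).eval t : O) : Mer) := by
    rw [Polynomial.derivative_map, Polynomial.eval_map]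
    exact (Polynomial.hom_eval₂ (Polynomial.derivative Q) (RingHom.id O) O.subtype t).symm
  have v0 : v (Q.eval t) = 0 := by
    rw [← h0, Polynomial.eval_map, ← hvt]
    exact Polynomial.hom_eval₂ Q (RingHom.id O) v t
  have v1 : v ((Polynomial.derivative Q).eval t) ≠ 0 := by
    intro h
    apply h1
    rw [Polynomial.derivative_map, Polynomial.eval_map, ← h, ← hvt]
    exact (Polynomial.hom_eval₂ (Polynomial.derivative Q) (RingHom.id O) v t).symm
  have p0 : 0 < mo ((Q.map O.subtype).eval (algebraMap ℂ Mer θ₀)) := by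
    rw [e0]
    exact (g6_pos_iff O v hv _).1 v0
  have p1 : mo ((Polynomial.derivative (Q.map O.subtype)).eval (algebraMap ℂ Mer θ₀)) = 0 := by
    rw [e1]
    refine le_antisymm (not_lt.1 fun h => v1 ((g6_pos_iff O v hv _).2 h)) ?_
    exact (hO _).1 (Subtype.property _)
  have p2 : (Polynomial.derivative (Q.map O.subtype)).eval (algebraMap ℂ Mer θ₀) ≠ 0 := by
    intro h
    rw [h, mo_eq_top.2 rfl] at p1
    exact WithTop.top_ne_zero p1
  have hQ : ∀ i, Hol ((Q.map O.subtype).coeff i) := by
    intro i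
    rw [Polynomial.coeff_map]
    exact (hO _).1 (Subtype.property _)
  obtain ⟨e, he, r0, r1, -⟩ := mer_newton (Q.map O.subtype) hQ (algebraMap ℂ Mer θ₀)
    (hol_const θ₀) p2 (by
      have hmul : (Q.map O.subtype).eval (algebraMap ℂ Mer θ₀) =
          ((Q.map O.subtype).eval (algebraMap ℂ Mer θ₀) /
            (Polynomial.derivative (Q.map O.subtype)).eval (algebraMap ℂ Mer θ₀) ^ 2) *
            ((Polynomial.derivative (Q.map O.subtype)).eval (algebraMap ℂ Mer θ₀) *
              (Polynomial.derivative (Q.map O.subtype)).eval (algebraMap ℂ Mer θ₀)) := by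
        field_simp
      have h2 := congrArg mo hmul
      rw [mo_mul, mo_mul _ _, p1, add_zero, add_zero] at h2
      rw [← h2]
      exact p0)
  exact ⟨e, he, r0, r1⟩

/-- a polynomial with holomorphic coefficients comes from the valuation ring -/
private theorem g6_lift (O : ValuationSubring Mer) (hO : ∀ a, a ∈ O ↔ Hol a)
    (P : Polynomial Mer) (hP : ∀ i, Hol (P.coeff i)) :
    ∃ Q : Polynomial O, Q.map O.subtype = P := by
  have h : P ∈ Polynomial.lifts O.subtype := by
    rw [Polynomial.lifts_iff_coeff_lifts]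
    intro i
    exact ⟨⟨P.coeff i, (hO _).2 (hP i)⟩, rfl⟩
  exact (Polynomial.mem_lifts _).1 h

private theorem g6_inj (O : ValuationSubring Mer) : Function.Injective O.subtype :=
  Subtype.coe_injective

/-- Proof. `A` consists of the inverse of the leading coefficient, the coefficients of `P`, and of polynomials `u`, `w` with `u P + w P' = 1`. The
polynomial `φ P` reduces modulo the maximal ideal (`hol_value`) to a polynomial over `ℂ` of degree `≥ 1`; let `θ₀` be a root.
`u P + w P' = 1` shows that `P'(θ₀)` is not in the maximal ideal. `mer_newton` for `e₀ = θ₀`. -/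
theorem root_of_hol {E : Type} [Field E] (P : Polynomial E) (hP : 1 ≤ P.natDegree)
    (hc : IsCoprime P (Polynomial.derivative P)) :
    ∃ A : Finset E, ∀ φ : E →+* Mer, (∀ a ∈ A, Hol (φ a)) → ∃ e : Mer, Hol e ∧
      P.eval₂ φ e = 0 ∧ (Polynomial.derivative P).eval₂ φ e ≠ 0 := by
  classical
  obtain ⟨u, w, huw⟩ := hc
  have hzero : Hol (0 : Mer) := by
    change 0 ≤ mo (0 : Mer)
    rw [mo_eq_top.2 rfl]
    exact le_top
  refine ⟨insert (P.leadingCoeff)⁻¹ (P.coeffs ∪ u.coeffs ∪ w.coeffs), fun φ hφ => ?_⟩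
  have hcoef : ∀ p : Polynomial E, p.coeffs ⊆ P.coeffs ∪ u.coeffs ∪ w.coeffs →
      ∀ i, Hol ((p.map φ).coeff i) := by
    intro p hp i
    rw [Polynomial.coeff_map]
    by_cases h : p.coeff i = 0
    · rw [h, map_zero]
      exact hzero
    · exact hφ _ (Finset.mem_insert_of_mem (hp (Polynomial.coeff_mem_coeffs h)))
  obtain ⟨O, hO⟩ := exists_merO
  obtain ⟨v, hv⟩ := g6_res O hO
  obtain ⟨P', hP'⟩ := g6_lift O hO (P.map φ) (hcoef P (by
    intro x hx
    exact Finset.mem_union_left _ (Finset.mem_union_left _ hx)))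
  obtain ⟨u', hu'⟩ := g6_lift O hO (u.map φ) (hcoef u (by
    intro x hx
    exact Finset.mem_union_left _ (Finset.mem_union_right _ hx)))
  obtain ⟨w', hw'⟩ := g6_lift O hO (w.map φ) (hcoef w (by
    intro x hx
    exact Finset.mem_union_right _ hx))
  have hb : u' * P' + w' * Polynomial.derivative P' = 1 := by
    apply Polynomial.map_injective O.subtype (g6_inj O)
    rw [Polynomial.map_add, Polynomial.map_mul, Polynomial.map_mul, Polynomial.map_one,
      ← Polynomial.derivative_map, hP', hu', hw', Polynomial.derivative_map, ← Polynomial.map_mul,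
      ← Polynomial.map_mul, ← Polynomial.map_add, huw, Polynomial.map_one]
  have hdeg : P'.natDegree = P.natDegree := by
    rw [← Polynomial.natDegree_map_eq_of_injective (g6_inj O) P', hP',
      Polynomial.natDegree_map_eq_of_injective φ.injective P]
  have hP0 : P.leadingCoeff ≠ 0 := by
    intro h
    rw [Polynomial.leadingCoeff_eq_zero] at h
    rw [h, Polynomial.natDegree_zero] at hP
    exact absurd hP (by norm_num)
  have hlead : v P'.leadingCoeff ≠ 0 := by
    have hm : φ (P.leadingCoeff)⁻¹ ∈ O := (hO _).2 (hφ _ (Finset.mem_insert_self _ _))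
    have h1 : P'.leadingCoeff * ⟨φ (P.leadingCoeff)⁻¹, hm⟩ = 1 := by
      apply Subtype.coe_injective
      change (P'.leadingCoeff : Mer) * φ (P.leadingCoeff)⁻¹ = 1
      have h2 : (P'.leadingCoeff : Mer) = φ P.leadingCoeff := by
        have h3 : (P'.map O.subtype).coeff P'.natDegree = (P.map φ).coeff P'.natDegree := by
          rw [hP']
        rw [Polynomial.coeff_map, Polynomial.coeff_map, hdeg] at h3
        rw [Polynomial.leadingCoeff, Polynomial.leadingCoeff, hdeg]
        exact h3
      rw [h2, ← map_mul, mul_inv_cancel₀ hP0, map_one]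
    intro h
    have h2 := congrArg v h1
    rw [map_mul, h, zero_mul, map_one] at h2
    exact zero_ne_one h2
  have hdeg2 : (P'.map v).natDegree = P.natDegree := by
    rw [Polynomial.natDegree_map_of_leadingCoeff_ne_zero v hlead, hdeg]
  obtain ⟨θ₀, hθ⟩ := IsAlgClosed.exists_root (P'.map v) (by
    intro h
    have h1 := Polynomial.natDegree_eq_of_degree_eq_some (n := 0) h
    omega)
  have hθ1 : (Polynomial.derivative (P'.map v)).eval θ₀ ≠ 0 := by
    intro h
    have h1 := congrArg (fun q : Polynomial O => (q.map v).eval θ₀) hb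
    simp only [Polynomial.map_add, Polynomial.map_mul, Polynomial.map_one, Polynomial.eval_add,
      Polynomial.eval_mul, Polynomial.eval_one] at h1
    rw [← Polynomial.derivative_map, h, mul_zero, add_zero, Polynomial.IsRoot.def.1 hθ,
      mul_zero] at h1
    exact zero_ne_one h1
  obtain ⟨e, he, r0, r1⟩ := g6_core O hO v hv P' θ₀ hθ hθ1
  refine ⟨e, he, ?_, ?_⟩
  · rw [← Polynomial.eval_map, ← hP']
    exact r0
  · rw [← Polynomial.eval_map, ← Polynomial.derivative_map, ← hP']
    exact r1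

/-- Proof. `Q` divides `P`, `P` monic with holomorphic coefficients, so the coefficients of the monic `Q` are holomorphic (the valuation ring is
integrally closed; e.g. `Polynomial.isIntegrallyClosed` factor lemma), and `Q` reduces to a polynomial over `ℂ` of degree `≥ 1`, a root `θ₀` of
which is a simple root of `P` modulo the maximal ideal, so of `Q`. `mer_newton`. -/
theorem root_of_factor (P Q u w : Polynomial Mer) (hP : P.Monic) (hQ : Q.Monic)
    (hQ1 : 1 ≤ Q.natDegree) (hQP : Q ∣ P) (hPc : ∀ i, Hol (P.coeff i)) (hu : ∀ i, Hol (u.coeff i))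
    (hw : ∀ i, Hol (w.coeff i)) (hb : u * P + w * Polynomial.derivative P = 1) :
    ∃ e : Mer, Hol e ∧ Q.eval e = 0 := by
  obtain ⟨O, hO⟩ := exists_merO
  obtain ⟨v, hv⟩ := g6_res O hO
  obtain ⟨P', hP'⟩ := g6_lift O hO P hPc
  obtain ⟨u', hu'⟩ := g6_lift O hO u hu
  obtain ⟨w', hw'⟩ := g6_lift O hO w hw
  have hPm : P'.Monic := by
    apply Polynomial.monic_of_injective (g6_inj O)
    rw [hP']
    exact hP
  have hQ' : ∃ Q' : Polynomial O, Q'.map O.subtype = Q := by
    obtain ⟨g, hg⟩ := IsIntegrallyClosed.eq_map_mul_C_of_dvd Mer hPm (g := Q) (by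
      change Q ∣ P'.map O.subtype
      rw [hP']
      exact hQP)
    refine ⟨g, ?_⟩
    rw [hQ.leadingCoeff, Polynomial.C_1, mul_one] at hg
    exact hg
  obtain ⟨Q', hQ'⟩ := hQ'
  have hQm : Q'.Monic := by
    apply Polynomial.monic_of_injective (g6_inj O)
    rw [hQ']
    exact hQ
  have hdvd : Q' ∣ P' := by
    rw [← Polynomial.map_dvd_map O.subtype (g6_inj O) hQm, hQ', hP']
    exact hQP
  obtain ⟨R', hR'⟩ := hdvd
  have hb' : u' * P' + w' * Polynomial.derivative P' = 1 := by
    apply Polynomial.map_injective O.subtype (g6_inj O)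
    rw [Polynomial.map_add, Polynomial.map_mul, Polynomial.map_mul, Polynomial.map_one,
      ← Polynomial.derivative_map, hP', hu', hw', hb]
  have hdeg : (Q'.map v).natDegree = Q.natDegree := by
    rw [hQm.natDegree_map, ← hQ', hQm.natDegree_map]
  obtain ⟨θ₀, hθ⟩ := IsAlgClosed.exists_root (Q'.map v) (by
    intro h
    have h1 := Polynomial.natDegree_eq_of_degree_eq_some (n := 0) h
    omega)
  have hθ0 : (Q'.map v).eval θ₀ = 0 := hθ
  have hθ1 : (Polynomial.derivative (Q'.map v)).eval θ₀ ≠ 0 := by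
    intro h
    have h1 := congrArg (fun q : Polynomial O => (q.map v).eval θ₀) hb'
    simp only [hR', Polynomial.map_add, Polynomial.map_mul, Polynomial.map_one,
      Polynomial.eval_add, Polynomial.eval_mul, Polynomial.eval_one,
      Polynomial.derivative_mul] at h1
    rw [← Polynomial.derivative_map, h, hθ0] at h1
    simp only [zero_mul, mul_zero, add_zero] at h1
    exact zero_ne_one h1
  obtain ⟨e, he, r0, -⟩ := g6_core O hO v hv Q' θ₀ hθ0 hθ1
  refine ⟨e, he, ?_⟩
  rw [← hQ']
  exact r0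

private theorem g6_total {F K M : Type} [Field F] [Field K] [Algebra F K] [Semiring M]
    (S : IntermediateField F K) (h : ∀ x, x ∈ S) (ψ : S →+* M) :
    ∃ ρ : K →+* M, ∀ x : S, ρ (x : K) = ψ x := by
  let i : K →+* S :=
    { toFun := fun x => ⟨x, h x⟩
      map_one' := rfl
      map_mul' := fun _ _ => rfl
      map_zero' := rfl
      map_add' := fun _ _ => rfl }
  exact ⟨ψ.comp i, fun x => rfl⟩

/-- Proof. Let `ω` be a primitive element of `k₁` over `k`, `n` its minimal polynomial, `u n + w n' = 1`. `A` consists of the coefficients of `n`, `u`,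
`w` and of polynomials `P_c` with `c = P_c(ω)` for `c ∈ C`. Given `ρ`, `η₁`, `e`: `ρ` extends to `ρ₀ : k(η₁) → Mer`, `η₁ ↦ e`. The minimal polynomial `Q` of `ω` over
`k(η₁)` divides `n`, so its image under `ρ₀` divides the image of `n`; `root_of_factor` gives a root, so `ρ₀` extends to `k₁ = k(η₁)(ω)`. -/
theorem emb_split {k k₁ : Type} [Field k] [Field k₁] [Algebra k k₁] [FiniteDimensional k k₁]
    [CharZero k] (C : Finset k₁) :
    ∃ A : Finset k, ∀ ρ : k →+* Mer, (∀ a ∈ A, Hol (ρ a)) → ∀ (η₁ : k₁) (e : Mer),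
      (minpoly k η₁).eval₂ ρ e = 0 → ∃ ρ₁ : k₁ →+* Mer,
        (∀ a : k, ρ₁ (algebraMap k k₁ a) = ρ a) ∧ ρ₁ η₁ = e ∧ ∀ c ∈ C, Hol (ρ₁ c) := by
  classical
  obtain ⟨ω, hω⟩ := Field.exists_primitive_element k k₁
  have hint : ∀ x : k₁, IsIntegral k x := fun x => Algebra.IsIntegral.isIntegral x
  have hsep : (minpoly k ω).Separable := (minpoly.irreducible (hint ω)).separable
  obtain ⟨u, w, huw⟩ := hsep
  have hpol : ∀ c : k₁, ∃ p : Polynomial k, Polynomial.aeval ω p = c := by
    intro c
    have hc : c ∈ IntermediateField.adjoin k {ω} := by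
      rw [hω]
      exact IntermediateField.mem_top
    rw [← IntermediateField.mem_toSubalgebra,
      IntermediateField.adjoin_simple_toSubalgebra_of_isAlgebraic (hint ω).isAlgebraic,
      Algebra.adjoin_singleton_eq_range_aeval] at hc
    exact hc
  choose q hq using hpol
  have hzero : Hol (0 : Mer) := by
    change 0 ≤ mo (0 : Mer)
    rw [mo_eq_top.2 rfl]
    exact le_top
  refine ⟨(minpoly k ω).coeffs ∪ u.coeffs ∪ w.coeffs ∪ C.biUnion fun c => (q c).coeffs,
    fun ρ hρ η₁ e he => ?_⟩
  have hcoef : ∀ p : Polynomial k, p.coeffs ⊆ (minpoly k ω).coeffs ∪ u.coeffs ∪ w.coeffs ∪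
      C.biUnion (fun c => (q c).coeffs) → ∀ i, Hol ((p.map ρ).coeff i) := by
    intro p hp i
    rw [Polynomial.coeff_map]
    by_cases h : p.coeff i = 0
    · rw [h, map_zero]
      exact hzero
    · exact hρ _ (hp (Polynomial.coeff_mem_coeffs h))
  -- first extension
  have hext : ∃ (F : IntermediateField k k₁) (hF : η₁ ∈ F) (ρ₀ : F →+* Mer),
      (∀ a : k, ρ₀ (algebraMap k F a) = ρ a) ∧ ρ₀ ⟨η₁, hF⟩ = e := by
    let _ : Algebra k Mer := ρ.toAlgebra
    have hr : Polynomial.aeval e (minpoly k (IntermediateField.AdjoinSimple.gen k η₁)) = 0 := by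
      rw [IntermediateField.minpoly_gen]
      exact he
    let pb := IntermediateField.adjoin.powerBasis (hint η₁)
    have hg : pb.gen = IntermediateField.AdjoinSimple.gen k η₁ :=
      IntermediateField.adjoin.powerBasis_gen (hint η₁)
    let ψ : IntermediateField.adjoin k {η₁} →ₐ[k] Mer := pb.lift e (by rw [hg]; exact hr)
    have hψ : ψ (IntermediateField.AdjoinSimple.gen k η₁) = e := by
      rw [← hg]
      exact pb.lift_gen e _
    exact ⟨IntermediateField.adjoin k {η₁}, IntermediateField.mem_adjoin_simple_self k η₁,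
      ψ.toRingHom, fun a => ψ.commutes a, hψ⟩
  obtain ⟨F, hF, ρ₀, h0, h1⟩ := hext
  have hintF : IsIntegral F ω := (hint ω).tower_top
  have hdvd : minpoly F ω ∣ (minpoly k ω).map (algebraMap k F) :=
    minpoly.dvd_map_of_isScalarTower k F ω
  have hmm : ((minpoly k ω).map (algebraMap k F)).map ρ₀ = (minpoly k ω).map ρ := by
    rw [Polynomial.map_map]
    congr 1
    exact RingHom.ext h0
  obtain ⟨e', he', hr'⟩ := root_of_factor ((minpoly k ω).map ρ) ((minpoly F ω).map ρ₀) (u.map ρ)
    (w.map ρ) ((minpoly.monic (hint ω)).map ρ) ((minpoly.monic hintF).map ρ₀) (by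
      rw [(minpoly.monic hintF).natDegree_map]
      exact minpoly.natDegree_pos hintF) (by
      rw [← hmm]
      exact Polynomial.map_dvd ρ₀ hdvd)
    (hcoef _ (by
      intro x hx
      simp only [Finset.mem_union]
      exact Or.inl (Or.inl (Or.inl hx))))
    (hcoef _ (by
      intro x hx
      simp only [Finset.mem_union]
      exact Or.inl (Or.inl (Or.inr hx))))
    (hcoef _ (by
      intro x hx
      simp only [Finset.mem_union]
      exact Or.inl (Or.inr hx)))
    (by
      rw [Polynomial.derivative_map, ← Polynomial.map_mul, ← Polynomial.map_mul,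
        ← Polynomial.map_add, huw, Polynomial.map_one])
  -- second extension
  have htop : IntermediateField.adjoin F {ω} = ⊤ := by
    rw [eq_top_iff]
    intro x _
    obtain ⟨p, hp⟩ : ∃ p : Polynomial k, Polynomial.aeval ω p = x := ⟨q x, hq x⟩
    rw [← hp]
    rw [← Polynomial.aeval_map_algebraMap F ω p]
    exact IntermediateField.algebra_adjoin_le_adjoin F {ω}
      (Polynomial.aeval_mem_adjoin_singleton F ω)
  have hext2 : ∃ ρ₁ : k₁ →+* Mer, (∀ a : F, ρ₁ (algebraMap F k₁ a) = ρ₀ a) ∧ ρ₁ ω = e' := by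
    let _ : Algebra F Mer := ρ₀.toAlgebra
    have hr : Polynomial.aeval e' (minpoly F (IntermediateField.AdjoinSimple.gen F ω)) = 0 := by
      rw [IntermediateField.minpoly_gen]
      rw [Polynomial.eval_map] at hr'
      exact hr'
    let pb := IntermediateField.adjoin.powerBasis hintF
    have hg : pb.gen = IntermediateField.AdjoinSimple.gen F ω :=
      IntermediateField.adjoin.powerBasis_gen hintF
    let ψ : IntermediateField.adjoin F {ω} →ₐ[F] Mer := pb.lift e' (by rw [hg]; exact hr)
    have hψ : ψ (IntermediateField.AdjoinSimple.gen F ω) = e' := by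
      rw [← hg]
      exact pb.lift_gen e' _
    have hall : ∀ x : k₁, x ∈ IntermediateField.adjoin F {ω} := by
      intro x
      rw [htop]
      exact IntermediateField.mem_top
    have hψ2 : ∀ a : F, ψ (algebraMap F (IntermediateField.adjoin F {ω}) a) = ρ₀ a :=
      fun a => ψ.commutes a
    obtain ⟨ρ₁, hρ₁⟩ := g6_total (IntermediateField.adjoin F {ω}) hall ψ.toRingHom
    refine ⟨ρ₁, fun a => ?_, ?_⟩
    · exact (hρ₁ (algebraMap F (IntermediateField.adjoin F {ω}) a)).trans (hψ2 a)
    · exact (hρ₁ (IntermediateField.AdjoinSimple.gen F ω)).trans hψ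
  obtain ⟨ρ₁, h2, h3⟩ := hext2
  have h4 : ∀ a : k, ρ₁ (algebraMap k k₁ a) = ρ a := by
    intro a
    rw [← h0 a, ← h2, ← IsScalarTower.algebraMap_apply]
  refine ⟨ρ₁, h4, ?_, fun c hc => ?_⟩
  · rw [← h1, ← h2 ⟨η₁, hF⟩]
    rfl
  · obtain ⟨O, hO⟩ := exists_merO
    have h5 : ρ₁ c = (q c).eval₂ ρ e' := by
      have h6 : ρ₁ (Polynomial.aeval ω (q c)) = (q c).eval₂ ρ e' := by
        rw [Polynomial.aeval_def, Polynomial.hom_eval₂, h3]
        congr 1
        exact RingHom.ext h4
      rw [← h6, hq]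
    rw [h5, ← hO, Polynomial.eval₂_eq_sum_range]
    refine sum_mem fun i _ => mul_mem ?_ (pow_mem ((hO _).2 he') i)
    have h7 := hcoef (q c) (by
      intro x hx
      simp only [Finset.mem_union, Finset.mem_biUnion]
      exact Or.inr ⟨c, hc, hx⟩) i
    rw [Polynomial.coeff_map] at h7
    exact (hO _).2 h7

end Pool.Agent.AbPencil
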