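import Pool.Agent.Lib_MP_1209e6_tv.M1a

/-! PIECE M1: germs of meromorphic functions, orders. -/

set_option autoImplicit false

open Filter Topology

namespace Pool.Agent.AbPencil

open Tw

theorem M1_gm_eq_zero {f : ℂ → ℂ} (hf : MeromorphicAt f 0) :
    gm f hf = 0 ↔ ∀ᶠ z in 𝓝[≠] (0 : ℂ), f z = 0 := by
  rw [gm, mkM_eq_zero, mem_nullI]

theorem M1_gm_add {f g : ℂ → ℂ} (hf : MeromorphicAt f 0) (hg : MeromorphicAt g 0) :
    gm f hf + gm g hg = gm (f + g) (hf.add hg) := by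
  rw [gm, gm, gm, ← map_add]
  rfl

theorem M1_gm_mul {f g : ℂ → ℂ} (hf : MeromorphicAt f 0) (hg : MeromorphicAt g 0) :
    gm f hf * gm g hg = gm (f * g) (hf.mul hg) := by
  rw [gm, gm, gm, ← map_mul]
  rfl

theorem M1_gm_neg {f : ℂ → ℂ} (hf : MeromorphicAt f 0) :
    -gm f hf = gm (-f) hf.neg := by
  rw [gm, gm, ← map_neg]
  rfl

theorem M1_gm_const (c : ℂ) :
    algebraMap ℂ Mer c = gm (fun _ => c) (MeromorphicAt.const c 0) :=
  (mkM.commutes c).symm

theorem mo_eq_top {a : Mer} : mo a = ⊤ ↔ a = 0 := by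
  obtain ⟨f, hf, rfl⟩ := exists_rep a
  rw [mo_gm, meromorphicOrderAt_eq_top_iff, M1_gm_eq_zero]

theorem mo_mul (a b : Mer) : mo (a * b) = mo a + mo b := by
  obtain ⟨f, hf, rfl⟩ := exists_rep a
  obtain ⟨g, hg, rfl⟩ := exists_rep b
  rw [M1_gm_mul, mo_gm, mo_gm, mo_gm, meromorphicOrderAt_mul hf hg]

theorem mo_add (a b : Mer) : min (mo a) (mo b) ≤ mo (a + b) := by
  obtain ⟨f, hf, rfl⟩ := exists_rep a
  obtain ⟨g, hg, rfl⟩ := exists_rep b
  rw [M1_gm_add, mo_gm, mo_gm, mo_gm]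
  exact meromorphicOrderAt_add hf hg

theorem mo_neg (a : Mer) : mo (-a) = mo a := by
  obtain ⟨f, hf, rfl⟩ := exists_rep a
  rw [M1_gm_neg, mo_gm, mo_gm]
  exact meromorphicOrderAt_neg.symm

theorem mo_const {c : ℂ} (hc : c ≠ 0) : mo (algebraMap ℂ Mer c) = 0 := by
  classical
  rw [M1_gm_const, mo_gm, meromorphicOrderAt_const, if_neg hc]

theorem mo_one : mo 1 = 0 := by
  rw [← map_one (algebraMap ℂ Mer)]
  exact mo_const one_ne_zero

theorem exists_int {a : Mer} (ha : a ≠ 0) : ∃ n : ℤ, mo a = n := by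
  have h : mo a ≠ ⊤ := fun h => ha (mo_eq_top.1 h)
  obtain ⟨n, hn⟩ := WithTop.ne_top_iff_exists.1 h
  exact ⟨n, hn.symm⟩

theorem M1_mo_inv {a : Mer} (ha : a ≠ 0) {n : ℤ} (hn : mo a = n) : mo a⁻¹ = ((-n : ℤ) : WithTop ℤ) := by
  obtain ⟨m, hm⟩ := exists_int (inv_ne_zero ha)
  have h := mo_mul a a⁻¹
  rw [mul_inv_cancel₀ ha, mo_one, hn, hm] at h
  rw [hm]
  have h2 : (0 : ℤ) = n + m := by exact_mod_cast h
  have h3 : m = -n := by omega
  rw [h3]

theorem hol_mul {a b : Mer} (ha : Hol a) (hb : Hol b) : Hol (a * b) := by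
  unfold Hol at *
  rw [mo_mul]
  exact add_nonneg ha hb

theorem hol_add {a b : Mer} (ha : Hol a) (hb : Hol b) : Hol (a + b) :=
  (le_min ha hb).trans (mo_add a b)

theorem hol_const (c : ℂ) : Hol (algebraMap ℂ Mer c) := by
  unfold Hol
  rcases eq_or_ne c 0 with rfl | hc
  · rw [map_zero, mo_eq_top.2 rfl]
    exact le_top
  · rw [mo_const hc]

/-- the valuation ring of the holomorphic germs -/
theorem exists_merO : ∃ O : ValuationSubring Mer, ∀ a, a ∈ O ↔ Hol a := by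
  refine ⟨{ carrier := {a | Hol a}
            mul_mem' := fun ha hb => hol_mul ha hb
            one_mem' := ?_
            add_mem' := fun ha hb => hol_add ha hb
            zero_mem' := ?_
            neg_mem' := ?_
            mem_or_inv_mem' := ?_ }, fun a => Iff.rfl⟩
  · change (0 : WithTop ℤ) ≤ mo 1
    rw [mo_one]
  · change (0 : WithTop ℤ) ≤ mo 0
    rw [mo_eq_top.2 rfl]
    exact le_top
  · intro a ha
    change (0 : WithTop ℤ) ≤ mo (-a)
    rw [mo_neg]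
    exact ha
  · intro a
    change Hol a ∨ Hol a⁻¹
    unfold Hol
    rcases eq_or_ne a 0 with rfl | ha
    · left
      rw [mo_eq_top.2 rfl]
      exact le_top
    · obtain ⟨n, hn⟩ := exists_int ha
      rw [M1_mo_inv ha hn, hn]
      rcases le_total 0 n with h | h
      · left
        exact_mod_cast h
      · right
        have h2 : 0 ≤ -n := by omega
        exact_mod_cast h2

/-- the value at `0` of a holomorphic germ -/
theorem hol_value {a : Mer} (ha : Hol a) : ∃ c : ℂ, 0 < mo (a - algebraMap ℂ Mer c) := by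
  obtain ⟨f, hf, rfl⟩ := exists_rep a
  unfold Hol at ha
  rw [mo_gm] at ha
  obtain ⟨c, hc⟩ := tendsto_nhds_of_meromorphicOrderAt_nonneg hf ha
  refine ⟨c, ?_⟩
  have h1 : gm f hf - algebraMap ℂ Mer c =
      gm (fun z => f z - c) (hf.sub (MeromorphicAt.const c 0)) := by
    rw [M1_gm_const, gm, gm, gm, ← map_sub]
    rfl
  have h2 := hc.sub_const c
  rw [sub_self] at h2
  rw [h1, mo_gm]
  exact (tendsto_zero_iff_meromorphicOrderAt_pos (f := fun z => f z - c)
    (hf.sub (MeromorphicAt.const c 0))).1 h2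

theorem hol_gz {f : ℂ → ℂ} {z : ℂ} (hf : AnalyticAt ℂ f z) : Hol (gz f z) := by
  unfold Hol
  rw [mo_gz hf.meromorphicAt]
  exact hf.meromorphicOrderAt_nonneg

theorem hol_gz_inv {f : ℂ → ℂ} {z : ℂ} (hf : AnalyticAt ℂ f z) (h0 : f z ≠ 0) :
    Hol (gz f z)⁻¹ := by
  have h1 : mo (gz f z) = ((0 : ℤ) : WithTop ℤ) := by
    rw [mo_gz hf.meromorphicAt, hf.meromorphicOrderAt_eq, hf.analyticOrderAt_eq_zero.2 h0]
    rfl
  have h2 : gz f z ≠ 0 := by
    intro h
    rw [mo_eq_top.2 h] at h1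
    exact WithTop.top_ne_coe h1
  unfold Hol
  rw [M1_mo_inv h2 h1]
  simp

theorem hol_evt {f : ℂ → ℂ} (hf : ∀ z, MeromorphicAt f z) (z : ℂ) :
    ∀ᶠ w in 𝓝[≠] z, Hol (gz f w) := by
  filter_upwards [(hf z).eventually_analyticAt] with w hw
  exact hol_gz hw

end Pool.Agent.AbPencil
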