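import Pool.Agent.Lib_MP_1209e6_tv.M0

/-! PIECE M1a: germs of meromorphic functions, representatives. -/

set_option autoImplicit false

open Filter Topology

namespace Pool.Agent.AbPencil

open Tw

private theorem M1a_gm_iff {f g : ℂ → ℂ} (hf : MeromorphicAt f 0) (hg : MeromorphicAt g 0) :
    gm f hf = gm g hg ↔ ∀ᶠ z in 𝓝[≠] (0 : ℂ), f z = g z := by
  constructor
  · intro h
    rw [gm, gm, ← sub_eq_zero, ← map_sub, mkM_eq_zero, mem_nullI] at h
    filter_upwards [h] with z hz
    have h1 : f z - g z = 0 := hz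
    exact sub_eq_zero.1 h1
  · exact gm_eq hf hg

private theorem M1a_tend (z : ℂ) : Tendsto (fun w => z + w) (𝓝[≠] (0 : ℂ)) (𝓝[≠] z) := by
  apply tendsto_nhdsWithin_of_tendsto_nhds_of_eventually_within
  · have h1 : Tendsto (fun w : ℂ => z + w) (𝓝 0) (𝓝 (z + 0)) := tendsto_const_nhds.add tendsto_id
    rw [add_zero] at h1
    exact h1.mono_left nhdsWithin_le_nhds
  · filter_upwards [self_mem_nhdsWithin] with w hw
    intro h
    apply hw
    simpa using h

private theorem M1a_tend2 (z : ℂ) : Tendsto (fun w => w - z) (𝓝[≠] z) (𝓝[≠] (0 : ℂ)) := by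
  apply tendsto_nhdsWithin_of_tendsto_nhds_of_eventually_within
  · have h1 : Tendsto (fun w : ℂ => w - z) (𝓝 z) (𝓝 (z - z)) := tendsto_id.sub tendsto_const_nhds
    rw [sub_self] at h1
    exact h1.mono_left nhdsWithin_le_nhds
  · filter_upwards [self_mem_nhdsWithin] with w hw
    intro h
    apply hw
    exact sub_eq_zero.1 h

private theorem M1a_ev {p : ℂ → Prop} {z : ℂ} :
    (∀ᶠ w in 𝓝[≠] (0 : ℂ), p (z + w)) ↔ ∀ᶠ w in 𝓝[≠] z, p w := by
  constructor
  · intro h
    have h1 := (M1a_tend2 z).eventually h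
    filter_upwards [h1] with w hw
    rwa [add_sub_cancel] at hw
  · intro h
    exact (M1a_tend z).eventually h

theorem mo_gm {f : ℂ → ℂ} (hf : MeromorphicAt f 0) : mo (gm f hf) = meromorphicOrderAt f 0 := by
  have h1 := (M1a_gm_iff (rep_mero (gm f hf)) hf).1 (gm_rep (gm f hf))
  exact meromorphicOrderAt_congr h1

theorem mero_shift {f : ℂ → ℂ} {z : ℂ} :
    MeromorphicAt (fun w => f (z + w)) 0 ↔ MeromorphicAt f z := by
  have h1 : (fun w => f (z + w)) = f ∘ (· + z) := by
    funext w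
    rw [add_comm]
    rfl
  rw [h1, meromorphicAt_comp_add_const_iff_meromorphicAt, zero_add]

private theorem M1a_gz {f : ℂ → ℂ} {z : ℂ} (hf : MeromorphicAt f z) :
    gz f z = gm (fun w => f (z + w)) (mero_shift.2 hf) := by
  rw [gz, dif_pos (mero_shift.2 hf)]

theorem mo_gz {f : ℂ → ℂ} {z : ℂ} (hf : MeromorphicAt f z) :
    mo (gz f z) = meromorphicOrderAt f z := by
  rw [M1a_gz hf, mo_gm]
  have h1 : (fun w => f (z + w)) = f ∘ (· + z) := by
    funext w
    rw [add_comm]
    rfl
  rw [h1, meromorphicOrderAt_comp_add_const_eq_meromorphicOrderAt, zero_add]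

theorem gz_eq_iff {f g : ℂ → ℂ} {z : ℂ} (hf : MeromorphicAt f z) (hg : MeromorphicAt g z) :
    gz f z = gz g z ↔ ∀ᶠ w in 𝓝[≠] z, f w = g w := by
  rw [M1a_gz hf, M1a_gz hg, M1a_gm_iff]
  exact M1a_ev (p := fun w => f w = g w)

private theorem M1a_zero (z : ℂ) : gz (fun _ => 0) z = 0 := by
  rw [M1a_gz (MeromorphicAt.const 0 z)]
  exact map_zero mkM

theorem gz_eq_zero {f : ℂ → ℂ} {z : ℂ} (hf : MeromorphicAt f z) :
    gz f z = 0 ↔ ∀ᶠ w in 𝓝[≠] z, f w = 0 := by
  rw [← M1a_zero z, gz_eq_iff hf (MeromorphicAt.const 0 z)]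

theorem gz_surj (a : Mer) (z : ℂ) : ∃ f : ℂ → ℂ, MeromorphicAt f z ∧ gz f z = a := by
  have h0 : MeromorphicAt (fun w => rep a (w - z)) z := by
    have h1 : MeromorphicAt (rep a ∘ (· - z)) z := by
      rw [meromorphicAt_comp_sub_const_iff_meromorphicAt, sub_self]
      exact rep_mero a
    exact h1
  refine ⟨fun w => rep a (w - z), h0, ?_⟩
  have h2 : gm (fun w => rep a (z + w - z)) (mero_shift.2 h0) = gm (rep a) (rep_mero a) := by
    rw [M1a_gm_iff]
    refine Filter.Eventually.of_forall fun w => ?_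
    simp only [add_sub_cancel_left]
  rw [M1a_gz h0, h2, gm_rep a]

theorem gz_zero_eq {f : ℂ → ℂ} (hf : MeromorphicAt f 0) : gz f 0 = gm f hf := by
  rw [M1a_gz hf, M1a_gm_iff]
  refine Filter.Eventually.of_forall fun w => ?_
  simp only [zero_add]

private theorem M1a_aeval {ι : Type} (h : ι → ℂ → ℂ) (z : ℂ) (hh : ∀ i, MeromorphicAt (h i) z)
    (p : MvPolynomial ι ℂ) :
    MeromorphicAt (fun w => MvPolynomial.aeval (fun i => h i w) p) z := by
  induction p using MvPolynomial.induction_on with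
  | C a =>
    simp only [MvPolynomial.algHom_C]
    exact MeromorphicAt.const _ z
  | add p q hp hq =>
    simp only [map_add]
    exact hp.add hq
  | mul_X p i hp =>
    simp only [map_mul, MvPolynomial.aeval_X]
    exact hp.mul (hh i)

theorem aeval_gz {ι : Type} (h : ι → ℂ → ℂ) (z : ℂ) (hh : ∀ i, MeromorphicAt (h i) z)
    (p : MvPolynomial ι ℂ) : MvPolynomial.aeval (fun i => gz (h i) z) p =
      gz (fun w => MvPolynomial.aeval (fun i => h i w) p) z := by
  have h1 : (fun i => gz (h i) z) =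
      fun i => mkM (⟨fun w => h i (z + w), mero_shift.2 (hh i)⟩ : merA) := by
    funext i
    rw [M1a_gz (hh i)]
    rfl
  rw [M1a_gz (M1a_aeval h z hh p), h1, ← MvPolynomial.comp_aeval_apply, gm]
  congr 1
  apply Subtype.ext
  funext w
  exact MvPolynomial.comp_aeval_apply (R := ℂ)
    (f := fun i => (⟨fun w => h i (z + w), mero_shift.2 (hh i)⟩ : merA))
    (((Pi.evalAlgHom ℂ (fun _ : ℂ => ℂ) w).comp merA.val)) p

theorem gz_sub {f g : ℂ → ℂ} {z : ℂ} (hf : MeromorphicAt f z) (hg : MeromorphicAt g z) :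
    gz (fun w => f w - g w) z = gz f z - gz g z := by
  rw [M1a_gz hf, M1a_gz hg, M1a_gz (show MeromorphicAt (fun w => f w - g w) z from hf.sub hg), gm, gm, gm, ← map_sub]
  rfl

theorem gz_mul {f g : ℂ → ℂ} {z : ℂ} (hf : MeromorphicAt f z) (hg : MeromorphicAt g z) :
    gz (fun w => f w * g w) z = gz f z * gz g z := by
  rw [M1a_gz hf, M1a_gz hg, M1a_gz (show MeromorphicAt (fun w => f w * g w) z from hf.mul hg), gm, gm, gm, ← map_mul]
  rfl

theorem gz_div {f g : ℂ → ℂ} {z : ℂ} (hf : MeromorphicAt f z) (hg : MeromorphicAt g z) :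
    gz (fun w => f w / g w) z = gz f z / gz g z := by
  have hd : MeromorphicAt (fun w => f w / g w) z := hf.div hg
  by_cases h0 : gz g z = 0
  · rw [h0, div_zero, gz_eq_zero hd]
    filter_upwards [(gz_eq_zero hg).1 h0] with w hw
    rw [hw, div_zero]
  · rw [eq_div_iff h0, ← gz_mul hd hg,
      gz_eq_iff (show MeromorphicAt (fun w => f w / g w * g w) z from hd.mul hg) hf]
    have h1 : ∀ᶠ w in 𝓝[≠] z, g w ≠ 0 := by
      rcases hg.eventually_eq_zero_or_eventually_ne_zero with h | h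
      · exact absurd ((gz_eq_zero hg).2 h) h0
      · exact h
    filter_upwards [h1] with w hw
    exact div_mul_cancel₀ _ hw

/-- identity theorem: the germ at one point is zero if and only if the germ at another point is -/
theorem gz_zero_iff {f : ℂ → ℂ} (hf : ∀ z, MeromorphicAt f z) (z z' : ℂ) :
    gz f z = 0 ↔ gz f z' = 0 := by
  rw [gz_eq_zero (hf z), gz_eq_zero (hf z'), ← meromorphicOrderAt_eq_top_iff,
    ← meromorphicOrderAt_eq_top_iff]
  have h1 : MeromorphicOn f Set.univ := fun x _ => hf x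
  constructor
  · intro h
    by_contra h2
    exact h1.meromorphicOrderAt_ne_top_of_isPreconnected isPreconnected_univ (Set.mem_univ z')
      (Set.mem_univ z) h2 h
  · intro h
    by_contra h2
    exact h1.meromorphicOrderAt_ne_top_of_isPreconnected isPreconnected_univ (Set.mem_univ z)
      (Set.mem_univ z') h2 h

end Pool.Agent.AbPencil
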