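import Pool.Agent.Lib_MP_1209e6_tv.M1
import Pool.Agent.Lib_MP_1209e6_tw.A2

/-! PIECE M2: algebraically independent germs close to given ones. -/

set_option autoImplicit false

open Filter Topology

namespace Pool.Agent.AbPencil

open Tw

/-- one step: a germ of order `≥ N` which is transcendental over given rings -/
private theorem M2_step {n r : ℕ} (x : Fin n → Mer) (y : Fin r → Mer) (N : ℤ) :
    ∃ σ : Mer, (N : WithTop ℤ) ≤ mo σ ∧
      Transcendental (Algebra.adjoin (Algebra.adjoin ℂ (Set.range x)) (Set.range y)) σ := by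
  have hf : AnalyticAt ℂ (fun z : ℂ => z ^ N.toNat) 0 := analyticAt_id.pow _
  obtain ⟨c, -, hc⟩ := tw_step x y ∅ Set.countable_empty (fun z : ℂ => z ^ N.toNat) id
    hf.meromorphicAt (by
      filter_upwards [self_mem_nhdsWithin] with z hz
      exact pow_ne_zero _ hz) differentiable_id ⟨0, 1, zero_ne_one⟩
  have hg : AnalyticAt ℂ (fun z : ℂ => Complex.exp (c * id z)) 0 :=
    ((differentiable_id.const_mul c).cexp).analyticAt 0
  have hm : MeromorphicAt (fun z : ℂ => z ^ N.toNat * Complex.exp (c * id z)) 0 :=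
    hf.meromorphicAt.mul hg.meromorphicAt
  refine ⟨_, ?_, hc hm⟩
  have h1 : gm (fun z : ℂ => z ^ N.toNat * Complex.exp (c * id z)) hm =
      gm _ hf.meromorphicAt * gm _ hg.meromorphicAt := by
    rw [M1_gm_mul]
    rfl
  rw [h1, mo_mul, mo_gm, mo_gm]
  have h2 : (0 : WithTop ℤ) ≤ meromorphicOrderAt (fun z : ℂ => Complex.exp (c * id z)) 0 :=
    hg.meromorphicOrderAt_nonneg
  have h3 : meromorphicOrderAt (fun z : ℂ => z ^ N.toNat) 0 = ((N.toNat : ℤ) : WithTop ℤ) := by
    rw [meromorphicOrderAt_eq_int_iff hf.meromorphicAt]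
    refine ⟨fun _ => 1, analyticAt_const, one_ne_zero, Filter.Eventually.of_forall fun z => ?_⟩
    rw [sub_zero, zpow_natCast, smul_eq_mul, mul_one]
  rw [h3]
  have h4 : (N : WithTop ℤ) ≤ ((N.toNat : ℤ) : WithTop ℤ) := by
    exact_mod_cast Int.self_le_toNat N
  calc (N : WithTop ℤ) = N + 0 := (add_zero _).symm
    _ ≤ _ := add_le_add h4 h2

/-- Proof. Induction on `g`: choose `S j = S₀ j + σ j`, where `σ j` is the germ of `w^k exp(c w)` (`k ≥ N`, `k ≥ 0`), such that `σ j` is
transcendental over `ℂ[Y, S₀, S_0, …, S_(j-1)]` (`tw_step` with `x` the tuple of the `Y`, `S₀` and `y` the tuple of the previous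
`S`, `f = w^k`, `E = id`, `S = ∅`). Then `S j` is transcendental over this ring too, a fortiori over `ℂ[Y, S_0, …, S_(j-1)]`. -/
theorem mer_indep {n g : ℕ} (Y : Fin n → Mer) (S₀ : Fin g → Mer) (N : ℤ) :
    ∃ S : Fin g → Mer, (∀ j, (N : WithTop ℤ) ≤ mo (S j - S₀ j)) ∧
      AlgebraicIndependent (Algebra.adjoin ℂ (Set.range Y)) S := by
  induction g with
  | zero =>
    refine ⟨S₀, fun j => j.elim0, ?_⟩
    rw [algebraicIndependent_empty_type_iff]
    exact Subtype.val_injective
  | succ g ih =>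
    obtain ⟨S', hS1, hS2⟩ := ih fun j => S₀ j.succ
    obtain ⟨σ, hσ1, hσ2⟩ := M2_step (Fin.cons (S₀ 0) Y : Fin (n + 1) → Mer) S' N
    have ht : Transcendental (Algebra.adjoin (Algebra.adjoin ℂ (Set.range Y)) (Set.range S'))
        (S₀ 0 + σ) := by
      intro halg
      apply hσ2
      have h1 : S₀ 0 + σ ∈
          (AlgebraicIndependent.matroid ℂ Mer).closure (Set.range Y ∪ Set.range S') := by
        rw [AlgebraicIndependent.matroid_closure_eq, SetLike.mem_coe,
          Subalgebra.mem_algebraicClosure, Algebra.adjoin_union_eq_adjoin_adjoin]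
        exact halg
      have h2 : Set.range Y ⊆ Set.range (Fin.cons (S₀ 0) Y : Fin (n + 1) → Mer) := by
        rintro _ ⟨j, rfl⟩
        exact ⟨j.succ, by simp⟩
      have h3 : S₀ 0 + σ ∈ (AlgebraicIndependent.matroid ℂ Mer).closure
          (Set.range (Fin.cons (S₀ 0) Y : Fin (n + 1) → Mer) ∪ Set.range S') :=
        (AlgebraicIndependent.matroid ℂ Mer).closure_subset_closure
          (Set.union_subset_union_left _ h2) h1
      have h4 : S₀ 0 ∈ (AlgebraicIndependent.matroid ℂ Mer).closure
          (Set.range (Fin.cons (S₀ 0) Y : Fin (n + 1) → Mer) ∪ Set.range S') :=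
        (AlgebraicIndependent.matroid ℂ Mer).subset_closure _ (Set.subset_univ _)
          (Or.inl ⟨0, by simp⟩)
      have h5 : IsAlgebraic (Algebra.adjoin ℂ
          (Set.range (Fin.cons (S₀ 0) Y : Fin (n + 1) → Mer) ∪ Set.range S')) σ := by
        rw [AlgebraicIndependent.matroid_closure_eq, SetLike.mem_coe] at h3 h4
        rw [← Subalgebra.mem_algebraicClosure]
        have h6 := Subalgebra.sub_mem _ h3 h4
        rwa [add_sub_cancel_left] at h6
      rw [Algebra.adjoin_union_eq_adjoin_adjoin] at h5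
      exact h5
    refine ⟨Fin.cons (S₀ 0 + σ) S', ?_, ?_⟩
    · intro j
      refine Fin.cases ?_ (fun j => ?_) j
      · simpa using hσ1
      · simpa using hS1 j
    · have h2 := (hS2.option_iff_transcendental (S₀ 0 + σ)).mpr ht
      have h3 := (algebraicIndependent_equiv (finSuccEquiv g)).mpr h2
      have h4 : ((fun o : Option (Fin g) => o.elim (S₀ 0 + σ) S') ∘ finSuccEquiv g) =
          (Fin.cons (S₀ 0 + σ) S' : Fin (g + 1) → Mer) := by
        ext j
        refine Fin.cases ?_ (fun j => ?_) j <;> simp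
      rw [h4] at h3
      exact h3

end Pool.Agent.AbPencil
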