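import Pool.Agent.Lib_MP_1209e6_tv.M1
import Pool.Agent.Lib_MP_1209e6_tw.C1

/-! PIECE M3: Newton's lemma for germs. -/

set_option autoImplicit false

open Filter Topology

namespace Pool.Agent.AbPencil

open Tw

private theorem M3_rep (a : Mer) (ha : Hol a) :
    ∃ (h : ℂ → ℂ) (hh : AnalyticAt ℂ h 0), gm h hh.meromorphicAt = a := by
  have h1 := rep_mero a
  have h2 : 0 ≤ meromorphicOrderAt (rep a) 0 := ha
  have h3 : AnalyticAt ℂ (toMeromorphicNFAt (rep a) 0) 0 :=
    h1.meromorphicOrderAt_nonneg_iff_analyticAt_toMeromorphicNFAt.1 h2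
  refine ⟨_, h3, ?_⟩
  have h4 := gm_rep a
  refine Eq.trans ?_ h4
  exact (gm_eq h1 h3.meromorphicAt h1.eq_nhdsNE_toMeromorphicNFAt).symm

private theorem M3_pos {h : ℂ → ℂ} (hh : AnalyticAt ℂ h 0) :
    0 < mo (gm h hh.meromorphicAt) ↔ h 0 = 0 := by
  rw [mo_gm, hh.meromorphicOrderAt_eq, ← hh.analyticOrderAt_ne_zero]
  cases h1 : analyticOrderAt h 0 with
  | top => simp
  | coe n => simp [Nat.pos_iff_ne_zero]

private theorem M3_hol {h : ℂ → ℂ} (hh : AnalyticAt ℂ h 0) : Hol (gm h hh.meromorphicAt) := by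
  unfold Hol
  rw [mo_gm, hh.meromorphicOrderAt_eq]
  cases h1 : analyticOrderAt h 0 with
  | top => simp
  | coe n => simp

private theorem M3_one_add {x : Mer} (hx : 0 < mo x) : mo (1 + x) = 0 := by
  apply le_antisymm
  · have h1 := mo_add (1 + x) (-x)
    rw [mo_neg, add_neg_cancel_right, mo_one] at h1
    rcases min_le_iff.1 h1 with h2 | h2
    · exact h2
    · exact absurd hx (not_lt.2 h2)
  · have h1 := mo_add 1 x
    rw [mo_one, min_eq_left hx.le] at h1
    exact h1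

/-- the implicit function theorem for germs -/
private theorem M3_ift {n : ℕ} (b : Fin (n + 2) → Mer) (hb : ∀ k, Hol (b k))
    (h0 : 0 < mo (b 0)) (h1 : b 1 = 1) :
    ∃ v : Mer, 0 < mo v ∧ ∑ k, b k * v ^ (k : ℕ) = 0 := by
  have hrep := fun k => M3_rep (b k) (hb k)
  choose β hβ hβb using hrep
  have hβ0 : β 0 0 = 0 := by
    rw [← M3_pos (hβ 0), hβb]
    exact h0
  have hβ1 : β 1 0 ≠ 0 := by
    rw [Ne, ← M3_pos (hβ 1), hβb, h1, mo_one]
    exact lt_irrefl _
  obtain ⟨V, hV, hV0, hsum⟩ := tw_ift 0 β hβ hβ0 hβ1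
  refine ⟨gm V hV.meromorphicAt, (M3_pos hV).2 hV0, ?_⟩
  have e1 : ∑ k, b k * gm V hV.meromorphicAt ^ (k : ℕ) =
      mkM (∑ k, (⟨β k, (hβ k).meromorphicAt⟩ : merA) * (⟨V, hV.meromorphicAt⟩ : merA) ^ (k : ℕ)) := by
    rw [map_sum]
    refine Finset.sum_congr rfl fun k _ => ?_
    rw [map_mul, map_pow, ← hβb k]
    rfl
  rw [e1, mkM_eq_zero, mem_nullI]
  have h2 := hsum.filter_mono (nhdsWithin_le_nhds (s := {0}ᶜ))
  filter_upwards [h2] with z hz
  have h3 : ((∑ k, (⟨β k, (hβ k).meromorphicAt⟩ : merA) *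
      (⟨V, hV.meromorphicAt⟩ : merA) ^ (k : ℕ) : merA) : ℂ → ℂ) z = ∑ k, β k z * V z ^ (k : ℕ) := by
    have h4 := map_sum ((Pi.evalAlgHom ℂ (fun _ : ℂ => ℂ) z).comp merA.val)
      (fun k => (⟨β k, (hβ k).meromorphicAt⟩ : merA) * (⟨V, hV.meromorphicAt⟩ : merA) ^ (k : ℕ))
      Finset.univ
    refine h4.trans (Finset.sum_congr rfl fun k _ => ?_)
    rw [map_mul, map_pow]
    rfl
  rw [h3, hz]

/-- Proof. Put `e = e₀ + f'(e₀) V`: `f(e) = f(e₀) + f'(e₀)² V + ∑_{k ≥ 2} c_k f'(e₀)^k V^k`, where the `c_k` (Taylor coefficients of `f` at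
`e₀`) are holomorphic. Divide by `f'(e₀)²`: coefficients `b 0 = f(e₀) / f'(e₀)²` (of positive order), `b 1 = 1`, `b k = c_k f'(e₀)^(k-2)`,
all holomorphic. `tw_ift` gives a holomorphic `V` with `V(0) = 0` and `∑ b k V^k = 0`. Then `f'(e) = f'(e₀) (1 + …)` is not zero, and
`V = - (b 0 + ∑_{k ≥ 2} b k V^k)` gives `mo V ≥ mo (b 0)` (`mo V ≥ 1`, and `mo (V^k) > mo V` for `k ≥ 2` unless `V = 0`). -/
theorem mer_newton (f : Polynomial Mer) (hf : ∀ i, Hol (f.coeff i)) (e₀ : Mer) (he : Hol e₀)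
    (hd : (Polynomial.derivative f).eval e₀ ≠ 0)
    (h : 0 < mo (f.eval e₀ / (Polynomial.derivative f).eval e₀ ^ 2)) :
    ∃ e : Mer, Hol e ∧ f.eval e = 0 ∧ (Polynomial.derivative f).eval e ≠ 0 ∧
      mo (f.eval e₀ / (Polynomial.derivative f).eval e₀) ≤ mo (e - e₀) := by
  classical
  obtain ⟨O, hO⟩ := exists_merO
  set φ : O →+* Mer := O.subtype with hφ
  have hφa : ∀ x : O, φ x = (x : Mer) := fun x => rfl
  have hHol : ∀ x : O, Hol (x : Mer) := fun x => (hO _).1 x.2
  -- the polynomial over `O`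
  obtain ⟨F, hF⟩ : ∃ F : Polynomial O, F.map φ = f := by
    rw [← Polynomial.mem_lifts, Polynomial.lifts_iff_coeff_lifts]
    intro i
    exact ⟨⟨f.coeff i, (hO _).2 (hf i)⟩, rfl⟩
  set x₀ : O := ⟨e₀, (hO _).2 he⟩ with hx₀
  have hev : ∀ x : O, f.eval (x : Mer) = ((F.eval x : O) : Mer) := by
    intro x
    rw [← hF]
    exact Polynomial.eval_map_apply φ x
  have hdev : ∀ x : O, (Polynomial.derivative f).eval (x : Mer) =
      (((Polynomial.derivative F).eval x : O) : Mer) := by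
    intro x
    rw [← hF, Polynomial.derivative_map]
    exact Polynomial.eval_map_apply φ x
  set D : O := (Polynomial.derivative F).eval x₀ with hD
  have hDe : (Polynomial.derivative f).eval e₀ = (D : Mer) := hdev x₀
  have hFe : f.eval e₀ = ((F.eval x₀ : O) : Mer) := hev x₀
  have hD0 : (D : Mer) ≠ 0 := by
    rw [← hDe]
    exact hd
  rw [hDe, hFe] at h
  set B : O := ⟨((F.eval x₀ : O) : Mer) / (D : Mer) ^ 2, (hO _).2 h.le⟩ with hB
  have hBD : F.eval x₀ = D ^ 2 * B := by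
    apply Subtype.ext
    change ((F.eval x₀ : O) : Mer) = (D : Mer) ^ 2 * (((F.eval x₀ : O) : Mer) / (D : Mer) ^ 2)
    field_simp
  set N := F.natDegree with hN
  set T := Polynomial.taylor x₀ F with hT
  set r : Fin N → O := fun k => T.coeff ((k : ℕ) + 2) * D ^ (k : ℕ) with hr
  -- the coefficients
  obtain ⟨v, hv, hvs⟩ := M3_ift (n := N) (Fin.cons (B : Mer) (Fin.cons 1 fun k => (r k : Mer)))
    (by
      intro k
      refine Fin.cases ?_ (fun k => ?_) k
      · exact hHol B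
      · refine Fin.cases ?_ (fun k => ?_) k
        · change Hol 1
          rw [Hol, mo_one]
        · exact hHol (r k)) h rfl
  set v' : O := ⟨v, (hO _).2 hv.le⟩ with hv'
  have hv'v : (v' : Mer) = v := rfl
  have hvsO : B + v' + ∑ k : Fin N, r k * v' ^ ((k : ℕ) + 2) = 0 := by
    apply Subtype.ext
    rw [Fin.sum_univ_succ, Fin.sum_univ_succ] at hvs
    simp only [Fin.cons_zero, Fin.cons_succ, Fin.val_zero, Fin.val_succ, pow_zero, mul_one,
      zero_add, pow_one, one_mul] at hvs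
    have h2 : ((∑ k : Fin N, r k * v' ^ ((k : ℕ) + 2) : O) : Mer) =
        ∑ k : Fin N, (r k : Mer) * v ^ ((k : ℕ) + 2) := by
      have h3 := map_sum φ (fun k : Fin N => r k * v' ^ ((k : ℕ) + 2)) Finset.univ
      refine h3.trans (Finset.sum_congr rfl fun k _ => ?_)
      rw [map_mul, map_pow]
      rfl
    change (B : Mer) + v + ((∑ k : Fin N, r k * v' ^ ((k : ℕ) + 2) : O) : Mer) = 0
    rw [h2, add_assoc]
    exact hvs
  -- the root
  have hroot : F.eval (D * v' + x₀) = 0 := by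
    rw [← Polynomial.taylor_eval]
    have h2 : (Polynomial.taylor x₀ F).natDegree < N + 2 := by
      rw [Polynomial.natDegree_taylor]
      omega
    rw [Polynomial.eval_eq_sum_range' h2, Finset.sum_range_succ', Finset.sum_range_succ',
      Polynomial.taylor_coeff_zero]
    simp only [zero_add, pow_zero, mul_one, pow_one]
    rw [Polynomial.taylor_coeff_one, ← hD, hBD]
    have h3 : ∑ k ∈ Finset.range N, (Polynomial.taylor x₀ F).coeff (k + 1 + 1) *
        (D * v') ^ (k + 1 + 1) = D ^ 2 * ∑ k : Fin N, r k * v' ^ ((k : ℕ) + 2) := by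
      rw [Finset.sum_range, Finset.mul_sum]
      refine Finset.sum_congr rfl fun k _ => ?_
      rw [hr]
      ring
    rw [h3]
    linear_combination D ^ 2 * hvsO
  have hq : ∃ q : O, (Polynomial.derivative F).eval (D * v' + x₀) = D * (1 + v' * q) := by
    obtain ⟨q, hq⟩ := Polynomial.sub_dvd_eval_sub (D * v' + x₀) x₀ (Polynomial.derivative F)
    refine ⟨q, ?_⟩
    rw [← hD] at hq
    linear_combination hq
  obtain ⟨q, hq⟩ := hq
  have hmul : ∀ q : O, 0 < mo (v * (q : Mer)) := by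
    intro q
    rw [mo_mul]
    calc (0 : WithTop ℤ) < mo v := hv
      _ = mo v + 0 := (add_zero _).symm
      _ ≤ mo v + mo (q : Mer) := by
        gcongr
        exact hHol q
  refine ⟨(D : Mer) * v + e₀, ?_, ?_, ?_, ?_⟩
  · exact hHol (D * v' + x₀)
  · have h2 := hev (D * v' + x₀)
    rw [hroot] at h2
    exact h2
  · have h2 := hdev (D * v' + x₀)
    rw [hq] at h2
    have h3 : (Polynomial.derivative f).eval ((D : Mer) * v + e₀) = (D : Mer) * (1 + v * (q : Mer)) := h2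
    rw [h3]
    refine mul_ne_zero hD0 ?_
    intro h4
    have h5 := M3_one_add (hmul q)
    rw [h4, mo_eq_top.2 rfl] at h5
    exact WithTop.top_ne_zero h5
  · -- the order
    rw [add_sub_cancel_right, hDe, hFe, mo_mul]
    have h2 : ((F.eval x₀ : O) : Mer) / (D : Mer) = (D : Mer) * (B : Mer) := by
      rw [hBD]
      change (D : Mer) ^ 2 * (B : Mer) / (D : Mer) = _
      field_simp
    rw [h2, mo_mul]
    gcongr
    -- `v (1 + v q) = - B`
    obtain ⟨q', hq'⟩ : ∃ q' : O, v' * (1 + v' * q') = -B := by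
      refine ⟨∑ k : Fin N, r k * v' ^ (k : ℕ), ?_⟩
      have h3 : ∑ k : Fin N, r k * v' ^ ((k : ℕ) + 2) = v' ^ 2 * ∑ k : Fin N, r k * v' ^ (k : ℕ) := by
        rw [Finset.mul_sum]
        refine Finset.sum_congr rfl fun k _ => ?_
        ring
      rw [h3] at hvsO
      linear_combination hvsO
    have h3 : v * (1 + v * (q' : Mer)) = -(B : Mer) := congrArg Subtype.val hq'
    have h4 := mo_mul v (1 + v * (q' : Mer))
    rw [M3_one_add (hmul q'), add_zero, h3, mo_neg] at h4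
    exact h4.le

end Pool.Agent.AbPencil
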